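import Mathlib

/-!
MP_913ab3_an: the key inequality.
-/

namespace Pool.Agent.R906.CS

open Real Set

noncomputable section

/-- `1 / (e^x + 1)` -/
def hh (x : ℝ) : ℝ := (1 - sinh x / (1 + cosh x)) / 2

lemma one_add_cosh_pos (x : ℝ) : 0 < 1 + cosh x := by linarith [one_le_cosh x]

lemma hh_eq (x : ℝ) : hh x = 1 / (exp x + 1) := by
  have h1 := one_add_cosh_pos x
  have h2 : 0 < exp x + 1 := by positivity
  have h3 : exp x = cosh x + sinh x := (cosh_add_sinh x).symm
  rw [hh, eq_div_iff h2.ne', h3]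
  field_simp
  nlinarith [cosh_sq x]

lemma hh_pos (x : ℝ) : 0 < hh x := by rw [hh_eq]; positivity

lemma dhh (x : ℝ) : HasDerivAt hh (-(1 / (2 * (1 + cosh x)))) x := by
  have h1 := one_add_cosh_pos x
  have h2 : HasDerivAt (fun x => 1 + cosh x) (sinh x) x := by
    simpa using (hasDerivAt_cosh x).const_add 1
  have h3 := (((hasDerivAt_sinh x).div h2 h1.ne').const_sub 1).div_const 2
  refine h3.congr_deriv ?_
  field_simp
  nlinarith [cosh_sq x]

/-- the sum formula -/
lemma hh_add (x y : ℝ) : hh (x + y) + hh (x - y) = 1 - sinh x / (cosh x + cosh y) := by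
  have h1 := one_add_cosh_pos (x + y)
  have h2 := one_add_cosh_pos (x - y)
  have h3 : 0 < cosh x + cosh y := by linarith [cosh_pos x, cosh_pos y]
  have key : sinh (x + y) / (1 + cosh (x + y)) + sinh (x - y) / (1 + cosh (x - y)) =
      2 * sinh x / (cosh x + cosh y) := by
    rw [div_add_div _ _ h1.ne' h2.ne', div_eq_div_iff (by positivity) h3.ne']
    rw [sinh_add, sinh_sub, cosh_add, cosh_sub]
    have A := cosh_sq x
    have C := cosh_sq y
    linear_combination (-2 * sinh x * (cosh y ^ 2 - 1)) * A +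
      (2 * cosh x * sinh x * (cosh x + cosh y) - 2 * sinh x ^ 3) * C
  unfold hh
  have h4 : 2 * sinh x / (cosh x + cosh y) = 2 * (sinh x / (cosh x + cosh y)) := by ring
  rw [h4] at key
  linarith

/-- the difference formula -/
lemma hh_sub (x y : ℝ) : hh (x - y) - hh (x + y) = sinh y / (cosh x + cosh y) := by
  have h1 := one_add_cosh_pos (x + y)
  have h2 := one_add_cosh_pos (x - y)
  have h3 : 0 < cosh x + cosh y := by linarith [cosh_pos x, cosh_pos y]
  have key : sinh (x + y) / (1 + cosh (x + y)) - sinh (x - y) / (1 + cosh (x - y)) =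
      2 * sinh y / (cosh x + cosh y) := by
    rw [div_sub_div _ _ h1.ne' h2.ne', div_eq_div_iff (by positivity) h3.ne']
    rw [sinh_add, sinh_sub, cosh_add, cosh_sub]
    have A := cosh_sq x
    have C := cosh_sq y
    linear_combination (2 * cosh y * sinh y * (cosh x + cosh y) - 2 * sinh y * (cosh y ^ 2 - 1)) * A +
      (-2 * sinh y * sinh x ^ 2) * C
  unfold hh
  have h4 : 2 * sinh y / (cosh x + cosh y) = 2 * (sinh y / (cosh x + cosh y)) := by ring
  rw [h4] at key
  linarith

/-! ### Monotonicity of `sinh t / t` and `t coth t` -/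

lemma sinh_lt_mul_cosh {t : ℝ} (ht : 0 < t) : sinh t < t * cosh t := by
  have hmono : StrictMonoOn (fun t => t * cosh t - sinh t) (Ici 0) := by
    apply strictMonoOn_of_deriv_pos (convex_Ici 0) (by fun_prop)
    intro x hx
    rw [interior_Ici] at hx
    have h1 : HasDerivAt (fun t => t * cosh t - sinh t) (1 * cosh x + x * sinh x - cosh x) x :=
      ((hasDerivAt_id x).mul (hasDerivAt_cosh x)).sub (hasDerivAt_sinh x)
    rw [h1.deriv]
    have : 0 < sinh x := sinh_pos_iff.mpr hx
    have hx' : 0 < x := hx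
    nlinarith [mul_pos hx' this]
  have := hmono (mem_Ici.mpr le_rfl) (mem_Ici.mpr ht.le) ht
  simp at this
  linarith

lemma s_mono : MonotoneOn (fun t => sinh t / t) (Ioi 0) := by
  apply monotoneOn_of_deriv_nonneg (convex_Ioi 0)
  · exact continuous_sinh.continuousOn.div continuousOn_id (fun x hx => (ne_of_gt hx))
  · intro x hx
    rw [interior_Ioi] at hx
    exact (((hasDerivAt_sinh x).div (hasDerivAt_id x) (ne_of_gt hx)).differentiableAt).differentiableWithinAt
  · intro x hx
    rw [interior_Ioi] at hx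
    have h1 := (hasDerivAt_sinh x).div (hasDerivAt_id x) (ne_of_gt hx)
    have h2 : deriv (fun t => sinh t / t) x = (cosh x * x - sinh x * 1) / x ^ 2 := h1.deriv
    rw [h2]
    apply div_nonneg _ (by positivity)
    have := sinh_lt_mul_cosh hx
    linarith

lemma b_mono : MonotoneOn (fun t => t * cosh t / sinh t) (Ioi 0) := by
  have hd : ∀ x ∈ Ioi (0 : ℝ), HasDerivAt (fun t => t * cosh t / sinh t)
      (((1 * cosh x + x * sinh x) * sinh x - x * cosh x * cosh x) / sinh x ^ 2) x := by
    intro x hx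
    have hs : 0 < sinh x := sinh_pos_iff.mpr hx
    exact ((hasDerivAt_id x).mul (hasDerivAt_cosh x)).div (hasDerivAt_sinh x) hs.ne'
  apply monotoneOn_of_deriv_nonneg (convex_Ioi 0)
  · exact fun x hx => (hd x hx).continuousAt.continuousWithinAt
  · intro x hx
    rw [interior_Ioi] at hx
    exact (hd x hx).differentiableAt.differentiableWithinAt
  · intro x hx
    rw [interior_Ioi] at hx
    rw [(hd x hx).deriv]
    apply div_nonneg _ (by positivity)
    have hx' : 0 < x := hx
    have h1 : x < sinh x := self_lt_sinh_iff.mpr hx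
    have h2 := one_le_cosh x
    have h3 : (1 * cosh x + x * sinh x) * sinh x - x * cosh x * cosh x = cosh x * sinh x - x := by
      nlinarith [cosh_sq x]
    rw [h3]
    nlinarith

/-- `C ≤ 2 s² - s` -/
lemma four_bound {y : ℝ} (hy : 0 < y) : y ^ 2 * cosh y + y * sinh y ≤ 2 * sinh y ^ 2 := by
  have e1 : 2 * sinh y ^ 2 = cosh (2 * y) - 1 := by
    rw [cosh_two_mul]; nlinarith [cosh_sq y]
  rw [e1]
  -- series
  have hc := hasSum_cosh (2 * y)
  have hc1 : HasSum (fun n : ℕ => (2 * y) ^ (2 * (n + 1)) / ((2 * (n + 1)).factorial : ℝ)) (cosh (2 * y) - 1) := by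
    have := (hasSum_nat_add_iff' (f := fun n : ℕ => (2 * y) ^ (2 * n) / ((2 * n).factorial : ℝ)) 1).mpr hc
    simpa using this
  have hc2 : HasSum (fun n : ℕ => y ^ 2 * (y ^ (2 * n) / ((2 * n).factorial : ℝ))) (y ^ 2 * cosh y) :=
    (hasSum_cosh y).mul_left _
  have hs : HasSum (fun n : ℕ => y * (y ^ (2 * n + 1) / ((2 * n + 1).factorial : ℝ))) (y * sinh y) :=
    (hasSum_sinh y).mul_left _
  refine hasSum_le (fun n => ?_) (hc2.add hs) hc1
  have hf1 : ((2 * n + 1).factorial : ℝ) = (2 * n + 1) * ((2 * n).factorial : ℝ) := by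
    rw [Nat.factorial_succ]; push_cast; ring
  have hf2 : ((2 * (n + 1)).factorial : ℝ) = (2 * n + 2) * ((2 * n + 1) * ((2 * n).factorial : ℝ)) := by
    have : 2 * (n + 1) = (2 * n + 1) + 1 := by ring
    rw [this, Nat.factorial_succ, Nat.factorial_succ]; push_cast; ring
  have hf0 : (0 : ℝ) < ((2 * n).factorial : ℝ) := by positivity
  rw [hf1, hf2]
  have h4 : (2 * ((n : ℝ) + 1)) ≤ 2 ^ (n + 1) := by
    have h5 : ∀ m : ℕ, 2 * ((m : ℝ) + 1) ≤ 2 ^ (m + 1) := by
      intro m
      induction m with
      | zero => norm_num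
      | succ m ih =>
        rw [pow_succ]
        push_cast
        have : (1 : ℝ) ≤ 2 ^ (m + 1 : ℕ) / 2 := by
          rw [pow_succ]
          have : (1 : ℝ) ≤ 2 ^ m := one_le_pow₀ (by norm_num)
          linarith
        push_cast at ih
        nlinarith
    exact h5 n
  have h6 : (4 : ℝ) * ((n : ℝ) + 1) ^ 2 ≤ 4 ^ (n + 1) := by
    have h7 : (0 : ℝ) ≤ 2 * ((n : ℝ) + 1) := by positivity
    have h8 := pow_le_pow_left₀ h7 h4 2
    have h9 : ((2 : ℝ) ^ (n + 1)) ^ 2 = 4 ^ (n + 1) := by
      rw [← pow_mul, mul_comm, pow_mul]; norm_num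
    rw [h9] at h8
    nlinarith
  have hy2 : 0 < y ^ (2 * n + 2) := by positivity
  have e2 : (2 * y) ^ (2 * (n + 1)) = 4 ^ (n + 1) * y ^ (2 * n + 2) := by
    rw [mul_pow, pow_mul]
    norm_num
    ring
  have e3 : y ^ 2 * (y ^ (2 * n) / ((2 * n).factorial : ℝ)) +
      y * (y ^ (2 * n + 1) / ((2 * n + 1) * ((2 * n).factorial : ℝ))) =
      (4 * ((n : ℝ) + 1) ^ 2) * y ^ (2 * n + 2) / ((2 * n + 2) * ((2 * n + 1) * ((2 * n).factorial : ℝ))) := by
    field_simp
    ring
  rw [e2, e3]
  gcongr

/-! ### The key inequality -/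

lemma psi_pos {x y : ℝ} (hy : 0 < y) (hxy : y ≤ x) :
    0 < (1 + exp (-x)) ^ 2 / 2 - (sinh y / y) * (x - (y * cosh y / sinh y) * (1 + exp (-x))) +
      (x * cosh x - (y * cosh y / sinh y) * sinh x) / 2 := by
  have hx : 0 < x := lt_of_lt_of_le hy hxy
  have hu : 0 < sinh x := sinh_pos_iff.mpr hx
  have hv : 0 < sinh y := sinh_pos_iff.mpr hy
  set b := y * cosh y / sinh y with hb
  set s := sinh y / y with hs
  set e := exp (-x) with he
  have he0 : 0 < e := exp_pos _
  have hs0 : 0 < s := by positivity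
  have hb1 : 1 < b := by
    rw [hb, lt_div_iff₀ hv, one_mul]
    exact sinh_lt_mul_cosh hy
  have hsx : s ≤ sinh x / x := s_mono hy hx hxy
  have hbx : b ≤ x * cosh x / sinh x := b_mono hy hx hxy
  have hbx' : b * sinh x ≤ x * cosh x := by rwa [le_div_iff₀ hu] at hbx
  have hch : sinh x < cosh x := sinh_lt_cosh x
  set T := x - b * (1 + e) with hT
  rcases le_or_gt T 0 with h | h
  · have h1 : 0 < (1 + e) ^ 2 / 2 := by positivity
    have h2 : 0 ≤ -(s * T) := by nlinarith
    linarith
  · have h1 : T ≤ x - b := by rw [hT]; nlinarith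
    have h2 : sinh x * T ≤ x * cosh x - b * sinh x := by
      have h3 : sinh x * T ≤ sinh x * (x - b) := by gcongr
      have h4 : sinh x * x ≤ x * cosh x := by nlinarith
      nlinarith
    have h3 : s * T ≤ sinh x / x * T := by gcongr
    have h4 : 1 / 2 < (1 + e) ^ 2 / 2 := by nlinarith
    have h5 : 0 ≤ 1 / 2 - sinh x / x * T + sinh x * T / 2 := by
      have h6 : 1 / 2 - sinh x / x * T + sinh x * T / 2 =
          1 / 2 + (sinh x / x) * T * (x - 2) / 2 := by
        field_simp
        ring
      rw [h6]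
      rcases le_or_gt 2 x with h7 | h7
      · have : 0 ≤ (sinh x / x) * T * (x - 2) := by
          have : 0 ≤ x - 2 := by linarith
          positivity
        linarith
      · have h8 : sinh x / x < 4 := by
          rw [div_lt_iff₀ hx]
          have h9 := sinh_lt_mul_cosh hx
          have h10 : cosh x < cosh 2 := by
            rw [cosh_lt_cosh, abs_of_pos hx, abs_of_pos (by norm_num)]
            exact h7
          have h11 : cosh 2 < 4 := by
            rw [cosh_eq]
            have h12 : exp 2 < 7.4 := by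
              have : exp 2 = exp 1 * exp 1 := by rw [← exp_add]; norm_num
              rw [this]
              have := exp_one_lt_d9
              have h0 : 0 < exp 1 := exp_pos 1
              nlinarith
            have h13 : exp (-2) < 0.5 := by
              rw [exp_neg, inv_lt_comm₀ (exp_pos 2) (by norm_num)]
              have : exp 2 = exp 1 * exp 1 := by rw [← exp_add]; norm_num
              rw [this]
              have := exp_one_gt_d9
              nlinarith
            linarith
          nlinarith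
        have h9 : T ≤ x - 1 := by linarith
        have h10 : 0 < x - 1 := lt_of_lt_of_le h h9
        have h11 : 0 < sinh x / x := by positivity
        have h12 : (sinh x / x) * T * (2 - x) ≤ 4 * ((x - 1) * (2 - x)) := by
          have h13 : (sinh x / x) * T ≤ 4 * (x - 1) := by
            apply mul_le_mul h8.le h9 h.le (by norm_num)
          have h14 : 0 ≤ 2 - x := by linarith
          calc (sinh x / x) * T * (2 - x) ≤ 4 * (x - 1) * (2 - x) := by gcongr
            _ = _ := by ring
        nlinarith [sq_nonneg (2 * x - 3)]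
    nlinarith

/-- the terms of the derivative -/
def EE (x y : ℝ) : ℝ := y * cosh y / sinh y * hh x - x / (2 * (1 + cosh x)) +
  x / 2 * (sinh y / y) / (cosh x + cosh y) - 1 / 2 * (1 - sinh x / (cosh x + cosh y))

lemma EE_ident {x y : ℝ} (hy : 0 < y) :
    2 * EE x y * (1 + cosh x) * (cosh x + cosh y) =
      (y * cosh y / sinh y - 1) * ((1 + exp (-x)) ^ 2 / 2 +
        (sinh y / y) * ((y * cosh y / sinh y) * (1 + exp (-x)) - x)) +
      (sinh y / y - 1) * (x * cosh x - (y * cosh y / sinh y) * sinh x) := by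
  have hv : 0 < sinh y := sinh_pos_iff.mpr hy
  have h1 := one_add_cosh_pos x
  have h3 : 0 < cosh x + cosh y := by linarith [cosh_pos x, cosh_pos y]
  set b := y * cosh y / sinh y with hb
  set s := sinh y / y with hs
  have hC : cosh y = s * b := by rw [hs, hb]; field_simp
  have he : exp (-x) = cosh x - sinh x := by rw [cosh_sub_sinh]
  rw [EE, hh, he]
  have e1 : 2 * (b * ((1 - sinh x / (1 + cosh x)) / 2) - x / (2 * (1 + cosh x)) +
      x / 2 * s / (cosh x + cosh y) - 1 / 2 * (1 - sinh x / (cosh x + cosh y))) * (1 + cosh x) *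
      (cosh x + cosh y) = b * (1 + cosh x - sinh x) * (cosh x + cosh y) - x * (cosh x + cosh y) +
      x * s * (1 + cosh x) - (1 + cosh x) * (cosh x + cosh y) + sinh x * (1 + cosh x) := by
    field_simp
    ring
  rw [e1, hC]
  have A := cosh_sq x
  linear_combination ((b - 1) / 2) * A

lemma s_gt {y : ℝ} (hy : 0 < y) : 1 < sinh y / y := by
  rw [lt_div_iff₀ hy, one_mul]; exact self_lt_sinh_iff.mpr hy

lemma b_gt {y : ℝ} (hy : 0 < y) : 1 < y * cosh y / sinh y := by
  rw [lt_div_iff₀ (sinh_pos_iff.mpr hy), one_mul]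
  exact sinh_lt_mul_cosh hy

lemma EE_nonneg {x y : ℝ} (hy : 0 < y) (hxy : y ≤ x) : 0 ≤ EE x y := by
  have hx : 0 < x := lt_of_lt_of_le hy hxy
  have hu : 0 < sinh x := sinh_pos_iff.mpr hx
  have hv : 0 < sinh y := sinh_pos_iff.mpr hy
  have h1 := one_add_cosh_pos x
  have h3 : 0 < cosh x + cosh y := by linarith [cosh_pos x, cosh_pos y]
  have hid := EE_ident (x := x) hy
  have hpsi := psi_pos hy hxy
  have hb1 := b_gt hy
  have hs1 := s_gt hy
  have hbx : y * cosh y / sinh y ≤ x * cosh x / sinh x := b_mono hy hx hxy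
  have h4 := four_bound hy
  set b := y * cosh y / sinh y with hb
  set s := sinh y / y with hs
  have hbx' : b * sinh x ≤ x * cosh x := by rwa [le_div_iff₀ hu] at hbx
  have hC : cosh y = s * b := by rw [hs, hb]; field_simp
  -- `b + 1 ≤ 2 s`
  have h5 : b + 1 ≤ 2 * s := by
    have h6 : s * b + s ≤ 2 * s ^ 2 := by
      rw [← hC, hs]
      have h7 : cosh y + sinh y / y = (y ^ 2 * cosh y + y * sinh y) / y ^ 2 := by field_simp
      have h8 : 2 * (sinh y / y) ^ 2 = (2 * sinh y ^ 2) / y ^ 2 := by field_simp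
      rw [h7, h8]
      gcongr
    have hs0 : 0 < s := by linarith
    nlinarith
  have h6 : 0 ≤ 2 * EE x y * (1 + cosh x) * (cosh x + cosh y) := by
    rw [hid]
    have h7 : (b - 1) / 2 * (x * cosh x - b * sinh x) ≤ (s - 1) * (x * cosh x - b * sinh x) := by
      apply mul_le_mul_of_nonneg_right _ (by linarith)
      linarith
    have h8 : 0 < (b - 1) * ((1 + exp (-x)) ^ 2 / 2 - s * (x - b * (1 + exp (-x))) +
        (x * cosh x - b * sinh x) / 2) := mul_pos (by linarith) hpsi
    nlinarith
  by_contra hcon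
  push Not at hcon
  have : 2 * EE x y * (1 + cosh x) * (cosh x + cosh y) < 0 := by
    have h9 : 0 < (1 + cosh x) * (cosh x + cosh y) := by positivity
    nlinarith
  linarith

/-- the value for `x = y` -/
lemma EE_diag {y : ℝ} (hy : 0 < y) :
    EE y y = (y * cosh y / sinh y - 1) * exp (-y) / (2 * cosh y) := by
  have hv : 0 < sinh y := sinh_pos_iff.mpr hy
  have h1 := one_add_cosh_pos y
  have hc := cosh_pos y
  have he : exp (-y) = cosh y - sinh y := by rw [cosh_sub_sinh]
  rw [EE, hh, he]
  field_simp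
  have A := cosh_sq y
  ring_nf

end

end Pool.Agent.R906.CS
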