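import Pool.Agent.R906.CSIneq

/-!
MP_913ab3_an: the alternating hyperbolic cosecant series is increasing.
-/

namespace Pool.Agent.R906.CS

open Real Set Filter Topology

noncomputable section

lemma exp_lt_one_iff {x : ℝ} : exp x < 1 ↔ x < 0 := by
  rw [← exp_zero, exp_lt_exp]

/-- the term of the double series -/
def ff (q : ℝ) (k i : ℕ) : ℝ := (-1) ^ k * q ^ ((k + 1) * (2 * i + 1))

lemma ff_summable {q : ℝ} (h0 : 0 < q) (h1 : q < 1) : Summable (Function.uncurry (ff q)) := by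
  have hg : Summable (fun p : ℕ × ℕ => q ^ p.1 * q ^ p.2) :=
    (summable_geometric_of_lt_one h0.le h1).mul_of_nonneg (summable_geometric_of_lt_one h0.le h1)
      (fun n => pow_nonneg h0.le n) (fun n => pow_nonneg h0.le n)
  refine Summable.of_norm_bounded hg ?_
  rintro ⟨k, i⟩
  simp only [Function.uncurry, ff, norm_mul, norm_pow, norm_neg, norm_one, one_pow, one_mul,
    Real.norm_of_nonneg h0.le]
  rw [← pow_add]
  apply pow_le_pow_of_le_one h0.le h1.le
  nlinarith [Nat.zero_le (k * i)]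

lemma ff_sum_k {q : ℝ} (h0 : 0 < q) (h1 : q < 1) (i : ℕ) :
    ∑' k, ff q k i = q ^ (2 * i + 1) / (1 + q ^ (2 * i + 1)) := by
  set r := q ^ (2 * i + 1) with hr
  have hr0 : 0 < r := by positivity
  have hr1 : r < 1 := pow_lt_one₀ h0.le h1 (by omega)
  have h2 : ∀ k, ff q k i = r * (-r) ^ k := by
    intro k
    rw [ff, mul_comm (k + 1), pow_mul, ← hr, neg_pow r, pow_succ]
    ring
  simp only [h2]
  rw [tsum_mul_left, tsum_geometric_of_norm_lt_one]
  · rw [sub_neg_eq_add, div_eq_mul_inv]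
  · rw [norm_neg, Real.norm_of_nonneg hr0.le]; exact hr1

lemma ff_sum_i {q : ℝ} (h0 : 0 < q) (h1 : q < 1) (k : ℕ) :
    ∑' i, ff q k i = (-1) ^ k * (q ^ (k + 1) / (1 - (q ^ (k + 1)) ^ 2)) := by
  set t := q ^ (k + 1) with ht
  have ht0 : 0 < t := by positivity
  have ht1 : t < 1 := pow_lt_one₀ h0.le h1 (by omega)
  have h2 : ∀ i, ff q k i = ((-1) ^ k * t) * (t ^ 2) ^ i := by
    intro i
    rw [ff, pow_mul, ← ht, pow_succ, pow_mul]
    ring
  simp only [h2]
  rw [tsum_mul_left, tsum_geometric_of_norm_lt_one]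
  · rw [div_eq_mul_inv]; ring
  · rw [Real.norm_of_nonneg (by positivity)]
    exact pow_lt_one₀ ht0.le ht1 (by norm_num)

lemma hh_q (y : ℝ) (i : ℕ) : hh ((2 * i + 1) * y) =
    exp (-y) ^ (2 * i + 1) / (1 + exp (-y) ^ (2 * i + 1)) := by
  rw [hh_eq, ← exp_nat_mul]
  have h1 : ((2 * i + 1 : ℕ) : ℝ) * -y = -((2 * i + 1) * y) := by push_cast; ring
  rw [h1, exp_neg]
  have := exp_pos ((2 * i + 1) * y)
  field_simp

lemma csch_q {y : ℝ} (hy : 0 < y) (k : ℕ) : 1 / sinh ((k + 1) * y) =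
    2 * (exp (-y) ^ (k + 1) / (1 - (exp (-y) ^ (k + 1)) ^ 2)) := by
  have h1 : exp (-y) ^ (k + 1) = exp (-((k + 1) * y)) := by
    rw [← exp_nat_mul]; congr 1; push_cast; ring
  rw [h1]
  set x := ((k : ℝ) + 1) * y with hx
  have hx0 : 0 < x := by positivity
  have h2 : 0 < exp (-x) := exp_pos _
  have h3 : exp (-x) < 1 := exp_lt_one_iff.mpr (by linarith)
  have h4 : sinh x = (1 - exp (-x) ^ 2) / (2 * exp (-x)) := by
    rw [sinh_eq]
    have h5 : exp x = (exp (-x))⁻¹ := by rw [exp_neg, inv_inv]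
    rw [h5]
    field_simp
  have h6 : 1 - exp (-x) ^ 2 ≠ 0 := by nlinarith
  rw [h4]
  field_simp

/-- the series in terms of `hh` -/
lemma series_eq {y : ℝ} (hy : 0 < y) :
    ∑' k : ℕ, (-1 : ℝ) ^ k * (sinh y / sinh ((k + 1) * y)) =
      2 * sinh y * ∑' i : ℕ, hh ((2 * i + 1) * y) := by
  set q := exp (-y) with hq
  have h0 : 0 < q := exp_pos _
  have h1 : q < 1 := exp_lt_one_iff.mpr (by linarith)
  have e1 : ∀ k : ℕ, (-1 : ℝ) ^ k * (sinh y / sinh ((k + 1) * y)) =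
      2 * sinh y * ∑' i, ff q k i := by
    intro k
    rw [ff_sum_i h0 h1, div_eq_mul_one_div, csch_q hy]
    ring
  have e2 : ∀ i : ℕ, hh ((2 * i + 1) * y) = ∑' k, ff q k i := by
    intro i
    rw [ff_sum_k h0 h1, hh_q]
  simp only [e1, e2]
  rw [tsum_mul_left, (ff_summable h0 h1).tsum_comm]

lemma series_summable {y : ℝ} (hy : 0 < y) :
    Summable fun k : ℕ => (-1 : ℝ) ^ k * (sinh y / sinh ((k + 1) * y)) := by
  set q := exp (-y) with hq
  have h0 : 0 < q := exp_pos _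
  have h1 : q < 1 := exp_lt_one_iff.mpr (by linarith)
  have e1 : ∀ k : ℕ, (-1 : ℝ) ^ k * (sinh y / sinh ((k + 1) * y)) =
      2 * sinh y * ∑' i, ff q k i := by
    intro k
    rw [ff_sum_i h0 h1, div_eq_mul_one_div, csch_q hy]
    ring
  simp only [e1]
  exact (ff_summable h0 h1).prod.mul_left _

lemma hh_summable {y : ℝ} (hy : 0 < y) : Summable fun i : ℕ => hh ((2 * i + 1) * y) := by
  set q := exp (-y) with hq
  have h0 : 0 < q := exp_pos _
  have h1 : q < 1 := exp_lt_one_iff.mpr (by linarith)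
  have e2 : ∀ i : ℕ, hh ((2 * i + 1) * y) = ∑' k, ff q k i := by
    intro i
    rw [ff_sum_k h0 h1, hh_q]
  simp only [e2]
  exact (ff_summable h0 h1).prod_symm.prod

/-! ### The derivative of the partial sums -/

def SN (N : ℕ) (y : ℝ) : ℝ := 2 * sinh y * ∑ i ∈ Finset.range N, hh ((2 * i + 1) * y)

def DN (N : ℕ) (y : ℝ) : ℝ := 2 * cosh y * ∑ i ∈ Finset.range N, hh ((2 * i + 1) * y) +
  2 * sinh y * ∑ i ∈ Finset.range N, (2 * i + 1) * (-(1 / (2 * (1 + cosh ((2 * i + 1) * y)))))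

lemma dSN (N : ℕ) (y : ℝ) : HasDerivAt (SN N) (DN N y) y := by
  have h1 : HasDerivAt (fun y => ∑ i ∈ Finset.range N, hh ((2 * i + 1) * y))
      (∑ i ∈ Finset.range N, (2 * (i : ℝ) + 1) * (-(1 / (2 * (1 + cosh ((2 * i + 1) * y)))))) y := by
    refine HasDerivAt.fun_sum fun i _ => ?_
    have h2 : HasDerivAt (fun y : ℝ => (2 * (i : ℝ) + 1) * y) (2 * (i : ℝ) + 1) y := by
      simpa using (hasDerivAt_id y).const_mul (2 * (i : ℝ) + 1)
    exact ((dhh ((2 * i + 1) * y)).comp y h2).congr_deriv (mul_comm _ _)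
  exact ((hasDerivAt_sinh y).const_mul 2).mul h1

lemma DN_eq (N : ℕ) {y : ℝ} (hy : 0 < y) : DN N y =
    2 * (sinh y / y) * (∑ i ∈ Finset.range N, EE ((2 * i + 1) * y) y + N * hh (2 * N * y)) := by
  have hv : 0 < sinh y := sinh_pos_iff.mpr hy
  induction N with
  | zero => simp [DN]
  | succ N ih =>
    have h1 : DN (N + 1) y = DN N y + (2 * cosh y * hh ((2 * N + 1) * y) +
        2 * sinh y * ((2 * N + 1) * (-(1 / (2 * (1 + cosh ((2 * N + 1) * y))))))) := by
      simp only [DN, Finset.sum_range_succ]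
      ring
    rw [h1, ih, Finset.sum_range_succ]
    set x := (2 * (N : ℝ) + 1) * y with hx
    have e1 : 2 * (N : ℝ) * y = x - y := by rw [hx]; ring
    have e2 : 2 * ((N + 1 : ℕ) : ℝ) * y = x + y := by rw [hx]; push_cast; ring
    rw [e1, e2]
    have h3 : 0 < cosh x + cosh y := by linarith [cosh_pos x, cosh_pos y]
    have e3 : EE x y = y * cosh y / sinh y * hh x - x / (2 * (1 + cosh x)) -
        ((N : ℝ) + 1) * hh (x + y) + N * hh (x - y) := by
      rw [EE]
      have f1 := hh_add x y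
      have f2 := hh_sub x y
      have f3 : x / 2 * (sinh y / y) / (cosh x + cosh y) =
          ((2 * (N : ℝ) + 1) / 2) * (sinh y / (cosh x + cosh y)) := by
        rw [hx]; field_simp
      rw [f3, ← f2, ← f1]
      ring
    rw [e3]
    have h4 := one_add_cosh_pos x
    push_cast
    have e4 : 2 * (sinh y / y) * (y * cosh y / sinh y * hh x) = 2 * cosh y * hh x := by
      field_simp
    have e5 : 2 * (sinh y / y) * (x / (2 * (1 + cosh x))) =
        2 * sinh y * ((2 * N + 1) * (1 / (2 * (1 + cosh x)))) := by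
      rw [hx]; field_simp
    linear_combination -e4 + e5

lemma DN_ge {N : ℕ} (hN : 1 ≤ N) {y : ℝ} (hy : 0 < y) :
    (1 - (y * cosh y / sinh y)⁻¹) * exp (-y) ≤ DN N y := by
  have hv : 0 < sinh y := sinh_pos_iff.mpr hy
  rw [DN_eq N hy]
  have h1 : EE y y ≤ ∑ i ∈ Finset.range N, EE ((2 * i + 1) * y) y := by
    have h2 : EE y y = EE ((2 * ((0 : ℕ) : ℝ) + 1) * y) y := by norm_num
    rw [h2]
    refine Finset.single_le_sum (f := fun i : ℕ => EE ((2 * (i : ℝ) + 1) * y) y) (fun i _ => ?_)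
      (Finset.mem_range.mpr (by omega))
    apply EE_nonneg hy
    have : (0 : ℝ) ≤ i := Nat.cast_nonneg i
    nlinarith
  have h3 : 0 ≤ (N : ℝ) * hh (2 * N * y) := mul_nonneg (Nat.cast_nonneg N) (hh_pos _).le
  have h4 : (1 - (y * cosh y / sinh y)⁻¹) * exp (-y) = 2 * (sinh y / y) * EE y y := by
    rw [EE_diag hy]
    have := cosh_pos y
    field_simp
  rw [h4]
  have h5 : 0 < 2 * (sinh y / y) := by positivity
  apply mul_le_mul_of_nonneg_left _ h5.le
  linarith

/-- the function of `y` -/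
def FF (y : ℝ) : ℝ := ∑' k : ℕ, (-1 : ℝ) ^ k * (sinh y / sinh ((k + 1) * y))

lemma SN_tendsto {y : ℝ} (hy : 0 < y) : Tendsto (fun N => SN N y) atTop (𝓝 (FF y)) := by
  rw [FF, series_eq hy]
  exact (hh_summable hy).hasSum.tendsto_sum_nat.const_mul _

lemma FF_nonneg {y : ℝ} (hy : 0 < y) : 0 ≤ FF y := by
  rw [FF, series_eq hy]
  have hv : 0 < sinh y := sinh_pos_iff.mpr hy
  have : 0 ≤ ∑' i : ℕ, hh ((2 * i + 1) * y) := tsum_nonneg fun i => (hh_pos _).le
  positivity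

theorem FF_lt {y1 y2 : ℝ} (h1 : 0 < y1) (h12 : y1 < y2) : FF y1 < FF y2 := by
  set c := (1 - (y1 * cosh y1 / sinh y1)⁻¹) * exp (-y2) with hc
  have hb := b_gt h1
  have hc0 : 0 < c := by
    have : (y1 * cosh y1 / sinh y1)⁻¹ < 1 := inv_lt_one_of_one_lt₀ hb
    have h2 : 0 < 1 - (y1 * cosh y1 / sinh y1)⁻¹ := by linarith
    positivity
  have key : ∀ N : ℕ, 1 ≤ N → c * (y2 - y1) ≤ SN N y2 - SN N y1 := by
    intro N hN
    refine Convex.mul_sub_le_image_sub_of_le_deriv (convex_Icc y1 y2)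
      (fun y _ => (dSN N y).continuousAt.continuousWithinAt)
      (fun y _ => (dSN N y).differentiableAt.differentiableWithinAt) ?_ y1
      (left_mem_Icc.mpr h12.le) y2 (right_mem_Icc.mpr h12.le) h12.le
    intro y hy
    rw [interior_Icc] at hy
    rw [(dSN N y).deriv]
    have hy0 : 0 < y := h1.trans hy.1
    refine le_trans ?_ (DN_ge hN hy0)
    have h3 : y1 * cosh y1 / sinh y1 ≤ y * cosh y / sinh y := b_mono h1 hy0 hy.1.le
    have h4 : (y * cosh y / sinh y)⁻¹ ≤ (y1 * cosh y1 / sinh y1)⁻¹ :=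
      inv_anti₀ (by linarith) h3
    have h5 : exp (-y2) ≤ exp (-y) := exp_le_exp.mpr (by linarith [hy.2])
    have h6 : (y1 * cosh y1 / sinh y1)⁻¹ < 1 := inv_lt_one_of_one_lt₀ hb
    rw [hc]
    apply mul_le_mul (by linarith) h5 (exp_pos _).le (by linarith)
  have hlim : Tendsto (fun N => SN N y2 - SN N y1) atTop (𝓝 (FF y2 - FF y1)) :=
    (SN_tendsto (h1.trans h12)).sub (SN_tendsto h1)
  have h2 : c * (y2 - y1) ≤ FF y2 - FF y1 :=
    ge_of_tendsto hlim (eventually_atTop.mpr ⟨1, key⟩)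
  have h3 : 0 < c * (y2 - y1) := mul_pos hc0 (by linarith)
  linarith

end

end Pool.Agent.R906.CS
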