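import Mathlib
set_option autoImplicit false
set_option linter.unusedSectionVars false

/-!
# The space `ℓ¹(ι)` and block diagonal operators
-/

namespace Pool.Agent.R906.DP

open Filter Topology

/-- `ℓ¹(ι)`: the space `L¹` of the counting measure on `ι`. -/
abbrev L1 (ι : Type) : Type := lp (fun _ : ι => ℝ) 1

section ext

variable {ι : Type} [DecidableEq ι] {F : Type} [NormedAddCommGroup F] [NormedSpace ℝ F]

/-- the `i`-th unit vector -/
noncomputable def e (i : ι) : L1 ι := lp.single 1 i (1 : ℝ)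

omit [DecidableEq ι] in
theorem summable_abs (φ : L1 ι) : Summable fun i => |φ i| := by
  have h := (lp.memℓp φ).summable (by norm_num)
  simpa using h

omit [DecidableEq ι] in
theorem norm_eq (φ : L1 ι) : ‖φ‖ = ∑' i, |φ i| := by
  rw [lp.norm_eq_tsum_rpow (by norm_num)]
  simp

omit [DecidableEq ι] in
theorem abs_le (φ : L1 ι) (i : ι) : |φ i| ≤ ‖φ‖ := by
  rw [norm_eq]
  exact (summable_abs φ).le_tsum i fun j _ => abs_nonneg _

theorem norm_e (i : ι) : ‖(e i : L1 ι)‖ = 1 := by
  rw [e, lp.norm_single (by norm_num)]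
  simp

theorem e_apply (i j : ι) : (e i : L1 ι) j = if j = i then 1 else 0 := by
  rw [e, lp.single_apply, Pi.single_apply]

theorem hasSum_e (φ : L1 ι) : HasSum (fun i => φ i • (e i : L1 ι)) φ := by
  have h := lp.hasSum_single (E := fun _ : ι => ℝ) (p := 1) (by norm_num) φ
  have h2 : (fun i => φ i • (e i : L1 ι)) =
      fun i => (lp.single 1 i (φ i) : lp (fun _ : ι => ℝ) 1) := by
    funext i
    rw [e, ← lp.single_smul, smul_eq_mul, mul_one]
  rw [h2]
  exact h

theorem hasSum_map (A : L1 ι →L[ℝ] F) (φ : L1 ι) : HasSum (fun i => φ i • A (e i)) (A φ) := by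
  have h := (hasSum_e φ).mapL A
  simpa using h

theorem ext_e {A B : L1 ι →L[ℝ] F} (h : ∀ i, A (e i) = B (e i)) : A = B := by
  ext1 φ
  have h1 := hasSum_map A φ
  have h2 := hasSum_map B φ
  simp only [h] at h1
  exact h1.unique h2

theorem norm_le_of_e {A : L1 ι →L[ℝ] F} {C : ℝ} (hC : 0 ≤ C) (h : ∀ i, ‖A (e i)‖ ≤ C) :
    ‖A‖ ≤ C := by
  refine ContinuousLinearMap.opNorm_le_bound _ hC fun φ => ?_
  have hb : ∀ i, ‖φ i • A (e i)‖ ≤ C * |φ i| := by
    intro i
    rw [norm_smul, Real.norm_eq_abs, mul_comm]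
    exact mul_le_mul_of_nonneg_right (h i) (abs_nonneg _)
  have hs : HasSum (fun i => C * |φ i|) (C * ‖φ‖) := by
    rw [norm_eq]
    exact (summable_abs φ).hasSum.mul_left C
  rw [← (hasSum_map A φ).tsum_eq]
  exact tsum_of_norm_bounded hs hb

/-- the coordinate functionals -/
noncomputable def coord (i : ι) : L1 ι →L[ℝ] ℝ :=
  LinearMap.mkContinuous
    { toFun := fun φ => φ i
      map_add' := fun _ _ => rfl
      map_smul' := fun _ _ => rfl } 1 (fun φ => by
      rw [one_mul]
      exact abs_le φ i)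

omit [DecidableEq ι] in
@[simp] theorem coord_apply (i : ι) (φ : L1 ι) : coord i φ = φ i := rfl

variable [CompleteSpace F]

/-- the operator with given values on the unit vectors -/
noncomputable def Ext (c : ι → F) (C : ℝ) (hc : ∀ i, ‖c i‖ ≤ C) : L1 ι →L[ℝ] F :=
  LinearMap.mkContinuous
    { toFun := fun φ => ∑' i, φ i • c i
      map_add' := by
        intro φ ψ
        have h : ∀ χ : L1 ι, Summable fun i => χ i • c i := fun χ =>
          Summable.of_norm_bounded (g := fun i => C * |χ i|) ((summable_abs χ).mul_left C)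
            fun i => by
              rw [norm_smul, Real.norm_eq_abs, mul_comm]
              exact mul_le_mul_of_nonneg_right (hc i) (abs_nonneg _)
        rw [← (h φ).tsum_add (h ψ)]
        exact tsum_congr fun i => add_smul _ _ _
      map_smul' := by
        intro a φ
        simp only [RingHom.id_apply]
        rw [← tsum_const_smul'']
        exact tsum_congr fun i => mul_smul _ _ _ }
    (max C 0) (fun φ => by
      have hb : ∀ i, ‖φ i • c i‖ ≤ max C 0 * |φ i| := by
        intro i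
        rw [norm_smul, Real.norm_eq_abs, mul_comm]
        exact mul_le_mul_of_nonneg_right ((hc i).trans (le_max_left _ _)) (abs_nonneg _)
      have hs : HasSum (fun i => max C 0 * |φ i|) (max C 0 * ‖φ‖) := by
        rw [norm_eq]
        exact (summable_abs φ).hasSum.mul_left _
      exact tsum_of_norm_bounded hs hb)

@[simp] theorem Ext_e (c : ι → F) (C : ℝ) (hc : ∀ i, ‖c i‖ ≤ C) (i : ι) :
    Ext c C hc (e i) = c i := by
  change ∑' j, (e i : L1 ι) j • c j = c i
  rw [tsum_eq_single i]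
  · rw [e_apply, if_pos rfl, one_smul]
  · intro j hj
    rw [e_apply, if_neg hj, zero_smul]

end ext

section blocks

/-- the inclusion of the `k`-th block -/
noncomputable def inc (k : ℕ) : L1 ℕ →L[ℝ] L1 (ℕ × ℕ) :=
  Ext (fun j => e (k, j)) 1 fun _ => (norm_e _).le

/-- the restriction to the `k`-th block -/
noncomputable def pr (k : ℕ) : L1 (ℕ × ℕ) →L[ℝ] L1 ℕ :=
  Ext (fun p => if p.1 = k then e p.2 else 0) 1 fun p => by
    by_cases h : p.1 = k
    · rw [if_pos h, norm_e]
    · rw [if_neg h, norm_zero]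
      exact zero_le_one

theorem pr_e (k : ℕ) (p : ℕ × ℕ) : pr k (e p) = if p.1 = k then e p.2 else 0 := Ext_e _ _ _ _

theorem inc_e (k j : ℕ) : inc k (e j) = e (k, j) := Ext_e _ _ _ _

theorem pr_apply (k j : ℕ) (φ : L1 (ℕ × ℕ)) : pr k φ j = φ (k, j) := by
  have h : (coord j).comp (pr k) = coord (k, j) := by
    refine ext_e fun p => ?_
    rw [ContinuousLinearMap.comp_apply, pr_e, coord_apply, coord_apply, e_apply]
    obtain ⟨a, b⟩ := p
    by_cases h : a = k
    · subst h
      simp only [if_true, e_apply, Prod.mk.injEq, true_and]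
    · have h' : ¬ ((k, j) = (a, b)) := fun h2 => h (Prod.ext_iff.1 h2).1.symm
      simp only [h, h', if_false]
      rfl
  exact congrArg (fun A => A φ) h

theorem pr_inc (k k' : ℕ) (ψ : L1 ℕ) : pr k (inc k' ψ) = if k' = k then ψ else 0 := by
  have h : (pr k).comp (inc k') = if k' = k then ContinuousLinearMap.id ℝ _ else 0 := by
    refine ext_e fun j => ?_
    rw [ContinuousLinearMap.comp_apply, inc_e, pr_e]
    by_cases h : k' = k
    · simp only [h, if_true, ContinuousLinearMap.id_apply]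
    · simp only [h, if_false, ContinuousLinearMap.zero_apply]
  have h2 := congrArg (fun A => A ψ) h
  simp only [ContinuousLinearMap.comp_apply] at h2
  rw [h2]
  by_cases h : k' = k
  · simp only [h, if_true, ContinuousLinearMap.id_apply]
  · simp only [h, if_false, ContinuousLinearMap.zero_apply]

theorem ext_pr {φ ψ : L1 (ℕ × ℕ)} (h : ∀ k, pr k φ = pr k ψ) : φ = ψ := by
  refine lp.ext (funext fun p => ?_)
  obtain ⟨k, j⟩ := p
  rw [← pr_apply, ← pr_apply, h]

theorem hasSum_norm_pr (φ : L1 (ℕ × ℕ)) : HasSum (fun k => ‖pr k φ‖) ‖φ‖ := by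
  have h1 := summable_abs φ
  have h2 : ∀ k, ‖pr k φ‖ = ∑' j, |φ (k, j)| := by
    intro k
    rw [norm_eq]
    exact tsum_congr fun j => by rw [pr_apply]
  simp only [h2]
  rw [norm_eq, h1.tsum_prod]
  exact h1.prod.hasSum

theorem norm_inc (k : ℕ) : ‖inc k‖ ≤ 1 :=
  norm_le_of_e zero_le_one fun j => by rw [inc_e, norm_e]

theorem norm_inc_apply (k : ℕ) (ψ : L1 ℕ) : ‖inc k ψ‖ ≤ ‖ψ‖ := by
  have h := (inc k).le_opNorm ψ
  exact h.trans (by
    have := mul_le_mul_of_nonneg_right (norm_inc k) (norm_nonneg ψ)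
    rwa [one_mul] at this)

/-- the vector with given blocks -/
noncomputable def mk (φ : ℕ → L1 ℕ) : L1 (ℕ × ℕ) := ∑' k, inc k (φ k)

theorem pr_mk (φ : ℕ → L1 ℕ) (h : Summable fun k => ‖φ k‖) (k : ℕ) : pr k (mk φ) = φ k := by
  have hs : Summable fun k => inc k (φ k) :=
    Summable.of_norm_bounded h fun k => norm_inc_apply k _
  have h1 := hs.hasSum.mapL (pr k)
  simp only [pr_inc] at h1
  have h2 : HasSum (fun k' => if k' = k then φ k' else 0) (φ k) := by
    have := hasSum_single (f := fun k' => if k' = k then φ k' else 0) k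
      (fun k' hk' => if_neg hk')
    simpa using this
  exact h1.unique h2

open Classical in
/-- block diagonal operators -/
noncomputable def blk (W : ℕ → L1 ℕ →L[ℝ] L1 ℕ) : L1 (ℕ × ℕ) →L[ℝ] L1 (ℕ × ℕ) :=
  if h : ∃ C : ℝ, ∀ k, ‖W k‖ ≤ C then
    Ext (fun p => inc p.1 (W p.1 (e p.2))) h.choose fun p =>
      (norm_inc_apply _ _).trans (((W p.1).le_opNorm _).trans (by
        rw [norm_e, mul_one]
        exact h.choose_spec p.1))
  else 0

theorem blk_e {W : ℕ → L1 ℕ →L[ℝ] L1 ℕ} {C : ℝ} (h : ∀ k, ‖W k‖ ≤ C) (p : ℕ × ℕ) :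
    blk W (e p) = inc p.1 (W p.1 (e p.2)) := by
  have h' : ∃ C : ℝ, ∀ k, ‖W k‖ ≤ C := ⟨C, h⟩
  unfold blk
  rw [dif_pos h']
  exact Ext_e _ _ _ _

theorem pr_blk {W : ℕ → L1 ℕ →L[ℝ] L1 ℕ} {C : ℝ} (h : ∀ k, ‖W k‖ ≤ C) (k : ℕ)
    (φ : L1 (ℕ × ℕ)) : pr k (blk W φ) = W k (pr k φ) := by
  have h1 : (pr k).comp (blk W) = (W k).comp (pr k) := by
    refine ext_e fun p => ?_
    rw [ContinuousLinearMap.comp_apply, ContinuousLinearMap.comp_apply, blk_e h, pr_inc, pr_e]
    by_cases h2 : p.1 = k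
    · rw [if_pos h2, if_pos h2, h2]
    · rw [if_neg h2, if_neg h2, map_zero]
  exact congrArg (fun A => A φ) h1

theorem norm_blk_le {W : ℕ → L1 ℕ →L[ℝ] L1 ℕ} {C : ℝ} (hC : 0 ≤ C) (h : ∀ k, ‖W k‖ ≤ C) :
    ‖blk W‖ ≤ C := by
  refine norm_le_of_e hC fun p => ?_
  rw [blk_e h]
  refine (norm_inc_apply _ _).trans (((W p.1).le_opNorm _).trans ?_)
  rw [norm_e, mul_one]
  exact h p.1

end blocks

end Pool.Agent.R906.DP
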