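import Mathlib
import Pool.Agent.R906.DPBase
set_option autoImplicit false
set_option linter.unusedSectionVars false

/-!
# One block of the counterexample
-/

namespace Pool.Agent.R906.DP

open Filter Topology MeasureTheory

section

variable (lam K D : ℝ)

/-- the columns of the generator of a block -/
noncomputable def colA : ℕ → L1 ℕ
  | 0 => (-K) • e 0
  | 1 => (-K) • e 1
  | 2 => (-D) • e 2
  | 3 => (-lam) • e 3
  | (j + 4) => lam • (e (j + 3) - e (j + 4))

/-- the columns of the perturbation of a block -/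
noncomputable def colB : ℕ → L1 ℕ
  | 0 => 0
  | 1 => K • e 0
  | 2 => D • e 1
  | 3 => lam • e 2
  | (_ + 4) => 0

theorem norm_smul_e (a : ℝ) (j : ℕ) : ‖a • (e j : L1 ℕ)‖ = |a| := by
  rw [norm_smul, norm_e, mul_one, Real.norm_eq_abs]

theorem norm_colA (j : ℕ) : ‖colA lam K D j‖ ≤ 2 * |lam| + |K| + |D| := by
  have h1 := abs_nonneg lam
  have h2 := abs_nonneg K
  have h3 := abs_nonneg D
  match j with
  | 0 => rw [colA, norm_smul_e, abs_neg]; linarith
  | 1 => rw [colA, norm_smul_e, abs_neg]; linarith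
  | 2 => rw [colA, norm_smul_e, abs_neg]; linarith
  | 3 => rw [colA, norm_smul_e, abs_neg]; linarith
  | j + 4 =>
    rw [colA, norm_smul, Real.norm_eq_abs]
    have h4 := norm_sub_le (e (j + 3) : L1 ℕ) (e (j + 4))
    rw [norm_e, norm_e] at h4
    nlinarith

theorem norm_colB (j : ℕ) : ‖colB lam K D j‖ ≤ |lam| + |K| + |D| := by
  have h1 := abs_nonneg lam
  have h2 := abs_nonneg K
  have h3 := abs_nonneg D
  match j with
  | 0 => rw [colB, norm_zero]; linarith
  | 1 => rw [colB, norm_smul_e]; linarith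
  | 2 => rw [colB, norm_smul_e]; linarith
  | 3 => rw [colB, norm_smul_e]; linarith
  | j + 4 => rw [colB, norm_zero]; linarith

/-- the generator of a block -/
noncomputable def A : L1 ℕ →L[ℝ] L1 ℕ := Ext (colA lam K D) _ (norm_colA lam K D)

/-- the perturbation of a block -/
noncomputable def B : L1 ℕ →L[ℝ] L1 ℕ := Ext (colB lam K D) _ (norm_colB lam K D)

theorem A_e (j : ℕ) : A lam K D (e j) = colA lam K D j := Ext_e _ _ _ _

theorem B_e (j : ℕ) : B lam K D (e j) = colB lam K D j := Ext_e _ _ _ _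

/-- the semigroup of a block -/
noncomputable def V (t : ℝ) : L1 ℕ →L[ℝ] L1 ℕ := NormedSpace.exp (t • A lam K D)

theorem V_zero : V lam K D 0 = 1 := by
  rw [V, zero_smul, NormedSpace.exp_zero]

theorem V_add (s t : ℝ) : V lam K D (s + t) = V lam K D s * V lam K D t := by
  letI : NormedAlgebra ℚ (L1 ℕ →L[ℝ] L1 ℕ) := NormedAlgebra.restrictScalars ℚ ℝ _
  rw [V, add_smul]
  exact NormedSpace.exp_add_of_commute ((Commute.refl _).smul_left s |>.smul_right t)

theorem V_deriv (t : ℝ) : HasDerivAt (V lam K D) (A lam K D * V lam K D t) t :=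
  hasDerivAt_exp_smul_const' (𝕂 := ℝ) (A lam K D) t

theorem V_deriv' (t : ℝ) : HasDerivAt (V lam K D) (V lam K D t * A lam K D) t :=
  hasDerivAt_exp_smul_const (𝕂 := ℝ) (A lam K D) t

theorem V_cont : Continuous (V lam K D) :=
  continuous_iff_continuousAt.2 fun t => (V_deriv lam K D t).continuousAt

theorem V_comm (t : ℝ) : A lam K D * V lam K D t = V lam K D t * A lam K D :=
  (V_deriv lam K D t).unique (V_deriv' lam K D t)

theorem V_deriv_apply (t : ℝ) (φ : L1 ℕ) :
    HasDerivAt (fun t => V lam K D t φ) (V lam K D t (A lam K D φ)) t := by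
  have h := (V_deriv' lam K D t).clm_apply (hasDerivAt_const t φ)
  refine h.congr_deriv ?_
  rw [map_zero, add_zero]
  rfl

/-- uniqueness -/
theorem V_unique {y : ℝ → L1 ℕ} (hy : ∀ t, HasDerivAt y (A lam K D (y t)) t) (t : ℝ) :
    V lam K D t (y 0) = y t := by
  have h1 : ∀ s, HasDerivAt (fun s => V lam K D (-s) (y s)) 0 s := by
    intro s
    have h2 : HasDerivAt (fun s => V lam K D (-s)) (-(V lam K D (-s) * A lam K D)) s := by
      have := (V_deriv' lam K D (-s)).scomp s (hasDerivAt_neg s)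
      refine HasDerivAt.congr_deriv (f' := (-1 : ℝ) • (V lam K D (-s) * A lam K D)) this ?_
      rw [neg_one_smul]
    have h3 := h2.clm_apply (hy s)
    refine h3.congr_deriv ?_
    change -(V lam K D (-s) (A lam K D (y s))) + V lam K D (-s) (A lam K D (y s)) = 0
    exact neg_add_cancel _
  have h4 : (fun s => V lam K D (-s) (y s)) t = (fun s => V lam K D (-s) (y s)) 0 :=
    is_const_of_deriv_eq_zero (fun s => (h1 s).differentiableAt) (fun s => (h1 s).deriv) t 0
  have h5 : V lam K D (-t) (y t) = y 0 := by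
    have h6 : V lam K D (-t) (y t) = V lam K D (-0) (y 0) := h4
    rw [h6, neg_zero, V_zero]
    rfl
  rw [← h5]
  change (V lam K D t * V lam K D (-t)) (y t) = y t
  rw [← V_add, add_neg_cancel, V_zero]
  rfl

/-- Poisson weights -/
noncomputable def pm (l : ℕ) (t : ℝ) : ℝ := Real.exp (-(lam * t)) * (lam * t) ^ l / l.factorial

theorem pm_nonneg {lam : ℝ} (hl : 0 ≤ lam) (l : ℕ) {t : ℝ} (ht : 0 ≤ t) : 0 ≤ pm lam l t := by
  unfold pm
  positivity

theorem pm_cont (l : ℕ) : Continuous (pm lam l) := by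
  unfold pm
  fun_prop

theorem lin_deriv (a t : ℝ) : HasDerivAt (fun t : ℝ => -(a * t)) (-a) t := by
  simpa [neg_mul] using (hasDerivAt_id' t).const_mul (-a)

theorem exp_deriv (K t : ℝ) : HasDerivAt (fun t => Real.exp (-(K * t)))
    (-(K * Real.exp (-(K * t)))) t :=
  (lin_deriv K t).exp.congr_deriv (by ring)

theorem pm_deriv_zero (t : ℝ) : HasDerivAt (pm lam 0) (-(lam * pm lam 0 t)) t := by
  have h : pm lam 0 = fun t => Real.exp (-(lam * t)) := by
    funext t
    simp [pm]
  rw [h]
  exact exp_deriv lam t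

theorem pm_deriv_succ (l : ℕ) (t : ℝ) :
    HasDerivAt (pm lam (l + 1)) (lam * (pm lam l t - pm lam (l + 1) t)) t := by
  have h2 : HasDerivAt (fun t : ℝ => lam * t) lam t := by
    simpa using (hasDerivAt_id t).const_mul lam
  have h3 := ((exp_deriv lam t).mul (h2.pow (l + 1))).div_const ((l + 1).factorial : ℝ)
  refine HasDerivAt.congr_deriv (f := pm lam (l + 1)) h3 ?_
  unfold pm
  rw [Nat.factorial_succ]
  have h4 : (l.factorial : ℝ) ≠ 0 := by positivity
  have h5 : (fun t : ℝ => lam * t) t = lam * t := rfl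
  simp only [Pi.pow_apply, Nat.add_sub_cancel]
  push_cast
  field_simp
  ring

theorem pm_zero (l : ℕ) : pm lam l 0 = if l = 0 then 1 else 0 := by
  unfold pm
  by_cases h : l = 0
  · subst h
    simp
  · simp [h]

/-- the derivative of the Poisson weights -/
noncomputable def pd (t : ℝ) : ℕ → ℝ
  | 0 => -(lam * pm lam 0 t)
  | (l + 1) => lam * (pm lam l t - pm lam (l + 1) t)

theorem pm_deriv (l : ℕ) (t : ℝ) : HasDerivAt (pm lam l) (pd lam t l) t := by
  cases l with
  | zero => exact pm_deriv_zero lam t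
  | succ l => exact pm_deriv_succ lam l t

theorem sum_pd (i : ℕ) (t : ℝ) : ∑ l ∈ Finset.range (i + 1), pd lam t l = -(lam * pm lam i t) := by
  induction i with
  | zero => simp [pd]
  | succ i ih =>
    rw [Finset.sum_range_succ, ih, pd]
    ring

theorem sum_pm_le {lam : ℝ} (hl : 0 ≤ lam) (i : ℕ) {t : ℝ} (ht : 0 ≤ t) :
    ∑ l ∈ Finset.range (i + 1), pm lam l t ≤ 1 := by
  have h1 : 0 ≤ lam * t := mul_nonneg hl ht
  have h2 := Real.sum_le_exp_of_nonneg h1 (i + 1)
  have h3 : ∑ l ∈ Finset.range (i + 1), pm lam l t =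
      Real.exp (-(lam * t)) * ∑ l ∈ Finset.range (i + 1), (lam * t) ^ l / l.factorial := by
    rw [Finset.mul_sum]
    exact Finset.sum_congr rfl fun l _ => by
      unfold pm
      ring
  rw [h3]
  calc _ ≤ Real.exp (-(lam * t)) * Real.exp (lam * t) :=
        mul_le_mul_of_nonneg_left h2 (Real.exp_nonneg _)
    _ = 1 := by rw [← Real.exp_add]; simp

/-- the orbits of the unit vectors -/
noncomputable def yv (t : ℝ) : ℕ → L1 ℕ
  | 0 => Real.exp (-(K * t)) • e 0
  | 1 => Real.exp (-(K * t)) • e 1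
  | 2 => Real.exp (-(D * t)) • e 2
  | (i + 3) => ∑ j ∈ Finset.range (i + 1), pm lam (i - j) t • e (3 + j)

theorem yv_deriv (t : ℝ) (j : ℕ) :
    HasDerivAt (fun t => yv lam K D t j) (A lam K D (yv lam K D t j)) t := by
  match j with
  | 0 =>
    simp only [yv, map_smul, A_e, colA]
    refine ((exp_deriv K t).smul_const (e 0 : L1 ℕ)).congr_deriv ?_
    rw [smul_smul]
    congr 1
    ring
  | 1 =>
    simp only [yv, map_smul, A_e, colA]
    refine ((exp_deriv K t).smul_const (e 1 : L1 ℕ)).congr_deriv ?_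
    rw [smul_smul]
    congr 1
    ring
  | 2 =>
    simp only [yv, map_smul, A_e, colA]
    refine ((exp_deriv D t).smul_const (e 2 : L1 ℕ)).congr_deriv ?_
    rw [smul_smul]
    congr 1
    ring
  | i + 3 =>
    simp only [yv, map_sum, map_smul, A_e]
    have h1 : HasDerivAt (fun t => ∑ j ∈ Finset.range (i + 1), pm lam (i - j) t • (e (3 + j) : L1 ℕ))
        (∑ j ∈ Finset.range (i + 1), pd lam t (i - j) • (e (3 + j) : L1 ℕ)) t :=
      HasDerivAt.fun_sum fun j _ => (pm_deriv lam (i - j) t).smul_const _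
    refine h1.congr_deriv ?_
    symm
    rw [Finset.sum_range_succ', Finset.sum_range_succ]
    have h2 : ∀ j ∈ Finset.range i, pm lam (i - (j + 1)) t • colA lam K D (3 + (j + 1)) =
        (lam * pm lam (i - (j + 1)) t) • (e (3 + j) : L1 ℕ) -
        (lam * pm lam (i - (j + 1)) t) • (e (3 + (j + 1)) : L1 ℕ) := by
      intro j _
      have h3 : 3 + (j + 1) = j + 4 := by ring
      have h4 : 3 + j = j + 3 := by ring
      rw [h3, h4, colA, smul_smul, smul_sub]
      congr 2 <;> ring
    rw [Finset.sum_congr rfl h2, Finset.sum_sub_distrib]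
    have h5 : ∀ j ∈ Finset.range i, pd lam t (i - j) • (e (3 + j) : L1 ℕ) =
        (lam * pm lam (i - (j + 1)) t) • (e (3 + j) : L1 ℕ) -
        (lam * pm lam (i - j) t) • (e (3 + j) : L1 ℕ) := by
      intro j hj
      have hj' := Finset.mem_range.1 hj
      obtain ⟨d, hd⟩ : ∃ d, i - j = d + 1 := ⟨i - j - 1, by omega⟩
      have hd2 : i - (j + 1) = d := by omega
      rw [hd, hd2, pd, ← sub_smul]
      congr 1
      ring
    rw [Finset.sum_congr rfl h5, Finset.sum_sub_distrib]
    have h6 : ∑ j ∈ Finset.range i, (lam * pm lam (i - (j + 1)) t) • (e (3 + (j + 1)) : L1 ℕ) +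
        (lam * pm lam i t) • (e 3 : L1 ℕ) =
        ∑ j ∈ Finset.range i, (lam * pm lam (i - j) t) • (e (3 + j) : L1 ℕ) +
        (lam * pm lam 0 t) • (e (3 + i) : L1 ℕ) := by
      have h7 := Finset.sum_range_succ' (fun j => (lam * pm lam (i - j) t) • (e (3 + j) : L1 ℕ)) i
      rw [Finset.sum_range_succ] at h7
      simp only [Nat.sub_self, Nat.sub_zero, add_zero] at h7
      exact h7.symm
    have h8 : pm lam (i - 0) t • colA lam K D (3 + 0) = -((lam * pm lam i t) • (e 3 : L1 ℕ)) := by
      simp only [Nat.sub_zero, add_zero, colA, smul_smul, ← neg_smul]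
      congr 1
      ring
    have h9 : pd lam t (i - i) • (e (3 + i) : L1 ℕ) = -((lam * pm lam 0 t) • (e (3 + i) : L1 ℕ)) := by
      rw [Nat.sub_self, pd, neg_smul]
    rw [h8, h9]
    have h10 := h6
    rw [← sub_eq_zero] at h10 ⊢
    rw [← neg_eq_zero, ← h10]
    abel

theorem yv_zero (j : ℕ) : yv lam K D 0 j = e j := by
  match j with
  | 0 => simp [yv]
  | 1 => simp [yv]
  | 2 => simp [yv]
  | i + 3 =>
    simp only [yv]
    rw [Finset.sum_eq_single i]
    · rw [pm_zero, Nat.sub_self, if_pos rfl, one_smul, add_comm]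
    · intro j hj hji
      have hj' := Finset.mem_range.1 hj
      rw [pm_zero, if_neg (by omega), zero_smul]
    · intro h
      exact absurd (Finset.mem_range.2 (Nat.lt_succ_self i)) h

theorem V_e (t : ℝ) (j : ℕ) : V lam K D t (e j) = yv lam K D t j := by
  have h := V_unique lam K D (y := fun t => yv lam K D t j) (fun t => yv_deriv lam K D t j) t
  rwa [yv_zero] at h

end

end Pool.Agent.R906.DP
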