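import Mathlib
set_option autoImplicit false
set_option linter.unusedSectionVars false

/-!
# Substochastic semigroups, unbounded perturbations and Dyson-Phillips terms

`E` is a Banach space with a cone `P` of positive elements (in the application `E = L¹(ν)` and
`P` is the set of the nonnegative functions).
-/

namespace Pool.Agent.R906.DP

open Filter Topology

section

variable {E : Type} [NormedAddCommGroup E] [NormedSpace ℝ E]

/-- `U` is a substochastic `C₀`-semigroup. -/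
structure IsSubstochastic (P : Set E) (U : ℝ → E →L[ℝ] E) : Prop where
  zero : U 0 = 1
  add : ∀ s t, 0 ≤ s → 0 ≤ t → U (s + t) = U s * U t
  cont : ∀ φ, ContinuousOn (fun t => U t φ) (Set.Ici 0)
  pos : ∀ t, 0 ≤ t → ∀ φ ∈ P, U t φ ∈ P
  contr : ∀ t, 0 ≤ t → ‖U t‖ ≤ 1

/-- `φ` is in the domain of the generator `T` of `U` and `T φ = ψ`:
`(U h φ - φ) / h` tends to `ψ` as `h` tends to `0` from above. -/
def GenAt (U : ℝ → E →L[ℝ] E) (φ ψ : E) : Prop :=
  Tendsto (fun h : ℝ => h⁻¹ • (U h φ - φ)) (𝓝[>] 0) (𝓝 ψ)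

/-- the domain `D(T)` of the generator of `U` -/
def dom (U : ℝ → E →L[ℝ] E) : Submodule ℝ (E) where
  carrier := {φ | ∃ ψ, GenAt U φ ψ}
  add_mem' := by
    rintro φ φ' ⟨ψ, h⟩ ⟨ψ', h'⟩
    refine ⟨ψ + ψ', (h.add h').congr fun a => ?_⟩
    rw [← smul_add, map_add]
    congr 1
    abel
  zero_mem' := ⟨0, by
    unfold GenAt
    simp⟩
  smul_mem' := by
    rintro c φ ⟨ψ, h⟩
    refine ⟨c • ψ, (h.const_smul c).congr fun a => ?_⟩
    rw [smul_comm, map_smul, smul_sub]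

/-- the generator `T` of `U` -/
noncomputable def gen (U : ℝ → E →L[ℝ] E) (φ : dom U) : E := φ.2.choose

theorem gen_spec (U : ℝ → E →L[ℝ] E) (φ : dom U) : GenAt U φ (gen U φ) := φ.2.choose_spec

theorem gen_eq {U : ℝ → E →L[ℝ] E} {φ : dom U} {ψ : E} (h : GenAt U φ ψ) :
    gen U φ = ψ := tendsto_nhds_unique (gen_spec U φ) h

open Classical in
/-- `B φ` for `φ` in the domain of the generator -/
noncomputable def ev {U : ℝ → E →L[ℝ] E} (B : dom U →ₗ[ℝ] E) (φ : E) : E :=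
  if h : φ ∈ dom U then B ⟨φ, h⟩ else 0

/-- `B` is `T`-bounded. -/
def TBounded {U : ℝ → E →L[ℝ] E} (B : dom U →ₗ[ℝ] E) : Prop :=
  ∃ a b : ℝ, ∀ φ : dom U, ‖B φ‖ ≤ a * ‖(φ : E)‖ + b * ‖gen U φ‖

/-- `B` is positive. -/
def BPositive (P : Set E) {U : ℝ → E →L[ℝ] E} (B : dom U →ₗ[ℝ] E) : Prop :=
  ∀ φ : dom U, (φ : E) ∈ P → B φ ∈ P

/-- `R = (μ - T)⁻¹` -/
def IsResolvent (U : ℝ → E →L[ℝ] E) (μ : ℝ) (R : E →L[ℝ] E) : Prop :=
  (∀ x, ∃ h : R x ∈ dom U, μ • R x - gen U ⟨R x, h⟩ = x) ∧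
    ∀ φ : dom U, R (μ • (φ : E) - gen U φ) = φ

/-- the spectral radius (Gelfand's formula; the limit of `‖Aⁿ‖ ^ (1 / n)` is the infimum) -/
noncomputable def specRad (A : E →L[ℝ] E) : ℝ :=
  ⨅ n : ℕ, ‖A ^ (n + 1)‖ ^ (1 / ((n : ℝ) + 1))

/-- The spectral radius of `B (μ - T)⁻¹` is less than `1` for all sufficiently large `μ`. -/
def SmallSpecRad {U : ℝ → E →L[ℝ] E} (B : dom U →ₗ[ℝ] E) : Prop :=
  ∀ᶠ μ : ℝ in atTop, ∃ R A : E →L[ℝ] E, IsResolvent U μ R ∧
    (∀ x, A x = ev B (R x)) ∧ specRad A < 1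

/-- `Us j t` is the `j`-th Dyson-Phillips term at time `t` (a bounded operator, hence determined
by its values on the dense domain): `Us 0 t = U t` and `Us (j + 1) t φ` is the integral over
`s ∈ [0, t]` of the continuous function `Us j (t - s) B (U s) φ`, for `φ` in the domain. -/
def IsDysonPhillips {U : ℝ → E →L[ℝ] E} (B : dom U →ₗ[ℝ] E)
    (Us : ℕ → ℝ → E →L[ℝ] E) : Prop :=
  (∀ t, 0 ≤ t → Us 0 t = U t) ∧
    ∀ j t, 0 ≤ t → ∀ φ ∈ dom U, (∀ s ∈ Set.Icc 0 t, U s φ ∈ dom U) ∧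
      ContinuousOn (fun s => Us j (t - s) (ev B (U s φ))) (Set.Icc 0 t) ∧
      Us (j + 1) t φ = ∫ s in (0 : ℝ)..t, Us j (t - s) (ev B (U s φ))

/-- A bounded operator is weakly compact if it maps bounded sets to relatively weakly compact
sets. -/
def IsWeaklyCompactOp (A : E →L[ℝ] E) : Prop :=
  ∀ S : Set (E), Bornology.IsBounded S →
    IsCompact (closure ((fun x => toWeakSpace ℝ (E) (A x)) '' S))

/-- There are a substochastic `C₀`-semigroup `U` on `E` with generator `T` and a positive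
`T`-bounded `B` with small spectral radius, such that the Dyson-Phillips terms `Us 1 t` are weakly
compact (and even compact) for all `t ≥ 0`, but `Us 3 1` is not compact. -/
def Counterexample (E : Type) [NormedAddCommGroup E] [NormedSpace ℝ E] (P : Set E) : Prop :=
  ∃ (U : ℝ → E →L[ℝ] E) (B : dom U →ₗ[ℝ] E) (Us : ℕ → ℝ → E →L[ℝ] E),
    IsSubstochastic P U ∧ TBounded B ∧ BPositive P B ∧ SmallSpecRad B ∧ IsDysonPhillips B Us ∧
      (∀ t, 0 ≤ t → IsWeaklyCompactOp (Us 1 t) ∧ IsCompactOperator (Us 1 t)) ∧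
      ¬ IsCompactOperator (Us 3 1)

end

end Pool.Agent.R906.DP
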