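import Mathlib
import Pool.Agent.R906.DPBlock
set_option autoImplicit false
set_option linter.unusedSectionVars false

/-!
# The Dyson-Phillips terms of one block
-/

namespace Pool.Agent.R906.DP

open Filter Topology MeasureTheory

section

variable (lam K D : ℝ)

/-- the emission rates of the states -/
noncomputable def wr (t : ℝ) : ℕ → ℝ
  | 0 => 0
  | 1 => K * Real.exp (-(K * t))
  | 2 => D * Real.exp (-(D * t))
  | (i + 3) => lam * pm lam i t

/-- the target of the emission -/
def sg : ℕ → ℕ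
  | 0 => 0
  | 1 => 0
  | 2 => 1
  | (_ + 3) => 2

theorem B_V (t : ℝ) (j : ℕ) :
    B lam K D (V lam K D t (e j)) = wr lam K D t j • e (sg j) := by
  rw [V_e]
  match j with
  | 0 => simp [yv, B_e, colB, wr, sg]
  | 1 =>
    simp only [yv, map_smul, B_e, colB, wr, sg, smul_smul]
    congr 1
    ring
  | 2 =>
    simp only [yv, map_smul, B_e, colB, wr, sg, smul_smul]
    congr 1
    ring
  | i + 3 =>
    simp only [yv, map_sum, map_smul, B_e, wr, sg]
    rw [Finset.sum_range_succ']
    have h : ∀ j ∈ Finset.range i, pm lam (i - (j + 1)) t • colB lam K D (3 + (j + 1)) = 0 := by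
      intro j _
      have h3 : 3 + (j + 1) = j + 4 := by ring
      rw [h3, colB, smul_zero]
    rw [Finset.sum_congr rfl h, Finset.sum_const_zero, zero_add]
    simp only [Nat.sub_zero, colB, smul_smul]
    congr 1
    ring

theorem wr_cont (j : ℕ) : Continuous fun t => wr lam K D t j := by
  match j with
  | 0 => exact continuous_const
  | 1 => unfold wr; fun_prop
  | 2 => unfold wr; fun_prop
  | i + 3 =>
    have := pm_cont lam i
    unfold wr
    fun_prop

variable {lam K D}

theorem wr_nonneg (hl : 0 ≤ lam) (hK : 0 ≤ K) (hD : 0 ≤ D) (j : ℕ) {t : ℝ} (ht : 0 ≤ t) :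
    0 ≤ wr lam K D t j := by
  match j with
  | 0 => exact le_rfl
  | 1 => exact mul_nonneg hK (Real.exp_nonneg _)
  | 2 => exact mul_nonneg hD (Real.exp_nonneg _)
  | i + 3 => exact mul_nonneg hl (pm_nonneg hl i ht)

variable (lam K D) in
/-- the survival probabilities -/
noncomputable def qv (t : ℝ) : ℕ → ℝ
  | 0 => 0
  | 1 => Real.exp (-(K * t))
  | 2 => Real.exp (-(D * t))
  | (i + 3) => ∑ l ∈ Finset.range (i + 1), pm lam l t

theorem qv_deriv (j : ℕ) (t : ℝ) :
    HasDerivAt (fun t => qv lam K D t j) (-wr lam K D t j) t := by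
  match j with
  | 0 => simpa [qv, wr] using hasDerivAt_const t (0 : ℝ)
  | 1 => exact exp_deriv K t
  | 2 => exact exp_deriv D t
  | i + 3 =>
    have h : HasDerivAt (fun t => ∑ l ∈ Finset.range (i + 1), pm lam l t)
        (∑ l ∈ Finset.range (i + 1), pd lam t l) t :=
      HasDerivAt.fun_sum fun l _ => pm_deriv lam l t
    rw [sum_pd] at h
    exact h

theorem qv_nonneg (hl : 0 ≤ lam) (j : ℕ) {t : ℝ} (ht : 0 ≤ t) : 0 ≤ qv lam K D t j := by
  match j with
  | 0 => exact le_rfl
  | 1 => exact Real.exp_nonneg _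
  | 2 => exact Real.exp_nonneg _
  | i + 3 => exact Finset.sum_nonneg fun l _ => pm_nonneg hl l ht

theorem qv_zero (j : ℕ) : qv lam K D 0 j ≤ 1 := by
  match j with
  | 0 => exact zero_le_one
  | 1 => simp [qv]
  | 2 => simp [qv]
  | i + 3 =>
    rw [qv, Finset.sum_eq_single 0]
    · rw [pm_zero, if_pos rfl]
    · intro l _ hl
      rw [pm_zero, if_neg hl]
    · intro h
      exact absurd (Finset.mem_range.2 (Nat.succ_pos i)) h

theorem int_wr (j : ℕ) (a b : ℝ) :
    ∫ s in a..b, wr lam K D s j = qv lam K D a j - qv lam K D b j := by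
  have h := intervalIntegral.integral_eq_sub_of_hasDerivAt (a := a) (b := b)
    (f := fun t => -qv lam K D t j) (f' := fun t => wr lam K D t j)
    (fun t _ => by
      have := (qv_deriv (lam := lam) (K := K) (D := D) j t).fun_neg
      rwa [neg_neg] at this)
    ((wr_cont lam K D j).intervalIntegrable _ _)
  rw [h]
  ring

theorem int_wr_le (hl : 0 ≤ lam) (j : ℕ) {t : ℝ} (ht : 0 ≤ t) :
    ∫ s in (0 : ℝ)..t, wr lam K D s j ≤ 1 := by
  rw [int_wr]
  have h1 := qv_zero (lam := lam) (K := K) (D := D) j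
  have h2 := qv_nonneg (K := K) (D := D) hl j ht
  linarith

theorem norm_yv (hl : 0 ≤ lam) (hK : 0 ≤ K) (hD : 0 ≤ D) (j : ℕ) {t : ℝ} (ht : 0 ≤ t) :
    ‖yv lam K D t j‖ ≤ 1 := by
  have hexp : ∀ a : ℝ, 0 ≤ a → |Real.exp (-(a * t))| ≤ 1 := by
    intro a ha
    rw [abs_of_nonneg (Real.exp_nonneg _), Real.exp_le_one_iff]
    have := mul_nonneg ha ht
    linarith
  match j with
  | 0 => rw [yv, norm_smul_e]; exact hexp K hK
  | 1 => rw [yv, norm_smul_e]; exact hexp K hK
  | 2 => rw [yv, norm_smul_e]; exact hexp D hD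
  | i + 3 =>
    rw [yv]
    refine (norm_sum_le _ _).trans ?_
    have h : ∀ j ∈ Finset.range (i + 1), ‖pm lam (i - j) t • (e (3 + j) : L1 ℕ)‖ =
        pm lam (i + 1 - 1 - j) t := by
      intro j _
      rw [norm_smul_e, abs_of_nonneg (pm_nonneg hl _ ht), Nat.add_sub_cancel]
    rw [Finset.sum_congr rfl h, Finset.sum_range_reflect (fun l => pm lam l t) (i + 1)]
    exact sum_pm_le hl i ht

theorem norm_V (hl : 0 ≤ lam) (hK : 0 ≤ K) (hD : 0 ≤ D) {t : ℝ} (ht : 0 ≤ t) :
    ‖V lam K D t‖ ≤ 1 :=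
  norm_le_of_e zero_le_one fun j => by
    rw [V_e]
    exact norm_yv hl hK hD j ht

theorem e_nonneg (i j : ℕ) : 0 ≤ (e i : L1 ℕ) j := by
  rw [e_apply]
  split_ifs
  · exact zero_le_one
  · exact le_rfl

theorem yv_nonneg (hl : 0 ≤ lam) (j : ℕ) {t : ℝ} (ht : 0 ≤ t) (i : ℕ) :
    0 ≤ yv lam K D t j i := by
  have hs : ∀ (a : ℝ) (φ : L1 ℕ), (a • φ) i = a * φ i := fun _ _ => rfl
  match j with
  | 0 => rw [yv, hs]; exact mul_nonneg (Real.exp_nonneg _) (e_nonneg _ _)
  | 1 => rw [yv, hs]; exact mul_nonneg (Real.exp_nonneg _) (e_nonneg _ _)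
  | 2 => rw [yv, hs]; exact mul_nonneg (Real.exp_nonneg _) (e_nonneg _ _)
  | k + 3 =>
    rw [yv, ← coord_apply, map_sum]
    refine Finset.sum_nonneg fun l _ => ?_
    rw [coord_apply, hs]
    exact mul_nonneg (pm_nonneg hl _ ht) (e_nonneg _ _)

theorem map_nonneg {W : L1 ℕ →L[ℝ] L1 ℕ} (h : ∀ j i, 0 ≤ W (e j) i) {φ : L1 ℕ}
    (hφ : ∀ j, 0 ≤ φ j) (i : ℕ) : 0 ≤ W φ i := by
  have h1 := hasSum_map ((coord i).comp W) φ
  refine h1.nonneg fun j => ?_
  rw [smul_eq_mul]
  exact mul_nonneg (hφ j) (h j i)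

theorem V_nonneg (hl : 0 ≤ lam) {t : ℝ} (ht : 0 ≤ t) {φ : L1 ℕ} (hφ : ∀ j, 0 ≤ φ j) (i : ℕ) :
    0 ≤ V lam K D t φ i :=
  map_nonneg (fun j i => by rw [V_e]; exact yv_nonneg hl j ht i) hφ i

theorem B_nonneg (hl : 0 ≤ lam) (hK : 0 ≤ K) (hD : 0 ≤ D) {φ : L1 ℕ} (hφ : ∀ j, 0 ≤ φ j)
    (i : ℕ) : 0 ≤ B lam K D φ i := by
  refine map_nonneg (fun j i => ?_) hφ i
  rw [B_e]
  have hs : ∀ (a : ℝ) (φ : L1 ℕ), (a • φ) i = a * φ i := fun _ _ => rfl
  match j with
  | 0 => exact le_rfl
  | 1 => rw [colB, hs]; exact mul_nonneg hK (e_nonneg _ _)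
  | 2 => rw [colB, hs]; exact mul_nonneg hD (e_nonneg _ _)
  | 3 => rw [colB, hs]; exact mul_nonneg hl (e_nonneg _ _)
  | j + 4 => exact le_rfl

variable (lam K D) in
/-- the Dyson-Phillips terms of a block -/
noncomputable def W : ℕ → ℝ → L1 ℕ →L[ℝ] L1 ℕ
  | 0, t => V lam K D t
  | (n + 1), t => ∫ s in (0 : ℝ)..t, W n (t - s) * (B lam K D * V lam K D s)

theorem W_cont (n : ℕ) : Continuous (W lam K D n) := by
  induction n with
  | zero => exact V_cont lam K D
  | succ n ih =>
    have h : Continuous fun t : ℝ => ∫ s in (0 : ℝ)..t,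
        (fun (t s : ℝ) => W lam K D n (t - s) * (B lam K D * V lam K D s)) t s := by
      refine intervalIntegral.continuous_parametric_intervalIntegral_of_continuous ?_ continuous_id
      have h1 := V_cont lam K D
      have h2 : Continuous fun p : ℝ × ℝ => W lam K D n (p.1 - p.2) := ih.comp (by fun_prop)
      have h3 : Continuous fun p : ℝ × ℝ => V lam K D p.2 := h1.comp continuous_snd
      exact h2.mul (continuous_const.mul h3)
    exact h

theorem W_succ_apply (n : ℕ) (t : ℝ) (φ : L1 ℕ) : W lam K D (n + 1) t φ =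
    ∫ s in (0 : ℝ)..t, W lam K D n (t - s) (B lam K D (V lam K D s φ)) := by
  have h1 := V_cont lam K D
  have h2 : Continuous fun s : ℝ => W lam K D n (t - s) := (W_cont n).comp (by fun_prop)
  have hc : Continuous fun s : ℝ => W lam K D n (t - s) * (B lam K D * V lam K D s) :=
    h2.mul (continuous_const.mul h1)
  change (∫ s in (0 : ℝ)..t, W lam K D n (t - s) * (B lam K D * V lam K D s)) φ = _
  rw [ContinuousLinearMap.intervalIntegral_apply (hc.intervalIntegrable _ _)]
  rfl

theorem W_succ_e (n : ℕ) (t : ℝ) (j : ℕ) : W lam K D (n + 1) t (e j) =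
    ∫ s in (0 : ℝ)..t, wr lam K D s j • W lam K D n (t - s) (e (sg j)) := by
  rw [W_succ_apply]
  refine intervalIntegral.integral_congr fun s _ => ?_
  change W lam K D n (t - s) (B lam K D (V lam K D s (e j))) = _
  rw [B_V, map_smul]

theorem norm_W (hl : 0 ≤ lam) (hK : 0 ≤ K) (hD : 0 ≤ D) (n : ℕ) {t : ℝ} (ht : 0 ≤ t) :
    ‖W lam K D n t‖ ≤ 1 := by
  induction n generalizing t with
  | zero => exact norm_V hl hK hD ht
  | succ n ih =>
    refine norm_le_of_e zero_le_one fun j => ?_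
    rw [W_succ_e]
    refine (intervalIntegral.norm_integral_le_integral_norm ht).trans ?_
    refine le_trans ?_ (int_wr_le (K := K) (D := D) hl j ht)
    have hc1 : Continuous fun s : ℝ => W lam K D n (t - s) (e (sg j)) :=
      ((W_cont n).comp (by fun_prop : Continuous fun s : ℝ => t - s)).clm_apply continuous_const
    refine intervalIntegral.integral_mono_on ht
      (((wr_cont lam K D j).smul hc1).norm.intervalIntegrable _ _)
      ((wr_cont lam K D j).intervalIntegrable _ _) fun s hs => ?_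
    rw [norm_smul, Real.norm_eq_abs, abs_of_nonneg (wr_nonneg hl hK hD j hs.1)]
    have h1 : ‖W lam K D n (t - s) (e (sg j))‖ ≤ 1 := by
      refine ((W lam K D n (t - s)).le_opNorm _).trans ?_
      rw [norm_e, mul_one]
      exact ih (by linarith [hs.2])
    exact mul_le_of_le_one_right (wr_nonneg hl hK hD j hs.1) h1

/-! ### explicit terms -/

theorem W1_0 (t : ℝ) : W lam K D 1 t (e 0) = 0 := by
  rw [W_succ_e]
  simp [wr]

theorem W1_1 (t : ℝ) : W lam K D 1 t (e 1) = (K * t * Real.exp (-(K * t))) • e 0 := by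
  rw [W_succ_e]
  have h : ∀ s : ℝ, wr lam K D s 1 • W lam K D 0 (t - s) (e (sg 1)) =
      (K * Real.exp (-(K * t))) • (e 0 : L1 ℕ) := by
    intro s
    change wr lam K D s 1 • V lam K D (t - s) (e 0) = _
    rw [V_e, yv, wr, smul_smul]
    congr 1
    rw [mul_assoc, ← Real.exp_add]
    congr 2
    ring
  simp only [h]
  rw [intervalIntegral.integral_const, smul_smul]
  congr 1
  ring

theorem W1_2 (t : ℝ) : W lam K D 1 t (e 2) =
    (∫ s in (0 : ℝ)..t, D * Real.exp (-(D * s)) * Real.exp (-(K * (t - s)))) • e 1 := by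
  rw [W_succ_e, ← intervalIntegral.integral_smul_const]
  refine intervalIntegral.integral_congr fun s _ => ?_
  change wr lam K D s 2 • V lam K D (t - s) (e 1) = _
  rw [V_e, yv, wr, smul_smul]

theorem W1_3 (t : ℝ) (i : ℕ) : W lam K D 1 t (e (i + 3)) =
    (∫ s in (0 : ℝ)..t, lam * pm lam i s * Real.exp (-(D * (t - s)))) • e 2 := by
  rw [W_succ_e, ← intervalIntegral.integral_smul_const]
  refine intervalIntegral.integral_congr fun s _ => ?_
  change wr lam K D s (i + 3) • V lam K D (t - s) (e 2) = _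
  rw [V_e, yv, wr, smul_smul]

variable (K D) in
/-- the mass at the last state after two steps -/
noncomputable def bt (t : ℝ) : ℝ :=
  ∫ s in (0 : ℝ)..t, D * Real.exp (-(D * s)) * (K * (t - s) * Real.exp (-(K * (t - s))))

theorem W2_2 (t : ℝ) : W lam K D 2 t (e 2) = bt K D t • e 0 := by
  rw [W_succ_e, bt, ← intervalIntegral.integral_smul_const]
  refine intervalIntegral.integral_congr fun s _ => ?_
  change wr lam K D s 2 • W lam K D 1 (t - s) (e 1) = _
  rw [W1_1, wr, smul_smul]

theorem W3_3 (t : ℝ) (i : ℕ) : W lam K D 3 t (e (i + 3)) =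
    (∫ s in (0 : ℝ)..t, lam * pm lam i s * bt K D (t - s)) • e 0 := by
  rw [W_succ_e, ← intervalIntegral.integral_smul_const]
  refine intervalIntegral.integral_congr fun s _ => ?_
  change wr lam K D s (i + 3) • W lam K D 2 (t - s) (e 2) = _
  rw [W2_2, wr, smul_smul]

theorem int_exp_le {a : ℝ} (ha : 0 < a) (t : ℝ) :
    ∫ s in (0 : ℝ)..t, Real.exp (-(a * s)) ≤ 1 / a := by
  have h := intervalIntegral.integral_eq_sub_of_hasDerivAt (a := 0) (b := t)
    (f := fun t => -(1 / a * Real.exp (-(a * t)))) (f' := fun t => Real.exp (-(a * t)))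
    (fun t _ => by
      refine (((exp_deriv a t).const_mul (1 / a)).fun_neg).congr_deriv ?_
      field_simp)
    ((by fun_prop : Continuous fun t => Real.exp (-(a * t))).intervalIntegrable _ _)
  rw [h]
  have h2 : 0 ≤ 1 / a * Real.exp (-(a * t)) := by positivity
  simp only [mul_zero, neg_zero, Real.exp_zero, mul_one]
  linarith

theorem norm_W1 (hl : 0 < lam) (hK : 0 < K) (hD : 2 * K ≤ D) {t : ℝ} (ht : 0 ≤ t) :
    ‖W lam K D 1 t‖ ≤ lam / D + 2 * Real.exp (-(K * t)) + K * t * Real.exp (-(K * t)) := by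
  have hD0 : 0 < D := by linarith
  have p1 : 0 ≤ lam / D := by positivity
  have p2 : 0 ≤ 2 * Real.exp (-(K * t)) := by positivity
  have p3 : 0 ≤ K * t * Real.exp (-(K * t)) := by positivity
  refine norm_le_of_e (by linarith) fun j => ?_
  match j with
  | 0 => rw [W1_0, norm_zero]; linarith
  | 1 => rw [W1_1, norm_smul_e, abs_of_nonneg p3]; linarith
  | 2 =>
    rw [W1_2, norm_smul_e]
    have h0 : 0 ≤ ∫ s in (0 : ℝ)..t, D * Real.exp (-(D * s)) * Real.exp (-(K * (t - s))) :=
      intervalIntegral.integral_nonneg ht fun s _ => by positivity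
    rw [abs_of_nonneg h0]
    have h1 : ∀ s : ℝ, D * Real.exp (-(D * s)) * Real.exp (-(K * (t - s))) =
        (D * Real.exp (-(K * t))) * Real.exp (-((D - K) * s)) := by
      intro s
      rw [mul_assoc, mul_assoc, ← Real.exp_add, ← Real.exp_add]
      congr 2
      ring
    simp only [h1]
    rw [intervalIntegral.integral_const_mul]
    have h2 := int_exp_le (a := D - K) (by linarith) t
    have h3 : D * Real.exp (-(K * t)) * (∫ s in (0 : ℝ)..t, Real.exp (-((D - K) * s))) ≤
        D * Real.exp (-(K * t)) * (1 / (D - K)) :=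
      mul_le_mul_of_nonneg_left h2 (by positivity)
    have h4 : D * Real.exp (-(K * t)) * (1 / (D - K)) ≤ 2 * Real.exp (-(K * t)) := by
      have h5 : D * (1 / (D - K)) ≤ 2 := by
        rw [mul_one_div, div_le_iff₀ (by linarith)]
        linarith
      calc _ = (D * (1 / (D - K))) * Real.exp (-(K * t)) := by ring
        _ ≤ _ := mul_le_mul_of_nonneg_right h5 (Real.exp_nonneg _)
    linarith
  | i + 3 =>
    rw [W1_3, norm_smul_e]
    have h0 : 0 ≤ ∫ s in (0 : ℝ)..t, lam * pm lam i s * Real.exp (-(D * (t - s))) :=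
      intervalIntegral.integral_nonneg ht fun s hs =>
        mul_nonneg (mul_nonneg hl.le (pm_nonneg hl.le i hs.1)) (Real.exp_nonneg _)
    rw [abs_of_nonneg h0]
    have hpc := pm_cont lam i
    have h1 : ∫ s in (0 : ℝ)..t, lam * pm lam i s * Real.exp (-(D * (t - s))) ≤
        ∫ s in (0 : ℝ)..t, lam * Real.exp (-(D * (t - s))) := by
      refine intervalIntegral.integral_mono_on ht
        ((by fun_prop : Continuous fun s => lam * pm lam i s *
          Real.exp (-(D * (t - s)))).intervalIntegrable _ _)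
        ((by fun_prop : Continuous fun s => lam *
          Real.exp (-(D * (t - s)))).intervalIntegrable _ _) fun s hs => ?_
      have h2 : pm lam i s ≤ 1 := by
        refine le_trans ?_ (sum_pm_le hl.le i hs.1)
        exact Finset.single_le_sum (f := fun l => pm lam l s)
          (fun l _ => pm_nonneg hl.le l hs.1) (Finset.mem_range.2 (Nat.lt_succ_self i))
      have h3 : lam * pm lam i s ≤ lam := mul_le_of_le_one_right hl.le h2
      exact mul_le_mul_of_nonneg_right h3 (Real.exp_nonneg _)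
    rw [intervalIntegral.integral_const_mul,
      intervalIntegral.integral_comp_sub_left (fun x => Real.exp (-(D * x))) t] at h1
    simp only [sub_self, sub_zero] at h1
    have h4 := int_exp_le hD0 t
    have h5 : lam * (∫ x in (0 : ℝ)..t, Real.exp (-(D * x))) ≤ lam * (1 / D) :=
      mul_le_mul_of_nonneg_left h4 hl.le
    rw [mul_one_div] at h5
    linarith

theorem W1_coord (t : ℝ) (φ : L1 ℕ) (i : ℕ) : W lam K D 1 t φ (i + 3) = 0 := by
  have h : (coord (i + 3)).comp (W lam K D 1 t) = 0 := by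
    refine ext_e fun j => ?_
    have hs : ∀ (a : ℝ) (φ : L1 ℕ), (a • φ) (i + 3) = a * φ (i + 3) := fun _ _ => rfl
    change W lam K D 1 t (e j) (i + 3) = 0
    match j with
    | 0 => rw [W1_0]; rfl
    | 1 => rw [W1_1, hs, e_apply, if_neg (by omega), mul_zero]
    | 2 => rw [W1_2, hs, e_apply, if_neg (by omega), mul_zero]
    | j + 3 => rw [W1_3, hs, e_apply, if_neg (by omega), mul_zero]
  exact congrArg (fun A => A φ) h

theorem bt_ge {R : ℝ} (hK : 0 < K) (hD : 0 < D) {t : ℝ} (ht : 0 ≤ t) (h1 : 1 ≤ K * t)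
    (h2 : K * t ≤ R) (h3 : 2 ≤ D * t) :
    (1 - Real.exp (-1)) * (1 / 2 * Real.exp (-R)) ≤ bt K D t := by
  have hc : Continuous fun s => D * Real.exp (-(D * s)) *
      (K * (t - s) * Real.exp (-(K * (t - s)))) := by fun_prop
  have hpos : ∀ s ∈ Set.Icc 0 t, 0 ≤ D * Real.exp (-(D * s)) *
      (K * (t - s) * Real.exp (-(K * (t - s)))) := by
    intro s hs
    have : 0 ≤ t - s := by linarith [hs.2]
    positivity
  have hsplit : bt K D t = (∫ s in (0 : ℝ)..(t / 2), D * Real.exp (-(D * s)) *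
      (K * (t - s) * Real.exp (-(K * (t - s))))) + ∫ s in (t / 2)..t, D * Real.exp (-(D * s)) *
      (K * (t - s) * Real.exp (-(K * (t - s)))) :=
    (intervalIntegral.integral_add_adjacent_intervals (hc.intervalIntegrable _ _)
      (hc.intervalIntegrable _ _)).symm
  have h4 : 0 ≤ ∫ s in (t / 2)..t, D * Real.exp (-(D * s)) *
      (K * (t - s) * Real.exp (-(K * (t - s)))) :=
    intervalIntegral.integral_nonneg (by linarith) fun s hs => hpos s ⟨by linarith [hs.1], hs.2⟩
  have h5 : ∫ s in (0 : ℝ)..(t / 2), D * Real.exp (-(D * s)) * (1 / 2 * Real.exp (-R)) ≤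
      ∫ s in (0 : ℝ)..(t / 2), D * Real.exp (-(D * s)) *
      (K * (t - s) * Real.exp (-(K * (t - s)))) := by
    refine intervalIntegral.integral_mono_on (by linarith)
      ((by fun_prop : Continuous fun s => D * Real.exp (-(D * s)) *
        (1 / 2 * Real.exp (-R))).intervalIntegrable _ _) (hc.intervalIntegrable _ _)
      fun s hs => ?_
    refine mul_le_mul_of_nonneg_left ?_ (by positivity)
    have h6 : 1 / 2 ≤ K * (t - s) := by nlinarith [hs.2]
    have h7 : Real.exp (-R) ≤ Real.exp (-(K * (t - s))) := by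
      rw [Real.exp_le_exp]
      nlinarith [hs.1]
    exact mul_le_mul h6 h7 (Real.exp_nonneg _) (by linarith)
  have h8 : ∫ s in (0 : ℝ)..(t / 2), D * Real.exp (-(D * s)) * (1 / 2 * Real.exp (-R)) =
      (1 - Real.exp (-(D * (t / 2)))) * (1 / 2 * Real.exp (-R)) := by
    rw [intervalIntegral.integral_mul_const]
    congr 1
    have h := int_wr (lam := 0) (K := K) (D := D) 2 0 (t / 2)
    simp only [wr, qv, mul_zero, neg_zero, Real.exp_zero] at h
    exact h
  have h9 : Real.exp (-(D * (t / 2))) ≤ Real.exp (-1) := by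
    rw [Real.exp_le_exp]
    linarith
  have h10 : (1 - Real.exp (-1)) * (1 / 2 * Real.exp (-R)) ≤
      (1 - Real.exp (-(D * (t / 2)))) * (1 / 2 * Real.exp (-R)) :=
    mul_le_mul_of_nonneg_right (by linarith) (by positivity)
  rw [hsplit]
  linarith

end

end Pool.Agent.R906.DP
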