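import Mathlib
import Pool.Agent.R906.DPW
set_option autoImplicit false
set_option linter.unusedSectionVars false

/-!
# The lower bound for the third Dyson-Phillips term
-/

namespace Pool.Agent.R906.DP

open Filter Topology MeasureTheory

section

/-- Poisson weights -/
noncomputable def PP (μ : ℝ) (l : ℕ) : ℝ := Real.exp (-μ) * μ ^ l / l.factorial

theorem PP_nonneg {μ : ℝ} (hμ : 0 ≤ μ) (l : ℕ) : 0 ≤ PP μ l := by
  unfold PP
  positivity

theorem hasSum_PP (μ : ℝ) : HasSum (PP μ) 1 := by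
  have h := (NormedSpace.expSeries_div_hasSum_exp μ).mul_left (Real.exp (-μ))
  rw [← Real.exp_eq_exp_ℝ, ← Real.exp_add, neg_add_cancel, Real.exp_zero] at h
  have h2 : PP μ = fun l : ℕ => Real.exp (-μ) * (μ ^ l / l.factorial) := by
    funext l
    rw [PP, mul_div_assoc]
  rw [h2]
  exact h

theorem PP_succ (μ : ℝ) (l : ℕ) : ((l : ℝ) + 1) * PP μ (l + 1) = μ * PP μ l := by
  unfold PP
  rw [Nat.factorial_succ]
  have h : (l.factorial : ℝ) ≠ 0 := by positivity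
  have h2 : (l : ℝ) + 1 ≠ 0 := by positivity
  push_cast
  field_simp
  ring

theorem hasSum_PP1 (μ : ℝ) : HasSum (fun l : ℕ => (l : ℝ) * PP μ l) μ := by
  have h := (hasSum_PP μ).mul_left μ
  rw [mul_one] at h
  have h2 : (fun l : ℕ => μ * PP μ l) = fun l : ℕ => ((l + 1 : ℕ) : ℝ) * PP μ (l + 1) := by
    funext l
    rw [← PP_succ]
    push_cast
    ring
  rw [h2] at h
  have h3 := (hasSum_nat_add_iff (f := fun l : ℕ => (l : ℝ) * PP μ l) 1).1 h
  simpa using h3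

theorem hasSum_PP2 (μ : ℝ) : HasSum (fun l : ℕ => (l : ℝ) * ((l : ℝ) - 1) * PP μ l) (μ ^ 2) := by
  have h := (hasSum_PP1 μ).mul_left μ
  have h2 : (fun l : ℕ => μ * ((l : ℝ) * PP μ l)) =
      fun l : ℕ => ((l + 1 : ℕ) : ℝ) * (((l + 1 : ℕ) : ℝ) - 1) * PP μ (l + 1) := by
    funext l
    have := PP_succ μ l
    push_cast
    calc μ * ((l : ℝ) * PP μ l) = (l : ℝ) * (μ * PP μ l) := by ring
      _ = (l : ℝ) * (((l : ℝ) + 1) * PP μ (l + 1)) := by rw [this]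
      _ = _ := by ring
  rw [h2] at h
  have h3 := (hasSum_nat_add_iff (f := fun l : ℕ => (l : ℝ) * ((l : ℝ) - 1) * PP μ l) 1).1 h
  have h4 : ∑ i ∈ Finset.range 1, (i : ℝ) * ((i : ℝ) - 1) * PP μ i = 0 := by simp
  rw [h4, add_zero] at h3
  rw [sq]
  exact h3

theorem hasSum_var (μ : ℝ) : HasSum (fun l : ℕ => ((l : ℝ) - μ) ^ 2 * PP μ l) μ := by
  have h := ((hasSum_PP2 μ).add ((hasSum_PP1 μ).mul_left (1 - 2 * μ))).add
    ((hasSum_PP μ).mul_left (μ ^ 2))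
  have h2 : μ ^ 2 + (1 - 2 * μ) * μ + μ ^ 2 * 1 = μ := by ring
  rw [h2] at h
  have h3 : (fun l : ℕ => ((l : ℝ) - μ) ^ 2 * PP μ l) = fun l : ℕ =>
      (l : ℝ) * ((l : ℝ) - 1) * PP μ l + (1 - 2 * μ) * ((l : ℝ) * PP μ l) + μ ^ 2 * PP μ l := by
    funext l
    ring
  rw [h3]
  exact h

theorem cheb_upper {μ : ℝ} (hμ : 0 ≤ μ) (m : ℕ) (hm : (m : ℝ) ≤ μ) :
    (μ - m) ^ 2 * ∑ l ∈ Finset.range (m + 1), PP μ l ≤ μ := by
  have h1 : ∑ l ∈ Finset.range (m + 1), ((l : ℝ) - μ) ^ 2 * PP μ l ≤ μ :=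
    sum_le_hasSum _ (fun l _ => mul_nonneg (sq_nonneg _) (PP_nonneg hμ l)) (hasSum_var μ)
  refine le_trans ?_ h1
  rw [Finset.mul_sum]
  refine Finset.sum_le_sum fun l hl => mul_le_mul_of_nonneg_right ?_ (PP_nonneg hμ l)
  have h2 : (l : ℝ) ≤ m := by
    have := Finset.mem_range.1 hl
    exact_mod_cast (by omega : l ≤ m)
  nlinarith

theorem cheb_lower {μ : ℝ} (hμ : 0 ≤ μ) (m : ℕ) (hm : μ ≤ (m : ℝ)) :
    (m - μ) ^ 2 * (1 - ∑ l ∈ Finset.range (m + 1), PP μ l) ≤ μ := by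
  have h1 := (hasSum_nat_add_iff' (m + 1)).2 (hasSum_PP μ)
  have h2 := (hasSum_nat_add_iff' (m + 1)).2 (hasSum_var μ)
  have h3 := h1.mul_left (((m : ℝ) - μ) ^ 2)
  have h4 := hasSum_le (fun l => ?_) h3 h2
  · have h5 : 0 ≤ ∑ l ∈ Finset.range (m + 1), ((l : ℝ) - μ) ^ 2 * PP μ l :=
      Finset.sum_nonneg fun l _ => mul_nonneg (sq_nonneg _) (PP_nonneg hμ l)
    linarith
  · refine mul_le_mul_of_nonneg_right ?_ (PP_nonneg hμ _)
    push_cast
    have h6 : (0 : ℝ) ≤ l := Nat.cast_nonneg l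
    nlinarith

/-- the number `N` of the block -/
def NN (k : ℕ) : ℕ := k + 12

/-- the parameters of the block `k` -/
noncomputable def Kk (k : ℕ) : ℝ := NN k

/-- the parameters of the block `k` -/
noncomputable def lk (k : ℕ) : ℝ := (NN k : ℝ) ^ 2 + 6 * NN k

/-- the parameters of the block `k` -/
noncomputable def Dk (k : ℕ) : ℝ := lk k ^ 2

theorem NN_ge (k : ℕ) : (12 : ℝ) ≤ NN k := by
  unfold NN
  push_cast
  have : (0 : ℝ) ≤ k := Nat.cast_nonneg k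
  linarith

theorem Kk_pos (k : ℕ) : 0 < Kk k := by
  have := NN_ge k
  unfold Kk
  linarith

theorem lk_pos (k : ℕ) : 0 < lk k := by
  have := NN_ge k
  unfold lk
  positivity

theorem lk_ge (k : ℕ) : (NN k : ℝ) ≤ lk k := by
  have := NN_ge k
  unfold lk
  nlinarith

theorem Dk_pos (k : ℕ) : 0 < Dk k := by
  have := lk_pos k
  unfold Dk
  positivity

theorem two_Kk_le (k : ℕ) : 2 * Kk k ≤ Dk k := by
  have h1 := NN_ge k
  have h2 := lk_ge k
  unfold Kk Dk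
  nlinarith

/-- the lower bound -/
noncomputable def c0 : ℝ := (1 - Real.exp (-1)) * (1 / 2 * Real.exp (-12)) * (1 / 2)

theorem c0_pos : 0 < c0 := by
  have h : Real.exp (-1) < 1 := by
    rw [Real.exp_lt_one_iff]
    norm_num
  unfold c0
  have : 0 < 1 - Real.exp (-1) := by linarith
  positivity

theorem bt_nonneg {K D : ℝ} (hK : 0 ≤ K) (hD : 0 ≤ D) {t : ℝ} (ht : 0 ≤ t) : 0 ≤ bt K D t :=
  intervalIntegral.integral_nonneg ht fun s hs => by
    have : 0 ≤ t - s := by linarith [hs.2]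
    positivity

theorem bt_cont (K D : ℝ) : Continuous (bt K D) := by
  have h : Continuous fun t : ℝ => ∫ s in (0 : ℝ)..t, (fun (t s : ℝ) =>
      D * Real.exp (-(D * s)) * (K * (t - s) * Real.exp (-(K * (t - s))))) t s := by
    refine intervalIntegral.continuous_parametric_intervalIntegral_of_continuous ?_ continuous_id
    change Continuous fun p : ℝ × ℝ =>
      D * Real.exp (-(D * p.2)) * (K * (p.1 - p.2) * Real.exp (-(K * (p.1 - p.2))))
    fun_prop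
  exact h

theorem qv_PP (lam K D t : ℝ) (m : ℕ) :
    qv lam K D t (m + 3) = ∑ l ∈ Finset.range (m + 1), PP (lam * t) l := by
  rw [qv]
  rfl

theorem window (k : ℕ) : 1 / 2 ≤ ∫ s in (1 - 12 / (NN k : ℝ))..(1 - 1 / (NN k : ℝ)),
    wr (lk k) (Kk k) (Dk k) s (NN k ^ 2 + 3) := by
  rw [int_wr, qv_PP, qv_PP]
  have hN := NN_ge k
  set N : ℝ := (NN k : ℝ) with hNdef
  have hm : ((NN k ^ 2 : ℕ) : ℝ) = N ^ 2 := by
    push_cast
    rfl
  have ha : lk k * (1 - 12 / N) = N ^ 2 - 6 * N - 72 := by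
    unfold lk
    rw [← hNdef]
    field_simp
    ring
  have hb : lk k * (1 - 1 / N) = N ^ 2 + 5 * N - 6 := by
    unfold lk
    rw [← hNdef]
    field_simp
    ring
  rw [ha, hb]
  have h1 : 0 ≤ N ^ 2 - 6 * N - 72 := by nlinarith
  have h2 : 0 ≤ N ^ 2 + 5 * N - 6 := by nlinarith
  have h3 := cheb_lower h1 (NN k ^ 2) (by rw [hm]; nlinarith)
  have h4 := cheb_upper h2 (NN k ^ 2) (by rw [hm]; nlinarith)
  rw [hm] at h3 h4
  set Qa := ∑ l ∈ Finset.range (NN k ^ 2 + 1), PP (N ^ 2 - 6 * N - 72) l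
  set Qb := ∑ l ∈ Finset.range (NN k ^ 2 + 1), PP (N ^ 2 + 5 * N - 6) l
  have h5 : 1 - Qa ≤ 1 / 36 := by
    have h6 : (N ^ 2 - (N ^ 2 - 6 * N - 72)) ^ 2 = (6 * N + 72) ^ 2 := by ring
    rw [h6] at h3
    by_contra hcon
    push Not at hcon
    have h7 : (6 * N + 72) ^ 2 * (1 / 36) < (6 * N + 72) ^ 2 * (1 - Qa) :=
      mul_lt_mul_of_pos_left hcon (by positivity)
    nlinarith
  have h8 : Qb ≤ 1 / 4 := by
    have h6 : (N ^ 2 + 5 * N - 6 - N ^ 2) ^ 2 = (5 * N - 6) ^ 2 := by ring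
    rw [h6] at h4
    by_contra hcon
    push Not at hcon
    have h9 : 0 < 5 * N - 6 := by linarith
    have h7 : (5 * N - 6) ^ 2 * (1 / 4) < (5 * N - 6) ^ 2 * Qb :=
      mul_lt_mul_of_pos_left hcon (by positivity)
    nlinarith
  linarith

/-- the third term at time `1` is bounded below -/
theorem W3_ge (k : ℕ) : ∃ c : ℝ, c0 ≤ c ∧
    W (lk k) (Kk k) (Dk k) 3 1 (e (NN k ^ 2 + 3)) = c • e 0 := by
  refine ⟨_, ?_, W3_3 1 (NN k ^ 2)⟩
  have hN := NN_ge k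
  have hK := Kk_pos k
  have hD := Dk_pos k
  have hl := lk_pos k
  have hKN : Kk k = NN k := rfl
  have ha0 : (0 : ℝ) ≤ 1 - 12 / (NN k : ℝ) := by
    rw [sub_nonneg, div_le_one (by linarith)]
    exact hN
  have hab : (1 : ℝ) - 12 / (NN k : ℝ) ≤ 1 - 1 / (NN k : ℝ) := by
    have : (1 : ℝ) / (NN k : ℝ) ≤ 12 / (NN k : ℝ) := by
      gcongr
      norm_num
    linarith
  have hb1 : (1 : ℝ) - 1 / (NN k : ℝ) ≤ 1 := by
    have : (0 : ℝ) ≤ 1 / (NN k : ℝ) := by positivity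
    linarith
  have hpc := pm_cont (lk k) (NN k ^ 2)
  have hbc := bt_cont (Kk k) (Dk k)
  have hc : Continuous fun s : ℝ => lk k * pm (lk k) (NN k ^ 2) s * bt (Kk k) (Dk k) (1 - s) := by
    have : Continuous fun s : ℝ => bt (Kk k) (Dk k) (1 - s) := hbc.comp (by fun_prop)
    fun_prop
  have hpos : ∀ s ∈ Set.Icc (0 : ℝ) 1,
      0 ≤ lk k * pm (lk k) (NN k ^ 2) s * bt (Kk k) (Dk k) (1 - s) := by
    intro s hs
    exact mul_nonneg (mul_nonneg hl.le (pm_nonneg hl.le _ hs.1))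
      (bt_nonneg hK.le hD.le (by linarith [hs.2]))
  have h1 : ∫ s in (1 - 12 / (NN k : ℝ))..(1 - 1 / (NN k : ℝ)),
      lk k * pm (lk k) (NN k ^ 2) s * bt (Kk k) (Dk k) (1 - s) ≤
      ∫ s in (0 : ℝ)..1, lk k * pm (lk k) (NN k ^ 2) s * bt (Kk k) (Dk k) (1 - s) := by
    have e1 := intervalIntegral.integral_add_adjacent_intervals
      (hc.intervalIntegrable (μ := volume) 0 (1 - 12 / (NN k : ℝ)))
      (hc.intervalIntegrable (1 - 12 / (NN k : ℝ)) (1 - 1 / (NN k : ℝ)))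
    have e2 := intervalIntegral.integral_add_adjacent_intervals
      (hc.intervalIntegrable (μ := volume) 0 (1 - 1 / (NN k : ℝ)))
      (hc.intervalIntegrable (1 - 1 / (NN k : ℝ)) 1)
    have e3 : 0 ≤ ∫ s in (0 : ℝ)..(1 - 12 / (NN k : ℝ)),
        lk k * pm (lk k) (NN k ^ 2) s * bt (Kk k) (Dk k) (1 - s) :=
      intervalIntegral.integral_nonneg ha0 fun s hs => hpos s ⟨hs.1, by linarith [hs.2]⟩
    have e4 : 0 ≤ ∫ s in (1 - 1 / (NN k : ℝ))..1,
        lk k * pm (lk k) (NN k ^ 2) s * bt (Kk k) (Dk k) (1 - s) :=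
      intervalIntegral.integral_nonneg hb1 fun s hs => hpos s ⟨by linarith [hs.1], hs.2⟩
    linarith
  refine le_trans ?_ h1
  have h2 : ∫ s in (1 - 12 / (NN k : ℝ))..(1 - 1 / (NN k : ℝ)),
      wr (lk k) (Kk k) (Dk k) s (NN k ^ 2 + 3) *
        ((1 - Real.exp (-1)) * (1 / 2 * Real.exp (-12))) ≤
      ∫ s in (1 - 12 / (NN k : ℝ))..(1 - 1 / (NN k : ℝ)),
        lk k * pm (lk k) (NN k ^ 2) s * bt (Kk k) (Dk k) (1 - s) := by
    have hwc := wr_cont (lk k) (Kk k) (Dk k) (NN k ^ 2 + 3)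
    refine intervalIntegral.integral_mono_on hab
      ((hwc.mul continuous_const).intervalIntegrable _ _) (hc.intervalIntegrable _ _)
      fun s hs => ?_
    have hs0 : 0 ≤ s := ha0.trans hs.1
    rw [wr]
    refine mul_le_mul_of_nonneg_left ?_ (mul_nonneg hl.le (pm_nonneg hl.le _ hs0))
    have h3 : 1 / (NN k : ℝ) ≤ 1 - s := by linarith [hs.2]
    have h4 : 1 - s ≤ 12 / (NN k : ℝ) := by linarith [hs.1]
    have h5 : 1 ≤ Kk k * (1 - s) := by
      rw [hKN]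
      rw [div_le_iff₀ (by linarith)] at h3
      linarith
    have h6 : Kk k * (1 - s) ≤ 12 := by
      rw [hKN]
      rw [le_div_iff₀ (by linarith)] at h4
      linarith
    have h0 : 0 ≤ 1 - s := le_trans (by positivity) h3
    have h7 : 2 ≤ Dk k * (1 - s) := by
      have h8 := mul_le_mul_of_nonneg_right (two_Kk_le k) h0
      linarith
    exact bt_ge hK hD h0 h5 h6 h7
  refine le_trans ?_ h2
  rw [intervalIntegral.integral_mul_const]
  have h9 := window k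
  unfold c0
  rw [mul_comm]
  refine mul_le_mul_of_nonneg_right h9 ?_
  have h : Real.exp (-1) < 1 := by
    rw [Real.exp_lt_one_iff]
    norm_num
  have : 0 < 1 - Real.exp (-1) := by linarith
  positivity

end

end Pool.Agent.R906.DP
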