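import Mathlib
import Pool.Agent.R906.DPDefs
import Pool.Agent.R906.DPPois
set_option autoImplicit false
set_option linter.unusedSectionVars false

/-!
# The counterexample
-/

namespace Pool.Agent.R906.DP

open Filter Topology MeasureTheory

section block

variable {lam K D : ℝ}

/-- resolvents of a block -/
theorem exists_R (hl : 0 ≤ lam) (hK : 0 ≤ K) (hD : 0 ≤ D) {μ : ℝ} (hμ : 0 < μ) :
    ∃ R : L1 ℕ →L[ℝ] L1 ℕ, (μ • (1 : L1 ℕ →L[ℝ] L1 ℕ) - A lam K D) * R = 1 ∧
      R * (μ • (1 : L1 ℕ →L[ℝ] L1 ℕ) - A lam K D) = 1 ∧ ‖R‖ ≤ 1 / μ := by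
  set c : ℝ := lam + K + D with hc
  have hc0 : 0 ≤ c := by positivity
  set Q : L1 ℕ →L[ℝ] L1 ℕ := A lam K D + c • 1 with hQ
  have hQe : ∀ j, Q (e j) = colA lam K D j + c • e j := fun j => by
    rw [← A_e]
    rfl
  have hQn : ‖Q‖ ≤ c := by
    refine norm_le_of_e hc0 fun j => ?_
    rw [hQe]
    match j with
    | 0 =>
      rw [colA, ← add_smul, norm_smul_e, abs_of_nonneg (by linarith)]
      linarith
    | 1 =>
      rw [colA, ← add_smul, norm_smul_e, abs_of_nonneg (by linarith)]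
      linarith
    | 2 =>
      rw [colA, ← add_smul, norm_smul_e, abs_of_nonneg (by linarith)]
      linarith
    | 3 =>
      rw [colA, ← add_smul, norm_smul_e, abs_of_nonneg (by linarith)]
      linarith
    | j + 4 =>
      have h1 : colA lam K D (j + 4) + c • e (j + 4) =
          lam • e (j + 3) + (c - lam) • (e (j + 4) : L1 ℕ) := by
        rw [colA, smul_sub, sub_smul]
        abel
      rw [h1]
      refine (norm_add_le _ _).trans ?_
      rw [norm_smul_e, norm_smul_e, abs_of_nonneg hl, abs_of_nonneg (by linarith)]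
      linarith
  have hmc : 0 < μ + c := by linarith
  set x : L1 ℕ →L[ℝ] L1 ℕ := (μ + c)⁻¹ • Q with hx
  have hxn : ‖x‖ ≤ c / (μ + c) := by
    rw [hx, norm_smul, Real.norm_eq_abs, abs_of_pos (inv_pos.2 hmc), div_eq_inv_mul]
    exact mul_le_mul_of_nonneg_left hQn (inv_pos.2 hmc).le
  have hlt : c / (μ + c) < 1 := by
    rw [div_lt_one hmc]
    linarith
  have hx1 : ‖x‖ < 1 := hxn.trans_lt hlt
  have h1 := mul_neg_geom_series x hx1
  have h2 := geom_series_mul_neg x hx1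
  have hS : ‖∑' i : ℕ, x ^ i‖ ≤ (1 - ‖x‖)⁻¹ := by
    refine tsum_of_norm_bounded (hasSum_geometric_of_lt_one (norm_nonneg x) hx1) fun i => ?_
    rcases Nat.eq_zero_or_pos i with rfl | hi
    · rw [pow_zero, pow_zero]
      exact ContinuousLinearMap.norm_id_le
    · exact norm_pow_le' x hi
  have h3 : μ • (1 : L1 ℕ →L[ℝ] L1 ℕ) - A lam K D = (μ + c) • (1 - x) := by
    rw [hx, smul_sub, smul_smul, mul_inv_cancel₀ hmc.ne', one_smul, hQ, add_smul]
    abel
  refine ⟨(μ + c)⁻¹ • ∑' i : ℕ, x ^ i, ?_, ?_, ?_⟩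
  · rw [h3, smul_mul_smul_comm, h1, mul_inv_cancel₀ hmc.ne', one_smul]
  · rw [h3, smul_mul_smul_comm, h2, inv_mul_cancel₀ hmc.ne', one_smul]
  · rw [norm_smul, Real.norm_eq_abs, abs_of_pos (inv_pos.2 hmc)]
    have h4 : (1 - ‖x‖)⁻¹ ≤ (μ + c) / μ := by
      rw [inv_le_comm₀ (by linarith) (by positivity), inv_div]
      have : μ / (μ + c) = 1 - c / (μ + c) := by
        field_simp
        ring
      rw [this]
      linarith
    calc (μ + c)⁻¹ * ‖∑' i : ℕ, x ^ i‖ ≤ (μ + c)⁻¹ * ((μ + c) / μ) :=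
          mul_le_mul_of_nonneg_left (hS.trans h4) (inv_pos.2 hmc).le
      _ = 1 / μ := by
          field_simp

theorem B_formula (φ : L1 ℕ) : B lam K D φ =
    (K * φ 1) • e 0 + (D * φ 2) • e 1 + (lam * φ 3) • e 2 := by
  have h : B lam K D = ((coord 1).smulRight (K • (e 0 : L1 ℕ)) +
      (coord 2).smulRight (D • (e 1 : L1 ℕ)) + (coord 3).smulRight (lam • (e 2 : L1 ℕ)) :
      L1 ℕ →L[ℝ] L1 ℕ) := by
    refine ext_e fun j => ?_
    rw [B_e]
    simp only [ContinuousLinearMap.add_apply, ContinuousLinearMap.smulRight_apply, coord_apply,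
      e_apply]
    match j with
    | 0 => simp [colB]
    | 1 => simp [colB]
    | 2 => simp [colB]
    | 3 => simp [colB]
    | j + 4 => simp [colB]
  have h2 := congrArg (fun A => A φ) h
  simp only [ContinuousLinearMap.add_apply, ContinuousLinearMap.smulRight_apply,
    coord_apply] at h2
  rw [h2, smul_smul, smul_smul, smul_smul]
  ring_nf

theorem exists_sign (a : ℝ) : ∃ s : ℝ, |s| ≤ 1 ∧ s * -a = |a| := by
  rcases le_total 0 a with h | h
  · exact ⟨-1, by norm_num, by rw [abs_of_nonneg h]; ring⟩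
  · exact ⟨1, by norm_num, by rw [abs_of_nonpos h]; ring⟩

/-- the perturbation is bounded by the generator -/
theorem norm_B_le (hl : 0 ≤ lam) (hK : 0 ≤ K) (hD : 0 ≤ D) (φ : L1 ℕ) :
    ‖B lam K D φ‖ ≤ ‖A lam K D φ‖ := by
  obtain ⟨s1, h1, h1'⟩ := exists_sign (K * φ 1)
  obtain ⟨s2, h2, h2'⟩ := exists_sign (D * φ 2)
  obtain ⟨s3, h3, h3'⟩ := exists_sign (lam * φ 3)
  let c : ℕ → ℝ := fun j => match j with
    | 0 => 0
    | 1 => s1
    | 2 => s2
    | _ + 3 => s3
  have hc : ∀ j, ‖c j‖ ≤ 1 := by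
    intro j
    match j with
    | 0 => simp [c]
    | 1 => exact h1
    | 2 => exact h2
    | j + 3 => exact h3
  let g : L1 ℕ →L[ℝ] ℝ := Ext c 1 hc
  have hg : ‖g‖ ≤ 1 := norm_le_of_e zero_le_one fun j => by
    rw [show g (e j) = c j from Ext_e _ _ _ _]
    exact hc j
  have h4 : g.comp (A lam K D) = (-(K * s1)) • coord 1 + (-(D * s2)) • coord 2 +
      (-(lam * s3)) • coord 3 := by
    refine ext_e fun j => ?_
    have hge : ∀ j, g (e j) = c j := fun j => Ext_e _ _ _ _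
    rw [ContinuousLinearMap.comp_apply, A_e]
    simp only [ContinuousLinearMap.add_apply, ContinuousLinearMap.smul_apply, coord_apply,
      e_apply]
    match j with
    | 0 => simp [colA, hge, c]
    | 1 => simp [colA, hge, c]
    | 2 => simp [colA, hge, c]
    | 3 => simp [colA, hge, c]
    | j + 4 => simp [colA, hge, c]
  have h5 := congrArg (fun A => A φ) h4
  simp only [ContinuousLinearMap.comp_apply, ContinuousLinearMap.add_apply,
    ContinuousLinearMap.smul_apply, coord_apply, smul_eq_mul] at h5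
  have h6 : g (A lam K D φ) = |K * φ 1| + |D * φ 2| + |lam * φ 3| := by
    rw [h5, ← h1', ← h2', ← h3']
    ring
  have h7 : g (A lam K D φ) ≤ ‖A lam K D φ‖ := by
    refine (le_abs_self _).trans ((g.le_opNorm _).trans ?_)
    exact mul_le_of_le_one_left (norm_nonneg _) hg
  rw [B_formula]
  refine (norm_add_le _ _).trans ?_
  refine (add_le_add_left (norm_add_le _ _) _).trans ?_
  rw [norm_smul_e, norm_smul_e, norm_smul_e, ← h6]
  exact h7

theorem BR_nil {μ : ℝ} (hl : 0 ≤ lam) (hK : 0 ≤ K) (hD : 0 ≤ D) (hμ : 0 < μ)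
    {R : L1 ℕ →L[ℝ] L1 ℕ}
    (h2 : R * (μ • (1 : L1 ℕ →L[ℝ] L1 ℕ) - A lam K D) = 1) : (B lam K D * R) ^ 4 = 0 := by
  have hR : ∀ (j : ℕ) (a : ℝ), 0 ≤ a → A lam K D (e j) = (-a) • e j →
      R (e j) = (μ + a)⁻¹ • e j := by
    intro j a ha hj
    have h3 : R (μ • e j - A lam K D (e j)) = e j := congrArg (fun A => A (e j)) h2
    rw [hj, ← sub_smul, sub_neg_eq_add, map_smul] at h3
    have h4 : μ + a ≠ 0 := by positivity
    calc R (e j) = (μ + a)⁻¹ • ((μ + a) • R (e j)) := by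
          rw [smul_smul, inv_mul_cancel₀ h4, one_smul]
      _ = _ := by rw [h3]
  have h0 : (B lam K D * R) (e 0) = 0 := by
    change B lam K D (R (e 0)) = 0
    rw [hR 0 K hK (A_e _ _ _ 0), map_smul, B_e, colB, smul_zero]
  have h1 : ∃ a : ℝ, (B lam K D * R) (e 1) = a • e 0 := by
    change ∃ a : ℝ, B lam K D (R (e 1)) = a • e 0
    rw [hR 1 K hK (A_e _ _ _ 1), map_smul, B_e, colB, smul_smul]
    exact ⟨_, rfl⟩
  have h2' : ∃ a : ℝ, (B lam K D * R) (e 2) = a • e 1 := by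
    change ∃ a : ℝ, B lam K D (R (e 2)) = a • e 1
    rw [hR 2 D hD (A_e _ _ _ 2), map_smul, B_e, colB, smul_smul]
    exact ⟨_, rfl⟩
  obtain ⟨a1, h1⟩ := h1
  obtain ⟨a2, h2'⟩ := h2'
  ext1 φ
  have h5 : (B lam K D * R) φ = (K * R φ 1) • e 0 + (D * R φ 2) • e 1 + (lam * R φ 3) • e 2 :=
    B_formula (R φ)
  change (B lam K D * R) ((B lam K D * R) ((B lam K D * R) ((B lam K D * R) φ))) = 0
  rw [h5]
  simp only [map_add, map_smul, h0, h1, h2', smul_zero, zero_add, add_zero]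

end block

end Pool.Agent.R906.DP
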