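import Mathlib
import Pool.Agent.R906.DPMain
set_option autoImplicit false
set_option linter.unusedSectionVars false

/-!
# The counterexample: the sum of the blocks
-/

namespace Pool.Agent.R906.DP

open Filter Topology MeasureTheory

section main

/-- the Dyson-Phillips terms -/
noncomputable def Us (n : ℕ) (t : ℝ) : L1 (ℕ × ℕ) →L[ℝ] L1 (ℕ × ℕ) :=
  blk fun k => W (lk k) (Kk k) (Dk k) n t

theorem norm_Wk (n : ℕ) {t : ℝ} (ht : 0 ≤ t) (k : ℕ) : ‖W (lk k) (Kk k) (Dk k) n t‖ ≤ 1 :=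
  norm_W (lk_pos k).le (Kk_pos k).le (Dk_pos k).le n ht

theorem pr_Us (n : ℕ) {t : ℝ} (ht : 0 ≤ t) (k : ℕ) (φ : L1 (ℕ × ℕ)) :
    pr k (Us n t φ) = W (lk k) (Kk k) (Dk k) n t (pr k φ) :=
  pr_blk (C := 1) (norm_Wk n ht) k φ

theorem norm_Us (n : ℕ) {t : ℝ} (ht : 0 ≤ t) : ‖Us n t‖ ≤ 1 :=
  norm_blk_le zero_le_one (norm_Wk n ht)

theorem cont_Us (n : ℕ) (φ : L1 (ℕ × ℕ)) : ContinuousOn (fun t => Us n t φ) (Set.Ici 0) := by
  have h1 : ContinuousOn (fun t => ∑' p : ℕ × ℕ,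
      φ p • inc p.1 (W (lk p.1) (Kk p.1) (Dk p.1) n t (e p.2))) (Set.Ici 0) := by
    refine continuousOn_tsum (fun p => ?_) (summable_abs φ) fun p t ht => ?_
    · refine Continuous.continuousOn ?_
      exact Continuous.const_smul ((inc p.1).continuous.comp
        ((W_cont n).clm_apply continuous_const)) (φ p)
    · rw [norm_smul, Real.norm_eq_abs]
      refine mul_le_of_le_one_right (abs_nonneg _) ((norm_inc_apply _ _).trans ?_)
      refine ((W (lk p.1) (Kk p.1) (Dk p.1) n t).le_opNorm _).trans ?_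
      rw [norm_e, mul_one]
      exact norm_Wk n ht p.1
  refine h1.congr fun t ht => ?_
  have h2 := (hasSum_map (Us n t) φ).tsum_eq
  change Us n t φ = _
  rw [← h2]
  refine tsum_congr fun p => ?_
  rw [Us, blk_e (C := 1) (norm_Wk n ht)]

theorem norm_diff (k : ℕ) (x : L1 ℕ) {h : ℝ} (hh : 0 ≤ h) :
    ‖V (lk k) (Kk k) (Dk k) h x - x‖ ≤ ‖A (lk k) (Kk k) (Dk k) x‖ * h := by
  have h1 := norm_image_sub_le_of_norm_deriv_le_segment' (a := 0) (b := h)
    (f := fun t => V (lk k) (Kk k) (Dk k) t x)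
    (f' := fun t => V (lk k) (Kk k) (Dk k) t (A (lk k) (Kk k) (Dk k) x))
    (C := ‖A (lk k) (Kk k) (Dk k) x‖)
    (fun t _ => (V_deriv_apply (lk k) (Kk k) (Dk k) t x).hasDerivWithinAt)
    (fun t ht => by
      refine ((V (lk k) (Kk k) (Dk k) t).le_opNorm _).trans ?_
      exact mul_le_of_le_one_left (norm_nonneg _)
        (norm_V (lk_pos k).le (Kk_pos k).le (Dk_pos k).le ht.1)) h (Set.right_mem_Icc.2 hh)
  simp only [V_zero, sub_zero] at h1
  exact h1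

theorem tendsto_block (k : ℕ) (x : L1 ℕ) :
    Tendsto (fun h : ℝ => h⁻¹ • (V (lk k) (Kk k) (Dk k) h x - x)) (𝓝[>] 0)
      (𝓝 (A (lk k) (Kk k) (Dk k) x)) := by
  have h1 := V_deriv_apply (lk k) (Kk k) (Dk k) 0 x
  rw [V_zero] at h1
  have h2 := (hasDerivAt_iff_tendsto_slope.1 h1).mono_left
    (nhdsWithin_mono 0 (fun y (hy : (0 : ℝ) < y) => (ne_of_gt hy : y ≠ 0)))
  refine h2.congr fun h => ?_
  simp only [slope, vsub_eq_sub, sub_zero, V_zero]
  rfl

theorem gen_iff (φ ψ : L1 (ℕ × ℕ)) :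
    GenAt (Us 0) φ ψ ↔ ∀ k, A (lk k) (Kk k) (Dk k) (pr k φ) = pr k ψ := by
  have hpr : ∀ k, ∀ h : ℝ, 0 < h → pr k (h⁻¹ • (Us 0 h φ - φ)) =
      h⁻¹ • (V (lk k) (Kk k) (Dk k) h (pr k φ) - pr k φ) := by
    intro k h hh
    rw [map_smul, map_sub, pr_Us 0 hh.le]
    rfl
  constructor
  · intro hg k
    have h1 := ((pr k).continuous.tendsto ψ).comp hg
    have h2 : Tendsto (fun h : ℝ => h⁻¹ • (V (lk k) (Kk k) (Dk k) h (pr k φ) - pr k φ)) (𝓝[>] 0)
        (𝓝 (pr k ψ)) := by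
      refine h1.congr' ?_
      filter_upwards [self_mem_nhdsWithin] with h hh
      exact hpr k h hh
    exact tendsto_nhds_unique (tendsto_block k (pr k φ)) h2
  · intro hk
    unfold GenAt
    rw [tendsto_iff_norm_sub_tendsto_zero]
    have h1 : Tendsto (fun h : ℝ => ∑' k, ‖h⁻¹ • (V (lk k) (Kk k) (Dk k) h (pr k φ) - pr k φ) -
        pr k ψ‖) (𝓝[>] 0) (𝓝 (∑' _ : ℕ, (0 : ℝ))) := by
      refine tendsto_tsum_of_dominated_convergence (bound := fun k => 2 * ‖pr k ψ‖)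
        ((hasSum_norm_pr ψ).summable.mul_left 2) (fun k => ?_) ?_
      · have h2 := tendsto_block k (pr k φ)
        rw [hk k] at h2
        exact tendsto_iff_norm_sub_tendsto_zero.1 h2
      · filter_upwards [self_mem_nhdsWithin] with h hh k
        have hh' : 0 < h := hh
        rw [norm_norm]
        refine (norm_sub_le _ _).trans ?_
        have h3 := norm_diff k (pr k φ) hh'.le
        rw [hk k] at h3
        have h4 : ‖h⁻¹ • (V (lk k) (Kk k) (Dk k) h (pr k φ) - pr k φ)‖ ≤ ‖pr k ψ‖ := by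
          rw [norm_smul, norm_inv, Real.norm_eq_abs, abs_of_pos hh', inv_mul_le_iff₀ hh']
          linarith
        linarith
    rw [tsum_zero] at h1
    refine h1.congr' ?_
    filter_upwards [self_mem_nhdsWithin] with h hh
    rw [← (hasSum_norm_pr _).tsum_eq]
    refine tsum_congr fun k => ?_
    rw [map_sub, hpr k h hh]

theorem gen_U {φ ψ : L1 (ℕ × ℕ)} (h : GenAt (Us 0) φ ψ) {t : ℝ} (ht : 0 ≤ t) :
    GenAt (Us 0) (Us 0 t φ) (Us 0 t ψ) := by
  rw [gen_iff] at h ⊢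
  intro k
  rw [pr_Us 0 ht, pr_Us 0 ht, ← h k]
  exact congrArg (fun A => A (pr k φ)) (V_comm (lk k) (Kk k) (Dk k) t)

theorem pr_gen (φ : dom (Us 0)) (k : ℕ) :
    A (lk k) (Kk k) (Dk k) (pr k φ) = pr k (gen (Us 0) φ) :=
  (gen_iff _ _).1 (gen_spec (Us 0) φ) k

theorem summable_B (φ : dom (Us 0)) :
    Summable fun k => ‖B (lk k) (Kk k) (Dk k) (pr k φ)‖ := by
  refine Summable.of_nonneg_of_le (fun k => norm_nonneg _) (fun k => ?_)
    (hasSum_norm_pr (gen (Us 0) φ)).summable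
  rw [← pr_gen]
  exact norm_B_le (lk_pos k).le (Kk_pos k).le (Dk_pos k).le _

theorem pr_mkB (φ : dom (Us 0)) (k : ℕ) :
    pr k (mk fun k => B (lk k) (Kk k) (Dk k) (pr k φ)) = B (lk k) (Kk k) (Dk k) (pr k φ) :=
  pr_mk _ (summable_B φ) k

/-- the perturbation -/
noncomputable def Bop : dom (Us 0) →ₗ[ℝ] L1 (ℕ × ℕ) where
  toFun φ := mk fun k => B (lk k) (Kk k) (Dk k) (pr k φ)
  map_add' φ ψ := by
    refine ext_pr fun k => ?_
    rw [map_add, pr_mkB, pr_mkB, pr_mkB, Submodule.coe_add, map_add, map_add]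
  map_smul' a φ := by
    refine ext_pr fun k => ?_
    rw [map_smul, pr_mkB, pr_mkB, Submodule.coe_smul, map_smul, map_smul]
    rfl

theorem pr_Bop (φ : dom (Us 0)) (k : ℕ) :
    pr k (Bop φ) = B (lk k) (Kk k) (Dk k) (pr k φ) := pr_mkB φ k

theorem norm_Bop (φ : dom (Us 0)) : ‖Bop φ‖ ≤ ‖gen (Us 0) φ‖ := by
  refine hasSum_le (fun k => ?_) (hasSum_norm_pr (Bop φ)) (hasSum_norm_pr (gen (Us 0) φ))
  rw [pr_Bop, ← pr_gen]
  exact norm_B_le (lk_pos k).le (Kk_pos k).le (Dk_pos k).le _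

theorem ev_Bop {φ : L1 (ℕ × ℕ)} (h : φ ∈ dom (Us 0)) : ev Bop φ = Bop ⟨φ, h⟩ := dif_pos h

theorem cont_ev {φ : L1 (ℕ × ℕ)} (hφ : φ ∈ dom (Us 0)) :
    ContinuousOn (fun s => ev Bop (Us 0 s φ)) (Set.Ici 0) := by
  obtain ⟨ψ, hψ⟩ := hφ
  intro s0 hs0
  have h1 := cont_Us 0 ψ s0 hs0
  have h1' : Tendsto (fun s => Us 0 s ψ) (𝓝[Set.Ici 0] s0) (𝓝 (Us 0 s0 ψ)) := h1
  rw [tendsto_iff_norm_sub_tendsto_zero] at h1'
  change Tendsto (fun s => ev Bop (Us 0 s φ)) (𝓝[Set.Ici 0] s0) (𝓝 (ev Bop (Us 0 s0 φ)))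
  rw [tendsto_iff_norm_sub_tendsto_zero]
  refine squeeze_zero' (Eventually.of_forall fun s => norm_nonneg _) ?_ h1'
  filter_upwards [self_mem_nhdsWithin] with s hs
  have h2 : Us 0 s φ ∈ dom (Us 0) := ⟨_, gen_U hψ hs⟩
  have h3 : Us 0 s0 φ ∈ dom (Us 0) := ⟨_, gen_U hψ hs0⟩
  rw [ev_Bop h2, ev_Bop h3, ← map_sub]
  refine (norm_Bop _).trans (le_of_eq ?_)
  congr 1
  refine gen_eq ?_
  have h4 := gen_U hψ hs
  have h5 := gen_U hψ hs0
  rw [gen_iff] at h4 h5 ⊢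
  intro k
  rw [map_sub, ← h4 k, ← h5 k, ← map_sub, ← map_sub]
  rfl

theorem cont_app (n : ℕ) {g : ℝ → L1 (ℕ × ℕ)} {t : ℝ} (hg : ContinuousOn g (Set.Icc 0 t)) :
    ContinuousOn (fun s => Us n (t - s) (g s)) (Set.Icc 0 t) := by
  intro s0 hs0
  change Tendsto (fun s => Us n (t - s) (g s)) (𝓝[Set.Icc 0 t] s0) (𝓝 (Us n (t - s0) (g s0)))
  rw [tendsto_iff_norm_sub_tendsto_zero]
  have h1 : Tendsto (fun s => ‖g s - g s0‖) (𝓝[Set.Icc 0 t] s0) (𝓝 0) :=
    tendsto_iff_norm_sub_tendsto_zero.1 (hg s0 hs0)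
  have h2 : Tendsto (fun s => ‖Us n (t - s) (g s0) - Us n (t - s0) (g s0)‖)
      (𝓝[Set.Icc 0 t] s0) (𝓝 0) := by
    refine tendsto_iff_norm_sub_tendsto_zero.1 ?_
    have h3 : ContinuousOn (fun s : ℝ => Us n (t - s) (g s0)) (Set.Icc 0 t) :=
      (cont_Us n (g s0)).comp (by fun_prop) fun s hs => sub_nonneg.2 hs.2
    exact h3 s0 hs0
  have h4 := h1.add h2
  rw [add_zero] at h4
  refine squeeze_zero' (Eventually.of_forall fun s => norm_nonneg _) ?_ h4
  filter_upwards [self_mem_nhdsWithin] with s hs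
  have h5 : Us n (t - s) (g s) - Us n (t - s0) (g s0) =
      Us n (t - s) (g s - g s0) + (Us n (t - s) (g s0) - Us n (t - s0) (g s0)) := by
    rw [map_sub]
    abel
  rw [h5]
  refine (norm_add_le _ _).trans (add_le_add_left ?_ _)
  refine ((Us n (t - s)).le_opNorm _).trans ?_
  exact mul_le_of_le_one_left (norm_nonneg _) (norm_Us n (sub_nonneg.2 hs.2))

theorem dysonPhillips : IsDysonPhillips Bop Us := by
  refine ⟨fun t _ => rfl, fun j t ht φ hφ => ?_⟩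
  have hdom : ∀ s ∈ Set.Icc 0 t, Us 0 s φ ∈ dom (Us 0) := by
    intro s hs
    obtain ⟨ψ, hψ⟩ := hφ
    exact ⟨_, gen_U hψ hs.1⟩
  have hc : ContinuousOn (fun s => Us j (t - s) (ev Bop (Us 0 s φ))) (Set.Icc 0 t) :=
    cont_app j ((cont_ev hφ).mono fun s hs => hs.1)
  refine ⟨hdom, hc, ?_⟩
  have hint : IntervalIntegrable (fun s => Us j (t - s) (ev Bop (Us 0 s φ))) volume 0 t := by
    refine ContinuousOn.intervalIntegrable ?_
    rw [Set.uIcc_of_le ht]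
    exact hc
  refine ext_pr fun k => ?_
  rw [pr_Us _ ht, W_succ_apply, ← ContinuousLinearMap.intervalIntegral_comp_comm _ hint]
  refine intervalIntegral.integral_congr fun s hs => ?_
  rw [Set.uIcc_of_le ht] at hs
  change W (lk k) (Kk k) (Dk k) j (t - s)
    (B (lk k) (Kk k) (Dk k) (V (lk k) (Kk k) (Dk k) s (pr k φ))) = _
  rw [pr_Us _ (sub_nonneg.2 hs.2), ev_Bop (hdom s hs), pr_Bop, pr_Us 0 hs.1]
  rfl

theorem substochastic :
    IsSubstochastic {φ : L1 (ℕ × ℕ) | ∀ i, 0 ≤ φ i} (Us 0) := by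
  refine ⟨?_, fun s t hs ht => ?_, fun φ => cont_Us 0 φ, fun t ht φ hφ p => ?_,
    fun t ht => norm_Us 0 ht⟩
  · ext1 φ
    refine ext_pr fun k => ?_
    rw [pr_Us 0 le_rfl]
    change V (lk k) (Kk k) (Dk k) 0 (pr k φ) = pr k φ
    rw [V_zero]
    rfl
  · ext1 φ
    refine ext_pr fun k => ?_
    change pr k (Us 0 (s + t) φ) = pr k (Us 0 s (Us 0 t φ))
    rw [pr_Us 0 (add_nonneg hs ht), pr_Us 0 hs, pr_Us 0 ht]
    exact congrArg (fun A => A (pr k φ)) (V_add (lk k) (Kk k) (Dk k) s t)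
  · obtain ⟨k, j⟩ := p
    rw [← pr_apply, pr_Us 0 ht]
    exact V_nonneg (lk_pos k).le ht (fun j => by rw [pr_apply]; exact hφ _) j

theorem smallSpecRad : SmallSpecRad Bop := by
  refine (eventually_gt_atTop (0 : ℝ)).mono fun μ hμ => ?_
  choose R hR1 hR2 hR3 using fun k => exists_R (lk_pos k).le (Kk_pos k).le (Dk_pos k).le hμ
  have hAR : ∀ k x, A (lk k) (Kk k) (Dk k) (R k x) = μ • R k x - x := by
    intro k x
    have h : μ • R k x - A (lk k) (Kk k) (Dk k) (R k x) = x :=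
      congrArg (fun A => A x) (hR1 k)
    calc A (lk k) (Kk k) (Dk k) (R k x) =
          μ • R k x - (μ • R k x - A (lk k) (Kk k) (Dk k) (R k x)) := (sub_sub_cancel _ _).symm
      _ = μ • R k x - x := by rw [h]
  have hBR : ∀ k, ‖B (lk k) (Kk k) (Dk k) * R k‖ ≤ 2 := by
    intro k
    refine ContinuousLinearMap.opNorm_le_bound _ (by norm_num) fun x => ?_
    refine (norm_B_le (lk_pos k).le (Kk_pos k).le (Dk_pos k).le (R k x)).trans ?_
    rw [hAR]
    refine (norm_sub_le _ _).trans ?_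
    have h1 : ‖μ • R k x‖ ≤ ‖x‖ := by
      rw [norm_smul, Real.norm_eq_abs, abs_of_pos hμ]
      have h2 := (R k).le_opNorm x
      have h3 : ‖R k‖ * ‖x‖ ≤ 1 / μ * ‖x‖ := mul_le_mul_of_nonneg_right (hR3 k) (norm_nonneg _)
      calc μ * ‖R k x‖ ≤ μ * (1 / μ * ‖x‖) := mul_le_mul_of_nonneg_left (h2.trans h3) hμ.le
        _ = ‖x‖ := by field_simp
    linarith
  have hgen : ∀ x, GenAt (Us 0) (blk R x) (μ • blk R x - x) := by
    intro x
    rw [gen_iff]
    intro k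
    rw [map_sub, map_smul, pr_blk hR3, hAR]
  refine ⟨blk R, blk fun k => B (lk k) (Kk k) (Dk k) * R k, ⟨fun x => ⟨⟨_, hgen x⟩, ?_⟩,
    fun φ => ?_⟩, fun x => ?_, ?_⟩
  · rw [gen_eq (φ := ⟨blk R x, ⟨_, hgen x⟩⟩) (hgen x), sub_sub_cancel]
  · refine ext_pr fun k => ?_
    rw [pr_blk hR3, map_sub, map_smul, ← pr_gen]
    exact congrArg (fun A => A (pr k (φ : L1 (ℕ × ℕ)))) (hR2 k)
  · refine ext_pr fun k => ?_
    rw [pr_blk hBR, ev_Bop ⟨_, hgen x⟩, pr_Bop, pr_blk hR3]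
    rfl
  · have h4 : (blk fun k => B (lk k) (Kk k) (Dk k) * R k) ^ (3 + 1) = 0 := by
      ext1 φ
      refine ext_pr fun k => ?_
      set S := blk fun k => B (lk k) (Kk k) (Dk k) * R k with hS
      change pr k (S (S (S (S φ)))) = pr k 0
      rw [hS, pr_blk hBR, pr_blk hBR, pr_blk hBR, pr_blk hBR, map_zero]
      exact congrArg (fun A => A (pr k φ))
        (BR_nil (lk_pos k).le (Kk_pos k).le (Dk_pos k).le hμ (hR2 k))
    unfold specRad
    refine lt_of_le_of_lt (ciInf_le ⟨0, ?_⟩ 3) ?_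
    · rintro _ ⟨n, rfl⟩
      positivity
    · rw [h4, norm_zero, Real.zero_rpow (by norm_num)]
      exact zero_lt_one

theorem inc_W1 (k : ℕ) (t : ℝ) (ψ : L1 ℕ) :
    ∑ r ∈ Finset.range 3, W (lk k) (Kk k) (Dk k) 1 t ψ r • (e (k, r) : L1 (ℕ × ℕ)) =
      inc k (W (lk k) (Kk k) (Dk k) 1 t ψ) := by
  have h1 := hasSum_map (inc k) (W (lk k) (Kk k) (Dk k) 1 t ψ)
  have h2 : HasSum (fun r : ℕ => W (lk k) (Kk k) (Dk k) 1 t ψ r • inc k (e r))
      (∑ r ∈ Finset.range 3, W (lk k) (Kk k) (Dk k) 1 t ψ r • inc k (e r)) := by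
    refine hasSum_sum_of_ne_finset_zero fun r hr => ?_
    have h3 : 3 ≤ r := by
      by_contra hcon
      exact hr (Finset.mem_range.2 (not_le.1 hcon))
    obtain ⟨i, rfl⟩ : ∃ i, r = i + 3 := ⟨r - 3, by omega⟩
    rw [W1_coord, zero_smul]
  have h3 := h2.unique h1
  rw [← h3]
  exact Finset.sum_congr rfl fun r _ => by rw [inc_e]

theorem compact_rank_one (f : L1 (ℕ × ℕ) →L[ℝ] ℝ) (v : L1 (ℕ × ℕ)) :
    IsCompactOperator (f.smulRight v) := by
  have h1 : IsCompactOperator (f : L1 (ℕ × ℕ) → ℝ) :=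
    isCompactOperator_of_locallyCompactSpace_dom f
  exact h1.continuous_comp (g := fun r : ℝ => r • v) (by fun_prop)

theorem compact_U1 {t : ℝ} (ht : 0 ≤ t) : IsCompactOperator (Us 1 t) := by
  rcases ht.eq_or_lt with rfl | ht'
  · have h : Us 1 0 = 0 := by
      ext1 φ
      refine ext_pr fun k => ?_
      rw [pr_Us 1 le_rfl, W_succ_apply, intervalIntegral.integral_same]
      change 0 = pr k 0
      rw [map_zero]
    rw [h]
    exact isCompactOperator_zero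
  let G : ℕ → L1 (ℕ × ℕ) →L[ℝ] L1 (ℕ × ℕ) := fun k => ∑ r ∈ Finset.range 3,
    (((coord r).comp (W (lk k) (Kk k) (Dk k) 1 t)).comp (pr k)).smulRight (e (k, r))
  have hG : ∀ k φ, G k φ = inc k (W (lk k) (Kk k) (Dk k) 1 t (pr k φ)) := by
    intro k φ
    rw [← inc_W1]
    simp only [G, ContinuousLinearMap.sum_apply]
    rfl
  let F : ℕ → L1 (ℕ × ℕ) →L[ℝ] L1 (ℕ × ℕ) := fun N => ∑ k ∈ Finset.range N, G k
  have hF : ∀ N, IsCompactOperator (F N) := by
    intro N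
    refine Finset.sum_induction G (fun A : L1 (ℕ × ℕ) →L[ℝ] L1 (ℕ × ℕ) => IsCompactOperator A)
      (fun a b ha hb => ha.add hb) isCompactOperator_zero fun k _ => ?_
    exact Finset.sum_induction _ (fun A : L1 (ℕ × ℕ) →L[ℝ] L1 (ℕ × ℕ) => IsCompactOperator A)
      (fun a b ha hb => ha.add hb) isCompactOperator_zero fun r _ => compact_rank_one _ _
  let δ : ℕ → ℝ := fun k => lk k / Dk k + 2 * Real.exp (-(Kk k * t)) +
    Kk k * t * Real.exp (-(Kk k * t))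
  have hδ : Tendsto δ atTop (𝓝 0) := by
    have hN : Tendsto (fun k : ℕ => (NN k : ℝ)) atTop atTop :=
      tendsto_natCast_atTop_atTop.comp (tendsto_add_atTop_nat 12)
    have h1 : Tendsto (fun k => lk k / Dk k) atTop (𝓝 0) := by
      have h2 : Tendsto lk atTop atTop := tendsto_atTop_mono lk_ge hN
      refine h2.inv_tendsto_atTop.congr fun k => ?_
      have := lk_pos k
      change (lk k)⁻¹ = lk k / lk k ^ 2
      field_simp
    have h3 : Tendsto (fun k => Kk k * t) atTop atTop := hN.atTop_mul_const ht'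
    have h4 : Tendsto (fun k => Real.exp (-(Kk k * t))) atTop (𝓝 0) :=
      Real.tendsto_exp_neg_atTop_nhds_zero.comp h3
    have h5 : Tendsto (fun k => Kk k * t * Real.exp (-(Kk k * t))) atTop (𝓝 0) := by
      have := (Real.tendsto_pow_mul_exp_neg_atTop_nhds_zero 1).comp h3
      refine this.congr fun k => ?_
      simp only [Function.comp_apply, pow_one]
    have h6 := (h1.add (h4.const_mul 2)).add h5
    simpa using h6
  have hlim : Tendsto F atTop (𝓝 (Us 1 t)) := by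
    rw [Metric.tendsto_atTop]
    intro ε hε
    obtain ⟨N0, hN0⟩ := (Metric.tendsto_atTop.1 hδ) (ε / 2) (by positivity)
    refine ⟨N0, fun N hN => ?_⟩
    have hb : ∀ k, ‖(if k < N then 0 else W (lk k) (Kk k) (Dk k) 1 t : L1 ℕ →L[ℝ] L1 ℕ)‖ ≤
        ε / 2 := by
      intro k
      split_ifs with hk
      · rw [norm_zero]
        positivity
      · refine (norm_W1 (lk_pos k) (Kk_pos k) (two_Kk_le k) ht).trans ?_
        have h7 := hN0 k (hN.trans (not_lt.1 hk))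
        rw [Real.dist_eq, sub_zero] at h7
        exact (le_abs_self _).trans h7.le
    have hdiff : Us 1 t - F N =
        blk fun k => (if k < N then 0 else W (lk k) (Kk k) (Dk k) 1 t : L1 ℕ →L[ℝ] L1 ℕ) := by
      ext1 φ
      refine ext_pr fun k => ?_
      rw [pr_blk hb]
      change pr k (Us 1 t φ - F N φ) = _
      have h8 : pr k (F N φ) = if k < N then W (lk k) (Kk k) (Dk k) 1 t (pr k φ) else 0 := by
        simp only [F, ContinuousLinearMap.sum_apply, map_sum, hG, pr_inc]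
        rw [Finset.sum_ite_eq']
        simp only [Finset.mem_range]
      rw [map_sub, pr_Us 1 ht, h8]
      by_cases hk : k < N
      · rw [if_pos hk, if_pos hk, sub_self]
        rfl
      · rw [if_neg hk, if_neg hk, sub_zero]
    rw [dist_comm, dist_eq_norm, hdiff]
    exact lt_of_le_of_lt (norm_blk_le (by positivity) hb) (by linarith)
  exact isCompactOperator_of_tendsto hlim (Eventually.of_forall hF)

theorem weaklyCompact_of_compact {A : L1 (ℕ × ℕ) →L[ℝ] L1 (ℕ × ℕ)} (h : IsCompactOperator A) :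
    IsWeaklyCompactOp A := by
  intro S hS
  obtain ⟨K, hK, hSK⟩ := IsCompactOperator.image_subset_compact_of_bounded
    (f := (A : L1 (ℕ × ℕ) →ₗ[ℝ] L1 (ℕ × ℕ))) h hS
  have h1 : IsCompact (toWeakSpaceCLM ℝ (L1 (ℕ × ℕ)) '' K) :=
    hK.image (toWeakSpaceCLM ℝ (L1 (ℕ × ℕ))).continuous
  refine h1.closure_of_subset ?_
  rintro _ ⟨x, hx, rfl⟩
  exact ⟨A x, hSK ⟨x, hx, rfl⟩, rfl⟩

theorem not_compact_U3 : ¬ IsCompactOperator (Us 3 1) := by
  intro h
  obtain ⟨K, hK, hSK⟩ := IsCompactOperator.image_subset_compact_of_bounded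
    (f := (Us 3 1 : L1 (ℕ × ℕ) →ₗ[ℝ] L1 (ℕ × ℕ))) h
    (Metric.isBounded_closedBall (x := (0 : L1 (ℕ × ℕ))) (r := 1))
  choose c hc hce using W3_ge
  let z : ℕ → L1 (ℕ × ℕ) := fun k => Us 3 1 (e (k, NN k ^ 2 + 3))
  have hz : ∀ k, z k = c k • e (k, 0) := by
    intro k
    change Us 3 1 (e (k, NN k ^ 2 + 3)) = _
    rw [Us, blk_e (C := 1) (norm_Wk 3 zero_le_one)]
    simp only
    rw [hce k, map_smul, inc_e]
  have hzK : ∀ k, z k ∈ K := fun k => hSK ⟨e (k, NN k ^ 2 + 3), by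
    rw [mem_closedBall_zero_iff, norm_e], rfl⟩
  obtain ⟨z0, -, f, hf, hlim⟩ := hK.tendsto_subseq hzK
  have hcau := hlim.cauchySeq
  obtain ⟨N, hN⟩ := Metric.cauchySeq_iff.1 hcau c0 c0_pos
  have h1 := hN N le_rfl (N + 1) (Nat.le_succ N)
  have hne : f N ≠ f (N + 1) := (hf (Nat.lt_succ_self N)).ne
  rw [dist_eq_norm] at h1
  have h2 := abs_le ((z ∘ f) N - (z ∘ f) (N + 1)) (f N, 0)
  have h3 : ((z ∘ f) N - (z ∘ f) (N + 1)) (f N, 0) = c (f N) := by
    change z (f N) (f N, 0) - z (f (N + 1)) (f N, 0) = c (f N)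
    rw [hz, hz]
    change c (f N) * (e (f N, 0) : L1 (ℕ × ℕ)) (f N, 0) -
      c (f (N + 1)) * (e (f (N + 1), 0) : L1 (ℕ × ℕ)) (f N, 0) = c (f N)
    rw [e_apply, e_apply, if_pos rfl, if_neg (fun h => hne (Prod.ext_iff.1 h).1)]
    ring
  rw [h3] at h2
  have h4 := hc (f N)
  have h5 := le_abs_self (c (f N))
  linarith

theorem main : Counterexample (L1 (ℕ × ℕ)) {φ | ∀ i, 0 ≤ φ i} := by
  refine ⟨Us 0, Bop, Us, substochastic, ⟨0, 1, fun φ => ?_⟩, fun φ hφ p => ?_,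
    smallSpecRad, dysonPhillips, fun t ht => ⟨weaklyCompact_of_compact (compact_U1 ht),
      compact_U1 ht⟩, not_compact_U3⟩
  · rw [zero_mul, zero_add, one_mul]
    exact norm_Bop φ
  · obtain ⟨k, j⟩ := p
    rw [← pr_apply, pr_Bop]
    exact B_nonneg (lk_pos k).le (Kk_pos k).le (Dk_pos k).le
      (fun j => by rw [pr_apply]; exact hφ _) j

end main

end Pool.Agent.R906.DP
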