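import Pool.Agent.R906.DTDefs

/-!
The Darboux transform of `D⁴ + D²` by `ψ = 2 + e^{ix}`.
-/

namespace Pool.Agent.R906.DT

open Complex
open scoped ContDiff

noncomputable section

def E (x : ℝ) : ℂ := Complex.exp (x * I)

def h (x : ℝ) : ℂ := 2 + E x

lemma norm_E (x : ℝ) : ‖E x‖ = 1 := Complex.norm_exp_ofReal_mul_I x

lemma h_ne (x : ℝ) : h x ≠ 0 := by
  intro h0
  have h1 : E x = -2 := by unfold h at h0; linear_combination h0
  have h2 := norm_E x
  rw [h1] at h2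
  norm_num at h2

lemma dE (x : ℝ) : HasDerivAt E (I * E x) x := by
  have h1 : HasDerivAt (fun t : ℝ => (t : ℂ) * I) (1 * I) x :=
    (Complex.ofRealCLM.hasDerivAt (x := x)).mul_const I
  exact h1.cexp.congr_deriv (by unfold E; ring)

lemma dh (x : ℝ) : HasDerivAt h (I * E x) x := by
  have := (dE x).const_add 2
  exact this

lemma E_per (x : ℝ) : E (x + 2 * Real.pi) = E x := by
  unfold E
  push_cast
  rw [add_mul, Complex.exp_add, Complex.exp_two_pi_mul_I, mul_one]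

lemma h_per (x : ℝ) : h (x + 2 * Real.pi) = h x := by
  unfold h; rw [E_per]

lemma cdE : ContDiff ℝ ∞ E := by
  unfold E
  exact (Complex.ofRealCLM.contDiff.mul contDiff_const).cexp

lemma cdh : ContDiff ℝ ∞ h := contDiff_const.add cdE

def v (x : ℝ) : ℂ := I * E x / h x
def v1 (x : ℝ) : ℂ := -2 * E x / h x ^ 2
def v2 (x : ℝ) : ℂ := -2 * I * E x * (2 - E x) / h x ^ 3
def v3 (x : ℝ) : ℂ := 2 * E x * (4 - 8 * E x + E x ^ 2) / h x ^ 4

lemma cd_div {f g : ℝ → ℂ} (hf : ContDiff ℝ ∞ f) (hg : ContDiff ℝ ∞ g) (h0 : ∀ x, g x ≠ 0) :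
    ContDiff ℝ ∞ fun x => f x / g x := by
  simp only [div_eq_mul_inv]
  exact hf.mul (hg.inv h0)

lemma cdv : ContDiff ℝ ∞ v := cd_div (contDiff_const.mul cdE) cdh h_ne
lemma cdv1 : ContDiff ℝ ∞ v1 :=
  cd_div (contDiff_const.mul cdE) (cdh.pow 2) fun x => pow_ne_zero _ (h_ne x)
lemma cdv2 : ContDiff ℝ ∞ v2 :=
  cd_div ((contDiff_const.mul cdE).mul (contDiff_const.sub cdE)) (cdh.pow 3)
    fun x => pow_ne_zero _ (h_ne x)
lemma cdv3 : ContDiff ℝ ∞ v3 :=
  cd_div ((contDiff_const.mul cdE).mul ((contDiff_const.sub (contDiff_const.mul cdE)).add (cdE.pow 2)))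
    (cdh.pow 4) fun x => pow_ne_zero _ (h_ne x)

lemma v_per (x : ℝ) : v (x + 2 * Real.pi) = v x := by simp only [v, E_per, h_per]
lemma v1_per (x : ℝ) : v1 (x + 2 * Real.pi) = v1 x := by simp only [v1, E_per, h_per]
lemma v2_per (x : ℝ) : v2 (x + 2 * Real.pi) = v2 x := by simp only [v2, E_per, h_per]
lemma v3_per (x : ℝ) : v3 (x + 2 * Real.pi) = v3 x := by simp only [v3, E_per, h_per]

lemma dv (x : ℝ) : HasDerivAt v (v1 x) x := by
  have h1 := ((dE x).const_mul I).div (dh x) (h_ne x)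
  refine h1.congr_deriv ?_
  unfold v1
  have h0 := h_ne x
  field_simp
  unfold h
  linear_combination (2 * E x) * I_sq

lemma dv1 (x : ℝ) : HasDerivAt v1 (v2 x) x := by
  have h1 := ((dE x).const_mul (-2)).div ((dh x).pow 2) (pow_ne_zero _ (h_ne x))
  refine h1.congr_deriv ?_
  unfold v2
  have h0 := h_ne x
  simp only [Pi.pow_apply]
  field_simp
  unfold h
  ring

lemma dv2 (x : ℝ) : HasDerivAt v2 (v3 x) x := by
  have h1 := (((dE x).const_mul (-2 * I)).mul ((dE x).const_sub 2)).div ((dh x).pow 3)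
    (pow_ne_zero _ (h_ne x))
  refine h1.congr_deriv ?_
  unfold v3
  have h0 := h_ne x
  simp only [Pi.pow_apply, Pi.mul_apply]
  field_simp
  unfold h
  ring_nf
  simp only [I_sq]
  ring

lemma ident (x : ℝ) : v3 x + 4 * v x * v2 x + 3 * v1 x ^ 2 + 6 * v x ^ 2 * v1 x + v x ^ 4 + v1 x
    + v x ^ 2 = 0 := by
  have h0 := h_ne x
  unfold v v1 v2 v3
  field_simp
  unfold h
  ring_nf
  simp only [I_sq, show I ^ 4 = 1 from I_pow_four]
  ring

def bc (x : ℝ) : ℂ := 1 + 3 * v1 x + v x ^ 2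
def bc1 (x : ℝ) : ℂ := 3 * v2 x + 2 * v x * v1 x
def cc (x : ℝ) : ℂ := 3 * v2 x + 5 * v x * v1 x + v x + v x ^ 3
def cc1 (x : ℝ) : ℂ :=
  3 * v3 x + 5 * v1 x ^ 2 + 5 * v x * v2 x + v1 x + 3 * v x ^ 2 * v1 x

lemma dbc (x : ℝ) : HasDerivAt bc (bc1 x) x := by
  have h1 := (((dv1 x).const_mul 3).const_add 1).add ((dv x).pow 2)
  refine h1.congr_deriv ?_
  unfold bc1
  ring

lemma dcc (x : ℝ) : HasDerivAt cc (cc1 x) x := by
  have h1 := ((((dv2 x).const_mul 3).add (((dv x).const_mul 5).mul (dv1 x))).add (dv x)).add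
    ((dv x).pow 3)
  refine h1.congr_deriv ?_
  unfold cc1
  ring

def p0 (x : ℝ) : ℂ := cc1 x - v x * cc x
def p1 (x : ℝ) : ℂ := 6 * v2 x + 4 * v x * v1 x
def p2 (x : ℝ) : ℂ := 1 + 4 * v1 x

/-- the coefficients of the operator -/
def P (k : ℕ) : ℝ → ℂ := if k = 0 then p0 else if k = 1 then p1 else p2

lemma cdp0 : ContDiff ℝ ∞ p0 := by
  have := cdv
  have := cdv1
  have := cdv2
  have := cdv3
  unfold p0 cc1 cc
  fun_prop

lemma cdp1 : ContDiff ℝ ∞ p1 := by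
  have := cdv
  have := cdv1
  have := cdv2
  unfold p1
  fun_prop

lemma cdp2 : ContDiff ℝ ∞ p2 := by
  have := cdv1
  unfold p2
  fun_prop

lemma p0_per (x : ℝ) : p0 (x + 2 * Real.pi) = p0 x := by
  simp only [p0, cc1, cc, v_per, v1_per, v2_per, v3_per]
lemma p1_per (x : ℝ) : p1 (x + 2 * Real.pi) = p1 x := by
  simp only [p1, v_per, v1_per, v2_per]
lemma p2_per (x : ℝ) : p2 (x + 2 * Real.pi) = p2 x := by
  simp only [p2, v1_per]

lemma isCoeff : IsCoeff 4 (2 * Real.pi) P := by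
  intro k _
  unfold P
  split_ifs
  · exact ⟨cdp0, p0_per⟩
  · exact ⟨cdp1, p1_per⟩
  · exact ⟨cdp2, p2_per⟩

lemma opL_eq (y : ℝ → ℂ) (x : ℝ) : opL 4 P y x =
    iteratedDeriv 4 y x + p2 x * iteratedDeriv 2 y x + p1 x * iteratedDeriv 1 y x + p0 x * y x := by
  unfold opL
  simp only [show 4 - 1 = 3 from rfl, Finset.sum_range_succ, Finset.sum_range_zero, P]
  simp
  ring

lemma v_zero : v 0 = I / 3 := by
  simp [v, h, E]; norm_num

lemma v1_zero : v1 0 = -2 / 9 := by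
  simp [v1, h, E]; norm_num

lemma v2_zero : v2 0 = -2 * I / 27 := by
  simp [v2, h, E]; ring

lemma v_pi : v Real.pi = -I := by
  simp [v, h, E]; norm_num

end

end Pool.Agent.R906.DT
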