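import Mathlib

/-!
Definitions for MP_214325_an: ordinary differential operators with periodic coefficients, the
Floquet matrix and polynomials of Hill operators.
-/

namespace Pool.Agent.R906.DT

open Polynomial
open scoped ContDiff

/-- `(𝓛 y)(x) = y⁽ⁿ⁾(x) + ∑_{k=0}^{n-2} p_k(x) y⁽ᵏ⁾(x)`. -/
noncomputable def opL (n : ℕ) (p : ℕ → ℝ → ℂ) (y : ℝ → ℂ) (x : ℝ) : ℂ :=
  iteratedDeriv n y x + ∑ k ∈ Finset.range (n - 1), p k x * iteratedDeriv k y x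

/-- The coefficients `p_0, …, p_{n-2}` are smooth and `b`-periodic. -/
def IsCoeff (n : ℕ) (b : ℝ) (p : ℕ → ℝ → ℂ) : Prop :=
  ∀ k, k + 2 ≤ n → ContDiff ℝ ∞ (p k) ∧ ∀ x, p k (x + b) = p k x

/-- The fundamental system `u_1, …, u_n` of `𝓛 u = λ u` with `u_j⁽ᵏ⁻¹⁾(0) = δ_{jk}`
(indices shifted by one). -/
structure IsFund (n : ℕ) (p : ℕ → ℝ → ℂ) (lam : ℂ) (u : Fin n → ℝ → ℂ) : Prop where
  smooth : ∀ j, ContDiff ℝ n (u j)
  sol : ∀ j x, opL n p (u j) x = lam * u j x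
  init : ∀ j k : Fin n, iteratedDeriv k (u j) 0 = if j = k then 1 else 0

/-- The Floquet matrix `(u_j⁽ᵏ⁻¹⁾(b))_{k,j}`. -/
noncomputable def floquet (n : ℕ) (b : ℝ) (u : Fin n → ℝ → ℂ) : Matrix (Fin n) (Fin n) ℂ :=
  Matrix.of fun k j => iteratedDeriv k (u j) b

/-- The Hill operator `d²/dx² + q(x)`. -/
noncomputable def hill (q : ℝ → ℂ) (y : ℝ → ℂ) (x : ℝ) : ℂ :=
  iteratedDeriv 2 y x + q x * y x

/-- The operator `R(𝓗) = ∑ c_k 𝓗ᵏ` for the Hill operator `𝓗 = d²/dx² + q`. -/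
noncomputable def polyHill (R : ℂ[X]) (q : ℝ → ℂ) (y : ℝ → ℂ) (x : ℝ) : ℂ :=
  ∑ k ∈ Finset.range (R.natDegree + 1), R.coeff k * ((hill q)^[k] y) x

end Pool.Agent.R906.DT
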