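import Pool.Agent.R906.DTMain

/-!
The Darboux transform is not a polynomial of a Hill operator.
-/

namespace Pool.Agent.R906.DT

open Complex Polynomial
open scoped ContDiff

noncomputable section

lemma opL_lin (t : ℝ) : opL 4 P (fun x => ((x - t : ℝ) : ℂ)) t = p1 t := by
  have h1 : iteratedDeriv 1 (fun x : ℝ => ((x - t : ℝ) : ℂ)) = fun _ => 1 := by
    rw [iteratedDeriv_one]
    funext x
    exact (((hasDerivAt_id x).sub_const t).ofReal_comp).deriv.trans (by simp)
  have h2 : iteratedDeriv 2 (fun x : ℝ => ((x - t : ℝ) : ℂ)) = fun _ => 0 := by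
    rw [iteratedDeriv_succ, h1]; funext x; simp
  have h3 : iteratedDeriv 3 (fun x : ℝ => ((x - t : ℝ) : ℂ)) = fun _ => 0 := by
    rw [iteratedDeriv_succ, h2]; funext x; simp
  have h4 : iteratedDeriv 4 (fun x : ℝ => ((x - t : ℝ) : ℂ)) = fun _ => 0 := by
    rw [iteratedDeriv_succ, h3]; funext x; simp
  rw [opL_eq, h4, h2, h1]
  simp

lemma opL_quad (t : ℝ) : opL 4 P (fun x => ((x - t : ℝ) : ℂ) ^ 2) t = 2 * p2 t := by
  have h0 : ∀ x : ℝ, HasDerivAt (fun x : ℝ => ((x - t : ℝ) : ℂ)) 1 x := fun x =>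
    (((hasDerivAt_id x).sub_const t).ofReal_comp).congr_deriv (by simp)
  have h1 : iteratedDeriv 1 (fun x : ℝ => ((x - t : ℝ) : ℂ) ^ 2) =
      fun x => 2 * ((x - t : ℝ) : ℂ) := by
    rw [iteratedDeriv_one]
    funext x
    exact ((h0 x).pow 2).deriv.trans (by simp)
  have h2 : iteratedDeriv 2 (fun x : ℝ => ((x - t : ℝ) : ℂ) ^ 2) = fun _ => 2 := by
    rw [iteratedDeriv_succ, h1]
    funext x
    exact ((h0 x).const_mul 2).deriv.trans (by simp)
  have h3 : iteratedDeriv 3 (fun x : ℝ => ((x - t : ℝ) : ℂ) ^ 2) = fun _ => 0 := by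
    rw [iteratedDeriv_succ, h2]; funext x; simp
  have h4 : iteratedDeriv 4 (fun x : ℝ => ((x - t : ℝ) : ℂ) ^ 2) = fun _ => 0 := by
    rw [iteratedDeriv_succ, h3]; funext x; simp
  rw [opL_eq, h4, h2, h1]
  simp
  ring

lemma iter2 {f f1 : ℝ → ℂ} {f2 : ℂ} {t : ℝ} (h : ∀ x, HasDerivAt f (f1 x) x)
    (h1 : HasDerivAt f1 f2 t) : iteratedDeriv 2 f t = f2 := by
  rw [iteratedDeriv_succ, iteratedDeriv_one, show deriv f = f1 from funext fun x => (h x).deriv]
  exact h1.deriv

theorem no_hill (S : ℂ[X]) (hS : S.Monic) (hdeg : S.natDegree = 2) (q : ℝ → ℂ)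
    (hq : ContDiff ℝ 2 q) :
    ¬ ∀ y : ℝ → ℂ, ContDiff ℝ ∞ y → ∀ x, opL 4 P y x = polyHill S q y x := by
  intro H
  have hc2 : S.coeff 2 = 1 := by rw [← hdeg]; exact hS
  have hpoly : ∀ y x, polyHill S q y x = S.coeff 0 * y x + S.coeff 1 * hill q y x +
      hill q (hill q y) x := by
    intro y x
    unfold polyHill
    rw [hdeg]
    simp only [Finset.sum_range_succ, Finset.sum_range_zero, hc2, Function.iterate_zero,
      Function.iterate_succ, Function.comp, id]
    ring
  have h0 : ∀ t x : ℝ, HasDerivAt (fun x : ℝ => ((x - t : ℝ) : ℂ)) 1 x := fun t x =>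
    (((hasDerivAt_id x).sub_const t).ofReal_comp).congr_deriv (by simp)
  have hcd : ∀ t : ℝ, ContDiff ℝ ∞ (fun x : ℝ => ((x - t : ℝ) : ℂ)) := fun t =>
    Complex.ofRealCLM.contDiff.comp (contDiff_id.sub contDiff_const)
  have q1 : ∀ x, HasDerivAt q (deriv q x) x := fun x =>
    (hq.differentiable (by norm_num) x).hasDerivAt
  have q2 : ∀ x, HasDerivAt (deriv q) (deriv (deriv q) x) x := fun x => by
    have h1 : Differentiable ℝ (iteratedDeriv 1 q) :=
      hq.differentiable_iteratedDeriv 1 (by norm_num)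
    rw [iteratedDeriv_one] at h1
    exact (h1 x).hasDerivAt
  -- the test function `x - t`
  have e1 : ∀ t, p1 t = 2 * deriv q t := by
    intro t
    have h1 := H _ (hcd t) t
    rw [opL_lin, hpoly] at h1
    have h2 : hill q (fun x : ℝ => ((x - t : ℝ) : ℂ)) = fun x => q x * ((x - t : ℝ) : ℂ) := by
      funext x
      unfold hill
      rw [iter2 (h0 t) (hasDerivAt_const x 1)]
      ring
    have h3 : hill q (fun x : ℝ => q x * ((x - t : ℝ) : ℂ)) t = 2 * deriv q t := by
      unfold hill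
      rw [iter2 (f := fun x : ℝ => q x * ((x - t : ℝ) : ℂ)) (f2 := 2 * deriv q t)
        (fun x => (q1 x).mul (h0 t x))]
      · simp
      · refine (((q2 t).mul (h0 t t)).add ((q1 t).mul_const 1)).congr_deriv ?_
        simp; ring
    rw [h2, h3] at h1
    rw [h1]
    simp
  -- the test function `(x - t)²`
  have e2 : ∀ t, p2 t = 2 * q t + S.coeff 1 := by
    intro t
    have h1 := H _ ((hcd t).pow 2) t
    rw [opL_quad, hpoly] at h1
    have d1 : ∀ x : ℝ, HasDerivAt (fun x : ℝ => ((x - t : ℝ) : ℂ) ^ 2) (2 * ((x - t : ℝ) : ℂ)) x :=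
      fun x => ((h0 t x).pow 2).congr_deriv (by simp)
    have h2 : hill q (fun x : ℝ => ((x - t : ℝ) : ℂ) ^ 2) =
        fun x => 2 + q x * ((x - t : ℝ) : ℂ) ^ 2 := by
      funext x
      unfold hill
      rw [iter2 d1 (((h0 t x).const_mul 2).congr_deriv (mul_one _))]
    have h3 : hill q (fun x : ℝ => 2 + q x * ((x - t : ℝ) : ℂ) ^ 2) t = 4 * q t := by
      unfold hill
      rw [iter2 (f := fun x : ℝ => 2 + q x * ((x - t : ℝ) : ℂ) ^ 2) (f2 := 2 * q t)
        (fun x => (((q1 x).mul (d1 x)).const_add 2))]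
      · simp; ring
      · refine (((q2 t).mul (d1 t)).add ((q1 t).mul ((h0 t t).const_mul 2))).congr_deriv ?_
        simp; ring
    rw [h2, h3] at h1
    simp at h1
    linear_combination h1 / 2
  have e3 : 2 * deriv q 0 = 4 * v2 0 := by
    have h1 : HasDerivAt p2 (2 * deriv q 0) 0 := by
      have h2 : p2 = fun t => 2 * q t + S.coeff 1 := funext e2
      rw [h2]
      exact ((q1 0).const_mul 2).add_const _
    have h2 : HasDerivAt p2 (4 * v2 0) 0 := ((dv1 0).const_mul 4).const_add 1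
    exact h1.unique h2
  have e4 := e1 0
  rw [e3] at e4
  unfold p1 at e4
  rw [v_zero, v1_zero, v2_zero] at e4
  have h5 : I = 0 := by linear_combination (-9 / 4 : ℂ) * e4
  exact I_ne_zero h5

end

end Pool.Agent.R906.DT
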