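import Pool.Agent.R906.DTSys

/-!
The multiplier curve of the Darboux transform.
-/

namespace Pool.Agent.R906.DT

open Complex Polynomial
open scoped ContDiff

noncomputable section

/-! ### The entire function `Δ` -/

def Dl (w : ℂ) : ℂ := 2 * Complex.cosh (2 * Real.pi * w ^ (1 / 2 : ℂ))

lemma cpow_half_sq (w : ℂ) : (w ^ (1 / 2 : ℂ)) ^ 2 = w := by
  rw [← Complex.cpow_nat_mul]
  norm_num

lemma Dl_of_sq {s w : ℂ} (h : s ^ 2 = w) : Dl w = 2 * Complex.cosh (2 * Real.pi * s) := by
  have h1 : (w ^ (1 / 2 : ℂ)) ^ 2 = s ^ 2 := by rw [cpow_half_sq, h]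
  rcases sq_eq_sq_iff_eq_or_eq_neg.mp h1 with h2 | h2
  · rw [Dl, h2]
  · rw [Dl, h2, mul_neg, Complex.cosh_neg]

lemma Dl_zero : Dl 0 = 2 := by
  rw [Dl_of_sq (s := 0) (by simp)]
  simp

lemma Dl_diff : Differentiable ℂ Dl := by
  have h1 : ∀ w : ℂ, w ≠ 0 → DifferentiableAt ℂ Dl w := by
    intro w hw
    by_cases hs : w ∈ slitPlane
    · unfold Dl
      have h2 : DifferentiableAt ℂ (fun w : ℂ => w ^ (1 / 2 : ℂ)) w :=
        (differentiableAt_id).cpow_const hs
      fun_prop
    · have hs' : -w ∈ slitPlane := by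
        rw [mem_slitPlane_iff] at hs ⊢
        push Not at hs
        left
        simp only [neg_re, Left.neg_pos_iff]
        rcases lt_or_eq_of_le hs.1 with h | h
        · exact h
        · exfalso
          apply hw
          apply Complex.ext
          · simpa using h
          · simpa using hs.2
      have h2 : DifferentiableAt ℂ (fun w : ℂ => (-w) ^ (1 / 2 : ℂ)) w :=
        (differentiableAt_id.neg).cpow_const hs'
      have h3 : Dl = fun w => 2 * Complex.cosh (2 * Real.pi * (I * (-w) ^ (1 / 2 : ℂ))) := by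
        funext w
        apply Dl_of_sq
        rw [mul_pow, cpow_half_sq, I_sq]
        ring
      rw [h3]
      fun_prop
  have h2 : ContinuousAt Dl 0 := by
    unfold Dl
    have h3 : ContinuousAt (fun w : ℂ => w ^ (1 / 2 : ℂ)) 0 :=
      Complex.continuousAt_cpow_const_of_re_pos (Or.inl (by simp)) (by norm_num)
    fun_prop
  intro w
  by_cases hw : w = 0
  · subst hw
    refine (Complex.analyticAt_of_differentiable_on_punctured_nhds_of_continuousAt ?_ h2).differentiableAt
    filter_upwards [self_mem_nhdsWithin] with z hz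
    exact h1 z hz
  · exact h1 w hw

/-! ### Elementary facts -/

/-- first order equation with constant coefficient -/
lemma first_order {φ : ℝ → ℂ} {a : ℂ} (h : ∀ x, HasDerivAt φ (a * φ x) x) (x : ℝ) :
    φ x = Complex.exp (a * x) * φ 0 := by
  have h1 : ∀ x : ℝ, HasDerivAt (fun t : ℝ => Complex.exp (-(a * t)) * φ t) 0 x := by
    intro x
    have h2 : HasDerivAt (fun t : ℝ => -(a * (t : ℂ))) (-(a * 1)) x :=
      ((Complex.ofRealCLM.hasDerivAt (x := x)).const_mul a).neg
    have h3 := h2.cexp.mul (h x)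
    refine h3.congr_deriv ?_
    ring
  have h2 := is_const_of_deriv_eq_zero (fun x => (h1 x).differentiableAt) (fun x => (h1 x).deriv) x 0
  simp only [ofReal_zero, mul_zero, neg_zero, Complex.exp_zero, one_mul] at h2
  rw [← h2, ← mul_assoc, ← Complex.exp_add]
  simp

/-- uniqueness for `φ'' = s² φ` -/
lemma second_order_zero {φ φ1 : ℝ → ℂ} {w : ℂ} (h : ∀ x, HasDerivAt φ (φ1 x) x)
    (h1 : ∀ x, HasDerivAt φ1 (w * φ x) x) (z0 : φ 0 = 0) (z1 : φ1 0 = 0) : ∀ x, φ x = 0 := by
  set s : ℂ := w ^ (1 / 2 : ℂ) with hs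
  have hs2 : s ^ 2 = w := cpow_half_sq w
  have h2 : ∀ x, HasDerivAt (fun t => φ1 t - s * φ t) (-s * (φ1 x - s * φ x)) x := by
    intro x
    refine ((h1 x).sub ((h x).const_mul s)).congr_deriv ?_
    rw [← hs2]
    ring
  have h3 : ∀ x, φ1 x - s * φ x = 0 := by
    intro x
    rw [first_order h2 x, z0, z1]
    simp
  have h4 : ∀ x, HasDerivAt φ (s * φ x) x := by
    intro x
    refine (h x).congr_deriv ?_
    linear_combination h3 x
  intro x
  rw [first_order h4 x, z0, mul_zero]

lemma mult_of_second {g g1 : ℝ → ℂ} {w r : ℂ} (h : ∀ x, HasDerivAt g (g1 x) x)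
    (h1 : ∀ x, HasDerivAt g1 (w * g x) x) (hm : ∀ x, g (x + 2 * Real.pi) = r * g x)
    (hr : r ≠ 0) (hg : ∃ x, g x ≠ 0) : r + r⁻¹ = Dl w := by
  obtain ⟨x, hx⟩ := hg
  set s : ℂ := w ^ (1 / 2 : ℂ) with hs
  have hs2 : s ^ 2 = w := cpow_half_sq w
  have key := second_order_zero (w := w)
    (φ := fun t => g (x + t) + g (x - t) - 2 * Complex.cosh (s * t) * g x)
    (φ1 := fun t => g1 (x + t) - g1 (x - t) - 2 * (s * Complex.sinh (s * t)) * g x)
    (fun t => ?_) (fun t => ?_) (by simp; ring) (by simp) (2 * Real.pi)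
  · have h2 := hm (x - 2 * Real.pi)
    rw [sub_add_cancel] at h2
    have h3 : g (x - 2 * Real.pi) = r⁻¹ * g x := by
      rw [h2]
      field_simp
    simp only [h3, hm] at key
    rw [Dl_of_sq hs2]
    have h4 : (r + r⁻¹ - 2 * Complex.cosh (2 * Real.pi * s)) * g x = 0 := by
      have h5 : s * ((2 * Real.pi : ℝ) : ℂ) = 2 * Real.pi * s := by push_cast; ring
      rw [h5] at key
      linear_combination key
    rcases mul_eq_zero.mp h4 with h5 | h5
    · linear_combination h5
    · exact absurd h5 hx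
  · have e1 : HasDerivAt (fun t => g (x + t)) (g1 (x + t)) t := (h (x + t)).comp_const_add x t
    have e2 : HasDerivAt (fun t => g (x - t)) (-(g1 (x - t))) t := by
      have := (h (x - t)).scomp t ((hasDerivAt_id t).const_sub x)
      exact this.congr_deriv (by simp)
    have e3 : HasDerivAt (fun t : ℝ => Complex.cosh (s * (t : ℂ))) (Complex.sinh (s * t) * (s * 1)) t :=
      ((hasDerivAt_id (t : ℂ)).const_mul s).ccosh.comp_ofReal
    refine ((e1.add e2).sub ((e3.const_mul 2).mul_const (g x))).congr_deriv ?_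
    ring
  · have e1 : HasDerivAt (fun t => g1 (x + t)) (w * g (x + t)) t := (h1 (x + t)).comp_const_add x t
    have e2 : HasDerivAt (fun t => g1 (x - t)) (-(w * g (x - t))) t := by
      have := (h1 (x - t)).scomp t ((hasDerivAt_id t).const_sub x)
      exact this.congr_deriv (by simp)
    have e3 : HasDerivAt (fun t : ℝ => Complex.sinh (s * (t : ℂ))) (Complex.cosh (s * t) * (s * 1)) t :=
      ((hasDerivAt_id (t : ℂ)).const_mul s).csinh.comp_ofReal
    refine ((e1.sub e2).sub (((e3.const_mul s).const_mul 2).mul_const (g x))).congr_deriv ?_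
    rw [← hs2]
    ring

/-! ### The equivalence -/

lemma mul_v (_lam r : ℂ) {Y : ℝ → V4} (hm : ∀ x, Y (x + 2 * Real.pi) = r • Y x) (k : Fin 4) (x : ℝ) :
    Y (x + 2 * Real.pi) k = r * Y x k := by
  rw [hm]; rfl

/-- the algebraic identity behind `X ψ = 0` -/
lemma key_ident (x : ℝ) (W W1 W2 W3 : ℂ) :
    v3 x * W + 3 * v2 x * W1 + 3 * v1 x * W2 + v x * W3
      - v x * (W3 - v2 x * W - 2 * v1 x * W1 - v x * W2) - bc x * (W2 - v1 x * W - v x * W1)
      - cc x * (W1 - v x * W) + W2 = 0 := by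
  unfold bc cc
  linear_combination W * ident x

theorem flo_imp {lam r : ℂ} (hr : r ≠ 0) {Y : ℝ → V4} (hY : Flo lam r Y) :
    ∃ w : ℂ, w ^ 2 + w = lam ∧ r + r⁻¹ = Dl w := by
  obtain ⟨d0, d1, d2, d3⟩ := isSol_iff.mp hY.sol
  set y0 : ℝ → ℂ := fun x => Y x 0 with hy0
  set y1 : ℝ → ℂ := fun x => Y x 1 with hy1
  set y2 : ℝ → ℂ := fun x => Y x 2 with hy2
  set y3 : ℝ → ℂ := fun x => Y x 3 with hy3
  have m0 : ∀ x, y0 (x + 2 * Real.pi) = r * y0 x := mul_v lam r hY.mul 0
  have m1 : ∀ x, y1 (x + 2 * Real.pi) = r * y1 x := mul_v lam r hY.mul 1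
  have m2 : ∀ x, y2 (x + 2 * Real.pi) = r * y2 x := mul_v lam r hY.mul 2
  have m3 : ∀ x, y3 (x + 2 * Real.pi) = r * y3 x := mul_v lam r hY.mul 3
  have hyne : ∃ x, y0 x ≠ 0 := by
    by_contra hcon
    push Not at hcon
    apply hY.ne
    have a1 : ∀ x, y1 x = 0 := fun x =>
      (d0 x).unique (by
        have : y0 = fun _ => 0 := funext hcon
        rw [this]; exact hasDerivAt_const x 0)
    have a2 : ∀ x, y2 x = 0 := fun x =>
      (d1 x).unique (by
        have : y1 = fun _ => 0 := funext a1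
        rw [this]; exact hasDerivAt_const x 0)
    have a3 : ∀ x, y3 x = 0 := fun x =>
      (d2 x).unique (by
        have : y2 = fun _ => 0 := funext a2
        rw [this]; exact hasDerivAt_const x 0)
    funext x
    ext k
    fin_cases k
    · exact hcon x
    · exact a1 x
    · exact a2 x
    · exact a3 x
  -- the transformed function
  let z0 : ℝ → ℂ := fun x => y3 x + v x * y2 x + bc x * y1 x + cc x * y0 x
  let z1 : ℝ → ℂ := fun x => lam * y0 x + v x * z0 x
  let z2 : ℝ → ℂ := fun x => lam * y1 x + v1 x * z0 x + v x * z1 x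
  let z3 : ℝ → ℂ := fun x => lam * y2 x + v2 x * z0 x + 2 * v1 x * z1 x + v x * z2 x
  have e0 : ∀ x, HasDerivAt z0 (z1 x) x := by
    intro x
    have h1 := (((d3 x).add ((dv x).mul (d2 x))).add ((dbc x).mul (d1 x))).add ((dcc x).mul (d0 x))
    refine h1.congr_deriv ?_
    simp only [z1, z0, p0, p1, p2, bc, bc1, cc]
    ring
  have e1 : ∀ x, HasDerivAt z1 (z2 x) x := by
    intro x
    have h1 := ((d0 x).const_mul lam).add ((dv x).mul (e0 x))
    refine h1.congr_deriv ?_
    simp only [z2]
    ring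
  have e2 : ∀ x, HasDerivAt z2 (z3 x) x := by
    intro x
    have h1 := (((d1 x).const_mul lam).add ((dv1 x).mul (e0 x))).add ((dv x).mul (e1 x))
    refine h1.congr_deriv ?_
    simp only [z3]
    ring
  have e3 : ∀ x, HasDerivAt z3 (lam * z0 x - z2 x) x := by
    intro x
    have h1 := ((((d2 x).const_mul lam).add ((dv2 x).mul (e0 x))).add
      (((dv1 x).const_mul 2).mul (e1 x))).add ((dv x).mul (e2 x))
    refine h1.congr_deriv ?_
    have h2 := key_ident x (z0 x) (z1 x) (z2 x) (z3 x)
    have f0 : z1 x = lam * y0 x + v x * z0 x := rfl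
    have f1 : z2 x = lam * y1 x + v1 x * z0 x + v x * z1 x := rfl
    have f2 : z3 x = lam * y2 x + v2 x * z0 x + 2 * v1 x * z1 x + v x * z2 x := rfl
    have f3 : z0 x = y3 x + v x * y2 x + bc x * y1 x + cc x * y0 x := rfl
    linear_combination h2 - lam * f3 + v x * f2 + bc x * f1 + cc x * f0
  have mz : ∀ x, z0 (x + 2 * Real.pi) = r * z0 x := by
    intro x
    simp only [z0, m0, m1, m2, m3, v_per, bc, cc, v1_per, v2_per]
    ring
  have mz1 : ∀ x, z1 (x + 2 * Real.pi) = r * z1 x := by
    intro x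
    simp only [z1, m0, mz, v_per]
    ring
  have mz2 : ∀ x, z2 (x + 2 * Real.pi) = r * z2 x := by
    intro x
    simp only [z2, m1, mz, mz1, v_per, v1_per]
    ring
  by_cases hz : ∃ x, z0 x ≠ 0
  · obtain ⟨w1, hw1⟩ : ∃ w : ℂ, w ^ 2 + w = lam := by
      refine ⟨(-1 + (1 + 4 * lam) ^ (1 / 2 : ℂ)) / 2, ?_⟩
      have := cpow_half_sq (1 + 4 * lam)
      linear_combination this / 4
    by_cases hg : ∃ x, z2 x - (-1 - w1) * z0 x ≠ 0
    · refine ⟨w1, hw1, ?_⟩
      refine mult_of_second (g := fun x => z2 x - (-1 - w1) * z0 x)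
        (g1 := fun x => z3 x - (-1 - w1) * z1 x) ?_ ?_ ?_ hr hg
      · intro x
        exact (e2 x).sub ((e0 x).const_mul _)
      · intro x
        refine ((e3 x).sub ((e1 x).const_mul _)).congr_deriv ?_
        rw [← hw1]
        ring
      · intro x
        simp only [mz, mz2]
        ring
    · push Not at hg
      refine ⟨-1 - w1, by rw [← hw1]; ring, ?_⟩
      refine mult_of_second (g := z0) (g1 := z1) e0 ?_ mz hr hz
      intro x
      refine (e1 x).congr_deriv ?_
      linear_combination hg x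
  · push Not at hz
    have hl : lam = 0 := by
      obtain ⟨x, hx⟩ := hyne
      have h1 : z1 x = 0 := (e0 x).unique (by
        have : z0 = fun _ => 0 := funext hz
        rw [this]; exact hasDerivAt_const x 0)
      simp only [z1, hz, mul_zero, add_zero] at h1
      exact (mul_eq_zero.mp h1).resolve_right hx
    have hy3' : ∀ x, y3 x + v x * y2 x + bc x * y1 x + cc x * y0 x = 0 := hz
    -- solve `W' - v W = y0`
    have cy0 : Continuous y0 := continuous_iff_continuousAt.mpr fun x => (d0 x).continuousAt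
    have ch : Continuous h := cdh.continuous
    let J : ℝ → ℂ := fun x => ∫ t in (0 : ℝ)..x, y0 t / h t
    have hJ : ∀ x, HasDerivAt J (y0 x / h x) x := by
      intro x
      have hc : Continuous fun t => y0 t / h t := cy0.div ch h_ne
      exact intervalIntegral.integral_hasDerivAt_right (hc.intervalIntegrable _ _)
        hc.stronglyMeasurable.stronglyMeasurableAtFilter hc.continuousAt
    let W : ℝ → ℂ := fun x => h x * J x
    let W1 : ℝ → ℂ := fun x => v x * W x + y0 x
    let W2 : ℝ → ℂ := fun x => v1 x * W x + v x * W1 x + y1 x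
    let W3 : ℝ → ℂ := fun x => v2 x * W x + 2 * v1 x * W1 x + v x * W2 x + y2 x
    have g0 : ∀ x, HasDerivAt W (W1 x) x := by
      intro x
      refine ((dh x).mul (hJ x)).congr_deriv ?_
      have h0 := h_ne x
      simp only [W1, W, v]
      field_simp
    have g1 : ∀ x, HasDerivAt W1 (W2 x) x := by
      intro x
      exact (((dv x).mul (g0 x)).add (d0 x)).congr_deriv rfl
    have g2 : ∀ x, HasDerivAt W2 (W3 x) x := by
      intro x
      refine ((((dv1 x).mul (g0 x)).add ((dv x).mul (g1 x))).add (d1 x)).congr_deriv ?_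
      simp only [W3]
      ring
    have g3 : ∀ x, HasDerivAt W3 (-1 * W2 x) x := by
      intro x
      refine (((((dv2 x).mul (g0 x)).add (((dv1 x).const_mul 2).mul (g1 x))).add
        ((dv x).mul (g2 x))).add (d2 x)).congr_deriv ?_
      have h2 := key_ident x (W x) (W1 x) (W2 x) (W3 x)
      have f0 : W1 x = v x * W x + y0 x := rfl
      have f1 : W2 x = v1 x * W x + v x * W1 x + y1 x := rfl
      have f2 : W3 x = v2 x * W x + 2 * v1 x * W1 x + v x * W2 x + y2 x := rfl
      linear_combination h2 + hy3' x + v x * f2 + bc x * f1 + cc x * f0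
    -- `W2` is periodic
    have hW2 : ∀ x : ℝ, W2 x = W2 0 * Complex.cos x + W3 0 * Complex.sin x := by
      intro x
      have h1 := second_order_zero (w := -1)
        (φ := fun x : ℝ => W2 x - (W2 0 * Complex.cos x + W3 0 * Complex.sin x))
        (φ1 := fun x : ℝ => W3 x - (W2 0 * (-Complex.sin x) + W3 0 * Complex.cos x))
        (fun x => ?_) (fun x => ?_) (by simp) (by simp) x
      · exact sub_eq_zero.mp h1
      · have a1 : HasDerivAt (fun t : ℝ => Complex.cos (t : ℂ)) (-Complex.sin x) x := by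
          exact (Complex.hasDerivAt_cos x).comp_ofReal
        have a2 : HasDerivAt (fun t : ℝ => Complex.sin (t : ℂ)) (Complex.cos x) x := by
          exact (Complex.hasDerivAt_sin x).comp_ofReal
        exact (g2 x).sub ((a1.const_mul _).add (a2.const_mul _))
      · have a1 : HasDerivAt (fun t : ℝ => Complex.cos (t : ℂ)) (-Complex.sin x) x := by
          exact (Complex.hasDerivAt_cos x).comp_ofReal
        have a2 : HasDerivAt (fun t : ℝ => Complex.sin (t : ℂ)) (Complex.cos x) x := by
          exact (Complex.hasDerivAt_sin x).comp_ofReal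
        refine ((g3 x).sub ((a2.neg.const_mul _).add (a1.const_mul _))).congr_deriv ?_
        ring
    have pW2 : ∀ x, W2 (x + 2 * Real.pi) = W2 x := by
      intro x
      rw [hW2 (x + 2 * Real.pi), hW2 x]
      push_cast
      rw [Complex.cos_add_two_pi, Complex.sin_add_two_pi]
    obtain ⟨κ, hκ⟩ : ∃ κ, ∀ x, W1 (x + 2 * Real.pi) - W1 x = κ := by
      have h1 : ∀ x, HasDerivAt (fun x => W1 (x + 2 * Real.pi) - W1 x) 0 x := by
        intro x
        refine (((g1 (x + 2 * Real.pi)).comp_add_const x (2 * Real.pi)).sub (g1 x)).congr_deriv ?_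
        rw [pW2, sub_self]
      exact ⟨_, fun x => is_const_of_deriv_eq_zero (fun x => (h1 x).differentiableAt)
        (fun x => (h1 x).deriv) x 0⟩
    obtain ⟨e, he⟩ : ∃ e, ∀ x : ℝ, W (x + 2 * Real.pi) - W x = κ * x + e := by
      have h1 : ∀ x : ℝ, HasDerivAt (fun x : ℝ => W (x + 2 * Real.pi) - W x - κ * x) 0 x := by
        intro x
        have a1 : HasDerivAt (fun t : ℝ => κ * (t : ℂ)) (κ * 1) x :=
          (Complex.ofRealCLM.hasDerivAt (x := x)).const_mul κ
        refine ((((g0 (x + 2 * Real.pi)).comp_add_const x (2 * Real.pi)).sub (g0 x)).sub a1).congr_deriv ?_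
        rw [hκ]
        ring
      refine ⟨W (0 + 2 * Real.pi) - W 0 - κ * (0 : ℝ), fun x => ?_⟩
      have h2 : W (x + 2 * Real.pi) - W x - κ * x = W (0 + 2 * Real.pi) - W 0 - κ * (0 : ℝ) :=
        is_const_of_deriv_eq_zero (fun x => (h1 x).differentiableAt) (fun x => (h1 x).deriv) x 0
      linear_combination h2
    have q1 : ∀ x : ℝ, (r - 1) * y0 x = κ - v x * (κ * x + e) := by
      intro x
      have h1 := hκ x
      simp only [W1, m0, v_per] at h1
      linear_combination h1 - v x * he x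
    have q2 : ∀ x : ℝ, (r - 1) * ((r - 1) * y0 x) = -(v x * (κ * (2 * Real.pi))) := by
      intro x
      have h1 := q1 (x + 2 * Real.pi)
      rw [m0, v_per] at h1
      push_cast at h1
      linear_combination h1 - q1 x
    have q3 : ∀ x : ℝ, (r - 1) * ((r - 1) * ((r - 1) * y0 x)) = 0 := by
      intro x
      have h1 := q2 (x + 2 * Real.pi)
      rw [m0, v_per] at h1
      linear_combination h1 - q2 x
    obtain ⟨x, hx⟩ := hyne
    have hr1 : r = 1 := by
      by_contra hr1
      have h1 : r - 1 ≠ 0 := sub_ne_zero.mpr hr1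
      have := q3 x
      simp [h1, hx] at this
    refine ⟨0, by rw [hl]; ring, ?_⟩
    rw [Dl_zero, hr1]
    norm_num

theorem imp_flo {lam r : ℂ} (hr : r ≠ 0) {w : ℂ} (hw : w ^ 2 + w = lam) (hD : r + r⁻¹ = Dl w) :
    ∃ Y, Flo lam r Y := by
  obtain ⟨s, hs, hrs⟩ : ∃ s : ℂ, s ^ 2 = w ∧ r = Complex.exp (2 * Real.pi * s) := by
    have h0 := cpow_half_sq w
    set s := w ^ (1 / 2 : ℂ)
    rw [Dl_of_sq h0, Complex.cosh] at hD
    have h1 : (r - Complex.exp (2 * Real.pi * s)) * (r - Complex.exp (-(2 * Real.pi * s))) = 0 := by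
      have h2 : Complex.exp (2 * Real.pi * s) * Complex.exp (-(2 * Real.pi * s)) = 1 := by
        rw [← Complex.exp_add]; simp
      have h3 : r * r⁻¹ = 1 := mul_inv_cancel₀ hr
      linear_combination r * hD - h3 + h2
    rcases mul_eq_zero.mp h1 with h2 | h2
    · exact ⟨s, h0, sub_eq_zero.mp h2⟩
    · refine ⟨-s, by rw [neg_sq, h0], ?_⟩
      rw [sub_eq_zero.mp h2]
      congr 1
      ring
  let z : ℝ → ℂ := fun x => Complex.exp (s * x)
  have dz : ∀ x, HasDerivAt z (s * z x) x := by
    intro x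
    have e3 : HasDerivAt (fun t : ℝ => s * (t : ℂ)) (s * 1) x :=
      (Complex.ofRealCLM.hasDerivAt (x := x)).const_mul s
    refine e3.cexp.congr_deriv ?_
    simp only [z]
    ring
  have mz : ∀ x, z (x + 2 * Real.pi) = r * z x := by
    intro x
    simp only [z]
    rw [hrs, ← Complex.exp_add]
    congr 1
    push_cast
    ring
  have hlam : s ^ 4 + s ^ 2 = lam := by rw [← hw, ← hs]; ring
  let y0 : ℝ → ℂ := fun x => s * z x - v x * z x
  let y1 : ℝ → ℂ := fun x => s ^ 2 * z x - v1 x * z x - v x * (s * z x)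
  let y2 : ℝ → ℂ := fun x => s ^ 3 * z x - v2 x * z x - 2 * v1 x * (s * z x) - v x * (s ^ 2 * z x)
  let y3 : ℝ → ℂ := fun x => lam * z x - v x * y2 x - bc x * y1 x - cc x * y0 x
  have d0 : ∀ x, HasDerivAt y0 (y1 x) x := by
    intro x
    refine (((dz x).const_mul s).sub ((dv x).mul (dz x))).congr_deriv ?_
    simp only [y1]
    ring
  have d1 : ∀ x, HasDerivAt y1 (y2 x) x := by
    intro x
    refine ((((dz x).const_mul (s ^ 2)).sub ((dv1 x).mul (dz x))).sub
      ((dv x).mul ((dz x).const_mul s))).congr_deriv ?_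
    simp only [y2]
    ring
  have d2 : ∀ x, HasDerivAt y2 (y3 x) x := by
    intro x
    refine (((((dz x).const_mul (s ^ 3)).sub ((dv2 x).mul (dz x))).sub
      (((dv1 x).const_mul 2).mul ((dz x).const_mul s))).sub
      ((dv x).mul ((dz x).const_mul (s ^ 2)))).congr_deriv ?_
    have h2 := key_ident x (z x) (s * z x) (s ^ 2 * z x) (s ^ 3 * z x)
    have f0 : y0 x = s * z x - v x * z x := rfl
    have f1 : y1 x = s ^ 2 * z x - v1 x * z x - v x * (s * z x) := rfl
    have f2 : y2 x = s ^ 3 * z x - v2 x * z x - 2 * v1 x * (s * z x) - v x * (s ^ 2 * z x) := rfl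
    have f3 : y3 x = lam * z x - v x * y2 x - bc x * y1 x - cc x * y0 x := rfl
    rw [f3, f2, f1, f0]
    linear_combination -h2 + z x * hlam
  have d3 : ∀ x, HasDerivAt y3 (lam * y0 x - p2 x * y2 x - p1 x * y1 x - p0 x * y0 x) x := by
    intro x
    refine (((((dz x).const_mul lam).sub ((dv x).mul (d2 x))).sub ((dbc x).mul (d1 x))).sub
      ((dcc x).mul (d0 x))).congr_deriv ?_
    have f3 : y3 x = lam * z x - v x * y2 x - bc x * y1 x - cc x * y0 x := rfl
    have f0 : y0 x = s * z x - v x * z x := rfl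
    simp only [p0, p1, p2]
    rw [f3]
    unfold bc1 bc cc
    linear_combination -lam * f0
  refine ⟨fun x => ![y0 x, y1 x, y2 x, y3 x], isSol_iff.mpr ⟨d0, d1, d2, d3⟩, ?_, ?_⟩
  · intro h0
    have a1 : y0 0 = 0 := congrFun (congrFun h0 0) 0
    have a2 : y0 Real.pi = 0 := congrFun (congrFun h0 Real.pi) 0
    have zne : ∀ x, z x ≠ 0 := fun x => Complex.exp_ne_zero _
    have b1 : s = v 0 := by
      have : (s - v 0) * z 0 = 0 := by rw [sub_mul]; exact a1
      exact sub_eq_zero.mp ((mul_eq_zero.mp this).resolve_right (zne 0))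
    have b2 : s = v Real.pi := by
      have : (s - v Real.pi) * z Real.pi = 0 := by rw [sub_mul]; exact a2
      exact sub_eq_zero.mp ((mul_eq_zero.mp this).resolve_right (zne _))
    rw [b1, v_zero, v_pi] at b2
    have : (4 : ℂ) * I = 0 := by linear_combination 3 * b2
    simp at this
  · intro x
    have c0 : y0 (x + 2 * Real.pi) = r * y0 x := by
      simp only [y0, mz, v_per]; ring
    have c1 : y1 (x + 2 * Real.pi) = r * y1 x := by
      simp only [y1, mz, v_per, v1_per]; ring
    have c2 : y2 (x + 2 * Real.pi) = r * y2 x := by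
      simp only [y2, mz, v_per, v1_per, v2_per]; ring
    have c3 : y3 (x + 2 * Real.pi) = r * y3 x := by
      simp only [y3, mz, v_per, c0, c1, c2, bc, cc, v1_per, v2_per]; ring
    ext k
    fin_cases k
    · exact c0
    · exact c1
    · exact c2
    · exact c3

end

end Pool.Agent.R906.DT
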