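import Pool.Agent.Helper107.LC.MFrob

/-!
Global existence and uniqueness for linear differential equations on the real line.
-/

namespace Pool.Agent.R906.LinODE

open Set Filter Topology

variable {E : Type*} [NormedAddCommGroup E] [NormedSpace ℝ E]

theorem lin_unique_Ioo (A : ℝ → E →L[ℝ] E) (hA : Continuous A) {a b t0 : ℝ}
    (ht0 : t0 ∈ Ioo a b) {Y Z : ℝ → E}
    (hY : ∀ t ∈ Ioo a b, HasDerivAt Y (A t (Y t)) t)
    (hZ : ∀ t ∈ Ioo a b, HasDerivAt Z (A t (Z t)) t) (h0 : Y t0 = Z t0) :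
    EqOn Y Z (Ioo a b) := by
  obtain ⟨K, hK⟩ := isCompact_Icc.exists_bound_of_continuousOn (s := Icc a b) hA.continuousOn
  have hv : ∀ t ∈ Ioo a b, LipschitzOnWith (Real.toNNReal K) (fun x => A t x) univ := by
    intro t ht
    have h1 : ‖A t‖ ≤ K := hK t ⟨ht.1.le, ht.2.le⟩
    have h2 : LipschitzWith (Real.toNNReal K) (A t) := by
      refine (A t).lipschitz.weaken ?_
      rw [← NNReal.coe_le_coe]
      simpa using h1.trans (Real.le_coe_toNNReal K)
    exact h2.lipschitzOnWith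
  exact ODE_solution_unique_of_mem_Ioo (v := fun t x => A t x) (s := fun _ => univ)
    hv ht0 (fun t ht => ⟨hY t ht, mem_univ _⟩) (fun t ht => ⟨hZ t ht, mem_univ _⟩) h0

theorem lin_unique (A : ℝ → E →L[ℝ] E) (hA : Continuous A) {Y Z : ℝ → E}
    (hY : ∀ t, HasDerivAt Y (A t (Y t)) t)
    (hZ : ∀ t, HasDerivAt Z (A t (Z t)) t) (h0 : Y 0 = Z 0) : Y = Z := by
  funext t
  have h1 : (0 : ℝ) ∈ Ioo (-(|t| + 1)) (|t| + 1) := by
    constructor <;> linarith [abs_nonneg t]
  have h2 : t ∈ Ioo (-(|t| + 1)) (|t| + 1) := by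
    constructor <;> linarith [le_abs_self t, neg_abs_le t]
  exact lin_unique_Ioo A hA h1 (fun s _ => hY s) (fun s _ => hZ s) h0 h2

variable [CompleteSpace E]

theorem lin_exists_Ioo (A : ℝ → E →L[ℝ] E) (hA : Continuous A) (x0 : E) (R : ℝ) (hR : 0 < R) :
    ∃ Y : ℝ → E, Y 0 = x0 ∧ ∀ t ∈ Ioo (-R) R, HasDerivAt Y (A t (Y t)) t := by
  let L : ℝ → (E × E) →L[ℝ] (E × E) := fun t =>
    (ContinuousLinearMap.inl ℝ E E).comp (R • ((A (R * t)).comp (ContinuousLinearMap.fst ℝ E E))) +
      (ContinuousLinearMap.inr ℝ E E).comp ((-R) • ((A (-R * t)).comp (ContinuousLinearMap.snd ℝ E E)))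
  have hL : Continuous L := by
    have h1 : Continuous fun t : ℝ => R • ((A (R * t)).comp (ContinuousLinearMap.fst ℝ E E)) :=
      ((hA.comp (continuous_const.mul continuous_id)).clm_comp continuous_const).const_smul R
    have h2 : Continuous fun t : ℝ => (-R) • ((A (-R * t)).comp (ContinuousLinearMap.snd ℝ E E)) :=
      ((hA.comp (continuous_const.mul continuous_id)).clm_comp continuous_const).const_smul (-R)
    exact (continuous_const.clm_comp h1).add (continuous_const.clm_comp h2)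
  obtain ⟨G, hG0, hG⟩ := Pool.Agent.Helper107.LC.fr_lin_exists L hL (x0, x0)
  have hp : ∀ s : ℝ, 0 ≤ s → s < R → HasDerivAt (fun t => (G (t / R)).1) (A s (G (s / R)).1) s := by
    intro s h1 h2
    have h3 := hG (s / R) ⟨by positivity, by rw [div_le_one hR]; exact h2.le⟩
    have h4 : HasDerivAt (fun t : ℝ => t / R) (1 / R) s := (hasDerivAt_id s).div_const R
    have h5 : HasDerivAt (fun t => (G (t / R)).1) ((1 / R) • L (s / R) (G (s / R))).1 s :=
      (ContinuousLinearMap.fst ℝ E E).hasFDerivAt.comp_hasDerivAt s (h3.scomp s h4)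
    have h7 : R * (s / R) = s := by field_simp
    have h8 : ((1 / R) • L (s / R) (G (s / R))).1 = A s (G (s / R)).1 := by
      simp [L, smul_smul, h7, inv_mul_cancel₀ hR.ne']
    rwa [h8] at h5
  have hm : ∀ s : ℝ, s ≤ 0 → -R < s → HasDerivAt (fun t => (G (-t / R)).2) (A s (G (-s / R)).2) s := by
    intro s h1 h2
    have h3 := hG (-s / R) ⟨by apply div_nonneg (by linarith) hR.le,
      by rw [div_le_one hR]; linarith⟩
    have h4 : HasDerivAt (fun t : ℝ => -t / R) (-1 / R) s := (hasDerivAt_id s).neg.div_const R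
    have h5 : HasDerivAt (fun t => (G (-t / R)).2) ((-1 / R) • L (-s / R) (G (-s / R))).2 s :=
      (ContinuousLinearMap.snd ℝ E E).hasFDerivAt.comp_hasDerivAt s (h3.scomp s h4)
    have h6 : -1 / R * R = -1 := by field_simp
    have h7 : -(R * (-s / R)) = s := by field_simp
    have h8 : ((-1 / R) • L (-s / R) (G (-s / R))).2 = A s (G (-s / R)).2 := by
      simp [L, smul_smul, h7, h6]
    rwa [h8] at h5
  refine ⟨fun t => if 0 ≤ t then (G (t / R)).1 else (G (-t / R)).2, by simp [hG0], ?_⟩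
  rintro t ⟨ht1, ht2⟩
  rcases lt_trichotomy t 0 with h | h | h
  · have h1 := hm t h.le ht1
    simp only [if_neg (not_le.mpr h)]
    refine h1.congr_of_eventuallyEq ?_
    filter_upwards [gt_mem_nhds h] with s hs
    simp only [if_neg (not_le.mpr hs)]
  · subst h
    have e1 := hp 0 le_rfl hR
    have e2 := hm 0 le_rfl (by linarith)
    simp only [le_refl, if_true]
    have z1 : (G (0 / R)).1 = x0 := by simp [hG0]
    have z2 : (G (-0 / R)).2 = x0 := by simp [hG0]
    rw [z1] at e1 ⊢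
    rw [z2] at e2
    have f1 : HasDerivWithinAt (fun t => if 0 ≤ t then (G (t / R)).1 else (G (-t / R)).2)
        (A 0 x0) (Ici 0) 0 := by
      refine e1.hasDerivWithinAt.congr (fun s hs => ?_) (by simp)
      simp only [if_pos (show (0:ℝ) ≤ s from hs)]
    have f2 : HasDerivWithinAt (fun t => if 0 ≤ t then (G (t / R)).1 else (G (-t / R)).2)
        (A 0 x0) (Iic 0) 0 := by
      refine e2.hasDerivWithinAt.congr (fun s hs => ?_) ?_
      · rcases eq_or_lt_of_le (show s ≤ 0 from hs) with h | h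
        · subst h; simp [hG0]
        · simp only [if_neg (not_le.mpr h)]
      · simp [hG0]
    have f3 := f2.union f1
    rwa [Iic_union_Ici, hasDerivWithinAt_univ] at f3
  · have h1 := hp t h.le ht2
    simp only [if_pos h.le]
    refine h1.congr_of_eventuallyEq ?_
    filter_upwards [lt_mem_nhds h] with s hs
    simp only [if_pos (le_of_lt hs)]

theorem lin_exists (A : ℝ → E →L[ℝ] E) (hA : Continuous A) (x0 : E) :
    ∃ Y : ℝ → E, Y 0 = x0 ∧ ∀ t, HasDerivAt Y (A t (Y t)) t := by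
  have h : ∀ n : ℕ, ∃ Y : ℝ → E, Y 0 = x0 ∧
      ∀ t ∈ Ioo (-((n : ℝ) + 1)) ((n : ℝ) + 1), HasDerivAt Y (A t (Y t)) t :=
    fun n => lin_exists_Ioo A hA x0 _ (by positivity)
  choose G hG0 hG using h
  have key : ∀ m n : ℕ, m ≤ n → EqOn (G m) (G n) (Ioo (-((m : ℝ) + 1)) ((m : ℝ) + 1)) := by
    intro m n hmn
    have hmn' : (m : ℝ) ≤ n := by exact_mod_cast hmn
    refine lin_unique_Ioo A hA (t0 := 0) ⟨by linarith [(Nat.cast_nonneg m : (0 : ℝ) ≤ m)], by positivity⟩
      (hG m) (fun t ht => hG n t ⟨by linarith [ht.1], by linarith [ht.2]⟩) (by rw [hG0, hG0])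
  refine ⟨fun t => G ⌈|t|⌉₊ t, by simp [hG0], ?_⟩
  intro t
  have hmem : ∀ s : ℝ, s ∈ Ioo (-((⌈|s|⌉₊ : ℝ) + 1)) ((⌈|s|⌉₊ : ℝ) + 1) := by
    intro s
    have h1 := Nat.le_ceil |s|
    constructor <;> linarith [le_abs_self s, neg_abs_le s]
  set N := ⌈|t|⌉₊ + 1 with hN
  have h1 : ∀ s : ℝ, |s - t| < 1 → G ⌈|s|⌉₊ s = G N s := by
    intro s hs
    refine key _ _ ?_ (hmem s)
    rw [hN, Nat.ceil_le]
    push_cast
    have h2 := Nat.le_ceil |t|
    have h3 : |s| ≤ |t| + |s - t| := by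
      have : s = t + (s - t) := by ring
      calc |s| = |t + (s - t)| := by rw [← this]
        _ ≤ _ := abs_add_le _ _
    linarith
  have h2 : HasDerivAt (G N) (A t (G N t)) t := by
    apply hG N t
    have := hmem t
    rw [hN]
    push_cast
    constructor <;> linarith [this.1, this.2]
  simp only [h1 t (by simp)]
  refine h2.congr_of_eventuallyEq ?_
  filter_upwards [Metric.ball_mem_nhds t one_pos] with s hs
  exact h1 s (by simpa [Real.dist_eq] using hs)

end Pool.Agent.R906.LinODE
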