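import Pool.Agent.R906.DTCoef
import Pool.Agent.R906.LinODE

/-!
The first order system of the operator, and Floquet solutions.
-/

namespace Pool.Agent.R906.DT

open Complex
open scoped ContDiff

noncomputable section

abbrev V4 := Fin 4 → ℂ

def S0 : V4 →L[ℝ] V4 :=
  ContinuousLinearMap.pi ![ContinuousLinearMap.proj 1, ContinuousLinearMap.proj 2,
    ContinuousLinearMap.proj 3, 0]

def B0 (k : Fin 4) : V4 →L[ℝ] V4 :=
  ContinuousLinearMap.pi ![0, 0, 0, ContinuousLinearMap.proj k]

def A (lam : ℂ) (x : ℝ) : V4 →L[ℝ] V4 :=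
  S0 + (lam - p0 x) • B0 0 - p1 x • B0 1 - p2 x • B0 2

lemma A_cont (lam : ℂ) : Continuous (A lam) := by
  have h0 := cdp0.continuous
  have h1 := cdp1.continuous
  have h2 := cdp2.continuous
  unfold A
  fun_prop

lemma A_apply (lam : ℂ) (x : ℝ) (Y : V4) : A lam x Y =
    ![Y 1, Y 2, Y 3, lam * Y 0 - p2 x * Y 2 - p1 x * Y 1 - p0 x * Y 0] := by
  ext i
  fin_cases i
  · simp [A, S0, B0]
  · simp [A, S0, B0]
  · simp [A, S0, B0]
  · simp [A, S0, B0]; ring

/-- jets of solutions -/
structure Jet (lam : ℂ) (y0 y1 y2 y3 : ℝ → ℂ) : Prop where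
  d0 : ∀ x, HasDerivAt y0 (y1 x) x
  d1 : ∀ x, HasDerivAt y1 (y2 x) x
  d2 : ∀ x, HasDerivAt y2 (y3 x) x
  d3 : ∀ x, HasDerivAt y3 (lam * y0 x - p2 x * y2 x - p1 x * y1 x - p0 x * y0 x) x

def IsSol (lam : ℂ) (Y : ℝ → V4) : Prop := ∀ x, HasDerivAt Y (A lam x (Y x)) x

lemma isSol_iff {lam : ℂ} {Y : ℝ → V4} : IsSol lam Y ↔
    Jet lam (fun x => Y x 0) (fun x => Y x 1) (fun x => Y x 2) (fun x => Y x 3) := by
  unfold IsSol
  simp only [hasDerivAt_pi, A_apply]
  constructor
  · intro H
    exact ⟨fun x => H x 0, fun x => H x 1, fun x => H x 2, fun x => H x 3⟩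
  · rintro ⟨a, b, c, d⟩ x i
    fin_cases i
    · exact a x
    · exact b x
    · exact c x
    · exact d x

lemma isSol_unique {lam : ℂ} {Y Z : ℝ → V4} (hY : IsSol lam Y) (hZ : IsSol lam Z)
    (h0 : Y 0 = Z 0) : Y = Z :=
  LinODE.lin_unique (A lam) (A_cont lam) hY hZ h0

lemma isSol_exists (lam : ℂ) (c : V4) : ∃ Y, Y 0 = c ∧ IsSol lam Y :=
  LinODE.lin_exists (A lam) (A_cont lam) c

/-- from a solution of the equation to its jet -/
lemma jet_of {lam : ℂ} {y : ℝ → ℂ} (hy : ContDiff ℝ 4 y) (hs : ∀ x, opL 4 P y x = lam * y x) :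
    IsSol lam (fun x k => iteratedDeriv k y x) := by
  rw [isSol_iff]
  have key : ∀ k : ℕ, k < 4 → ∀ x, HasDerivAt (iteratedDeriv k y) (iteratedDeriv (k + 1) y x) x := by
    intro k hk x
    have h1 : Differentiable ℝ (iteratedDeriv k y) :=
      hy.differentiable_iteratedDeriv k (by exact_mod_cast hk)
    rw [iteratedDeriv_succ]
    exact (h1 x).hasDerivAt
  refine ⟨key 0 (by norm_num), key 1 (by norm_num), key 2 (by norm_num), fun x => ?_⟩
  refine (key 3 (by norm_num) x).congr_deriv ?_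
  have h1 := hs x
  rw [opL_eq] at h1
  simp only [Fin.val_zero, Fin.val_one, Fin.val_two, iteratedDeriv_zero, Fin.isValue]
  linear_combination h1

/-- from a jet to a solution of the equation -/
lemma of_jet {lam : ℂ} {Y : ℝ → V4} (hY : IsSol lam Y) :
    ContDiff ℝ 4 (fun x => Y x 0) ∧ (∀ x, opL 4 P (fun x => Y x 0) x = lam * Y x 0) ∧
      ∀ k : Fin 4, ∀ x, iteratedDeriv k (fun x => Y x 0) x = Y x k := by
  obtain ⟨d0, d1, d2, d3⟩ := isSol_iff.mp hY
  have e0 : deriv (fun x => Y x 0) = fun x => Y x 1 := funext fun x => (d0 x).deriv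
  have e1 : deriv (fun x => Y x 1) = fun x => Y x 2 := funext fun x => (d1 x).deriv
  have e2 : deriv (fun x => Y x 2) = fun x => Y x 3 := funext fun x => (d2 x).deriv
  have e3 : deriv (fun x => Y x 3) = fun x => lam * Y x 0 - p2 x * Y x 2 - p1 x * Y x 1 - p0 x * Y x 0 :=
    funext fun x => (d3 x).deriv
  have i1 : iteratedDeriv 1 (fun x => Y x 0) = fun x => Y x 1 := by
    rw [iteratedDeriv_one, e0]
  have i2 : iteratedDeriv 2 (fun x => Y x 0) = fun x => Y x 2 := by
    rw [iteratedDeriv_succ, i1, e1]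
  have i3 : iteratedDeriv 3 (fun x => Y x 0) = fun x => Y x 3 := by
    rw [iteratedDeriv_succ, i2, e2]
  have i4 : iteratedDeriv 4 (fun x => Y x 0) =
      fun x => lam * Y x 0 - p2 x * Y x 2 - p1 x * Y x 1 - p0 x * Y x 0 := by
    rw [iteratedDeriv_succ, i3, e3]
  refine ⟨?_, ?_, ?_⟩
  · have c0 : Continuous fun x => Y x 0 := continuous_iff_continuousAt.mpr fun x => (d0 x).continuousAt
    have c1 : Continuous fun x => Y x 1 := continuous_iff_continuousAt.mpr fun x => (d1 x).continuousAt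
    have c2 : Continuous fun x => Y x 2 := continuous_iff_continuousAt.mpr fun x => (d2 x).continuousAt
    have hp0 := cdp0.continuous
    have hp1 := cdp1.continuous
    have hp2 := cdp2.continuous
    have k3 : ContDiff ℝ 1 (fun x => Y x 3) := by
      rw [show (1 : WithTop ℕ∞) = 0 + 1 from rfl, contDiff_succ_iff_deriv]
      refine ⟨fun x => (d3 x).differentiableAt, by simp, ?_⟩
      rw [e3, contDiff_zero]
      fun_prop
    have k2 : ContDiff ℝ 2 (fun x => Y x 2) := by
      rw [show (2 : WithTop ℕ∞) = 1 + 1 from rfl, contDiff_succ_iff_deriv]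
      refine ⟨fun x => (d2 x).differentiableAt, by simp, ?_⟩
      rw [e2]
      exact k3
    have k1 : ContDiff ℝ 3 (fun x => Y x 1) := by
      rw [show (3 : WithTop ℕ∞) = 2 + 1 from rfl, contDiff_succ_iff_deriv]
      refine ⟨fun x => (d1 x).differentiableAt, by simp, ?_⟩
      rw [e1]
      exact k2
    rw [show (4 : WithTop ℕ∞) = 3 + 1 from rfl, contDiff_succ_iff_deriv]
    refine ⟨fun x => (d0 x).differentiableAt, by simp, ?_⟩
    rw [e0]
    exact k1
  · intro x
    rw [opL_eq, i4, i2, i1]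
    ring
  · intro k x
    fin_cases k
    · simp
    · exact congrFun i1 x
    · exact congrFun i2 x
    · exact congrFun i3 x

lemma isFund_exists (lam : ℂ) : ∃ u, IsFund 4 P lam u := by
  choose Y hY0 hY using fun j : Fin 4 => isSol_exists lam (fun k => if j = k then 1 else 0)
  refine ⟨fun j x => Y j x 0, fun j => (of_jet (hY j)).1, fun j x => (of_jet (hY j)).2.1 x, ?_⟩
  intro j k
  rw [(of_jet (hY j)).2.2 k 0, hY0]

/-- a Floquet solution -/
structure Flo (lam r : ℂ) (Y : ℝ → V4) : Prop where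
  sol : IsSol lam Y
  ne : Y ≠ 0
  mul : ∀ x, Y (x + 2 * Real.pi) = r • Y x

lemma isSol_sum {lam : ℂ} {U : Fin 4 → ℝ → V4} (hU : ∀ j, IsSol lam (U j)) (c : V4) :
    IsSol lam (fun x => ∑ j, c j • U j x) := by
  intro x
  have h1 : HasDerivAt (fun x => ∑ j, c j • U j x) (∑ j, c j • A lam x (U j x)) x :=
    HasDerivAt.fun_sum fun j _ => (hU j x).const_smul (c j)
  refine h1.congr_deriv ?_
  rw [map_sum]
  refine Finset.sum_congr rfl fun j _ => ?_
  rw [A_apply, A_apply]
  ext i
  fin_cases i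
  · simp
  · simp
  · simp
  · simp; ring

lemma isSol_shift {lam r : ℂ} {Y : ℝ → V4} (hY : IsSol lam Y) (h0 : Y (2 * Real.pi) = r • Y 0) :
    ∀ x, Y (x + 2 * Real.pi) = r • Y x := by
  have h1 : IsSol lam (fun x => Y (x + 2 * Real.pi)) := by
    intro x
    have h2 := (hY (x + 2 * Real.pi)).comp_add_const x (2 * Real.pi)
    refine h2.congr_deriv ?_
    rw [A_apply, A_apply]
    simp only [p0_per, p1_per, p2_per]
  have h2 : IsSol lam (fun x => r • Y x) := by
    intro x
    refine ((hY x).const_smul r).congr_deriv ?_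
    rw [A_apply, A_apply]
    ext i
    fin_cases i
    · simp
    · simp
    · simp
    · simp; ring
  have h3 := isSol_unique h1 h2 (by simpa using h0)
  intro x
  exact congrFun h3 x

lemma det_iff {lam r : ℂ} {u : Fin 4 → ℝ → ℂ} (hu : IsFund 4 P lam u) :
    (r • (1 : Matrix (Fin 4) (Fin 4) ℂ) - floquet 4 (2 * Real.pi) u).det = 0 ↔
      ∃ Y, Flo lam r Y := by
  have hU : ∀ j, IsSol lam (fun x k => iteratedDeriv k (u j) x) := fun j =>
    jet_of (hu.smooth j) (hu.sol j)
  rw [← Matrix.exists_mulVec_eq_zero_iff]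
  constructor
  · rintro ⟨c, hc0, hc⟩
    refine ⟨fun x => ∑ j, c j • (fun k : Fin 4 => iteratedDeriv k (u j) x), ?_⟩
    have hs := isSol_sum hU c
    have hz : (∑ j, c j • (fun k : Fin 4 => iteratedDeriv k (u j) 0)) = c := by
      ext k
      simp only [Finset.sum_apply, Pi.smul_apply, smul_eq_mul, hu.init]
      simp
    refine ⟨hs, ?_, isSol_shift hs ?_⟩
    · intro h0
      apply hc0
      rw [← hz]
      exact congrFun h0 0
    · show (∑ j, c j • (fun k : Fin 4 => iteratedDeriv k (u j) (2 * Real.pi))) =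
        r • ∑ j, c j • (fun k : Fin 4 => iteratedDeriv k (u j) 0)
      rw [hz]
      ext k
      have h1 := congrFun hc k
      rw [Matrix.sub_mulVec, Pi.sub_apply, Matrix.smul_mulVec, Matrix.one_mulVec] at h1
      simp only [Pi.smul_apply, smul_eq_mul, Pi.zero_apply, Matrix.mulVec, dotProduct, floquet,
        Matrix.of_apply] at h1
      simp only [Finset.sum_apply, Pi.smul_apply, smul_eq_mul]
      rw [sub_eq_zero] at h1
      rw [h1]
      exact Finset.sum_congr rfl fun j _ => mul_comm _ _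
  · rintro ⟨Y, hs, hne, hm⟩
    have hc : Y 0 ≠ 0 := by
      intro h0
      apply hne
      have hz : IsSol lam (fun _ => (0 : V4)) := by
        intro x
        simpa using hasDerivAt_const x (0 : V4)
      have := isSol_unique hs hz h0
      rw [this]
      rfl
    refine ⟨Y 0, hc, ?_⟩
    have hz : (∑ j, Y 0 j • (fun k : Fin 4 => iteratedDeriv k (u j) 0)) = Y 0 := by
      ext k
      simp only [Finset.sum_apply, Pi.smul_apply, smul_eq_mul, hu.init]
      simp
    have h1 := isSol_unique (isSol_sum hU (Y 0)) hs hz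
    have h2 := congrFun h1 (2 * Real.pi)
    have h3 := hm 0
    rw [zero_add, ← h2] at h3
    ext k
    have h4 := congrFun h3 k
    rw [Matrix.sub_mulVec, Pi.sub_apply, Matrix.smul_mulVec, Matrix.one_mulVec]
    simp only [Finset.sum_apply, Pi.smul_apply, smul_eq_mul] at h4
    simp only [Pi.smul_apply, smul_eq_mul, Pi.zero_apply, Matrix.mulVec, dotProduct, floquet,
      Matrix.of_apply]
    rw [← h4, sub_eq_zero]
    exact Finset.sum_congr rfl fun j _ => mul_comm _ _

end

end Pool.Agent.R906.DT
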