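import Pool.Agent.R179.Fac.Stmts

/-!
Part FAC-C of `MP_688354_co`: a matching of size at least `n/3` from Tutte's theorem.
-/

open Set

namespace Pool.Agent.R906.FacC

open Pool.Agent.R179.Fac

/-- `G` with `k` new vertices joined to everything. -/
def ext {n : ℕ} (G : SimpleGraph (Fin n)) (k : ℕ) : SimpleGraph (Fin n ⊕ Fin k) where
  Adj a b := a ≠ b ∧ ∀ i j, a = Sum.inl i → b = Sum.inl j → G.Adj i j
  symm := ⟨fun _ _ hab => ⟨hab.1.symm, fun i j hi hj => (hab.2 j i hj hi).symm⟩⟩
  loopless := ⟨fun _ h => h.1 rfl⟩

theorem odd_le {V : Type*} [Finite V] (K : SimpleGraph V) :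
    K.oddComponents.ncard ≤ Nat.card K.ConnectedComponent :=
  (Set.ncard_le_ncard (Set.subset_univ _) (Set.toFinite _)).trans_eq (Set.ncard_univ _)

theorem cc_le_card {V : Type*} [Finite V] (K : SimpleGraph V) :
    Nat.card K.ConnectedComponent ≤ Nat.card V :=
  Nat.card_le_card_of_surjective K.connectedComponentMk (fun c => c.exists_rep)

theorem cc_le_one {V : Type*} [Finite V] (K : SimpleGraph V) (hK : K.Preconnected) :
    Nat.card K.ConnectedComponent ≤ 1 := by
  have := hK.subsingleton_connectedComponent
  exact Finite.card_le_one_iff_subsingleton.2 this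

theorem cc_map {V W : Type*} [Finite V] {K : SimpleGraph V} {L : SimpleGraph W} (f : K →g L)
    (hf : Function.Surjective f) :
    Nat.card L.ConnectedComponent ≤ Nat.card K.ConnectedComponent := by
  refine Nat.card_le_card_of_surjective (SimpleGraph.ConnectedComponent.map f) ?_
  intro c
  obtain ⟨w, rfl⟩ := c.exists_rep
  obtain ⟨v, rfl⟩ := hf w
  exact ⟨K.connectedComponentMk v, rfl⟩

theorem perfect_classes {V : Type*} [Fintype V] [DecidableEq V] {K : SimpleGraph V} {M : K.Subgraph}
    (hM : M.IsPerfectMatching) :
    ∃ (m : ℕ) (c : V → Fin m), 2 * m = Fintype.card V ∧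
      (∀ a b, c a = c b → a ≠ b → K.Adj a b) ∧
      (∀ a b d, c a = c b → c b = c d → a = b ∨ b = d ∨ a = d) := by
  have h1 := SimpleGraph.Subgraph.isPerfectMatching_iff.1 hM
  choose f hf hfu using h1
  have hff : ∀ v, f (f v) = v := by
    intro v
    exact (hfu (f v) v (hf v).symm).symm
  have hne : ∀ v, f v ≠ v := fun v hv => (M.adj_sub (hf v)).ne hv.symm
  let g : V → Sym2 V := fun v => s(v, f v)
  have hg : ∀ a b, g a = g b → a = b ∨ a = f b := by
    intro a b hab
    rcases Sym2.eq_iff.1 hab with h | h
    · exact Or.inl h.1
    · exact Or.inr h.1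
  have hg2 : ∀ b, g (f b) = g b := by
    intro b
    simp only [g, hff]
    exact Sym2.eq_swap
  let Q : Finset (Sym2 V) := Finset.univ.image g
  have hcard : Fintype.card V = 2 * Q.card := by
    have h2 := Finset.card_eq_sum_card_image g (Finset.univ : Finset V)
    rw [Finset.card_univ] at h2
    rw [h2]
    have h3 : ∀ e ∈ Q, (Finset.univ.filter fun a => g a = e).card = 2 := by
      intro e he
      obtain ⟨b, -, rfl⟩ := Finset.mem_image.1 he
      have : (Finset.univ.filter fun a => g a = g b) = {b, f b} := by
        ext a
        simp only [Finset.mem_filter, Finset.mem_univ, true_and, Finset.mem_insert,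
          Finset.mem_singleton]
        constructor
        · exact hg a b
        · rintro (rfl | rfl)
          · rfl
          · exact hg2 b
      rw [this, Finset.card_pair (hne b).symm]
    rw [Finset.sum_congr rfl h3, Finset.sum_const, smul_eq_mul, mul_comm]
  let eq : Q ≃ Fin Q.card := Q.equivFin
  refine ⟨Q.card, fun v => eq ⟨g v, Finset.mem_image_of_mem g (Finset.mem_univ v)⟩, hcard.symm,
    ?_, ?_⟩
  · intro a b hab hne'
    have h2 : g a = g b := by
      have := eq.injective hab
      exact congrArg Subtype.val this
    rcases hg a b h2 with h3 | h3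
    · exact absurd h3 hne'
    · rw [h3]; exact (M.adj_sub (hf b)).symm
  · intro a b d hab hbd
    have h2 : g a = g b := congrArg Subtype.val (eq.injective hab)
    have h3 : g b = g d := congrArg Subtype.val (eq.injective hbd)
    rcases hg a b h2 with h4 | h4
    · exact Or.inl h4
    · rcases hg d b h3.symm with h5 | h5
      · exact Or.inr (Or.inl h5.symm)
      · exact Or.inr (Or.inr (h4.trans h5.symm))

theorem c_ok : St_C := by
  intro n G hn hG hS
  classical
  -- the number of new vertices
  obtain ⟨k, hk3, hkpar, hkmax⟩ : ∃ k, 3 * k ≤ n ∧ k % 2 = n % 2 ∧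
      ∀ r, 3 * r ≤ n → r % 2 = n % 2 → r ≤ k := by
    by_cases h : (n / 3) % 2 = n % 2
    · exact ⟨n / 3, by omega, h, fun r hr _ => by omega⟩
    · exact ⟨n / 3 - 1, by omega, by omega, fun r hr hr2 => by omega⟩
  have hviol : ∀ w, ¬ (ext G k).IsTutteViolator w := by
    intro w hw
    unfold SimpleGraph.IsTutteViolator at hw
    obtain ⟨K, hK⟩ : ∃ K, K = ((⊤ : (ext G k).Subgraph).deleteVerts w).coe := ⟨_, rfl⟩
    rw [← hK] at hw
    have hpar := K.odd_ncard_oddComponents
    have hcardV : Nat.card ↥((⊤ : (ext G k).Subgraph).deleteVerts w).verts + w.ncard = n + k := by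
      rw [SimpleGraph.Subgraph.deleteVerts_verts, SimpleGraph.Subgraph.verts_top, Nat.card_coe_set_eq]
      have h1 := Set.ncard_sdiff_add_ncard_of_subset (Set.subset_univ w) (Set.toFinite _)
      rw [h1, Set.ncard_univ, Nat.card_eq_fintype_card, Fintype.card_sum, Fintype.card_fin,
        Fintype.card_fin]
    have hverts : ∀ a, a ∈ ((⊤ : (ext G k).Subgraph).deleteVerts w).verts ↔ a ∉ w := by
      intro a
      rw [SimpleGraph.Subgraph.deleteVerts_verts]
      simp
    have hadj : ∀ a b : ↥((⊤ : (ext G k).Subgraph).deleteVerts w).verts,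
        K.Adj a b ↔ (ext G k).Adj a b := by
      intro a b
      rw [hK]
      have ha := (hverts a).1 a.2
      have hb := (hverts b).1 b.2
      simp only [SimpleGraph.Subgraph.coe_adj, SimpleGraph.Subgraph.deleteVerts_adj,
        SimpleGraph.Subgraph.top_adj, SimpleGraph.Subgraph.verts_top, Set.mem_univ, true_and]
      exact ⟨fun h => h.2.2, fun h => ⟨ha, hb, h⟩⟩
    by_cases hnew : ∃ v : Fin k, Sum.inr v ∉ w
    · obtain ⟨v, hv⟩ := hnew
      have hpre : K.Preconnected := by
        have hv' : (Sum.inr v : Fin n ⊕ Fin k) ∈ ((⊤ : (ext G k).Subgraph).deleteVerts w).verts :=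
          (hverts _).2 hv
        have hall : ∀ a, K.Reachable a ⟨Sum.inr v, hv'⟩ := by
          intro a
          by_cases hav : (a : Fin n ⊕ Fin k) = Sum.inr v
          · have : a = ⟨Sum.inr v, hv'⟩ := Subtype.ext hav
            rw [this]
          · apply SimpleGraph.Adj.reachable
            rw [hadj]
            exact ⟨hav, fun i j _ hj => by simp at hj⟩
        exact fun a b => (hall a).trans (hall b).symm
      have h1 := (odd_le K).trans (cc_le_one K hpre)
      have h2 : K.oddComponents.ncard = 1 := by omega
      have h3 : w.ncard = 0 := by omega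
      rw [h2] at hpar
      have h4 := hpar.1 odd_one
      rw [Nat.odd_iff] at h4
      omega
    · push Not at hnew
      set S : Finset (Fin n) := Finset.univ.filter fun i => (Sum.inl i : Fin n ⊕ Fin k) ∈ w with hSdef
      have hSmem : ∀ i, i ∈ S ↔ (Sum.inl i : Fin n ⊕ Fin k) ∈ w := by
        intro i; simp [hSdef]
      have hwcard : w.ncard = S.card + k := by
        have hw2 : w = ((S.map ⟨Sum.inl, Sum.inl_injective⟩) ∪
            ((Finset.univ : Finset (Fin k)).map ⟨Sum.inr, Sum.inr_injective⟩) :
            Finset (Fin n ⊕ Fin k)) := by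
          ext a
          rcases a with i | v
          · simp [hSmem]
          · simp [hnew v]
        rw [hw2, Set.ncard_coe_finset, Finset.card_union_of_disjoint]
        · simp
        · rw [Finset.disjoint_left]
          intro a ha hb
          simp only [Finset.mem_map, Function.Embedding.coeFn_mk] at ha hb
          obtain ⟨i, -, rfl⟩ := ha
          obtain ⟨v, -, hv⟩ := hb
          exact absurd hv (by simp)
      -- the surjective homomorphism
      let φ : (G.induce ((S : Set (Fin n))ᶜ)) →g K :=
        { toFun := fun i => ⟨Sum.inl i.1, (hverts _).2 (fun h => i.2 (by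
            have := (hSmem i.1).2 h
            exact_mod_cast this))⟩
          map_rel' := by
            intro a b hab
            rw [hadj]
            have hab' : G.Adj a.1 b.1 := by simpa using hab
            refine ⟨fun h => hab'.ne (Sum.inl_injective h), ?_⟩
            intro i j hi hj
            have h1 : a.1 = i := Sum.inl_injective hi
            have h2 : b.1 = j := Sum.inl_injective hj
            rw [← h1, ← h2]; exact hab' }
      have hφ : Function.Surjective φ := by
        rintro ⟨a, ha⟩
        have ha' := (hverts a).1 ha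
        rcases a with i | v
        · refine ⟨⟨i, ?_⟩, rfl⟩
          intro h
          exact ha' ((hSmem i).1 (by exact_mod_cast h))
        · exact absurd (hnew v) ha'
      have hcc := (odd_le K).trans (cc_map φ hφ)
      by_cases hSe : S.Nonempty
      · have h1 := hcc.trans (hS S hSe)
        have h2 := (odd_le K).trans (cc_le_card K)
        -- o ≤ 2 |S|, o ≤ n - |S|
        have h3 : K.oddComponents.ncard - S.card ≤ k := by
          apply hkmax
          · omega
          · have h4 : K.oddComponents.ncard % 2 =
                (Nat.card ↥((⊤ : (ext G k).Subgraph).deleteVerts w).verts) % 2 := by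
              by_cases h5 : Odd K.oddComponents.ncard
              · have h6 := hpar.1 h5
                rw [Nat.odd_iff] at h5 h6
                omega
              · have h6 : ¬ Odd _ := fun h7 => h5 (hpar.2 h7)
                rw [Nat.odd_iff] at h5 h6
                omega
            omega
        omega
      · rw [Finset.not_nonempty_iff_eq_empty] at hSe
        have hS0 : S.card = 0 := by rw [hSe]; rfl
        have hpre : (G.induce ((S : Set (Fin n))ᶜ)).Preconnected := by
          intro a b
          let ψ : G →g G.induce ((S : Set (Fin n))ᶜ) :=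
            { toFun := fun i => ⟨i, by rw [hSe]; simp⟩
              map_rel' := by intro a b hab; simpa using hab }
          have := (hG a.1 b.1).map ψ
          exact this
        have h1 := hcc.trans (cc_le_one _ hpre)
        have h2 : K.oddComponents.ncard = 1 := by omega
        rw [h2] at hpar
        have h4 := hpar.1 odd_one
        rw [Nat.odd_iff] at h4
        omega
  obtain ⟨M, hM⟩ := SimpleGraph.tutte.2 hviol
  obtain ⟨m, c, hm, hc1, hc2⟩ := perfect_classes hM
  refine ⟨m, fun i => c (Sum.inl i), ?_, ?_, ?_⟩
  · rw [Fintype.card_sum, Fintype.card_fin, Fintype.card_fin] at hm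
    omega
  · intro i j hij hne
    have := hc1 _ _ hij (fun h => hne (Sum.inl_injective h))
    exact this.2 i j rfl rfl
  · intro i j l hij hjl
    rcases hc2 _ _ _ hij hjl with h | h | h
    · exact Or.inl (Sum.inl_injective h)
    · exact Or.inr (Or.inl (Sum.inl_injective h))
    · exact Or.inr (Or.inr (Sum.inl_injective h))

end Pool.Agent.R906.FacC
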