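import Pool.Agent.R179.Fac.Stmts

/-!
Part FAC-V of `MP_688354_co`: the facets of a polyhedron that are visible from a point form a
connected set.
-/

open Set

namespace Pool.Agent.R906.FacV

open Pool.Agent.R179.Fac

theorem face_nonempty {d n : ℕ} {u : Fin n → E d} {h : Fin n → ℝ}
    (hx : ∃ x, ∀ i, inner ℝ (u i) x < h i) (hI : Irr u h) (i : Fin n) :
    (face u h i).Nonempty := by
  obtain ⟨x, hx⟩ := hx
  obtain ⟨y, hy, hyj⟩ := hI.2 i
  have hd : 0 < inner ℝ (u i) y - inner ℝ (u i) x := by linarith [hx i]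
  obtain ⟨t, ht⟩ : ∃ t, t = (h i - inner ℝ (u i) x) / (inner ℝ (u i) y - inner ℝ (u i) x) :=
    ⟨_, rfl⟩
  have ht0 : 0 < t := by rw [ht]; exact div_pos (by linarith [hx i]) hd
  have ht1 : t < 1 := by rw [ht, div_lt_one hd]; linarith
  have hmul : t * (inner ℝ (u i) y - inner ℝ (u i) x) = h i - inner ℝ (u i) x := by
    rw [ht, div_mul_cancel₀ _ hd.ne']
  have hform : ∀ k, inner ℝ (u k) (x + t • (y - x)) =
      inner ℝ (u k) x + t * (inner ℝ (u k) y - inner ℝ (u k) x) := by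
    intro k; rw [inner_add_right, inner_smul_right, inner_sub_right]
  have hi : inner ℝ (u i) (x + t • (y - x)) = h i := by
    rw [hform, hmul]; ring
  refine ⟨x + t • (y - x), ?_, hi⟩
  intro k
  by_cases hk : k = i
  · subst hk; exact hi.le
  · rw [hform]; nlinarith [hx k, hyj k hk]

theorem v_ok : St_V := by
  intro d n u h hx hI z
  classical
  rintro ⟨i, hi⟩ ⟨j, hj⟩
  obtain ⟨a, haP, hai⟩ := face_nonempty hx hI i
  obtain ⟨b, hbP, hbj⟩ := face_nonempty hx hI j
  simp only [mem_ofPred_eq] at hi hj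
  obtain ⟨p, hp⟩ : ∃ p : Fin n → ℝ → ℝ, ∀ k t, p k t =
    h k - (inner ℝ (u k) a + t * (inner ℝ (u k) b - inner ℝ (u k) a)) := ⟨_, fun _ _ => rfl⟩
  obtain ⟨q, hq⟩ : ∃ q : Fin n → ℝ → ℝ, ∀ k t, q k t =
    inner ℝ (u k) z - (inner ℝ (u k) a + t * (inner ℝ (u k) b - inner ℝ (u k) a)) :=
    ⟨_, fun _ _ => rfl⟩
  have hpc : ∀ k, Continuous (p k) := by
    intro k
    have : p k = fun t => h k - (inner ℝ (u k) a + t * (inner ℝ (u k) b - inner ℝ (u k) a)) :=
      funext (hp k)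
    rw [this]; fun_prop
  have hqc : ∀ k, Continuous (q k) := by
    intro k
    have : q k = fun t => inner ℝ (u k) z -
        (inner ℝ (u k) a + t * (inner ℝ (u k) b - inner ℝ (u k) a)) :=
      funext (hq k)
    rw [this]; fun_prop
  have hp0 : ∀ k, ∀ t ∈ Icc (0 : ℝ) 1, 0 ≤ p k t := by
    intro k t ht
    rw [hp]
    have h1 := haP k
    have h2 := hbP k
    nlinarith [mul_nonneg ht.1 (sub_nonneg.2 h2), mul_nonneg (sub_nonneg.2 ht.2) (sub_nonneg.2 h1)]
  have hpq : ∀ k t, q k t = p k t + (inner ℝ (u k) z - h k) := by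
    intro k t; rw [hp, hq]; ring
  -- the closed sets
  let A : Fin n → Set ℝ := fun k => {t | ∀ l, h l < inner ℝ (u l) z → p k t * q l t ≤ p l t * q k t}
  have hAc : ∀ k, IsClosed (A k) := by
    intro k
    have : A k = ⋂ l, ⋂ (_ : h l < inner ℝ (u l) z), {t | p k t * q l t ≤ p l t * q k t} := by
      ext t; simp [A]
    rw [this]
    exact isClosed_iInter fun l => isClosed_iInter fun _ =>
      isClosed_le ((hpc k).mul (hqc l)) ((hpc l).mul (hqc k))
  -- reachable set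
  let Vt := {k | h k < inner ℝ (u k) z}
  let R : Set (Fin n) := {k | ∃ hk : k ∈ Vt, ((touch u h).induce Vt).Reachable ⟨i, hi⟩ ⟨k, hk⟩}
  have hcover : ∀ t ∈ Icc (0 : ℝ) 1, ∃ k, k ∈ Vt ∧ t ∈ A k := by
    intro t ht
    have : Nonempty Vt := ⟨⟨i, hi⟩⟩
    obtain ⟨⟨k, hk⟩, hmin⟩ := Finite.exists_min (fun k : Vt => p k t / q k t)
    refine ⟨k, hk, ?_⟩
    intro l hl
    have h1 := hmin ⟨l, hl⟩
    have hkq : 0 < q k t := by
      rw [hpq]; have := hp0 k t ht; have h2 : h k < inner ℝ (u k) z := hk; linarith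
    have hlq : 0 < q l t := by
      rw [hpq]; have := hp0 l t ht; linarith
    simp only at h1
    rwa [div_le_div_iff₀ hkq hlq] at h1
  have hadj : ∀ t ∈ Icc (0 : ℝ) 1, ∀ k ∈ Vt, ∀ l ∈ Vt, t ∈ A k → t ∈ A l → k ≠ l →
      (touch u h).Adj k l := by
    intro t ht k hk l hl hAk hAl hkl
    have hk' : h k < inner ℝ (u k) z := hk
    have hl' : h l < inner ℝ (u l) z := hl
    have hkq : 0 < q k t := by
      rw [hpq]; have := hp0 k t ht; linarith
    have hlq : 0 < q l t := by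
      rw [hpq]; have := hp0 l t ht; linarith
    obtain ⟨s, hs⟩ : ∃ s, s = p k t / q k t := ⟨_, rfl⟩
    have hsk : s * q k t = p k t := by rw [hs, div_mul_cancel₀ _ hkq.ne']
    have hs0 : 0 ≤ s := by rw [hs]; exact div_nonneg (hp0 k t ht) hkq.le
    have hs1 : s ≤ 1 := by
      rw [hs, div_le_one hkq, hpq]; linarith
    obtain ⟨w, hw⟩ : ∃ w, w = (a + t • (b - a)) + s • (z - (a + t • (b - a))) := ⟨_, rfl⟩
    have hxm : ∀ m, inner ℝ (u m) (a + t • (b - a)) =
        inner ℝ (u m) a + t * (inner ℝ (u m) b - inner ℝ (u m) a) := by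
      intro m; rw [inner_add_right, inner_smul_right, inner_sub_right]
    have hwm : ∀ m, inner ℝ (u m) w = (h m - p m t) + s * q m t := by
      intro m
      rw [hw, inner_add_right, inner_smul_right, inner_sub_right, hxm, hp, hq]; ring
    have hwP : w ∈ HPoly u h := by
      intro m
      rw [hwm]
      by_cases hm : h m < inner ℝ (u m) z
      · have hmq : 0 < q m t := by
          rw [hpq]; have := hp0 m t ht; linarith
        have h1 := hAk m hm
        -- p k * q m ≤ p m * q k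
        have h2 : s * q m t ≤ p m t := by
          rw [← hsk] at h1
          have h3 : (s * q m t) * q k t ≤ p m t * q k t := by linarith
          exact le_of_mul_le_mul_right h3 hkq
        linarith
      · push Not at hm
        have h1 := hp0 m t ht
        rw [hpq]
        nlinarith [mul_nonneg hs0 (sub_nonneg.2 hm)]
    have hwk : inner ℝ (u k) w = h k := by rw [hwm, hsk]; ring
    have hwl : inner ℝ (u l) w = h l := by
      rw [hwm]
      have h1 := hAk l hl'
      have h2 := hAl k hk'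
      have h3 : p k t * q l t = p l t * q k t := le_antisymm h1 h2
      rw [← hsk] at h3
      have h4 : (s * q l t) * q k t = p l t * q k t := by linarith
      have h5 := mul_right_cancel₀ hkq.ne' h4
      linarith
    exact ⟨hkl, w, ⟨hwP, hwk⟩, ⟨hwP, hwl⟩⟩
  by_contra hnr
  have hjR : j ∉ R := by
    rintro ⟨_, hr⟩
    exact hnr hr
  have hiR : i ∈ R := ⟨hi, SimpleGraph.Reachable.refl _⟩
  let C1 : Set ℝ := ⋃ k ∈ R, A k
  let C2 : Set ℝ := ⋃ k ∈ Vt \ R, A k
  have hC1 : IsClosed C1 := (Set.toFinite R).isClosed_biUnion fun k _ => hAc k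
  have hC2 : IsClosed C2 := (Set.toFinite (Vt \ R)).isClosed_biUnion fun k _ => hAc k
  have hcov : Icc (0 : ℝ) 1 ⊆ C1 ∪ C2 := by
    intro t ht
    obtain ⟨k, hk, hAk⟩ := hcover t ht
    by_cases hkR : k ∈ R
    · left; exact mem_biUnion hkR hAk
    · right; exact mem_biUnion (show k ∈ Vt \ R from ⟨hk, hkR⟩) hAk
  have h0 : (Icc (0 : ℝ) 1 ∩ C1).Nonempty := by
    refine ⟨0, by simp, mem_biUnion hiR ?_⟩
    intro l hl
    have h00 : p i 0 = 0 := by rw [hp]; simp [hai]
    have h1 : (0 : ℝ) ∈ Icc (0 : ℝ) 1 := by simp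
    have hiq : 0 < q i 0 := by rw [hpq]; have := hp0 i 0 h1; linarith
    rw [h00, zero_mul]
    exact mul_nonneg (hp0 l 0 h1) hiq.le
  have h1 : (Icc (0 : ℝ) 1 ∩ C2).Nonempty := by
    refine ⟨1, by simp, mem_biUnion (show j ∈ Vt \ R from ⟨hj, hjR⟩) ?_⟩
    intro l hl
    have h00 : p j 1 = 0 := by rw [hp, one_mul, add_sub_cancel, hbj, sub_self]
    have h1 : (1 : ℝ) ∈ Icc (0 : ℝ) 1 := by simp
    have hiq : 0 < q j 1 := by rw [hpq]; have := hp0 j 1 h1; linarith
    rw [h00, zero_mul]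
    exact mul_nonneg (hp0 l 1 h1) hiq.le
  obtain ⟨t, ht, ht1, ht2⟩ := isPreconnected_closed_iff.1 isPreconnected_Icc C1 C2 hC1 hC2 hcov h0 h1
  simp only [C1, C2, mem_iUnion, exists_prop] at ht1 ht2
  obtain ⟨k, hkR, hAk⟩ := ht1
  obtain ⟨l, hlR, hAl⟩ := ht2
  obtain ⟨hkV, hkr⟩ := hkR
  have hkl : k ≠ l := by
    rintro rfl
    exact hlR.2 ⟨hkV, hkr⟩
  have had := hadj t ht k hkV l hlR.1 hAk hAl hkl
  exact hlR.2 ⟨hlR.1, hkr.trans (SimpleGraph.Adj.reachable (by simpa using had))⟩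

end Pool.Agent.R906.FacV
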