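import Mathlib

/-!
Definitions for MP_598c06_an: the space of infinite subtrees of the Cayley graph of the free
group, its leaves (re-rootings) and the level of a graph matchbox manifold.
-/

namespace Pool.Agent.R906.GM

/-- The Cayley graph of the free group on `n` generators `a_i`: edges join `g` and `g a_i`. -/
def cayley (n : ℕ) : SimpleGraph (FreeGroup (Fin n)) :=
  SimpleGraph.fromRel fun u v => ∃ i, v = u * FreeGroup.of i

/-- The space `X` of infinite connected induced subtrees containing `e`, given by the indicator
function of the vertex set, with the topology of pointwise convergence (two trees are close if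
they have the same vertices in a large ball about `e`). -/
def STree (n : ℕ) : Type :=
  {x : FreeGroup (Fin n) → Bool // x 1 = true ∧ {g | x g = true}.Infinite ∧
    ((cayley n).induce {g | x g = true}).Connected}

instance (n : ℕ) : TopologicalSpace (STree n) := instTopologicalSpaceSubtype

variable {n : ℕ}

/-- `L_T ∩ X`: the trees `g⁻¹ T` with `g` a vertex of `T`. -/
def leaf (T : STree n) : Set (STree n) :=
  {S | ∃ g, T.1 g = true ∧ ∀ h, S.1 h = T.1 (g * h)}

/-- The union of the leaves of `M` which are not dense in `M`. -/
def nonDense (M : Set (STree n)) : Set (STree n) :=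
  {R | ∃ S ∈ M, closure (leaf S) ≠ M ∧ R ∈ leaf S}

/-- `M` is (the trace on `X` of) a graph matchbox manifold at level `k`. -/
def IsLevel : ℕ → Set (STree n) → Prop
  | 0, M => ∃ T, M = closure (leaf T) ∧
      ((M = leaf T ∧ (leaf T).Finite) ∨ ∀ S ∈ M, closure (leaf S) = M)
  | k + 1, M => (∃ T, M = closure (leaf T)) ∧ closure (nonDense M) ⊂ M ∧
      (∀ S ∈ M, closure (leaf S) ≠ M → ∃ j : Fin (k + 1), IsLevel j (closure (leaf S))) ∧
      ∃ S ∈ M, closure (leaf S) ≠ M ∧ IsLevel k (closure (leaf S))
termination_by k => k
decreasing_by all_goals omega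

end Pool.Agent.R906.GM
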