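import Mathlib

/-!
Symbolic dynamics: the sets `A_k` of nonnegative integers with binary digit sum `k - 1`.
-/

namespace Pool.Agent.R906.GM

open Set

/-- binary digit sum -/
def ds (n : ℕ) : ℕ := (Nat.digits 2 n).sum

lemma ds_zero : ds 0 = 0 := by simp [ds]

lemma ds_bit0 (n : ℕ) : ds (2 * n) = ds n := by
  rcases Nat.eq_zero_or_pos n with h | h
  · subst h; rfl
  · unfold ds
    rw [Nat.digits_def' (by norm_num) (by omega)]
    simp

lemma ds_bit1 (n : ℕ) : ds (2 * n + 1) = ds n + 1 := by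
  unfold ds
  rw [Nat.digits_def' (by norm_num) (by omega)]
  have h1 : (2 * n + 1) % 2 = 1 := by omega
  have h2 : (2 * n + 1) / 2 = n := by omega
  rw [h1, h2, List.sum_cons, add_comm]

lemma ds_add (t : ℕ) : ∀ u v : ℕ, v < 2 ^ t → ds (u * 2 ^ t + v) = ds u + ds v := by
  induction t with
  | zero =>
    intro u v hv
    have : v = 0 := by simpa using hv
    subst this
    simp [ds_zero]
  | succ t ih =>
    intro u v hv
    rcases Nat.even_or_odd' v with ⟨w, hw | hw⟩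
    · have hw2 : w < 2 ^ t := by rw [pow_succ] at hv; omega
      have h1 : u * 2 ^ (t + 1) + v = 2 * (u * 2 ^ t + w) := by rw [hw, pow_succ]; ring
      rw [h1, ds_bit0, ih u w hw2, hw, ds_bit0]
    · have hw2 : w < 2 ^ t := by rw [pow_succ] at hv; omega
      have h1 : u * 2 ^ (t + 1) + v = 2 * (u * 2 ^ t + w) + 1 := by rw [hw, pow_succ]; ring
      rw [h1, ds_bit1, ih u w hw2, hw, ds_bit1]
      ring

lemma ds_one : ds 1 = 1 := by simp [ds]

lemma ds_pow_add {e m : ℕ} (h : m < 2 ^ e) : ds (2 ^ e + m) = ds m + 1 := by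
  have := ds_add e 1 m h
  rw [one_mul, ds_one] at this
  rw [this, add_comm]

lemma ds_ones (r : ℕ) : ds (2 ^ r - 1) = r := by
  induction r with
  | zero => simp [ds_zero]
  | succ r ih =>
    have h1 : 1 ≤ 2 ^ r := Nat.one_le_two_pow
    have h2 : 2 ^ (r + 1) - 1 = 2 * (2 ^ r - 1) + 1 := by rw [pow_succ]; omega
    rw [h2, ds_bit1, ih]

lemma ds_sub {e t m : ℕ} (hte : t ≤ e) (hm0 : 1 ≤ m) (hm : m ≤ 2 ^ t) : e - t ≤ ds (2 ^ e - m) := by
  have h1 : 2 ^ e = 2 ^ (e - t) * 2 ^ t := by rw [← pow_add]; congr 1; omega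
  have h2 : 1 ≤ 2 ^ (e - t) := Nat.one_le_two_pow
  have h3 : 2 ^ e - m = (2 ^ (e - t) - 1) * 2 ^ t + (2 ^ t - m) := by
    rw [h1, Nat.sub_mul, one_mul]
    have h4 : 2 ^ t ≤ 2 ^ (e - t) * 2 ^ t := Nat.le_mul_of_pos_left _ (by omega)
    omega
  rw [h3, ds_add _ _ _ (by omega), ds_ones]
  omega

/-- the indicator function of `{n ≥ 0 : ds n + 1 = k}` -/
def Aset (k : ℕ) (n : ℤ) : Bool := decide (0 ≤ n ∧ ds n.toNat + 1 = k)

/-- the shift -/
def sh (N : ℤ) (y : ℤ → Bool) : ℤ → Bool := fun j => y (N + j)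

def orb (y : ℤ → Bool) : Set (ℤ → Bool) := range fun N => sh N y

lemma sh_zero (y : ℤ → Bool) : sh 0 y = y := by funext j; simp [sh]

lemma sh_sh (M N : ℤ) (y : ℤ → Bool) : sh M (sh N y) = sh (N + M) y := by
  funext j; simp [sh, add_assoc]

lemma self_mem_orb (y : ℤ → Bool) : y ∈ orb y := ⟨0, sh_zero y⟩

lemma orb_eq {y z : ℤ → Bool} (h : z ∈ orb y) : orb z = orb y := by
  obtain ⟨N, rfl⟩ := h
  ext w
  constructor
  · rintro ⟨M, rfl⟩
    exact ⟨N + M, (sh_sh M N y).symm⟩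
  · rintro ⟨M, rfl⟩
    refine ⟨M - N, ?_⟩
    show sh (M - N) (sh N y) = sh M y
    rw [sh_sh]; congr 1; ring

/-- closure in the product topology -/
lemma mem_cl (S : Set (ℤ → Bool)) (x : ℤ → Bool) :
    x ∈ closure S ↔ ∀ ρ : ℕ, ∃ y ∈ S, ∀ j : ℤ, |j| ≤ ρ → y j = x j := by
  rw [mem_closure_iff]
  constructor
  · intro h ρ
    have ho : IsOpen {y : ℤ → Bool | ∀ j ∈ Finset.Icc (-(ρ : ℤ)) ρ, y j = x j} := by
      have : {y : ℤ → Bool | ∀ j ∈ Finset.Icc (-(ρ : ℤ)) ρ, y j = x j} =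
          ⋂ j ∈ Finset.Icc (-(ρ : ℤ)) ρ, (fun y : ℤ → Bool => y j) ⁻¹' {x j} := by
        ext y; simp
      rw [this]
      exact isOpen_biInter_finset fun j _ => (isOpen_discrete _).preimage (continuous_apply j)
    obtain ⟨y, hy, hyS⟩ := h _ ho (fun j _ => rfl)
    exact ⟨y, hyS, fun j hj => hy j (Finset.mem_Icc.mpr (abs_le.mp hj))⟩
  · intro h o ho hx
    obtain ⟨I, u, hu, hsub⟩ := isOpen_pi_iff.mp ho x hx
    obtain ⟨y, hyS, hy⟩ := h (I.sup fun j => j.natAbs)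
    refine ⟨y, hsub ?_, hyS⟩
    intro j hj
    have h1 : |j| ≤ ((I.sup fun j => j.natAbs : ℕ) : ℤ) := by
      have := Finset.le_sup (f := fun j : ℤ => j.natAbs) hj
      rw [Int.abs_eq_natAbs]
      exact_mod_cast this
    rw [hy j h1]
    exact (hu j hj).2

lemma Aset_neg {k : ℕ} {n : ℤ} (h : n < 0) : Aset k n = false := by
  simp [Aset, h]

lemma Aset_zero (n : ℤ) : Aset 0 n = false := by simp [Aset]

lemma Aset_nat (k n : ℕ) : Aset k (n : ℤ) = decide (ds n + 1 = k) := by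
  simp [Aset]

/-- near `2^e` the set `A_{k+1}` looks like `A_k` near `0` -/
lemma Aset_shift {k e t : ℕ} {j : ℤ} (he : t + k + 1 ≤ e) (h1 : -(2 ^ t : ℤ) ≤ j)
    (h2 : j < 2 ^ e) : Aset (k + 1) (2 ^ e + j) = Aset k j := by
  rcases lt_or_ge j 0 with hj | hj
  · obtain ⟨m, hm⟩ : ∃ m : ℕ, j = -(m : ℤ) := ⟨j.natAbs, by omega⟩
    have hm0 : 1 ≤ m := by omega
    have hmt : m ≤ 2 ^ t := by
      have : (m : ℤ) ≤ ((2 ^ t : ℕ) : ℤ) := by push_cast; omega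
      exact_mod_cast this
    have hmt2 : 2 ^ t ≤ 2 ^ e := Nat.pow_le_pow_right (by norm_num) (by omega)
    have h3 : (2 ^ e + j : ℤ) = ((2 ^ e - m : ℕ) : ℤ) := by
      rw [Nat.cast_sub (by omega), hm]; push_cast; ring
    rw [h3, Aset_nat, Aset_neg hj]
    have h4 := ds_sub (e := e) (t := t) (m := m) (by omega) hm0 hmt
    simp only [decide_eq_false_iff_not]
    omega
  · obtain ⟨m, rfl⟩ : ∃ m : ℕ, j = (m : ℤ) := ⟨j.natAbs, by omega⟩
    have h3 : m < 2 ^ e := by exact_mod_cast h2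
    have h4 : ((2 : ℤ) ^ e + m) = ((2 ^ e + m : ℕ) : ℤ) := by push_cast; ring
    rw [h4, Aset_nat, Aset_nat, ds_pow_add h3]
    simp

lemma Aset_nonempty (k : ℕ) : ∃ n, Aset (k + 1) n = true := by
  refine ⟨((2 ^ k - 1 : ℕ) : ℤ), ?_⟩
  rw [Aset_nat, ds_ones]
  simp

lemma exists_pow_gt (x : ℤ) : ∃ t : ℕ, x ≤ 2 ^ t ∧ -(2 ^ t : ℤ) ≤ x := by
  refine ⟨x.natAbs, ?_, ?_⟩
  · have : (x.natAbs : ℤ) < 2 ^ x.natAbs := by exact_mod_cast Nat.lt_two_pow_self
    omega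
  · have : (x.natAbs : ℤ) < 2 ^ x.natAbs := by exact_mod_cast Nat.lt_two_pow_self
    omega

lemma Aset_ne : ∀ (i j : ℕ) (N : ℤ), i < j → Aset j ≠ sh N (Aset i) := by
  intro i
  induction i with
  | zero =>
    intro j N hj h
    obtain ⟨k, rfl⟩ : ∃ k, j = k + 1 := ⟨j - 1, by omega⟩
    obtain ⟨n, hn⟩ := Aset_nonempty k
    rw [h] at hn
    simp [sh, Aset_zero] at hn
  | succ i ih =>
    intro j N hj h
    obtain ⟨k, rfl⟩ : ∃ k, j = k + 1 := ⟨j - 1, by omega⟩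
    apply ih k N (by omega)
    funext x
    obtain ⟨t, ht1, ht2⟩ := exists_pow_gt x
    obtain ⟨t', ht1', ht2'⟩ := exists_pow_gt (N + x)
    set e := t + t' + k + i + 2 with he
    have p1 : (2 : ℤ) ^ t < 2 ^ e := pow_lt_pow_right₀ (by norm_num) (by omega)
    have p2 : (2 : ℤ) ^ t' < 2 ^ e := pow_lt_pow_right₀ (by norm_num) (by omega)
    have h1 := Aset_shift (k := k) (e := e) (t := t) (j := x) (by omega) ht2 (by omega)
    have h2 := Aset_shift (k := i) (e := e) (t := t') (j := N + x) (by omega) ht2' (by omega)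
    rw [← h1, h]
    show Aset (i + 1) (N + (2 ^ e + x)) = Aset i (N + x)
    rw [← h2]
    congr 1
    ring

/-- orbit closures -/
def CC (k : ℕ) : Set (ℤ → Bool) := closure (orb (Aset k))

lemma mem_CC {k : ℕ} {y : ℤ → Bool} :
    y ∈ CC k ↔ ∀ ρ : ℕ, ∃ N : ℤ, ∀ j : ℤ, |j| ≤ ρ → Aset k (N + j) = y j := by
  unfold CC
  rw [mem_cl]
  constructor
  · intro h ρ
    obtain ⟨z, ⟨N, rfl⟩, hz⟩ := h ρ
    exact ⟨N, hz⟩
  · intro h ρ
    obtain ⟨N, hN⟩ := h ρ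
    exact ⟨sh N (Aset k), ⟨N, rfl⟩, hN⟩

lemma CC_zero {y : ℤ → Bool} (h : y ∈ CC 0) : y = Aset 0 := by
  rw [mem_CC] at h
  funext j
  obtain ⟨N, hN⟩ := h j.natAbs
  have := hN j (by rw [Int.abs_eq_natAbs])
  rw [← this, Aset_zero, Aset_zero]

lemma Aset_mem_CC_succ (k : ℕ) : Aset k ∈ CC (k + 1) := by
  rw [mem_CC]
  intro ρ
  obtain ⟨t, ht1, -⟩ := exists_pow_gt ρ
  refine ⟨2 ^ (t + k + 1), fun j hj => ?_⟩
  rw [abs_le] at hj
  have p1 : (2 : ℤ) ^ t < 2 ^ (t + k + 1) := pow_lt_pow_right₀ (by norm_num) (by omega)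
  exact Aset_shift (t := t) le_rfl (by omega) (by omega)

lemma empty_mem_CC (k : ℕ) : (fun _ => false) ∈ CC k := by
  rw [mem_CC]
  intro ρ
  refine ⟨-(ρ : ℤ) - 1, fun j hj => ?_⟩
  rw [abs_le] at hj
  exact Aset_neg (by omega)

lemma CC_succ {k : ℕ} {y : ℤ → Bool} (h : y ∈ CC (k + 1)) : y ∈ orb (Aset (k + 1)) ∨ y ∈ CC k := by
  by_cases hy : y ∈ orb (Aset (k + 1))
  · exact Or.inl hy
  right
  by_cases hemp : ∃ c, y c = true
  swap
  · push Not at hemp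
    have : y = fun _ => false := by
      funext j
      simpa using hemp j
    rw [this]
    exact empty_mem_CC k
  obtain ⟨c, hc⟩ := hemp
  rw [mem_CC] at h
  -- large shifts
  have hlarge : ∀ (ρ B : ℕ), ∃ N : ℤ, (B : ℤ) ≤ N ∧ ∀ j : ℤ, |j| ≤ ρ → Aset (k + 1) (N + j) = y j := by
    intro ρ B
    -- mismatches for all small shifts
    have hmis : ∀ N : ℤ, ∃ j : ℤ, Aset (k + 1) (N + j) ≠ y j := by
      intro N
      by_contra hcon
      push Not at hcon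
      exact hy ⟨N, funext hcon⟩
    choose J hJ using hmis
    obtain ⟨ρ', hρ'⟩ : ∃ ρ' : ℕ, (∀ N ∈ Finset.Icc (-(c.natAbs : ℤ)) (B : ℤ), (J N).natAbs ≤ ρ') ∧
        ρ ≤ ρ' ∧ c.natAbs ≤ ρ' := by
      refine ⟨max ((Finset.Icc (-(c.natAbs : ℤ)) (B : ℤ)).sup fun N => (J N).natAbs) (max ρ c.natAbs),
        fun N hN => ?_, ?_, ?_⟩
      · exact le_max_of_le_left (Finset.le_sup (f := fun N => (J N).natAbs) hN)
      · exact le_max_of_le_right (le_max_left _ _)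
      · exact le_max_of_le_right (le_max_right _ _)
    obtain ⟨N, hN⟩ := h ρ'
    refine ⟨N, ?_, fun j hj => hN j (hj.trans (by exact_mod_cast hρ'.2.1))⟩
    by_contra hlt
    push Not at hlt
    have h1 : 0 ≤ N + c := by
      by_contra hneg
      push Not at hneg
      have h2 := hN c (by rw [Int.abs_eq_natAbs]; exact_mod_cast hρ'.2.2)
      rw [Aset_neg hneg, hc] at h2
      exact Bool.false_ne_true h2
    have h3 : N ∈ Finset.Icc (-(c.natAbs : ℤ)) (B : ℤ) := by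
      rw [Finset.mem_Icc]
      omega
    exact hJ N (hN _ (by rw [Int.abs_eq_natAbs]; exact_mod_cast hρ'.1 N h3))
  rw [mem_CC]
  intro ρ
  obtain ⟨t, ht1, -⟩ := exists_pow_gt (2 * ρ)
  obtain ⟨N, hNB, hN⟩ := hlarge ρ (2 ^ (t + k + 1))
  obtain ⟨m, hm⟩ : ∃ m : ℕ, N + ρ = m := ⟨(N + ρ).toNat, by
    rw [Int.toNat_of_nonneg]
    have : (0 : ℤ) ≤ ((2 ^ (t + k + 1) : ℕ) : ℤ) := by positivity
    omega⟩
  have hm0 : m ≠ 0 := by
    rintro rfl
    have : (0 : ℤ) < ((2 ^ (t + k + 1) : ℕ) : ℤ) := by positivity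
    push_cast at hm
    omega
  set e := Nat.log 2 m with he
  have he1 : 2 ^ e ≤ m := Nat.pow_log_le_self 2 hm0
  have he2 : m < 2 ^ (e + 1) := Nat.lt_pow_succ_log_self (by norm_num) m
  have he3 : t + k + 1 ≤ e := by
    apply Nat.le_log_of_pow_le (by norm_num)
    have : ((2 ^ (t + k + 1) : ℕ) : ℤ) ≤ (m : ℤ) := by rw [← hm]; omega
    exact_mod_cast this
  have he1' : (2 : ℤ) ^ e ≤ m := by exact_mod_cast he1
  have he2' : (m : ℤ) < 2 * 2 ^ e := by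
    have : (m : ℤ) < 2 ^ (e + 1) := by exact_mod_cast he2
    rw [pow_succ] at this
    omega
  refine ⟨N - 2 ^ e, fun j hj => ?_⟩
  rw [← hN j hj]
  rw [abs_le] at hj
  have h4 := Aset_shift (k := k) (e := e) (t := t) (j := N - 2 ^ e + j) he3 (by omega) (by omega)
  rw [← h4]
  congr 1
  ring

lemma CC_mono_succ (k : ℕ) : CC k ⊆ CC (k + 1) := by
  intro y hy
  have h1 := Aset_mem_CC_succ k
  rw [mem_CC] at hy h1 ⊢
  intro ρ
  obtain ⟨N, hN⟩ := hy ρ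
  obtain ⟨M, hM⟩ := h1 (ρ + N.natAbs)
  refine ⟨M + N, fun j hj => ?_⟩
  rw [add_assoc, hM (N + j), hN j hj]
  calc |N + j| ≤ |N| + |j| := abs_add_le _ _
    _ ≤ _ := by push_cast; rw [Int.abs_eq_natAbs N]; omega

lemma CC_mono {i k : ℕ} (h : i ≤ k) : CC i ⊆ CC k := by
  induction k, h using Nat.le_induction with
  | base => exact subset_rfl
  | succ k _ ih => exact ih.trans (CC_mono_succ k)

lemma CC_cases {k : ℕ} {y : ℤ → Bool} (h : y ∈ CC k) : ∃ i ≤ k, y ∈ orb (Aset i) := by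
  induction k with
  | zero => exact ⟨0, le_rfl, by rw [CC_zero h]; exact self_mem_orb _⟩
  | succ k ih =>
    rcases CC_succ h with h1 | h1
    · exact ⟨k + 1, le_rfl, h1⟩
    · obtain ⟨i, hi, h2⟩ := ih h1
      exact ⟨i, by omega, h2⟩

lemma Aset_not_mem_CC {i k : ℕ} (h : i < k) : Aset k ∉ CC i := by
  intro h1
  obtain ⟨j, hj, N, hN⟩ := CC_cases h1
  exact Aset_ne j k N (by omega) hN.symm

end Pool.Agent.R906.GM
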