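import Pool.Agent.R906.GMDefs
import Pool.Agent.R906.GMSym

/-!
Trees `{a^i} ∪ {a^i b : i ∈ z}` and the closures of their leaves.
-/

namespace Pool.Agent.R906.GM

open Set

noncomputable section

variable {m : ℕ}

abbrev FG (m : ℕ) := FreeGroup (Fin (m + 2))

def ga (m : ℕ) : FG m := FreeGroup.of 0
def gb (m : ℕ) : FG m := FreeGroup.of 1

lemma a_pow_inj {i j : ℤ} (h : ga m ^ i = ga m ^ j) : i = j := by
  let f : FG m →* Multiplicative ℤ := FreeGroup.lift fun _ => Multiplicative.ofAdd 1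
  have h1 := congrArg f h
  rw [map_zpow, map_zpow] at h1
  have h2 : f (ga m) = Multiplicative.ofAdd 1 := by simp [f, ga]
  rw [h2, ← ofAdd_zsmul, ← ofAdd_zsmul] at h1
  simpa using h1

/-- exponent sum of `b` -/
def fb (m : ℕ) : FG m →* Multiplicative ℤ :=
  FreeGroup.lift fun i => if i = 1 then Multiplicative.ofAdd 1 else 1

lemma fb_a : fb m (ga m) = 1 := by simp [fb, ga]
lemma fb_b : fb m (gb m) = Multiplicative.ofAdd 1 := by simp [fb, gb]

lemma ab_ne_a (i j : ℤ) : ga m ^ i * gb m ≠ ga m ^ j := by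
  intro h
  have h1 := congrArg (fb m) h
  rw [map_mul, map_zpow, map_zpow, fb_a, fb_b, one_zpow, one_zpow, one_mul] at h1
  have : (1 : ℤ) = 0 := congrArg Multiplicative.toAdd h1
  omega

lemma ba_ne_a (j : ℤ) : gb m * ga m ≠ ga m ^ j := by
  intro h
  have h1 := congrArg (fb m) h
  rw [map_mul, map_zpow, fb_a, fb_b, one_zpow, mul_one] at h1
  have : (1 : ℤ) = 0 := congrArg Multiplicative.toAdd h1
  omega

lemma ab_inj {i j : ℤ} (h : ga m ^ i * gb m = ga m ^ j * gb m) : i = j :=
  a_pow_inj (mul_right_cancel h)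

lemma ba_ne_ab (i : ℤ) : gb m * ga m ≠ ga m ^ i * gb m := by
  intro h
  have hi : i = 1 := by
    let f : FG m →* Multiplicative ℤ :=
      FreeGroup.lift fun i => if i = 0 then Multiplicative.ofAdd 1 else 1
    have fa : f (ga m) = Multiplicative.ofAdd 1 := by simp [f, ga]
    have fb : f (gb m) = 1 := by simp [f, gb]
    have h1 := congrArg f h
    rw [map_mul, map_mul, map_zpow, fa, fb, mul_one, one_mul, ← ofAdd_zsmul] at h1
    have h2 : (1 : ℤ) = i • 1 := congrArg Multiplicative.toAdd h1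
    simpa using h2.symm
  subst hi
  let f : FG m →* Equiv.Perm (Fin 3) :=
    FreeGroup.lift fun i => if i = 0 then Equiv.swap 0 1 else Equiv.swap 1 2
  have fa : f (ga m) = Equiv.swap 0 1 := by simp [f, ga]
  have fb : f (gb m) = Equiv.swap 1 2 := by simp [f, gb]
  have h1 := congrArg f h
  rw [map_mul, map_mul, map_zpow, fa, fb] at h1
  revert h1
  decide

/-! ### The trees -/

/-- indicator function of `{a^i} ∪ {a^i b : z i}` -/
def tz (z : ℤ → Bool) (g : FG m) : Bool :=
  @decide ((∃ i : ℤ, g = ga m ^ i) ∨ ∃ i : ℤ, z i = true ∧ g = ga m ^ i * gb m)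
    (Classical.propDecidable _)

lemma tz_iff (z : ℤ → Bool) (g : FG m) :
    tz z g = true ↔ (∃ i : ℤ, g = ga m ^ i) ∨ ∃ i : ℤ, z i = true ∧ g = ga m ^ i * gb m := by
  unfold tz
  exact @decide_eq_true_iff _ (Classical.propDecidable _)

lemma adj_mul {n : ℕ} (g u v : FreeGroup (Fin n)) :
    (cayley n).Adj (g * u) (g * v) ↔ (cayley n).Adj u v := by
  simp only [cayley, SimpleGraph.fromRel_adj, mul_assoc, ne_eq, mul_right_inj]

lemma adj_gen {n : ℕ} (g : FreeGroup (Fin n)) (i : Fin n) :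
    (cayley n).Adj g (g * FreeGroup.of i) := by
  rw [cayley, SimpleGraph.fromRel_adj]
  refine ⟨fun h => ?_, Or.inl ⟨i, rfl⟩⟩
  have h1 : FreeGroup.of i = 1 := by
    have := congrArg (fun x => g⁻¹ * x) h
    simpa using this.symm
  exact FreeGroup.of_ne_one i h1

/-- the tree of `z` -/
def Phi (z : ℤ → Bool) : STree (m + 2) := by
  refine ⟨tz z, ?_, ?_, ?_⟩
  · rw [tz_iff]
    exact Or.inl ⟨0, by simp⟩
  · refine Set.infinite_of_injective_forall_mem (f := fun i : ℤ => ga m ^ i)
      (fun i j h => a_pow_inj h) (fun i => ?_)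
    show tz z _ = true
    rw [tz_iff]
    exact Or.inl ⟨i, rfl⟩
  · rw [SimpleGraph.connected_iff_exists_forall_reachable]
    have h1 : ∀ i : ℤ, ga m ^ i ∈ {g : FG m | tz z g = true} := fun i => by
      show tz z _ = true
      rw [tz_iff]; exact Or.inl ⟨i, rfl⟩
    have hstep : ∀ i : ℤ, ((cayley (m + 2)).induce {g | tz z g = true}).Adj
        ⟨ga m ^ i, h1 i⟩ ⟨ga m ^ (i + 1), h1 (i + 1)⟩ := by
      intro i
      rw [SimpleGraph.comap_adj]
      show (cayley (m + 2)).Adj (ga m ^ i) (ga m ^ (i + 1))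
      rw [zpow_add_one]
      exact adj_gen _ _
    have hreach : ∀ i : ℤ, ((cayley (m + 2)).induce {g | tz z g = true}).Reachable
        ⟨ga m ^ (0 : ℤ), h1 0⟩ ⟨ga m ^ i, h1 i⟩ := by
      intro i
      induction i using Int.induction_on with
      | zero => exact SimpleGraph.Reachable.refl _
      | succ i ih => exact ih.trans (hstep i).reachable
      | pred i ih =>
        have := (hstep (-(i : ℤ) - 1)).symm.reachable
        have e : -(i : ℤ) - 1 + 1 = -i := by ring
        simp only [e] at this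
        exact ih.trans this
    refine ⟨⟨ga m ^ (0 : ℤ), h1 0⟩, ?_⟩
    rintro ⟨g, hg⟩
    have hg' := (tz_iff z g).mp hg
    rcases hg' with ⟨i, rfl⟩ | ⟨i, hi, rfl⟩
    · exact hreach i
    · refine (hreach i).trans (SimpleGraph.Adj.reachable ?_)
      rw [SimpleGraph.comap_adj]
      exact adj_gen _ _

lemma Phi_val (z : ℤ → Bool) : (Phi (m := m) z).1 = tz z := rfl

/-- re-rooting -/
def reroot {n : ℕ} (T : STree n) (g : FreeGroup (Fin n)) (hg : T.1 g = true) : STree n := by
  refine ⟨fun h => T.1 (g * h), by simpa using hg, ?_, ?_⟩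
  · have h1 := T.2.2.1
    have h2 : {h | T.1 h = true} = (fun h => g * h) '' {h | T.1 (g * h) = true} := by
      ext x
      constructor
      · intro hx
        exact ⟨g⁻¹ * x, by simpa using hx, by simp⟩
      · rintro ⟨h, hh, rfl⟩
        exact hh
    rw [h2] at h1
    exact Set.Infinite.of_image _ h1
  · have h1 := T.2.2.2
    let e : {h | T.1 (g * h) = true} ≃ {h | T.1 h = true} :=
      (Equiv.mulLeft g).subtypeEquiv (fun _ => Iff.rfl)
    let φ : ((cayley n).induce {h | T.1 (g * h) = true}) ≃g ((cayley n).induce {h | T.1 h = true}) :=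
      { toEquiv := e
        map_rel_iff' := by
          rintro ⟨a, ha⟩ ⟨b, hb⟩
          exact adj_mul g a b }
    exact (SimpleGraph.Iso.connected_iff φ).mpr h1

/-- `z` with `0` added -/
def upd (z : ℤ → Bool) : ℤ → Bool := Function.update z 0 true

lemma upd_eq {z : ℤ → Bool} (h : z 0 = true) : upd z = z := by
  unfold upd
  rw [← h, Function.update_eq_self]

lemma tz_b (z : ℤ → Bool) : (Phi (m := m) (upd z)).1 (gb m) = true := by
  rw [Phi_val, tz_iff]
  refine Or.inr ⟨0, by simp [upd], by simp⟩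

/-- the tree of `z`, `0 ∈ z`, re-rooted at `b` -/
def Psi (z : ℤ → Bool) : STree (m + 2) := reroot (Phi (upd z)) (gb m) (tz_b z)

lemma Psi_val {z : ℤ → Bool} (h : z 0 = true) (g : FG m) : (Psi z).1 g = tz z (gb m * g) := by
  show (Phi (m := m) (upd z)).1 (gb m * g) = _
  rw [upd_eq h]
  rfl

lemma tz_a (z : ℤ → Bool) (i : ℤ) (g : FG m) : tz z (ga m ^ i * g) = tz (sh i z) g := by
  rw [Bool.eq_iff_iff, tz_iff, tz_iff]
  constructor
  · rintro (⟨j, hj⟩ | ⟨j, hz, hj⟩)
    · refine Or.inl ⟨j - i, ?_⟩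
      rw [zpow_sub, ← hj, mul_assoc]
      have : ga m ^ i * g * (ga m ^ i)⁻¹ = ga m ^ (j - i) := by rw [hj, zpow_sub]
      have h2 : g = (ga m ^ i)⁻¹ * ga m ^ j := by rw [← hj]; group
      rw [← mul_assoc, hj, h2, ← zpow_neg, ← zpow_add, ← zpow_add]
      congr 1; ring
    · refine Or.inr ⟨j - i, by simpa [sh] using hz, ?_⟩
      have h2 : g = (ga m ^ i)⁻¹ * (ga m ^ j * gb m) := by rw [← hj]; group
      rw [h2, ← mul_assoc, ← zpow_neg, ← zpow_add]
      congr 2; ring
  · rintro (⟨j, hj⟩ | ⟨j, hz, hj⟩)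
    · exact Or.inl ⟨i + j, by rw [hj, zpow_add]⟩
    · exact Or.inr ⟨i + j, hz, by rw [hj, zpow_add, mul_assoc]⟩

lemma tz_at (z : ℤ → Bool) (i : ℤ) : tz z (ga m ^ i * gb m) = z i := by
  rw [Bool.eq_iff_iff, tz_iff]
  constructor
  · rintro (⟨j, hj⟩ | ⟨j, hz, hj⟩)
    · exact absurd hj (ab_ne_a i j)
    · rwa [ab_inj hj]
  · intro h
    exact Or.inr ⟨i, h, rfl⟩

lemma Phi_inj {y z : ℤ → Bool} (h : Phi (m := m) y = Phi z) : y = z := by
  funext i
  rw [← tz_at (m := m) y i, ← tz_at (m := m) z i]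
  exact congrFun (congrArg Subtype.val h) _

lemma Phi_ne_Psi {y z : ℤ → Bool} (hz : z 0 = true) : Phi (m := m) y ≠ Psi z := by
  intro h
  have h1 : (Phi (m := m) y).1 (ga m) = (Psi z).1 (ga m) := by rw [h]
  rw [Psi_val hz, Phi_val] at h1
  have h2 : tz y (ga m) = true := (tz_iff _ _).mpr (Or.inl ⟨1, by simp⟩)
  rw [h2] at h1
  rcases (tz_iff _ _).mp h1.symm with ⟨j, hj⟩ | ⟨j, _, hj⟩
  · exact ba_ne_a j hj
  · exact ba_ne_ab j hj

lemma tz_cont (g : FG m) : Continuous fun z : ℤ → Bool => tz z g := by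
  by_cases h1 : ∃ i : ℤ, g = ga m ^ i
  · have : (fun z : ℤ → Bool => tz z g) = fun _ => true := by
      funext z
      exact (tz_iff z g).mpr (Or.inl h1)
    rw [this]; exact continuous_const
  · by_cases h2 : ∃ i : ℤ, g = ga m ^ i * gb m
    · obtain ⟨i, rfl⟩ := h2
      simp only [tz_at]
      exact continuous_apply i
    · have : (fun z : ℤ → Bool => tz z g) = fun _ => false := by
        funext z
        rw [Bool.eq_false_iff]
        intro h
        rcases (tz_iff z g).mp h with h3 | ⟨i, _, h3⟩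
        · exact h1 h3
        · exact h2 ⟨i, h3⟩
      rw [this]; exact continuous_const

lemma Phi_cont : Continuous (Phi (m := m)) := by
  refine Continuous.subtype_mk ?_ _
  exact continuous_pi fun g => tz_cont g

lemma Psi_cont : Continuous (Psi (m := m)) := by
  refine Continuous.subtype_mk ?_ _
  refine continuous_pi fun g => ?_
  exact (tz_cont (m := m) (gb m * g)).comp (continuous_id.update 0 continuous_const)

instance : T2Space (STree (m + 2)) := inferInstanceAs (T2Space (Subtype _))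

/-- the invariant set of trees of a set of sequences -/
def MM (O : Set (ℤ → Bool)) : Set (STree (m + 2)) := Phi '' O ∪ Psi '' (O ∩ {z | z 0 = true})

lemma closure_MM (O : Set (ℤ → Bool)) : closure (MM (m := m) O) = MM (closure O) := by
  have hcl : IsClopen {z : ℤ → Bool | z 0 = true} := by
    have : {z : ℤ → Bool | z 0 = true} = (fun z : ℤ → Bool => z 0) ⁻¹' {true} := rfl
    rw [this]
    exact (isClopen_discrete _).preimage (continuous_apply 0)
  have h1 : closure (O ∩ {z : ℤ → Bool | z 0 = true}) = closure O ∩ {z | z 0 = true} := by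
    apply subset_antisymm
    · refine (closure_inter_subset_inter_closure _ _).trans ?_
      rw [hcl.isClosed.closure_eq]
    · rw [inter_comm, inter_comm O]
      exact hcl.isOpen.inter_closure
  unfold MM
  rw [closure_union, (Phi_cont.isClosedMap).closure_image_eq_of_continuous Phi_cont,
    (Psi_cont.isClosedMap).closure_image_eq_of_continuous Psi_cont, h1]

/-! ### Leaves -/

lemma leaf_refl {n : ℕ} (T : STree n) : T ∈ leaf T := ⟨1, T.2.1, fun h => by rw [one_mul]⟩

lemma leaf_symm {n : ℕ} {S T : STree n} (h : S ∈ leaf T) : T ∈ leaf S := by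
  obtain ⟨g, hg, hS⟩ := h
  refine ⟨g⁻¹, ?_, fun h => ?_⟩
  · rw [hS, mul_inv_cancel]; exact T.2.1
  · rw [hS, mul_inv_cancel_left]

lemma leaf_trans {n : ℕ} {R S T : STree n} (h : R ∈ leaf S) (h' : S ∈ leaf T) : R ∈ leaf T := by
  obtain ⟨g, hg, hR⟩ := h
  obtain ⟨g', hg', hS⟩ := h'
  refine ⟨g' * g, by rw [← hS]; exact hg, fun h => ?_⟩
  rw [hR, hS, mul_assoc]

lemma leaf_eq {n : ℕ} {S T : STree n} (h : S ∈ leaf T) : leaf S = leaf T :=
  subset_antisymm (fun _ hR => leaf_trans hR h) (fun _ hR => leaf_trans hR (leaf_symm h))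

lemma leaf_Phi (y : ℤ → Bool) : leaf (Phi (m := m) y) = MM (orb y) := by
  apply subset_antisymm
  · rintro S ⟨g, hg, hS⟩
    rw [Phi_val, tz_iff] at hg
    rcases hg with ⟨i, rfl⟩ | ⟨i, hi, rfl⟩
    · left
      refine ⟨sh i y, ⟨i, rfl⟩, ?_⟩
      apply Subtype.ext
      funext h
      rw [hS, Phi_val, Phi_val, tz_a]
    · right
      have h0 : sh i y 0 = true := by simpa [sh] using hi
      refine ⟨sh i y, ⟨⟨i, rfl⟩, h0⟩, ?_⟩
      apply Subtype.ext
      funext h
      rw [hS, Psi_val h0, Phi_val, mul_assoc, tz_a]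
  · rintro S (⟨z, ⟨i, rfl⟩, rfl⟩ | ⟨z, ⟨⟨i, rfl⟩, h0⟩, rfl⟩)
    · refine ⟨ga m ^ i, ?_, fun h => ?_⟩
      · rw [Phi_val, tz_iff]; exact Or.inl ⟨i, rfl⟩
      · rw [Phi_val, Phi_val, tz_a]
    · have h0' : sh i y 0 = true := h0
      refine ⟨ga m ^ i * gb m, ?_, fun h => ?_⟩
      · rw [Phi_val, tz_iff]; exact Or.inr ⟨i, by simpa [sh] using h0', rfl⟩
      · show (Psi (sh i y)).1 h = _
        rw [Psi_val h0', Phi_val, mul_assoc, tz_a]

lemma leaf_Psi {z : ℤ → Bool} (h0 : z 0 = true) : leaf (Psi (m := m) z) = leaf (Phi z) := by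
  apply leaf_eq
  rw [leaf_Phi]
  exact Or.inr ⟨z, ⟨self_mem_orb z, h0⟩, rfl⟩

lemma closure_leaf (y : ℤ → Bool) : closure (leaf (Phi (m := m) y)) = MM (closure (orb y)) := by
  rw [leaf_Phi, closure_MM]

/-! ### The levels -/

def Mk (m k : ℕ) : Set (STree (m + 2)) := MM (CC k)

lemma Mk_eq (k : ℕ) : Mk m k = closure (leaf (Phi (m := m) (Aset k))) := (closure_leaf _).symm

lemma Mk_mono {i k : ℕ} (h : i ≤ k) : Mk m i ⊆ Mk m k := by
  unfold Mk MM
  exact union_subset_union (image_mono (CC_mono h)) (image_mono (inter_subset_inter_left _ (CC_mono h)))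

lemma Mk_ne {i k : ℕ} (h : i < k) : Mk m i ≠ Mk m k := by
  intro he
  have h1 : Phi (m := m) (Aset k) ∈ Mk m k := by
    rw [Mk_eq]; exact subset_closure (leaf_refl _)
  rw [← he] at h1
  rcases h1 with ⟨z, hz, hzz⟩ | ⟨z, hz, hzz⟩
  · rw [Phi_inj hzz] at hz
    exact Aset_not_mem_CC h hz
  · exact Phi_ne_Psi hz.2 hzz.symm

lemma Mk_leaf {k : ℕ} {S : STree (m + 2)} (hS : S ∈ Mk m k) :
    ∃ i ≤ k, leaf S = leaf (Phi (m := m) (Aset i)) := by
  have key : ∀ z ∈ CC k, ∃ i ≤ k, leaf (Phi (m := m) z) = leaf (Phi (m := m) (Aset i)) := by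
    intro z hz
    obtain ⟨i, hi, h⟩ := CC_cases hz
    exact ⟨i, hi, by rw [leaf_Phi, leaf_Phi, orb_eq h]⟩
  rcases hS with ⟨z, hz, rfl⟩ | ⟨z, hz, rfl⟩
  · exact key z hz
  · rw [leaf_Psi hz.2]
    exact key z hz.1

theorem Mk_level (k : ℕ) : IsLevel k (Mk m k) := by
  induction k using Nat.strong_induction_on with
  | _ k ih =>
    rcases k with _ | k
    · rw [IsLevel]
      refine ⟨_, Mk_eq 0, Or.inr fun S hS => ?_⟩
      obtain ⟨i, hi, h⟩ := Mk_leaf hS
      have : i = 0 := by omega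
      subst this
      rw [h, Mk_eq]
    · rw [IsLevel]
      have hS : ∀ S ∈ Mk m (k + 1), closure (leaf S) ≠ Mk m (k + 1) →
          ∃ i ≤ k, closure (leaf S) = Mk m i := by
        intro S hS hne
        obtain ⟨i, hi, h⟩ := Mk_leaf hS
        have h2 : closure (leaf S) = Mk m i := by rw [h, Mk_eq]
        refine ⟨i, ?_, h2⟩
        rcases Nat.lt_or_ge k i with h3 | h3
        · exfalso
          apply hne
          rw [h2]
          congr 1
          omega
        · exact h3
      refine ⟨⟨_, Mk_eq (k + 1)⟩, ?_, ?_, ?_⟩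
      · have h1 : closure (nonDense (Mk m (k + 1))) ⊆ Mk m k := by
          have hc : IsClosed (Mk m k) := by rw [Mk_eq]; exact isClosed_closure
          refine closure_minimal ?_ hc
          rintro R ⟨S, hSM, hne, hR⟩
          obtain ⟨i, hi, h2⟩ := hS S hSM hne
          exact Mk_mono hi (h2 ▸ subset_closure hR)
        refine ssubset_of_subset_of_ne (h1.trans (Mk_mono (by omega))) ?_
        intro he
        rw [he] at h1
        exact Mk_ne (m := m) (Nat.lt_succ_self k) (subset_antisymm (Mk_mono (by omega)) h1)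
      · intro S hSM hne
        obtain ⟨i, hi, h2⟩ := hS S hSM hne
        exact ⟨⟨i, by omega⟩, by rw [h2]; exact ih i (by omega)⟩
      · refine ⟨Phi (Aset k), ?_, ?_, ?_⟩
        · exact Mk_mono (Nat.le_succ k) (by rw [Mk_eq]; exact subset_closure (leaf_refl _))
        · rw [← Mk_eq]; exact Mk_ne (Nat.lt_succ_self k)
        · rw [← Mk_eq]; exact ih k (Nat.lt_succ_self k)

/-- the level is unique -/
theorem level_unique {n : ℕ} : ∀ (j k : ℕ) (M : Set (STree n)), IsLevel j M → IsLevel k M → j = k := by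
  have hzero : ∀ (k : ℕ) (M : Set (STree n)), IsLevel 0 M → IsLevel (k + 1) M → False := by
    intro k M h0 hk
    rw [IsLevel.eq_def] at h0 hk
    simp only at h0 hk
    obtain ⟨T, hT, h⟩ := h0
    obtain ⟨-, -, -, S, hS, hne, -⟩ := hk
    rcases h with ⟨h1, -⟩ | h1
    · rw [h1] at hS
      exact hne (by rw [leaf_eq hS, hT])
    · exact hne (h1 S hS)
  have main : ∀ N j k : ℕ, j + k ≤ N → ∀ M : Set (STree n), IsLevel j M → IsLevel k M → j = k := by
    intro N
    induction N with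
    | zero => intro j k h M _ _; omega
    | succ N ih =>
      intro j k h M hj hk
      rcases j with _ | j <;> rcases k with _ | k
      · rfl
      · exact (hzero k M hj hk).elim
      · exact (hzero j M hk hj).elim
      · rw [IsLevel] at hj hk
        obtain ⟨-, -, hj1, S, hS, hSne, hSj⟩ := hj
        obtain ⟨-, -, hk1, S', hS', hSne', hSk⟩ := hk
        obtain ⟨i, hi⟩ := hk1 S hS hSne
        have e1 := ih j i (by have := i.2; omega) _ hSj hi
        obtain ⟨i', hi'⟩ := hj1 S' hS' hSne'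
        have e2 := ih k i' (by have := i'.2; omega) _ hSk hi'
        have := i.2
        have := i'.2
        omega
  intro j k M hj hk
  exact main (j + k) j k le_rfl M hj hk

end

end Pool.Agent.R906.GM
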