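import Mathlib
set_option autoImplicit false

/-!
# Contiguous relations for the series `∑ (x)_{2j} / (4^j j! (d)_j) u^j`
-/

namespace Pool.Agent.R906.KB

open PowerSeries Finset

/-- the coefficient `(x)_{2j} / (4^j j! (d)_j)` -/
noncomputable def co (x d : ℝ) : ℕ → ℝ
  | 0 => 1
  | (j + 1) => co x d j * ((x + 2 * j) * (x + 2 * j + 1) / (4 * (j + 1) * (d + j)))

@[simp] theorem co_zero (x d : ℝ) : co x d 0 = 1 := rfl

theorem co_succ' (x d : ℝ) (j : ℕ) :
    co x d (j + 1) = co x d j * ((x + 2 * j) * (x + 2 * j + 1) / (4 * (j + 1) * (d + j))) := rfl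

theorem co_x (x d : ℝ) (j : ℕ) : x * co (x + 1) d j = (x + 2 * j) * co x d j := by
  induction j with
  | zero => simp
  | succ j ih =>
    rw [co_succ', co_succ', ← mul_assoc, ih]
    push_cast
    ring

theorem co_d (x : ℝ) {d : ℝ} (hd : 0 < d) (j : ℕ) :
    (d + j) * co x (d + 1) j = d * co x d j := by
  induction j with
  | zero => simp
  | succ j ih =>
    have h1 : (d + (j : ℝ)) ≠ 0 := by positivity
    have h2 : (d + 1 + (j : ℝ)) ≠ 0 := by positivity
    have h3 : (j : ℝ) + 1 ≠ 0 := by positivity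
    rw [co_succ', co_succ', ← mul_assoc d, ← ih]
    push_cast
    field_simp
    ring

theorem co_shift (x : ℝ) {d : ℝ} (hd : 0 < d) (j : ℕ) :
    co x d (j + 1) * (4 * (j + 1) * d) = x * (x + 1) * co (x + 2) (d + 1) j := by
  induction j with
  | zero =>
    rw [co_succ']
    simp
    field_simp
  | succ j ih =>
    have h1 : (d + 1 + (j : ℝ)) ≠ 0 := by positivity
    have h3 : (j : ℝ) + 1 ≠ 0 := by positivity
    have h4 : (j : ℝ) + 1 + 1 ≠ 0 := by positivity
    have h5 : (d + ((j : ℝ) + 1)) ≠ 0 := by positivity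
    rw [co_succ' x d (j + 1), co_succ' (x + 2)]
    have ih' : co x d (j + 1) = x * (x + 1) * co (x + 2) (d + 1) j / (4 * (j + 1) * d) := by
      rw [← ih]
      field_simp
    rw [ih']
    push_cast
    field_simp
    ring

/-- the power series `∑ (x)_{2j} / (4^j j! (d)_j) u^j` -/
noncomputable def EE (x d : ℝ) : PowerSeries ℝ := PowerSeries.mk (co x d)

@[simp] theorem coeff_EE (x d : ℝ) (j : ℕ) : PowerSeries.coeff j (EE x d) = co x d j := by
  simp [EE]

theorem constCoeff_EE (x d : ℝ) : PowerSeries.constantCoeff (EE x d) = 1 := by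
  rw [← PowerSeries.coeff_zero_eq_constantCoeff_apply, coeff_EE]
  rfl

theorem coeff_CX (e : ℝ) (f : PowerSeries ℝ) (j : ℕ) :
    PowerSeries.coeff (j + 1) (PowerSeries.C e * (X * f)) = e * PowerSeries.coeff j f := by
  rw [PowerSeries.coeff_C_mul, PowerSeries.coeff_succ_X_mul]

theorem coeff_CX_zero (e : ℝ) (f : PowerSeries ℝ) :
    PowerSeries.coeff 0 (PowerSeries.C e * (X * f)) = 0 := by
  rw [PowerSeries.coeff_C_mul]
  simp

theorem R1 (x : ℝ) {d : ℝ} (hd : 0 < d) :
    EE (x + 1) (d + 1) = EE x d +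
      PowerSeries.C ((x + 1) * (2 * d - x) / (4 * d * (d + 1))) * (X * EE (x + 2) (d + 2)) := by
  ext j
  rw [map_add]
  cases j with
  | zero => rw [coeff_CX_zero]; simp
  | succ j =>
    rw [coeff_CX, coeff_EE, coeff_EE, coeff_EE]
    have h3 : (j : ℝ) + 1 ≠ 0 := by positivity
    have hd1 : (0 : ℝ) < d + 1 := by positivity
    have hd1j : (d + 1 + (j : ℝ)) ≠ 0 := by positivity
    set w := co (x + 2) (d + 2) j with hw
    -- co (x+2) (d+1) j
    have e1 : co (x + 2) (d + 1) j = (d + 1 + j) * w / (d + 1) := by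
      have := co_d (x + 2) hd1 j
      rw [show d + 1 + 1 = d + 2 by ring] at this
      field_simp
      linarith
    have e2 : co x d (j + 1) = x * (x + 1) * ((d + 1 + j) * w / (d + 1)) / (4 * (j + 1) * d) := by
      have := co_shift x hd j
      rw [e1] at this
      field_simp at this ⊢
      linarith
    have e3 : co (x + 1) (d + 1) (j + 1) =
        (x + 1) * ((x + 2 + 2 * j) * w) / (4 * (j + 1) * (d + 1)) := by
      have h := co_shift (x + 1) hd1 j
      have h' := co_x (x + 2) (d + 2) j
      rw [show x + 1 + 1 = x + 2 by ring, show x + 1 + 2 = x + 2 + 1 by ring,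
        show d + 1 + 1 = d + 2 by ring] at h
      have : (x + 1) * (x + 2) * co (x + 2 + 1) (d + 2) j = (x + 1) * ((x + 2 + 2 * j) * w) := by
        rw [mul_assoc, h']
      rw [this] at h
      field_simp
      linarith
    rw [e2, e3]
    field_simp
    ring

theorem R0 (p : ℝ) {c : ℝ} (hc : 0 < c) :
    EE (p - 1) c = (1 - X) * EE p c +
      PowerSeries.C ((2 * c - p) / (2 * c)) * (X * EE p (c + 1)) := by
  ext j
  rw [map_add, sub_mul, one_mul, map_sub]
  cases j with
  | zero => rw [coeff_CX_zero]; simp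
  | succ j =>
    rw [coeff_CX, PowerSeries.coeff_succ_X_mul, coeff_EE, coeff_EE, coeff_EE, coeff_EE]
    have h3 : (j : ℝ) + 1 ≠ 0 := by positivity
    have hcj : (c + (j : ℝ)) ≠ 0 := by positivity
    set w := co p (c + 1) j with hw
    have e1 : co p c j = (c + j) * w / c := by
      have := co_d p hc j
      field_simp
      linarith
    have e2 : co p c (j + 1) = (p + 2 * j) * (p + 2 * j + 1) * w / (4 * (j + 1) * c) := by
      rw [co_succ', e1]
      field_simp
    have e3 : co (p - 1) c (j + 1) = (p - 1) * ((p + 2 * j) * w) / (4 * (j + 1) * c) := by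
      have h := co_shift (p - 1) hc j
      have h' := co_x p (c + 1) j
      rw [show p - 1 + 1 = p by ring, show p - 1 + 2 = p + 1 by ring, mul_assoc (p - 1), h'] at h
      field_simp
      linarith
    rw [e1, e2, e3]
    field_simp
    ring

theorem R4 (x : ℝ) {d : ℝ} (hd : 0 < d) :
    EE (x + 1) d = EE x d + PowerSeries.C ((x + 1) / (2 * d)) * (X * EE (x + 2) (d + 1)) := by
  ext j
  rw [map_add]
  cases j with
  | zero => rw [coeff_CX_zero]; simp
  | succ j =>
    rw [coeff_CX, coeff_EE, coeff_EE, coeff_EE]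
    have h3 : (j : ℝ) + 1 ≠ 0 := by positivity
    set w := co (x + 2) (d + 1) j with hw
    have e2 : co x d (j + 1) = x * (x + 1) * w / (4 * (j + 1) * d) := by
      have := co_shift x hd j
      field_simp
      linarith
    have e3 : co (x + 1) d (j + 1) = (x + 1) * ((x + 2 + 2 * j) * w) / (4 * (j + 1) * d) := by
      have h := co_shift (x + 1) hd j
      have h' := co_x (x + 2) (d + 1) j
      rw [show x + 1 + 1 = x + 2 by ring, show x + 1 + 2 = x + 2 + 1 by ring, mul_assoc (x + 1),
        h'] at h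
      field_simp
      linarith
    rw [e2, e3]
    field_simp
    ring

theorem R2 (p : ℝ) {c : ℝ} (hc : 0 < c) :
    (1 - X) * (PowerSeries.C p * EE (p + 1) c) =
      PowerSeries.C (p + (p + 1 - 2 * c)) * EE p c -
        PowerSeries.C (p + 1 - 2 * c) * EE (p - 1) c := by
  ext j
  rw [sub_mul, one_mul, map_sub, map_sub]
  cases j with
  | zero =>
    simp [constCoeff_EE]
  | succ j =>
    rw [PowerSeries.coeff_succ_X_mul]
    simp only [PowerSeries.coeff_C_mul, coeff_EE]
    have h3 : (j : ℝ) + 1 ≠ 0 := by positivity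
    have hcj : (c + (j : ℝ)) ≠ 0 := by positivity
    rw [co_x, co_x]
    set w := co p (c + 1) j with hw
    have e1 : co p c j = (c + j) * w / c := by
      have := co_d p hc j
      field_simp
      linarith
    have e2 : co p c (j + 1) = (p + 2 * j) * (p + 2 * j + 1) * w / (4 * (j + 1) * c) := by
      rw [co_succ', e1]
      field_simp
    have e3 : co (p - 1) c (j + 1) = (p - 1) * ((p + 2 * j) * w) / (4 * (j + 1) * c) := by
      have h := co_shift (p - 1) hc j
      have h' := co_x p (c + 1) j
      rw [show p - 1 + 1 = p by ring, show p - 1 + 2 = p + 1 by ring, mul_assoc (p - 1), h'] at h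
      field_simp
      linarith
    rw [e1, e2, e3]
    push_cast
    field_simp
    ring

/-! ### chains -/

/-- the sequences of coefficients of the continued fraction, `n > 0` -/
noncomputable def eA (p c : ℝ) : ℕ → ℝ
  | 0 => (2 * c - p) / (2 * c)
  | (i + 1) => (p + i) * (2 * c - p + 1 + i) / (4 * (c + i) * (c + i + 1))

/-- the sequences of coefficients of the continued fraction, `n ≤ 0` -/
noncomputable def eP (p c : ℝ) : ℕ → ℝ
  | 0 => (p + 1) / (2 * c)
  | (i + 1) => (p + i + 2) * (2 * c - p - 1 + i) / (4 * (c + i) * (c + i + 1))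

noncomputable def YA (p c : ℝ) : ℕ → PowerSeries ℝ
  | 0 => (1 - X) * EE p c
  | (i + 1) => EE (p + i - 1) (c + i)

noncomputable def YP (p c : ℝ) : ℕ → PowerSeries ℝ
  | 0 => EE p c
  | (i + 1) => EE (p + i + 1) (c + i)

theorem YA_chain {p c : ℝ} (hc : 0 < c) (i : ℕ) :
    YA p c (i + 1) = YA p c i + PowerSeries.C (eA p c i) * (X * YA p c (i + 2)) := by
  cases i with
  | zero =>
    have := R0 p hc
    simp only [YA, eA]
    push_cast
    simp only [add_zero]
    rw [show p + 1 - 1 = p by ring]
    exact this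
  | succ i =>
    have hci : (0 : ℝ) < c + i := by positivity
    have := R1 (p + i - 1) hci
    simp only [YA, eA]
    push_cast
    rw [show p + (i : ℝ) - 1 + 1 = p + i by ring, show p + (i : ℝ) - 1 + 2 = p + i + 1 by ring] at this
    rw [show p + ((i : ℝ) + 1) - 1 = p + i by ring, show c + ((i : ℝ) + 1) = c + i + 1 by ring,
      show p + ((i : ℝ) + 2) - 1 = p + i + 1 by ring,
      show c + ((i : ℝ) + 2) = c + i + 2 by ring, this]
    congr 3
    ring

theorem YP_chain {p c : ℝ} (hc : 0 < c) (i : ℕ) :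
    YP p c (i + 1) = YP p c i + PowerSeries.C (eP p c i) * (X * YP p c (i + 2)) := by
  cases i with
  | zero =>
    have := R4 p hc
    simp only [YP, eP]
    push_cast
    simp only [add_zero]
    rw [show p + 1 + 1 = p + 2 by ring]
    exact this
  | succ i =>
    have hci : (0 : ℝ) < c + i := by positivity
    have := R1 (p + i + 1) hci
    simp only [YP, eP]
    push_cast
    rw [show p + ((i : ℝ) + 1) + 1 = p + i + 1 + 1 by ring,
      show c + ((i : ℝ) + 1) = c + i + 1 by ring,
      show p + ((i : ℝ) + 2) + 1 = p + i + 1 + 2 by ring,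
      show c + ((i : ℝ) + 2) = c + i + 2 by ring, this]
    congr 3
    ring

end Pool.Agent.R906.KB
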