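import Mathlib
import Pool.Agent.R906.KBCoef
set_option autoImplicit false

/-!
# Continued fraction chains of power series
-/

namespace Pool.Agent.R906.KB

open PowerSeries Finset

/-- a continued fraction chain -/
structure Chain (e : ℕ → ℝ) (φ : ℕ → PowerSeries ℝ) : Prop where
  zero : φ 0 = 1 + PowerSeries.C (e 0) * (X * φ 1)
  succ : ∀ i, φ (i + 1) = φ i + PowerSeries.C (e (i + 1)) * (X * φ (i + 2))

theorem chain_of {e : ℕ → ℝ} {Y : ℕ → PowerSeries ℝ} (h0 : PowerSeries.constantCoeff (Y 0) = 1)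
    (hY : ∀ i, Y (i + 1) = Y i + PowerSeries.C (e i) * (X * Y (i + 2))) :
    Chain e (fun i => Y (i + 1) * (Y 0)⁻¹) := by
  have hinv : Y 0 * (Y 0)⁻¹ = 1 := PowerSeries.mul_inv_cancel _ (by rw [h0]; exact one_ne_zero)
  constructor
  · show Y 1 * (Y 0)⁻¹ = 1 + PowerSeries.C (e 0) * (X * (Y 2 * (Y 0)⁻¹))
    have := hY 0
    linear_combination (Y 0)⁻¹ * this + hinv
  · intro i
    show Y (i + 1 + 1) * (Y 0)⁻¹ = Y (i + 1) * (Y 0)⁻¹ +
      PowerSeries.C (e (i + 1)) * (X * (Y (i + 2 + 1) * (Y 0)⁻¹))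
    have := hY (i + 1)
    linear_combination (Y 0)⁻¹ * this

section

variable {e : ℕ → ℝ} {φ : ℕ → PowerSeries ℝ} (h : Chain e φ)

include h

theorem Chain.coeff_zero_zero : PowerSeries.coeff 0 (φ 0) = 1 := by
  rw [h.zero, map_add, coeff_CX_zero]
  simp

theorem Chain.coeff_zero (i : ℕ) : PowerSeries.coeff 0 (φ i) = 1 := by
  induction i with
  | zero => exact h.coeff_zero_zero
  | succ i ih => rw [h.succ, map_add, coeff_CX_zero, ih, add_zero]

theorem Chain.coeff_s0 (j : ℕ) :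
    PowerSeries.coeff (j + 1) (φ 0) = e 0 * PowerSeries.coeff j (φ 1) := by
  conv_lhs => rw [h.zero]
  rw [map_add, coeff_CX, PowerSeries.coeff_one, if_neg (by omega), zero_add]

theorem Chain.coeff_ss (i j : ℕ) : PowerSeries.coeff (j + 1) (φ (i + 1)) =
    PowerSeries.coeff (j + 1) (φ i) + e (i + 1) * PowerSeries.coeff j (φ (i + 2)) := by
  conv_lhs => rw [h.succ]
  rw [map_add, coeff_CX]

theorem Chain.nonneg (he : ∀ i, 0 ≤ e i) (j : ℕ) : ∀ i, 0 ≤ PowerSeries.coeff j (φ i) := by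
  induction j with
  | zero => intro i; rw [h.coeff_zero]; exact zero_le_one
  | succ j ihj =>
    intro i
    induction i with
    | zero => rw [h.coeff_s0]; exact mul_nonneg (he 0) (ihj 1)
    | succ i ihi => rw [h.coeff_ss]; exact add_nonneg ihi (mul_nonneg (he _) (ihj _))

theorem Chain.bound {R : ℝ} (hR : 0 < R) (he : ∀ i, |e i| ≤ R) (j : ℕ) :
    ∀ i, |PowerSeries.coeff j (φ i)| ≤ 2 ^ (i + 1) * (4 * R) ^ j := by
  induction j with
  | zero =>
    intro i
    rw [h.coeff_zero, abs_one, pow_zero, mul_one]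
    exact one_le_pow₀ (by norm_num)
  | succ j ihj =>
    intro i
    induction i with
    | zero =>
      rw [h.coeff_s0, abs_mul]
      calc |e 0| * |PowerSeries.coeff j (φ 1)| ≤ R * (2 ^ (1 + 1) * (4 * R) ^ j) :=
            mul_le_mul (he 0) (ihj 1) (abs_nonneg _) hR.le
        _ = (4 * R) ^ (j + 1) := by ring
        _ ≤ 2 ^ (0 + 1) * (4 * R) ^ (j + 1) := by
            have : 0 ≤ (4 * R) ^ (j + 1) := by positivity
            rw [zero_add, pow_one]
            linarith
    | succ i ihi =>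
      rw [h.coeff_ss]
      calc |PowerSeries.coeff (j + 1) (φ i) + e (i + 1) * PowerSeries.coeff j (φ (i + 2))|
          ≤ |PowerSeries.coeff (j + 1) (φ i)| + |e (i + 1)| * |PowerSeries.coeff j (φ (i + 2))| := by
            rw [← abs_mul]; exact abs_add_le _ _
        _ ≤ 2 ^ (i + 1) * (4 * R) ^ (j + 1) + R * (2 ^ (i + 2 + 1) * (4 * R) ^ j) :=
            add_le_add ihi (mul_le_mul (he _) (ihj _) (abs_nonneg _) hR.le)
        _ = 2 ^ (i + 1 + 1) * (4 * R) ^ (j + 1) := by ring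

end

/-- the array of coefficients of the associated Jacobi type continued fraction -/
structure JArr (a b : ℕ → ℝ) (s : ℕ → ℕ → ℝ) : Prop where
  zz : s 0 0 = 1
  zs : ∀ k, s 0 (k + 1) = 0
  sz : ∀ j, s (j + 1) 0 = a 0 * s j 0 + b 0 * s j 1
  ss : ∀ j k, s (j + 1) (k + 1) = s j k + a (k + 1) * s j (k + 1) + b (k + 1) * s j (k + 2)

theorem jarr_of {a b : ℕ → ℝ} {U : ℕ → PowerSeries ℝ}
    (h0 : U 0 = 1 + X * (PowerSeries.C (a 0) * U 0 + PowerSeries.C (b 0) * U 1))
    (h1 : ∀ k, U (k + 1) = X * (U k + PowerSeries.C (a (k + 1)) * U (k + 1) +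
      PowerSeries.C (b (k + 1)) * U (k + 2))) :
    JArr a b (fun j k => PowerSeries.coeff j (U k)) := by
  constructor
  · show PowerSeries.coeff 0 (U 0) = 1
    rw [h0, map_add]
    simp
  · intro k
    show PowerSeries.coeff 0 (U (k + 1)) = 0
    rw [h1]
    simp
  · intro j
    show PowerSeries.coeff (j + 1) (U 0) = _
    conv_lhs => rw [h0]
    rw [map_add, PowerSeries.coeff_succ_X_mul, map_add, PowerSeries.coeff_C_mul,
      PowerSeries.coeff_C_mul, PowerSeries.coeff_one, if_neg (by omega), zero_add]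
  · intro j k
    show PowerSeries.coeff (j + 1) (U (k + 1)) = _
    conv_lhs => rw [h1]
    rw [PowerSeries.coeff_succ_X_mul, map_add, map_add, PowerSeries.coeff_C_mul,
      PowerSeries.coeff_C_mul]

/-- diagonal and off-diagonal coefficients of the even part -/
noncomputable def aA (e : ℕ → ℝ) : ℕ → ℝ
  | 0 => e 0
  | (k + 1) => e (2 * k + 1) + e (2 * k + 2)

theorem Chain.jA {e : ℕ → ℝ} {φ : ℕ → PowerSeries ℝ} (h : Chain e φ) :
    JArr (aA e) (fun k => e (2 * k) * e (2 * k + 1))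
      (fun j k => PowerSeries.coeff j (X ^ k * φ (2 * k))) := by
  apply jarr_of (U := fun k => X ^ k * φ (2 * k))
  · have h0 := h.zero
    have h1 := h.succ 0
    simp only [aA, mul_zero, zero_add, mul_one, pow_zero, one_mul, pow_one, map_mul] at h0 h1 ⊢
    linear_combination h0 + PowerSeries.C (e 0) * X * h1
  · intro k
    have h0 := h.succ (2 * k)
    have h1 := h.succ (2 * k + 1)
    have h2 := h.succ (2 * k + 2)
    simp only [aA, map_mul, map_add]
    rw [show 2 * (k + 1) = 2 * k + 2 by ring, show 2 * (k + 2) = 2 * k + 4 by ring]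
    rw [show 2 * k + 1 + 1 = 2 * k + 2 by ring, show 2 * k + 1 + 2 = 2 * k + 3 by ring] at h1
    rw [show 2 * k + 2 + 1 = 2 * k + 3 by ring, show 2 * k + 2 + 2 = 2 * k + 4 by ring] at h2
    rw [show 2 * k + 2 + 1 = 2 * k + 3 by ring]
    linear_combination X ^ (k + 1) * (h1 + h0) + X ^ (k + 1) * (PowerSeries.C (e (2 * k + 2)) * X) * h2

theorem Chain.jB {e : ℕ → ℝ} {φ : ℕ → PowerSeries ℝ} (h : Chain e φ) :
    JArr (fun k => e (2 * k) + e (2 * k + 1)) (fun k => e (2 * k + 1) * e (2 * k + 2))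
      (fun j k => PowerSeries.coeff j (X ^ k * φ (2 * k + 1))) := by
  apply jarr_of (U := fun k => X ^ k * φ (2 * k + 1))
  · have h0 := h.zero
    have h1 := h.succ 0
    have h2 := h.succ 1
    simp only [mul_zero, zero_add, mul_one, pow_zero, one_mul, pow_one, map_mul, map_add] at h0 h1 h2 ⊢
    rw [show 1 + 1 = 2 by ring, show 1 + 2 = 3 by ring] at h2
    rw [show 2 + 1 = 3 by ring]
    linear_combination h0 + h1 + PowerSeries.C (e 1) * X * h2
  · intro k
    have h0 := h.succ (2 * k + 1)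
    have h1 := h.succ (2 * k + 2)
    have h2 := h.succ (2 * k + 3)
    simp only [map_mul, map_add]
    rw [show 2 * (k + 1) = 2 * k + 2 by ring, show 2 * (k + 2) = 2 * k + 4 by ring]
    rw [show 2 * k + 1 + 1 = 2 * k + 2 by ring, show 2 * k + 1 + 2 = 2 * k + 3 by ring] at h0
    rw [show 2 * k + 2 + 1 = 2 * k + 3 by ring, show 2 * k + 2 + 2 = 2 * k + 4 by ring] at h1
    rw [show 2 * k + 3 + 1 = 2 * k + 4 by ring, show 2 * k + 3 + 2 = 2 * k + 5 by ring] at h2
    rw [show 2 * k + 2 + 1 = 2 * k + 3 by ring, show 2 * k + 2 + 2 = 2 * k + 4 by ring,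
      show 2 * k + 4 + 1 = 2 * k + 5 by ring]
    linear_combination X ^ (k + 1) * (h1 + h0) + X ^ (k + 1) * (PowerSeries.C (e (2 * k + 3)) * X) * h2

end Pool.Agent.R906.KB
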