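import Mathlib
set_option autoImplicit false

/-!
# Convolutions of generalised power series
-/

namespace Pool.Agent.R906.KB

open Finset Filter Topology MeasureTheory

/-- geometric growth -/
def GB (d : ℕ → ℝ) : Prop := ∃ M S : ℝ, 0 < M ∧ 0 < S ∧ ∀ j, |d j| ≤ M * S ^ j

theorem beta_int {α β x : ℝ} (hα : 0 < α) (hβ : 0 < β) (hx : 0 < x) :
    ∫ s in (0 : ℝ)..x, s ^ (α - 1) * (x - s) ^ (β - 1) =
      x ^ (α + β - 1) * (Real.Gamma α * Real.Gamma β / Real.Gamma (α + β)) := by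
  have h1 := Complex.betaIntegral_scaled (α : ℂ) (β : ℂ) hx
  rw [Complex.betaIntegral_eq_Gamma_mul_div _ _ (by simpa using hα) (by simpa using hβ)] at h1
  have h2 : ∫ s in (0 : ℝ)..x, (s : ℂ) ^ ((α : ℂ) - 1) * ((x : ℂ) - s) ^ ((β : ℂ) - 1) =
      ((∫ s in (0 : ℝ)..x, s ^ (α - 1) * (x - s) ^ (β - 1) : ℝ) : ℂ) := by
    rw [← intervalIntegral.integral_ofReal]
    apply intervalIntegral.integral_congr
    intro s hs
    rw [Set.uIcc_of_le hx.le] at hs
    show (s : ℂ) ^ ((α : ℂ) - 1) * ((x : ℂ) - s) ^ ((β : ℂ) - 1) =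
      ((s ^ (α - 1) * (x - s) ^ (β - 1) : ℝ) : ℂ)
    rw [Complex.ofReal_mul, Complex.ofReal_cpow hs.1, Complex.ofReal_cpow (by linarith [hs.2])]
    push_cast
    rfl
  rw [h2] at h1
  have h3 : (x : ℂ) ^ ((α : ℂ) + β - 1) *
      (Complex.Gamma α * Complex.Gamma β / Complex.Gamma (α + β)) =
      ((x ^ (α + β - 1) * (Real.Gamma α * Real.Gamma β / Real.Gamma (α + β)) : ℝ) : ℂ) := by
    rw [Complex.ofReal_mul, Complex.ofReal_cpow hx.le, Complex.ofReal_div, Complex.ofReal_mul,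
      ← Complex.Gamma_ofReal, ← Complex.Gamma_ofReal, ← Complex.Gamma_ofReal]
    push_cast
    rfl
  rw [h3] at h1
  exact_mod_cast h1

theorem beta_integrable {α β x : ℝ} (hα : 0 < α) (hβ : 0 < β) (hx : 0 < x) :
    IntervalIntegrable (fun s => s ^ (α - 1) * (x - s) ^ (β - 1)) volume 0 x := by
  by_contra hcon
  have h1 := intervalIntegral.integral_undef hcon
  rw [beta_int hα hβ hx] at h1
  have : 0 < x ^ (α + β - 1) * (Real.Gamma α * Real.Gamma β / Real.Gamma (α + β)) :=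
    mul_pos (Real.rpow_pos_of_pos hx _) (div_pos (mul_pos (Real.Gamma_pos_of_pos hα)
      (Real.Gamma_pos_of_pos hβ)) (Real.Gamma_pos_of_pos (by linarith)))
  linarith

theorem gam_lower {σ : ℝ} (hσ : 0 < σ) :
    ∃ c : ℝ, 0 < c ∧ ∀ m : ℕ, c * (Nat.factorial m : ℝ) ≤ Real.Gamma (σ + 2 * m) := by
  have hG := Real.Gamma_pos_of_pos hσ
  have hm : 0 < min σ 1 := lt_min hσ one_pos
  have step : ∀ m : ℕ, Real.Gamma (σ + 2 * ((m + 1 : ℕ) : ℝ)) =
      (σ + 2 * m + 1) * ((σ + 2 * m) * Real.Gamma (σ + 2 * m)) := by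
    intro m
    push_cast
    have h0 : (0 : ℝ) < σ + 2 * m := by positivity
    rw [show σ + 2 * ((m : ℝ) + 1) = (σ + 2 * m + 1) + 1 by ring,
      Real.Gamma_add_one (by positivity), Real.Gamma_add_one h0.ne']
  refine ⟨Real.Gamma σ * min σ 1, mul_pos hG hm, fun m => ?_⟩
  rcases Nat.eq_zero_or_pos m with rfl | hpos
  · simp only [Nat.factorial_zero, Nat.cast_one, mul_one, Nat.cast_zero, mul_zero, add_zero]
    have := min_le_right σ 1
    nlinarith
  · induction m, hpos using Nat.le_induction with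
    | base =>
      have hs := step 0
      have h1 := min_le_left σ 1
      show Real.Gamma σ * min σ 1 * ((Nat.factorial 1 : ℕ) : ℝ) ≤ Real.Gamma (σ + 2 * ((0 + 1 : ℕ) : ℝ))
      rw [hs]
      simp only [Nat.factorial, Nat.cast_one, Nat.cast_zero, mul_zero, add_zero, mul_one]
      calc Real.Gamma σ * min σ 1 ≤ Real.Gamma σ * σ := mul_le_mul_of_nonneg_left h1 hG.le
        _ ≤ (σ + 1) * (σ * Real.Gamma σ) := by nlinarith [mul_pos hσ hG]
    | succ m hm1 ih =>
      rw [step, Nat.factorial_succ]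
      push_cast
      have hm1' : (1 : ℝ) ≤ m := by exact_mod_cast hm1
      have h2 : 0 < Real.Gamma (σ + 2 * m) := Real.Gamma_pos_of_pos (by positivity)
      calc Real.Gamma σ * min σ 1 * (((m : ℝ) + 1) * (Nat.factorial m : ℝ))
          = ((m : ℝ) + 1) * (Real.Gamma σ * min σ 1 * (Nat.factorial m : ℝ)) := by ring
        _ ≤ ((m : ℝ) + 1) * Real.Gamma (σ + 2 * m) :=
            mul_le_mul_of_nonneg_left ih (by positivity)
        _ ≤ (σ + 2 * m + 1) * ((σ + 2 * m) * Real.Gamma (σ + 2 * m)) := by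
            have h3 : ((m : ℝ) + 1) ≤ (σ + 2 * m + 1) * (σ + 2 * m) := by nlinarith
            calc ((m : ℝ) + 1) * Real.Gamma (σ + 2 * m) ≤
                ((σ + 2 * m + 1) * (σ + 2 * m)) * Real.Gamma (σ + 2 * m) :=
                  mul_le_mul_of_nonneg_right h3 h2.le
              _ = _ := by ring

/-- the entire function `∑ d_j x^(2j) / Γ(α + 2j)` -/
noncomputable def GG (α : ℝ) (d : ℕ → ℝ) (x : ℝ) : ℝ :=
  ∑' j : ℕ, d j * (x ^ (2 * j) / Real.Gamma (α + 2 * j))

/-- `x^(α-1)` times the entire function -/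
noncomputable def hh (α : ℝ) (d : ℕ → ℝ) (x : ℝ) : ℝ := x ^ (α - 1) * GG α d x

theorem GG_bd {α : ℝ} (hα : 0 < α) {d : ℕ → ℝ} (hd : GB d) (r : ℝ) :
    Summable (fun j : ℕ => |d j| * (|r| ^ (2 * j) / Real.Gamma (α + 2 * j))) := by
  obtain ⟨M, S, hM, hS, hd⟩ := hd
  obtain ⟨c, hc, hG⟩ := gam_lower hα
  have h1 := (Real.summable_pow_div_factorial (S * r ^ 2)).mul_left (M / c)
  apply Summable.of_nonneg_of_le _ _ h1
  · intro j
    have : 0 < Real.Gamma (α + 2 * j) := Real.Gamma_pos_of_pos (by positivity)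
    positivity
  · intro j
    have hf : (0 : ℝ) < c * (Nat.factorial j : ℝ) := by positivity
    calc |d j| * (|r| ^ (2 * j) / Real.Gamma (α + 2 * j))
        ≤ (M * S ^ j) * (|r| ^ (2 * j) / (c * (Nat.factorial j : ℝ))) := by
          apply mul_le_mul (hd j) _ (by
            have : 0 < Real.Gamma (α + 2 * j) := Real.Gamma_pos_of_pos (by positivity)
            positivity) (by positivity)
          exact div_le_div_of_nonneg_left (by positivity) hf (hG j)
      _ = M / c * ((S * r ^ 2) ^ j / (Nat.factorial j : ℝ)) := by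
          rw [pow_mul, sq_abs, mul_pow]
          field_simp

theorem GG_summ {α : ℝ} (hα : 0 < α) {d : ℕ → ℝ} (hd : GB d) (x : ℝ) :
    Summable (fun j : ℕ => d j * (x ^ (2 * j) / Real.Gamma (α + 2 * j))) := by
  apply Summable.of_norm_bounded (GG_bd hα hd x)
  intro j
  have : 0 < Real.Gamma (α + 2 * j) := Real.Gamma_pos_of_pos (by positivity)
  rw [Real.norm_eq_abs, abs_mul, abs_div, abs_pow, abs_of_pos this]

theorem GG_cont {α : ℝ} (hα : 0 < α) {d : ℕ → ℝ} (hd : GB d) : Continuous (GG α d) := by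
  rw [continuous_iff_continuousAt]
  intro x
  have h1 : ContinuousOn (GG α d) (Set.Icc (-(|x| + 1)) (|x| + 1)) := by
    apply continuousOn_tsum (u := fun j : ℕ => |d j| * (|(|x| + 1)| ^ (2 * j) / Real.Gamma (α + 2 * j)))
    · intro j
      fun_prop
    · exact GG_bd hα hd _
    · intro j y hy
      have hG : 0 < Real.Gamma (α + 2 * j) := Real.Gamma_pos_of_pos (by positivity)
      rw [Real.norm_eq_abs, abs_mul, abs_div, abs_pow, abs_of_pos hG]
      apply mul_le_mul_of_nonneg_left _ (abs_nonneg _)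
      apply div_le_div_of_nonneg_right _ hG.le
      apply pow_le_pow_left₀ (abs_nonneg _)
      rw [abs_of_nonneg (by positivity : 0 ≤ |x| + 1)]
      exact abs_le.2 hy
  apply h1.continuousAt
  apply Icc_mem_nhds
  · linarith [neg_abs_le x]
  · linarith [le_abs_self x]

theorem hasSum_antidiag {f : ℕ × ℕ → ℝ} {a : ℝ} (h : HasSum f a) :
    HasSum (fun n => ∑ z ∈ antidiagonal n, f z) a := by
  have h1 : HasSum (f ∘ (Finset.HasAntidiagonal.sigmaAntidiagonalEquivProd (A := ℕ))) a :=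
    (Equiv.hasSum_iff _).2 h
  exact h1.sigma (fun n => Finset.hasSum (antidiagonal n) f)

/-- Cauchy product -/
def cp (d d' : ℕ → ℝ) (m : ℕ) : ℝ := ∑ z ∈ antidiagonal m, d z.1 * d' z.2

theorem conv_integrable {α β : ℝ} (hα : 0 < α) (hβ : 0 < β) {d d' : ℕ → ℝ} (hd : GB d)
    (hd' : GB d') {x : ℝ} (hx : 0 < x) :
    IntervalIntegrable (fun s => hh α d s * hh β d' (x - s)) volume 0 x := by
  have h1 := (beta_integrable hα hβ hx).mul_continuousOn (g := fun s => GG α d s * GG β d' (x - s))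
    (Continuous.continuousOn ((GG_cont hα hd).mul ((GG_cont hβ hd').comp (by fun_prop))))
  refine h1.congr fun s _ => ?_
  unfold hh
  ring

theorem conv_hh {α β : ℝ} (hα : 0 < α) (hβ : 0 < β) {d d' : ℕ → ℝ} (hd : GB d)
    (hd' : GB d') {x : ℝ} (hx : 0 < x) :
    ∫ s in (0 : ℝ)..x, hh α d s * hh β d' (x - s) = hh (α + β) (cp d d') x := by
  set K : ℕ × ℕ → ℝ := fun z =>
    d z.1 * d' z.2 / (Real.Gamma (α + 2 * z.1) * Real.Gamma (β + 2 * z.2)) with hK
  set F : ℕ × ℕ → ℝ → ℝ := fun z s =>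
    K z * (s ^ (α + 2 * z.1 - 1) * (x - s) ^ (β + 2 * z.2 - 1)) with hF
  have ha : ∀ i : ℕ, (0 : ℝ) < α + 2 * i := fun i => by positivity
  have hb : ∀ i : ℕ, (0 : ℝ) < β + 2 * i := fun i => by positivity
  have hGa : ∀ i : ℕ, 0 < Real.Gamma (α + 2 * i) := fun i => Real.Gamma_pos_of_pos (ha i)
  have hGb : ∀ i : ℕ, 0 < Real.Gamma (β + 2 * i) := fun i => Real.Gamma_pos_of_pos (hb i)
  have hGab : ∀ z : ℕ × ℕ, 0 < Real.Gamma ((α + 2 * z.1) + (β + 2 * z.2)) := fun z =>
    Real.Gamma_pos_of_pos (add_pos (ha _) (hb _))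
  have hint : ∀ z : ℕ × ℕ, Integrable (fun s => s ^ (α + 2 * z.1 - 1) * (x - s) ^ (β + 2 * z.2 - 1))
      (volume.restrict (Set.Ioo 0 x)) := by
    intro z
    have h1 := beta_integrable (ha z.1) (hb z.2) hx
    rw [intervalIntegrable_iff_integrableOn_Ioo_of_le hx.le] at h1
    exact h1
  have hval : ∀ z : ℕ × ℕ, ∫ s in Set.Ioo 0 x, s ^ (α + 2 * z.1 - 1) * (x - s) ^ (β + 2 * z.2 - 1) =
      x ^ ((α + 2 * z.1) + (β + 2 * z.2) - 1) *
        (Real.Gamma (α + 2 * z.1) * Real.Gamma (β + 2 * z.2) /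
          Real.Gamma ((α + 2 * z.1) + (β + 2 * z.2))) := by
    intro z
    have h1 := beta_int (ha z.1) (hb z.2) hx
    rw [intervalIntegral.integral_of_le hx.le, integral_Ioc_eq_integral_Ioo] at h1
    exact h1
  have hFint : ∀ z, Integrable (F z) (volume.restrict (Set.Ioo 0 x)) := fun z =>
    (hint z).const_mul _
  have hnorm : ∀ z : ℕ × ℕ, ∫ s in Set.Ioo 0 x, ‖F z s‖ = |d z.1| * |d' z.2| *
      (x ^ ((α + 2 * z.1) + (β + 2 * z.2) - 1) / Real.Gamma ((α + 2 * z.1) + (β + 2 * z.2))) := by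
    intro z
    have h1 : ∫ s in Set.Ioo 0 x, ‖F z s‖ = ∫ s in Set.Ioo 0 x,
        |K z| * (s ^ (α + 2 * z.1 - 1) * (x - s) ^ (β + 2 * z.2 - 1)) := by
      apply setIntegral_congr_fun measurableSet_Ioo
      intro s hs
      have h2 : 0 ≤ s ^ (α + 2 * z.1 - 1) * (x - s) ^ (β + 2 * z.2 - 1) :=
        mul_nonneg (Real.rpow_nonneg hs.1.le _) (Real.rpow_nonneg (by linarith [hs.2]) _)
      simp only [hF]
      rw [norm_mul, Real.norm_eq_abs, Real.norm_eq_abs, abs_of_nonneg h2]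
    rw [h1, integral_const_mul, hval]
    have h3 : |K z| = |d z.1| * |d' z.2| / (Real.Gamma (α + 2 * z.1) * Real.Gamma (β + 2 * z.2)) := by
      rw [hK]
      simp only []
      rw [abs_div, abs_mul, abs_of_pos (mul_pos (hGa z.1) (hGb z.2))]
    rw [h3]
    have h4 := (hGa z.1).ne'
    have h5 := (hGb z.2).ne'
    field_simp
  have hsum : Summable (fun z : ℕ × ℕ => ∫ s in Set.Ioo 0 x, ‖F z s‖) := by
    obtain ⟨M, S, hM, hS, hdb⟩ := hd
    obtain ⟨M', S', hM', hS', hdb'⟩ := hd'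
    obtain ⟨c, hc, hG⟩ := gam_lower (show 0 < α + β by positivity)
    have h1 : Summable (fun z : ℕ × ℕ => ((S * x ^ 2) ^ z.1 / (Nat.factorial z.1 : ℝ)) *
        ((S' * x ^ 2) ^ z.2 / (Nat.factorial z.2 : ℝ))) := by
      apply Summable.mul_of_nonneg (Real.summable_pow_div_factorial _)
        (Real.summable_pow_div_factorial _)
      · intro i; positivity
      · intro i; positivity
    apply Summable.of_nonneg_of_le _ _ (h1.mul_left (M * M' * x ^ (α + β - 1) / c))
    · intro z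
      exact integral_nonneg fun s => norm_nonneg _
    · intro z
      rw [hnorm]
      have hx1 : x ^ ((α + 2 * z.1) + (β + 2 * z.2) - 1) =
          x ^ (α + β - 1) * (x ^ (2 * z.1) * x ^ (2 * z.2)) := by
        rw [← pow_add, ← Real.rpow_natCast x (2 * z.1 + 2 * z.2), ← Real.rpow_add hx]
        congr 1
        push_cast
        ring
      have hG1 : c * ((Nat.factorial z.1 : ℝ) * (Nat.factorial z.2 : ℝ)) ≤
          Real.Gamma ((α + 2 * z.1) + (β + 2 * z.2)) := by
        have h2 := hG (z.1 + z.2)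
        have h3 : ((Nat.factorial z.1 : ℝ) * (Nat.factorial z.2 : ℝ)) ≤
            (Nat.factorial (z.1 + z.2) : ℝ) := by
          exact_mod_cast Nat.le_of_dvd (Nat.factorial_pos _)
            (Nat.factorial_mul_factorial_dvd_factorial_add z.1 z.2)
        have h4 : α + β + 2 * ((z.1 + z.2 : ℕ) : ℝ) = (α + 2 * z.1) + (β + 2 * z.2) := by
          push_cast
          ring
        rw [h4] at h2
        exact (mul_le_mul_of_nonneg_left h3 hc.le).trans h2
      rw [hx1]
      have hp : (0 : ℝ) < c * ((Nat.factorial z.1 : ℝ) * (Nat.factorial z.2 : ℝ)) := by positivity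
      have hxp : 0 < x ^ (α + β - 1) := Real.rpow_pos_of_pos hx _
      calc |d z.1| * |d' z.2| * (x ^ (α + β - 1) * (x ^ (2 * z.1) * x ^ (2 * z.2)) /
            Real.Gamma ((α + 2 * z.1) + (β + 2 * z.2)))
          ≤ (M * S ^ z.1) * (M' * S' ^ z.2) * (x ^ (α + β - 1) * (x ^ (2 * z.1) * x ^ (2 * z.2)) /
            (c * ((Nat.factorial z.1 : ℝ) * (Nat.factorial z.2 : ℝ)))) := by
            apply mul_le_mul
            · exact mul_le_mul (hdb _) (hdb' _) (abs_nonneg _) (by positivity)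
            · exact div_le_div_of_nonneg_left (by positivity) hp hG1
            · exact div_nonneg (by positivity) (hGab z).le
            · positivity
        _ = _ := by
            rw [mul_pow, mul_pow, ← pow_mul, ← pow_mul]
            field_simp
  have hmain := hasSum_integral_of_summable_integral_norm hFint hsum
  have hlhs : ∫ s in (0 : ℝ)..x, hh α d s * hh β d' (x - s) =
      ∫ s in Set.Ioo 0 x, ∑' z, F z s := by
    rw [intervalIntegral.integral_of_le hx.le, integral_Ioc_eq_integral_Ioo]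
    apply setIntegral_congr_fun measurableSet_Ioo
    intro s hs
    have hxs : 0 < x - s := by linarith [hs.2]
    have h1 : GG α d s * GG β d' (x - s) = ∑' z : ℕ × ℕ,
        (d z.1 * (s ^ (2 * z.1) / Real.Gamma (α + 2 * z.1))) *
        (d' z.2 * ((x - s) ^ (2 * z.2) / Real.Gamma (β + 2 * z.2))) :=
      tsum_mul_tsum_of_summable_norm (GG_summ hα hd s).norm (GG_summ hβ hd' (x - s)).norm
    show s ^ (α - 1) * GG α d s * ((x - s) ^ (β - 1) * GG β d' (x - s)) = _
    rw [show s ^ (α - 1) * GG α d s * ((x - s) ^ (β - 1) * GG β d' (x - s)) =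
      (s ^ (α - 1) * (x - s) ^ (β - 1)) * (GG α d s * GG β d' (x - s)) by ring, h1,
      ← tsum_mul_left]
    apply tsum_congr
    intro z
    have h2 : s ^ (α + 2 * z.1 - 1) = s ^ (α - 1) * s ^ (2 * z.1) := by
      rw [← Real.rpow_natCast s (2 * z.1), ← Real.rpow_add hs.1]
      congr 1
      push_cast
      ring
    have h3 : (x - s) ^ (β + 2 * z.2 - 1) = (x - s) ^ (β - 1) * (x - s) ^ (2 * z.2) := by
      rw [← Real.rpow_natCast (x - s) (2 * z.2), ← Real.rpow_add hxs]
      congr 1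
      push_cast
      ring
    simp only [hF, hK]
    rw [h2, h3]
    ring
  rw [hlhs]
  have hterm : ∀ z : ℕ × ℕ, ∫ s in Set.Ioo 0 x, F z s = d z.1 * d' z.2 *
      (x ^ ((α + 2 * z.1) + (β + 2 * z.2) - 1) / Real.Gamma ((α + 2 * z.1) + (β + 2 * z.2))) := by
    intro z
    simp only [hF]
    rw [integral_const_mul, hval]
    simp only [hK]
    have h4 := (hGa z.1).ne'
    have h5 := (hGb z.2).ne'
    field_simp
  simp_rw [hterm] at hmain
  have h2 := hasSum_antidiag hmain
  rw [← h2.tsum_eq]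
  unfold hh GG
  rw [← tsum_mul_left]
  apply tsum_congr
  intro m
  unfold cp
  rw [Finset.sum_mul, Finset.mul_sum]
  apply Finset.sum_congr rfl
  intro z hz
  replace hz := HasAntidiagonal.mem_antidiagonal.1 hz
  have h3 : (α + 2 * z.1) + (β + 2 * z.2) = α + β + 2 * (m : ℝ) := by
    rw [← hz]
    push_cast
    ring
  rw [h3]
  have h4 : x ^ (α + β + 2 * (m : ℝ) - 1) = x ^ (α + β - 1) * x ^ (2 * m) := by
    rw [← Real.rpow_natCast x (2 * m), ← Real.rpow_add hx]
    congr 1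
    push_cast
    ring
  rw [h4]
  ring

end Pool.Agent.R906.KB
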