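import Mathlib
set_option autoImplicit false

/-!
# The generalised McKay Bessel distributions
-/

namespace Pool.Agent.R906.KB

open MeasureTheory

/-- the modified Bessel function of the first kind of order `μ` (at `x > 0`) -/
noncomputable def besselI (μ x : ℝ) : ℝ :=
  ∑' k : ℕ, (x / 2) ^ (2 * (k : ℝ) + μ) / ((k.factorial : ℝ) * Real.Gamma ((k : ℝ) + μ + 1))

/-- the density `x ^ (ν - 1) e ^ (- b x) I_μ (a x)` without the normalising constant -/
noncomputable def phi (μ ν a b x : ℝ) : ℝ :=
  x ^ (ν - 1) * Real.exp (-(b * x)) * besselI μ (a * x)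

/-- the normalising constant -/
noncomputable def nc (μ ν a b : ℝ) : ℝ := ∫ t in Set.Ioi (0 : ℝ), phi μ ν a b t

/-- the law on `(0, ∞)` with density `x ^ (ν - 1) e ^ (- b x) I_μ (a x) / c` -/
noncomputable def law (μ ν a b : ℝ) : Measure ℝ :=
  (volume.restrict (Set.Ioi 0)).withDensity
    (fun x => ENNReal.ofReal (phi μ ν a b x / nc μ ν a b))

/-- the `n`-fold convolution power of a measure -/
noncomputable def convPow (Q : Measure ℝ) : ℕ → Measure ℝ
  | 0 => Measure.dirac 0
  | (n + 1) => Measure.conv (convPow Q n) Q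

/-- infinitely divisible -/
def InfDiv (P : Measure ℝ) : Prop :=
  ∀ n : ℕ, 1 ≤ n → ∃ Q : Measure ℝ, IsProbabilityMeasure Q ∧ convPow Q n = P

end Pool.Agent.R906.KB
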