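import Mathlib
import Pool.Agent.R906.KBChain
set_option autoImplicit false

/-!
# Moments of Jacobi matrices
-/

namespace Pool.Agent.R906.KB

open Finset Matrix

/-- the entries of the Jacobi matrix -/
noncomputable def jm (a b : ℕ → ℝ) (k l : ℕ) : ℝ :=
  (if k = l then a k else 0) + (if k + 1 = l then √(b k) else 0) +
    (if l + 1 = k then √(b l) else 0)

theorem jm_symm (a b : ℕ → ℝ) (k l : ℕ) : jm a b k l = jm a b l k := by
  unfold jm
  by_cases h : k = l
  · subst h; simp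
  · rw [if_neg h, if_neg (Ne.symm h)]
    ring

/-- the truncated Jacobi matrix -/
noncomputable def JM (a b : ℕ → ℝ) (N : ℕ) : Matrix (Fin (N + 1)) (Fin (N + 1)) ℝ :=
  fun k l => jm a b k l

theorem JM_herm (a b : ℕ → ℝ) (N : ℕ) : (JM a b N).IsHermitian := by
  ext k l
  simp only [Matrix.conjTranspose_apply, JM, star_trivial]
  exact jm_symm a b l k

theorem sum_e2 (b : ℕ → ℝ) (y : ℕ → ℝ) (N k : ℕ) (hy : y (N + 1) = 0) (hk : k ≤ N) :
    ∑ l ∈ range (N + 1), (if k + 1 = l then √(b k) else 0) * y l = √(b k) * y (k + 1) := by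
  simp_rw [ite_mul, zero_mul]
  rw [Finset.sum_ite_eq]
  split_ifs with h
  · rfl
  · have : k = N := by
      rw [Finset.mem_range] at h
      omega
    rw [this, hy, mul_zero]

theorem sum_e3 (b : ℕ → ℝ) (y : ℕ → ℝ) (N k : ℕ) (hk : k + 1 ≤ N) :
    ∑ l ∈ range (N + 1), (if l + 1 = k + 1 then √(b l) else 0) * y l = √(b k) * y k := by
  rw [Finset.sum_eq_single k]
  · rw [if_pos rfl]
  · intro l _ hl
    rw [if_neg (by omega), zero_mul]
  · intro h
    exact absurd (Finset.mem_range.2 (by omega)) h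

/-- partial products of the square roots -/
noncomputable def PP (b : ℕ → ℝ) (k : ℕ) : ℝ := ∏ i ∈ range k, √(b i)

theorem PP_succ (b : ℕ → ℝ) (k : ℕ) : PP b (k + 1) = PP b k * √(b k) := Finset.prod_range_succ _ _

theorem jarr_supp {a b : ℕ → ℝ} {s : ℕ → ℕ → ℝ} (h : JArr a b s) (j : ℕ) :
    ∀ k, j < k → s j k = 0 := by
  induction j with
  | zero =>
    intro k hk
    obtain ⟨k, rfl⟩ : ∃ m, k = m + 1 := ⟨k - 1, by omega⟩
    exact h.zs k
  | succ j ih =>
    intro k hk
    obtain ⟨k, rfl⟩ : ∃ m, k = m + 1 := ⟨k - 1, by omega⟩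
    rw [h.ss, ih k (by omega), ih (k + 1) (by omega), ih (k + 2) (by omega)]
    simp

theorem jm_step {a b : ℕ → ℝ} {s : ℕ → ℕ → ℝ} (h : JArr a b s) (hb : ∀ k, 0 ≤ b k) {N j : ℕ}
    (hj : j ≤ N) (k : ℕ) (hk : k ≤ N) :
    ∑ l ∈ range (N + 1), jm a b k l * (PP b l * s j l) = PP b k * s (j + 1) k := by
  have hy : PP b (N + 1) * s j (N + 1) = 0 := by rw [jarr_supp h j (N + 1) (by omega), mul_zero]
  unfold jm
  simp_rw [add_mul]
  rw [Finset.sum_add_distrib, Finset.sum_add_distrib]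
  have e1 : ∑ l ∈ range (N + 1), (if k = l then a k else 0) * (PP b l * s j l) =
      a k * (PP b k * s j k) := by
    simp_rw [ite_mul, zero_mul]
    rw [Finset.sum_ite_eq, if_pos (Finset.mem_range.2 (by omega))]
  have e2 := sum_e2 b (fun l => PP b l * s j l) N k hy hk
  rw [e1, e2]
  cases k with
  | zero =>
    have e3 : ∑ l ∈ range (N + 1), (if l + 1 = 0 then √(b l) else 0) * (PP b l * s j l) = 0 := by
      apply Finset.sum_eq_zero
      intro l _
      rw [if_neg (by omega), zero_mul]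
    rw [e3, h.sz, PP_succ]
    have := Real.mul_self_sqrt (hb 0)
    linear_combination (PP b 0 * s j 1) * this
  | succ k =>
    have e3 := sum_e3 b (fun l => PP b l * s j l) N k hk
    rw [e3, h.ss, PP_succ b (k + 1), PP_succ b k]
    have := Real.mul_self_sqrt (hb (k + 1))
    linear_combination (PP b k * √(b k) * s j (k + 2)) * this

theorem JM_mulVec (a b : ℕ → ℝ) (N : ℕ) (y : ℕ → ℝ) (k : Fin (N + 1)) :
    (JM a b N *ᵥ (fun l => y l)) k = ∑ l ∈ range (N + 1), jm a b k l * y l := by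
  rw [Matrix.mulVec, dotProduct, Finset.sum_range (fun l => jm a b k l * y l)]
  rfl

theorem JM_pow {a b : ℕ → ℝ} {s : ℕ → ℕ → ℝ} (h : JArr a b s) (hb : ∀ k, 0 ≤ b k) (N : ℕ) (j : ℕ)
    (hj : j ≤ N) :
    (JM a b N ^ j) *ᵥ (Pi.single 0 1) = fun k : Fin (N + 1) => PP b k * s j k := by
  induction j with
  | zero =>
    rw [pow_zero, Matrix.one_mulVec]
    funext k
    by_cases hk : k = 0
    · subst hk
      simp [PP, h.zz]
    · have hk' : (k : ℕ) ≠ 0 := fun h' => hk (Fin.ext h')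
      obtain ⟨m, hm⟩ : ∃ m, (k : ℕ) = m + 1 := ⟨k - 1, by omega⟩
      rw [Pi.single_eq_of_ne hk, hm, h.zs, mul_zero]
  | succ j ih =>
    rw [pow_succ', ← Matrix.mulVec_mulVec, ih (by omega)]
    funext k
    rw [JM_mulVec a b N (fun k => PP b k * s j k) k,
      jm_step h hb (by omega : j ≤ N) k (by have := k.2; omega)]

theorem quad_form (a b : ℕ → ℝ) (N : ℕ) (x : ℕ → ℝ) :
    ∑ k ∈ range (N + 1), x k * ∑ l ∈ range (N + 1), jm a b k l * x l =
      ∑ k ∈ range (N + 1), a k * x k ^ 2 + 2 * ∑ k ∈ range N, √(b k) * x k * x (k + 1) := by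
  have key : ∑ k ∈ range (N + 1), ∑ l ∈ range (N + 1),
      x k * ((if k + 1 = l then √(b k) else 0) * x l) = ∑ k ∈ range N, √(b k) * x k * x (k + 1) := by
    rw [Finset.sum_range_succ]
    have hlast : ∑ l ∈ range (N + 1), x N * ((if N + 1 = l then √(b N) else 0) * x l) = 0 := by
      apply Finset.sum_eq_zero
      intro l hl
      rw [Finset.mem_range] at hl
      rw [if_neg (by omega)]
      ring
    rw [hlast, add_zero]
    apply Finset.sum_congr rfl
    intro k hk
    rw [Finset.mem_range] at hk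
    rw [Finset.sum_eq_single (k + 1)]
    · rw [if_pos rfl]; ring
    · intro l _ hl
      rw [if_neg (fun h => hl h.symm)]
      ring
    · intro h'
      exact absurd (Finset.mem_range.2 (by omega)) h'
  have e3 : ∑ k ∈ range (N + 1), ∑ l ∈ range (N + 1),
      x k * ((if l + 1 = k then √(b l) else 0) * x l) = ∑ k ∈ range N, √(b k) * x k * x (k + 1) := by
    rw [← key, Finset.sum_comm]
    apply Finset.sum_congr rfl
    intro k _
    apply Finset.sum_congr rfl
    intro l _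
    ring
  have e1 : ∑ k ∈ range (N + 1), ∑ l ∈ range (N + 1),
      x k * ((if k = l then a k else 0) * x l) = ∑ k ∈ range (N + 1), a k * x k ^ 2 := by
    apply Finset.sum_congr rfl
    intro k hk
    rw [Finset.sum_eq_single k]
    · rw [if_pos rfl]; ring
    · intro l _ hl
      rw [if_neg (fun h => hl h.symm)]
      ring
    · intro h'
      exact absurd hk h'
  have : ∀ k, x k * ∑ l ∈ range (N + 1), jm a b k l * x l =
      (∑ l ∈ range (N + 1), x k * ((if k = l then a k else 0) * x l)) +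
      (∑ l ∈ range (N + 1), x k * ((if k + 1 = l then √(b k) else 0) * x l)) +
      (∑ l ∈ range (N + 1), x k * ((if l + 1 = k then √(b l) else 0) * x l)) := by
    intro k
    rw [← Finset.sum_add_distrib, ← Finset.sum_add_distrib, Finset.mul_sum]
    apply Finset.sum_congr rfl
    intro l _
    unfold jm
    ring
  simp_rw [this]
  rw [Finset.sum_add_distrib, Finset.sum_add_distrib, e1, key, e3]
  ring

theorem form_low {a b : ℕ → ℝ} {R : ℝ} (ha : ∀ k, |a k| ≤ R) (hb : ∀ k, √(b k) ≤ R) (N : ℕ)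
    (x : ℕ → ℝ) : |∑ k ∈ range (N + 1), a k * x k ^ 2 + 2 * ∑ k ∈ range N, √(b k) * x k * x (k + 1)| ≤
      3 * R * ∑ k ∈ range (N + 1), x k ^ 2 := by
  have hR : 0 ≤ R := (abs_nonneg _).trans (ha 0)
  have h1 : |∑ k ∈ range (N + 1), a k * x k ^ 2| ≤ R * ∑ k ∈ range (N + 1), x k ^ 2 := by
    refine (Finset.abs_sum_le_sum_abs _ _).trans ?_
    rw [Finset.mul_sum]
    apply Finset.sum_le_sum
    intro k _
    rw [abs_mul, abs_of_nonneg (sq_nonneg (x k))]
    exact mul_le_mul_of_nonneg_right (ha k) (sq_nonneg _)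
  have h2 : |2 * ∑ k ∈ range N, √(b k) * x k * x (k + 1)| ≤
      R * (∑ k ∈ range N, x k ^ 2 + ∑ k ∈ range N, x (k + 1) ^ 2) := by
    rw [Finset.mul_sum, ← Finset.sum_add_distrib, Finset.mul_sum]
    refine (Finset.abs_sum_le_sum_abs _ _).trans ?_
    apply Finset.sum_le_sum
    intro k _
    have hs : 0 ≤ √(b k) := Real.sqrt_nonneg _
    have : 2 * (√(b k) * x k * x (k + 1)) = √(b k) * (2 * x k * x (k + 1)) := by ring
    rw [this, abs_mul, abs_of_nonneg hs]
    apply mul_le_mul (hb k) _ (abs_nonneg _) hR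
    rw [abs_le]
    constructor <;> nlinarith [sq_nonneg (x k - x (k + 1)), sq_nonneg (x k + x (k + 1))]
  have h3 : ∑ k ∈ range N, x k ^ 2 ≤ ∑ k ∈ range (N + 1), x k ^ 2 := by
    rw [Finset.sum_range_succ]
    linarith [sq_nonneg (x N)]
  have h4 : ∑ k ∈ range N, x (k + 1) ^ 2 ≤ ∑ k ∈ range (N + 1), x k ^ 2 := by
    rw [Finset.sum_range_succ']
    linarith [sq_nonneg (x 0)]
  have h5 := abs_add_le (∑ k ∈ range (N + 1), a k * x k ^ 2)
    (2 * ∑ k ∈ range N, √(b k) * x k * x (k + 1))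
  have h6 : R * (∑ k ∈ range N, x k ^ 2 + ∑ k ∈ range N, x (k + 1) ^ 2) ≤
      R * (∑ k ∈ range (N + 1), x k ^ 2 + ∑ k ∈ range (N + 1), x k ^ 2) :=
    mul_le_mul_of_nonneg_left (add_le_add h3 h4) hR
  linarith

/-- representation of the moments -/
theorem moment {a b : ℕ → ℝ} {s : ℕ → ℕ → ℝ} {R L : ℝ} (h : JArr a b s) (hb0 : ∀ k, 0 ≤ b k)
    (ha : ∀ k, |a k| ≤ R) (hb : ∀ k, √(b k) ≤ R)
    (hform : ∀ (N : ℕ) (x : ℕ → ℝ), ∑ k ∈ range (N + 1), a k * x k ^ 2 +
      2 * ∑ k ∈ range N, √(b k) * x k * x (k + 1) ≤ L * ∑ k ∈ range (N + 1), x k ^ 2) (N : ℕ) :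
    ∃ w l : Fin (N + 1) → ℝ, (∀ i, 0 ≤ w i) ∧ ∑ i, w i = 1 ∧ (∀ i, l i ≤ L) ∧
      (∀ i, |l i| ≤ 3 * R) ∧ ∀ j ≤ N, s j 0 = ∑ i, w i * l i ^ j := by
  set M := JM a b N with hM
  have hH : M.IsHermitian := JM_herm a b N
  set v : Fin (N + 1) → (Fin (N + 1) → ℝ) := fun i => ⇑(hH.eigenvectorBasis i) with hv
  set lam : Fin (N + 1) → ℝ := hH.eigenvalues with hlam
  have hMv : ∀ i, M *ᵥ (v i) = lam i • (v i) := fun i => hH.mulVec_eigenvectorBasis i
  have hMpow : ∀ (j : ℕ) i, (M ^ j) *ᵥ (v i) = (lam i) ^ j • (v i) := by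
    intro j i
    induction j with
    | zero => rw [pow_zero, pow_zero, Matrix.one_mulVec, one_smul]
    | succ j ih =>
      rw [pow_succ', ← Matrix.mulVec_mulVec, ih, Matrix.mulVec_smul, hMv, smul_smul, pow_succ]
  have he0 : (Pi.single 0 1 : Fin (N + 1) → ℝ) = ∑ i, (v i 0) • v i := by
    have h1 := hH.eigenvectorBasis.sum_repr' (EuclideanSpace.single (0 : Fin (N + 1)) (1 : ℝ))
    funext k
    have h2 := congrArg (fun z : EuclideanSpace ℝ (Fin (N + 1)) => z k) h1
    simp only [EuclideanSpace.inner_single_right] at h2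
    have h3 : (EuclideanSpace.single (0 : Fin (N + 1)) (1 : ℝ)) k =
      (Pi.single 0 1 : Fin (N + 1) → ℝ) k := by simp [Pi.single_apply]
    rw [← h3, ← h2]
    simp [hv]
  have hnorm : ∀ i, ∑ k, v i k ^ 2 = 1 := by
    intro i
    have h1 : ‖hH.eigenvectorBasis i‖ = 1 := hH.eigenvectorBasis.orthonormal.1 i
    have h2 := EuclideanSpace.norm_sq_eq (hH.eigenvectorBasis i)
    rw [h1] at h2
    simp only [Real.norm_eq_abs, sq_abs, one_pow] at h2
    exact h2.symm
  -- the quadratic form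
  have hquad : ∀ i, lam i = ∑ k ∈ range (N + 1), a k * (fun m => if h : m < N + 1 then v i ⟨m, h⟩ else 0) k ^ 2 +
      2 * ∑ k ∈ range N, √(b k) * (fun m => if h : m < N + 1 then v i ⟨m, h⟩ else 0) k *
        (fun m => if h : m < N + 1 then v i ⟨m, h⟩ else 0) (k + 1) := by
    intro i
    set x : ℕ → ℝ := fun m => if h : m < N + 1 then v i ⟨m, h⟩ else 0 with hx
    rw [← quad_form, Finset.sum_range (fun k => x k * ∑ l ∈ range (N + 1), jm a b k l * x l)]
    have hxv : (fun k : Fin (N + 1) => x k) = v i := by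
      funext k
      show (if h : (k : ℕ) < N + 1 then v i ⟨k, h⟩ else 0) = v i k
      rw [dif_pos k.2]
    have : ∀ k : Fin (N + 1), x k * ∑ l ∈ range (N + 1), jm a b k l * x l = lam i * (v i k) ^ 2 := by
      intro k
      rw [← JM_mulVec a b N x k, hxv, ← hM, hMv, ← congrFun hxv k]
      simp only [Pi.smul_apply, smul_eq_mul]
      rw [← congrFun hxv k]
      ring
    simp_rw [this]
    rw [← Finset.mul_sum, hnorm, mul_one]
  have hxn : ∀ i, ∑ k ∈ range (N + 1), (fun m => if h : m < N + 1 then v i ⟨m, h⟩ else 0) k ^ 2 = 1 := by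
    intro i
    rw [Finset.sum_range (fun k => (fun m => if h : m < N + 1 then v i ⟨m, h⟩ else 0) k ^ 2), ← hnorm i]
    apply Finset.sum_congr rfl
    intro k _
    show (if h : (k : ℕ) < N + 1 then v i ⟨k, h⟩ else 0) ^ 2 = v i k ^ 2
    rw [dif_pos k.2]
  have hmom : ∀ j ≤ N, s j 0 = ∑ i, (v i 0) ^ 2 * lam i ^ j := by
    intro j hj
    have h1 := JM_pow h hb0 N j hj
    have h2 := congrFun h1 0
    simp only [Fin.val_zero, PP, Finset.range_zero, Finset.prod_empty, one_mul] at h2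
    rw [← h2, he0, Matrix.mulVec_sum]
    rw [Finset.sum_apply]
    apply Finset.sum_congr rfl
    intro i _
    rw [Matrix.mulVec_smul, ← hM, hMpow]
    simp only [Pi.smul_apply, smul_eq_mul]
    ring
  refine ⟨fun i => (v i 0) ^ 2, lam, fun i => sq_nonneg _, ?_, ?_, ?_, hmom⟩
  · have := hmom 0 (Nat.zero_le _)
    rw [h.zz] at this
    simpa using this.symm
  · intro i
    have h1 := hform N (fun m => if h : m < N + 1 then v i ⟨m, h⟩ else 0)
    rw [hxn i, mul_one, ← hquad i] at h1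
    exact h1
  · intro i
    have h1 := form_low ha hb N (fun m => if h : m < N + 1 then v i ⟨m, h⟩ else 0)
    rw [hxn i, mul_one, ← hquad i] at h1
    exact h1

end Pool.Agent.R906.KB
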