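import Mathlib
import Pool.Agent.R906.KBMom
set_option autoImplicit false

/-!
# The key estimate
-/

namespace Pool.Agent.R906.KB

open Finset Filter Topology Nat

theorem moment_le {a b : ℕ → ℝ} {s : ℕ → ℕ → ℝ} {R L : ℝ} (h : JArr a b s) (hb0 : ∀ k, 0 ≤ b k)
    (ha : ∀ k, |a k| ≤ R) (hb : ∀ k, √(b k) ≤ R)
    (hform : ∀ (N : ℕ) (x : ℕ → ℝ), ∑ k ∈ range (N + 1), a k * x k ^ 2 +
      2 * ∑ k ∈ range N, √(b k) * x k * x (k + 1) ≤ L * ∑ k ∈ range (N + 1), x k ^ 2)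
    {c : ℕ → ℝ} (hc : Summable fun j => |c j| * (3 * R) ^ j) {M : ℝ}
    (hM : ∀ z, z ≤ L → |z| ≤ 3 * R → ∑' j, c j * z ^ j ≤ M) :
    ∑' j, c j * s j 0 ≤ M := by
  have hs : ∀ j, |s j 0| ≤ (3 * R) ^ j := by
    intro j
    obtain ⟨w, l, hw, hw1, -, hl, hm⟩ := moment h hb0 ha hb hform j
    rw [hm j le_rfl]
    refine (Finset.abs_sum_le_sum_abs _ _).trans ?_
    calc ∑ i, |w i * l i ^ j| ≤ ∑ i, w i * (3 * R) ^ j := by
          apply Finset.sum_le_sum
          intro i _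
          rw [abs_mul, abs_of_nonneg (hw i), abs_pow]
          exact mul_le_mul_of_nonneg_left (pow_le_pow_left₀ (abs_nonneg _) (hl i) j) (hw i)
      _ = (3 * R) ^ j := by rw [← Finset.sum_mul, hw1, one_mul]
  have hsum : Summable fun j => c j * s j 0 := by
    apply Summable.of_norm_bounded hc
    intro j
    rw [Real.norm_eq_abs, abs_mul]
    exact mul_le_mul_of_nonneg_left (hs j) (abs_nonneg _)
  have hz : ∀ z : ℝ, |z| ≤ 3 * R → Summable fun j => c j * z ^ j := by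
    intro z hz
    apply Summable.of_norm_bounded hc
    intro j
    rw [Real.norm_eq_abs, abs_mul, abs_pow]
    exact mul_le_mul_of_nonneg_left (pow_le_pow_left₀ (abs_nonneg _) hz j) (abs_nonneg _)
  set tail : ℕ → ℝ := fun N => ∑' j, |c (j + N)| * (3 * R) ^ (j + N) with htail
  have htail0 : Tendsto tail atTop (𝓝 0) :=
    tendsto_sum_nat_add (fun j => |c j| * (3 * R) ^ j)
  have hpart : ∀ N : ℕ, ∑ j ∈ range (N + 1), c j * s j 0 ≤ M + tail (N + 1) := by
    intro N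
    obtain ⟨w, l, hw, hw1, hlL, hl, hm⟩ := moment h hb0 ha hb hform N
    have e1 : ∑ j ∈ range (N + 1), c j * s j 0 = ∑ i, w i * ∑ j ∈ range (N + 1), c j * l i ^ j := by
      have : ∀ j ∈ range (N + 1), c j * s j 0 = ∑ i, w i * (c j * l i ^ j) := by
        intro j hj
        rw [hm j (by rw [Finset.mem_range] at hj; omega), Finset.mul_sum]
        apply Finset.sum_congr rfl
        intro i _
        ring
      rw [Finset.sum_congr rfl this, Finset.sum_comm]
      apply Finset.sum_congr rfl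
      intro i _
      rw [Finset.mul_sum]
    have e2 : ∀ i, ∑ j ∈ range (N + 1), c j * l i ^ j ≤ M + tail (N + 1) := by
      intro i
      have h1 := (hz (l i) (hl i)).sum_add_tsum_nat_add (N + 1)
      have h2 := hM (l i) (hlL i) (hl i)
      have h3 : |∑' j, c (j + (N + 1)) * l i ^ (j + (N + 1))| ≤ tail (N + 1) := by
        rw [← Real.norm_eq_abs]
        apply tsum_of_norm_bounded (((summable_nat_add_iff (N + 1)).2 hc).hasSum)
        intro j
        rw [Real.norm_eq_abs, abs_mul, abs_pow]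
        exact mul_le_mul_of_nonneg_left (pow_le_pow_left₀ (abs_nonneg _) (hl i) _) (abs_nonneg _)
      have h4 := (abs_le.1 h3).1
      linarith
    rw [e1]
    calc ∑ i, w i * ∑ j ∈ range (N + 1), c j * l i ^ j ≤ ∑ i, w i * (M + tail (N + 1)) :=
          Finset.sum_le_sum fun i _ => mul_le_mul_of_nonneg_left (e2 i) (hw i)
      _ = M + tail (N + 1) := by rw [← Finset.sum_mul, hw1, one_mul]
  have hl1 : Tendsto (fun N => ∑ j ∈ range (N + 1), c j * s j 0) atTop (𝓝 (∑' j, c j * s j 0)) :=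
    (hsum.hasSum.tendsto_sum_nat).comp (tendsto_add_atTop_nat 1)
  have hl2 : Tendsto (fun N => M + tail (N + 1)) atTop (𝓝 M) := by
    have := (htail0.comp (tendsto_add_atTop_nat 1)).const_add M
    simpa using this
  exact le_of_tendsto_of_tendsto' hl1 hl2 hpart

/-! ### the kernels -/

theorem summ_fact (t S : ℝ) : Summable fun j : ℕ => |t ^ (2 * j) / ((2 * j)! : ℝ)| * S ^ j := by
  apply Summable.of_norm_bounded (Real.summable_pow_div_factorial (t ^ 2 * |S|))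
  intro j
  rw [Real.norm_eq_abs, abs_mul, abs_abs, abs_div, abs_pow, abs_pow, mul_pow]
  have h1 : |((2 * j)! : ℝ)| = ((2 * j)! : ℝ) := abs_of_nonneg (by positivity)
  rw [h1, pow_mul |t|, sq_abs]
  rw [div_mul_eq_mul_div]
  apply div_le_div_of_nonneg_left (by positivity) (by positivity)
  exact_mod_cast Nat.factorial_le (by omega)

theorem summ_fact' {f : ℕ → ℝ} {M S : ℝ} (hf : ∀ j, |f j| ≤ M * S ^ j) (t : ℝ) :
    Summable fun j : ℕ => f j * (t ^ (2 * j) / ((2 * j)! : ℝ)) := by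
  apply Summable.of_norm_bounded ((summ_fact t S).mul_left M)
  intro j
  rw [Real.norm_eq_abs, abs_mul, mul_comm]
  calc |t ^ (2 * j) / ((2 * j)! : ℝ)| * |f j| ≤ |t ^ (2 * j) / ((2 * j)! : ℝ)| * (M * S ^ j) :=
        mul_le_mul_of_nonneg_left (hf j) (abs_nonneg _)
    _ = _ := by ring

theorem kerA (t z : ℝ) (hz : z ≤ 1) :
    ∑' j : ℕ, t ^ (2 * j) / ((2 * j)! : ℝ) * z ^ j ≤ Real.cosh t := by
  have hsum : Summable fun j : ℕ => t ^ (2 * j) / ((2 * j)! : ℝ) * z ^ j := by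
    apply Summable.of_norm_bounded (summ_fact t |z|)
    intro j
    rw [Real.norm_eq_abs, abs_mul, abs_pow]
  by_cases h0 : 0 ≤ z
  · rw [← (Real.hasSum_cosh t).tsum_eq]
    apply Summable.tsum_le_tsum _ hsum (Real.hasSum_cosh t).summable
    intro j
    have h1 : 0 ≤ t ^ (2 * j) / ((2 * j)! : ℝ) := by
      rw [pow_mul]; positivity
    have h2 : z ^ j ≤ 1 := pow_le_one₀ h0 hz
    nlinarith
  · have hth : z = - (√(-z)) ^ 2 := by rw [Real.sq_sqrt (by linarith)]; ring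
    have h1 := Real.hasSum_cos (√(-z) * t)
    have h2 : ∑' j : ℕ, t ^ (2 * j) / ((2 * j)! : ℝ) * z ^ j = Real.cos (√(-z) * t) := by
      rw [← h1.tsum_eq]
      apply tsum_congr
      intro j
      conv_lhs => rw [hth]
      rw [mul_pow, neg_pow, ← pow_mul]
      ring
    rw [h2]
    exact (Real.cos_le_one _).trans (Real.one_le_cosh t)

theorem kerB_summ (t z : ℝ) :
    Summable fun j : ℕ => t ^ (2 * j + 2) / ((2 * j + 2)! : ℝ) * z ^ j := by
  apply Summable.of_norm_bounded ((summ_fact t |z|).mul_left (t ^ 2))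
  intro j
  rw [Real.norm_eq_abs, abs_mul, abs_pow, abs_div, abs_div, pow_add, abs_mul]
  have h1 : |((2 * j)! : ℝ)| = ((2 * j)! : ℝ) := abs_of_nonneg (by positivity)
  have h2 : |((2 * j + 2)! : ℝ)| = ((2 * j + 2)! : ℝ) := abs_of_nonneg (by positivity)
  have h3 : |t ^ 2| = t ^ 2 := abs_of_nonneg (by positivity)
  rw [h1, h2, h3]
  have h4 : |t ^ (2 * j)| * t ^ 2 / ((2 * j + 2)! : ℝ) ≤ |t ^ (2 * j)| * t ^ 2 / ((2 * j)! : ℝ) := by
    apply div_le_div_of_nonneg_left (by positivity) (by positivity)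
    exact_mod_cast Nat.factorial_le (by omega)
  calc |t ^ (2 * j)| * t ^ 2 / ((2 * j + 2)! : ℝ) * |z| ^ j ≤
      |t ^ (2 * j)| * t ^ 2 / ((2 * j)! : ℝ) * |z| ^ j := mul_le_mul_of_nonneg_right h4 (by positivity)
    _ = _ := by ring

theorem kerB (t z : ℝ) : 0 ≤ ∑' j : ℕ, t ^ (2 * j + 2) / ((2 * j + 2)! : ℝ) * z ^ j := by
  by_cases h0 : 0 ≤ z
  · apply tsum_nonneg
    intro j
    have h1 : 0 ≤ t ^ (2 * j + 2) / ((2 * j + 2)! : ℝ) := by
      rw [show 2 * j + 2 = 2 * (j + 1) by ring, pow_mul]; positivity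
    exact mul_nonneg h1 (pow_nonneg h0 j)
  · have hth : z = - (√(-z)) ^ 2 := by rw [Real.sq_sqrt (by linarith)]; ring
    have hsum : Summable fun j : ℕ => t ^ (2 * j) / ((2 * j)! : ℝ) * z ^ j := by
      apply Summable.of_norm_bounded (summ_fact t |z|)
      intro j
      rw [Real.norm_eq_abs, abs_mul, abs_pow]
    have h1 := Real.hasSum_cos (√(-z) * t)
    have h2 : ∑' j : ℕ, t ^ (2 * j) / ((2 * j)! : ℝ) * z ^ j = Real.cos (√(-z) * t) := by
      rw [← h1.tsum_eq]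
      apply tsum_congr
      intro j
      conv_lhs => rw [hth]
      rw [mul_pow, neg_pow, ← pow_mul]
      ring
    rw [hsum.tsum_eq_zero_add] at h2
    have h3 : ∑' j : ℕ, t ^ (2 * (j + 1)) / ((2 * (j + 1))! : ℝ) * z ^ (j + 1) =
        z * ∑' j : ℕ, t ^ (2 * j + 2) / ((2 * j + 2)! : ℝ) * z ^ j := by
      rw [← tsum_mul_left]
      apply tsum_congr
      intro j
      rw [show 2 * (j + 1) = 2 * j + 2 by ring]
      ring
    rw [h3] at h2
    simp only [mul_zero, pow_zero, Nat.factorial_zero, Nat.cast_one, div_one, mul_one] at h2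
    have h4 := Real.cos_le_one (√(-z) * t)
    have h5 : z * ∑' j : ℕ, t ^ (2 * j + 2) / ((2 * j + 2)! : ℝ) * z ^ j ≤ 0 := by linarith
    by_contra hneg
    push Not at hneg
    have : 0 < z * ∑' j : ℕ, t ^ (2 * j + 2) / ((2 * j + 2)! : ℝ) * z ^ j :=
      mul_pos_of_neg_of_neg (by linarith) hneg
    linarith

/-! ### the two cases -/

theorem sqrt_mul_le {x y R : ℝ} (hx : |x| ≤ R) (hy : |y| ≤ R) : √(x * y) ≤ R := by
  have hR : 0 ≤ R := (abs_nonneg _).trans hx
  rw [Real.sqrt_le_left hR]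
  calc x * y ≤ |x * y| := le_abs_self _
    _ = |x| * |y| := abs_mul _ _
    _ ≤ R * R := mul_le_mul hx hy (abs_nonneg _) hR
    _ = R ^ 2 := by ring

theorem caseA {e : ℕ → ℝ} {ff : ℕ → PowerSeries ℝ} (h : Chain e ff) {R : ℝ}
    (he : ∀ i, |e i| ≤ R) (hb : ∀ k, 0 ≤ e (2 * k) * e (2 * k + 1)) {δ : ℕ → ℝ}
    (hδ : ∀ k, 0 < δ k) (hδ0 : δ 0 = 1 - e 0)
    (hδs : ∀ k, δ (k + 1) = 1 - (e (2 * k + 1) + e (2 * k + 2)) - e (2 * k) * e (2 * k + 1) / δ k)
    (t : ℝ) :
    ∑' j, PowerSeries.coeff j (ff 0) * (t ^ (2 * j) / ((2 * j)! : ℝ)) ≤ Real.cosh t := by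
  have hR : 0 ≤ R := (abs_nonneg _).trans (he 0)
  have hJ := h.jA
  have key : ∀ (N : ℕ) (x : ℕ → ℝ), δ N * x N ^ 2 ≤ ∑ k ∈ range (N + 1), x k ^ 2 -
      (∑ k ∈ range (N + 1), aA e k * x k ^ 2 +
        2 * ∑ k ∈ range N, √(e (2 * k) * e (2 * k + 1)) * x k * x (k + 1)) := by
    intro N x
    induction N with
    | zero =>
      simp [aA, hδ0]
      linarith
    | succ N ih =>
      rw [Finset.sum_range_succ (fun k => x k ^ 2) (N + 1),
        Finset.sum_range_succ (fun k => aA e k * x k ^ 2) (N + 1),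
        Finset.sum_range_succ (fun k => √(e (2 * k) * e (2 * k + 1)) * x k * x (k + 1)) N]
      have h1 := hδs N
      have h2 := hδ N
      set q := √(e (2 * N) * e (2 * N + 1)) with hq
      have h3 : q ^ 2 = e (2 * N) * e (2 * N + 1) := Real.sq_sqrt (hb N)
      have h4 : aA e (N + 1) = 1 - δ (N + 1) - q ^ 2 / δ N := by
        rw [h1, h3]
        simp only [aA]
        ring
      rw [h4]
      have h5 : 0 ≤ δ N * (x N - q / δ N * x (N + 1)) ^ 2 := by positivity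
      have h6 : δ N * (x N - q / δ N * x (N + 1)) ^ 2 =
          δ N * x N ^ 2 - 2 * (q * x N * x (N + 1)) + q ^ 2 / δ N * x (N + 1) ^ 2 := by
        field_simp
        ring
      nlinarith
  have hform : ∀ (N : ℕ) (x : ℕ → ℝ), ∑ k ∈ range (N + 1), aA e k * x k ^ 2 +
      2 * ∑ k ∈ range N, √(e (2 * k) * e (2 * k + 1)) * x k * x (k + 1) ≤
        1 * ∑ k ∈ range (N + 1), x k ^ 2 := by
    intro N x
    have h1 := key N x
    have h2 : 0 ≤ δ N * x N ^ 2 := mul_nonneg (hδ N).le (sq_nonneg _)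
    linarith
  have haA : ∀ k, |aA e k| ≤ 2 * R := by
    intro k
    cases k with
    | zero => simp only [aA]; linarith [he 0]
    | succ k =>
      simp only [aA]
      exact (abs_add_le _ _).trans (by linarith [he (2 * k + 1), he (2 * k + 2)])
  have hsq : ∀ k, √(e (2 * k) * e (2 * k + 1)) ≤ 2 * R := fun k =>
    (sqrt_mul_le (he _) (he _)).trans (by linarith)
  have := moment_le hJ hb haA hsq hform (c := fun j => t ^ (2 * j) / ((2 * j)! : ℝ))
    (summ_fact t _) (M := Real.cosh t) (fun z hz _ => kerA t z hz)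
  refine le_trans (le_of_eq ?_) this
  apply tsum_congr
  intro j
  simp only [pow_zero, one_mul, mul_zero]
  ring

theorem caseB {e : ℕ → ℝ} {ff : ℕ → PowerSeries ℝ} (h : Chain e ff) {R : ℝ}
    (he : ∀ i, |e i| ≤ R) (hb : ∀ k, 0 ≤ e (2 * k + 1) * e (2 * k + 2)) (he0 : e 0 ≤ 0)
    (t : ℝ) :
    ∑' j, PowerSeries.coeff j (ff 0) * (t ^ (2 * j) / ((2 * j)! : ℝ)) ≤ 1 := by
  have hR : 0 ≤ R := (abs_nonneg _).trans (he 0)
  have hJ := h.jB
  have ha : ∀ k, |e (2 * k) + e (2 * k + 1)| ≤ 2 * R := fun k =>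
    (abs_add_le _ _).trans (by linarith [he (2 * k), he (2 * k + 1)])
  have hsq : ∀ k, √(e (2 * k + 1) * e (2 * k + 2)) ≤ 2 * R := fun k =>
    (sqrt_mul_le (he _) (he _)).trans (by linarith)
  have hform : ∀ (N : ℕ) (x : ℕ → ℝ), ∑ k ∈ range (N + 1), (e (2 * k) + e (2 * k + 1)) * x k ^ 2 +
      2 * ∑ k ∈ range N, √(e (2 * k + 1) * e (2 * k + 2)) * x k * x (k + 1) ≤
        (3 * (2 * R)) * ∑ k ∈ range (N + 1), x k ^ 2 := fun N x =>
    (le_abs_self _).trans (form_low ha hsq N x)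
  have hsumc : Summable fun j : ℕ => |-(t ^ (2 * j + 2) / ((2 * j + 2)! : ℝ))| * (3 * (2 * R)) ^ j := by
    have := (kerB_summ t (3 * (2 * R))).norm
    refine this.congr fun j => ?_
    rw [norm_mul, Real.norm_eq_abs, Real.norm_eq_abs, abs_neg, abs_pow,
      abs_of_nonneg (by positivity : 0 ≤ 3 * (2 * R))]
  have hmom := moment_le hJ hb ha hsq hform
    (c := fun j => -(t ^ (2 * j + 2) / ((2 * j + 2)! : ℝ))) hsumc (M := 0) (fun z _ _ => by
      have := kerB t z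
      have h2 : ∑' j : ℕ, -(t ^ (2 * j + 2) / ((2 * j + 2)! : ℝ)) * z ^ j =
          - ∑' j : ℕ, t ^ (2 * j + 2) / ((2 * j + 2)! : ℝ) * z ^ j := by
        rw [← tsum_neg]
        exact tsum_congr fun j => by ring
      rw [h2]
      linarith)
  have hpos : ∃ R', 0 < R' ∧ ∀ i, |e i| ≤ R' := ⟨R + 1, by linarith, fun i => (he i).trans (by linarith)⟩
  obtain ⟨R', hR', he'⟩ := hpos
  have hsum : Summable fun j : ℕ => PowerSeries.coeff j (ff 0) * (t ^ (2 * j) / ((2 * j)! : ℝ)) :=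
    summ_fact' (M := 2 ^ (0 + 1)) (S := 4 * R') (fun j => h.bound hR' he' j 0) t
  rw [hsum.tsum_eq_zero_add, h.coeff_zero_zero]
  have h1 : ∑' j : ℕ, PowerSeries.coeff (j + 1) (ff 0) * (t ^ (2 * (j + 1)) / ((2 * (j + 1))! : ℝ)) =
      -e 0 * ∑' j : ℕ, -(t ^ (2 * j + 2) / ((2 * j + 2)! : ℝ)) * PowerSeries.coeff j (ff 1) := by
    rw [← tsum_mul_left]
    apply tsum_congr
    intro j
    rw [h.coeff_s0, show 2 * (j + 1) = 2 * j + 2 by ring]
    ring
  rw [h1]
  have h2 : ∑' j : ℕ, -(t ^ (2 * j + 2) / ((2 * j + 2)! : ℝ)) * PowerSeries.coeff j (ff 1) ≤ 0 := by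
    refine le_trans (le_of_eq ?_) hmom
    apply tsum_congr
    intro j
    simp only [pow_zero, one_mul, mul_zero, zero_add]
  have h3 : -e 0 * ∑' j : ℕ, -(t ^ (2 * j + 2) / ((2 * j + 2)! : ℝ)) * PowerSeries.coeff j (ff 1) ≤ 0 :=
    mul_nonpos_of_nonneg_of_nonpos (by linarith) h2
  simp only [mul_zero, pow_zero, Nat.factorial_zero, Nat.cast_one, div_one, mul_one]
  linarith

end Pool.Agent.R906.KB
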