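import Mathlib
import Pool.Agent.R906.KBKey
set_option autoImplicit false

/-!
# The Levy density is at least `p`
-/

namespace Pool.Agent.R906.KB

open Finset Filter Topology Nat PowerSeries

/-- logarithmic derivative series -/
noncomputable def KK (p c : ℝ) : PowerSeries ℝ :=
  PowerSeries.C p * EE (p + 1) c * (EE p c)⁻¹

/-- its coefficients -/
noncomputable def kap (p c : ℝ) (j : ℕ) : ℝ := PowerSeries.coeff j (KK p c)

theorem EE_inv (p c : ℝ) : EE p c * (EE p c)⁻¹ = 1 :=
  PowerSeries.mul_inv_cancel _ (by rw [constCoeff_EE]; exact one_ne_zero)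

theorem KK_mul (p c : ℝ) : KK p c * EE p c = PowerSeries.C p * EE (p + 1) c := by
  unfold KK
  linear_combination (PowerSeries.C p * EE (p + 1) c) * EE_inv p c

theorem kap_rec (p c : ℝ) (j : ℕ) :
    ∑ x ∈ antidiagonal j, kap p c x.1 * co p c x.2 = (p + 2 * j) * co p c j := by
  have h1 := congrArg (PowerSeries.coeff j) (KK_mul p c)
  rw [PowerSeries.coeff_mul, PowerSeries.coeff_C_mul, coeff_EE, co_x] at h1
  rw [← h1]
  apply Finset.sum_congr rfl
  intro x _
  rw [coeff_EE]
  rfl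

theorem kap_zero (p c : ℝ) : kap p c 0 = p := by
  have := kap_rec p c 0
  simpa using this

theorem frac_bound (A B : ℝ) {c : ℝ} (hc : 0 < c) : ∃ R : ℝ, ∀ i : ℕ,
    |(A + i) * (B + i) / (4 * (c + i) * (c + i + 1))| ≤ R := by
  refine ⟨(|A| + 1) * (|B| + 1) / min c 1, fun i => ?_⟩
  have hm : 0 < min c 1 := lt_min hc one_pos
  have hi : (0 : ℝ) ≤ i := Nat.cast_nonneg i
  have hA : |A + i| ≤ (|A| + 1) * (i + 1) := by
    have := abs_add_le A (i : ℝ)
    rw [abs_of_nonneg hi] at this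
    nlinarith [abs_nonneg A]
  have hB : |B + i| ≤ (|B| + 1) * (i + 1) := by
    have := abs_add_le B (i : ℝ)
    rw [abs_of_nonneg hi] at this
    nlinarith [abs_nonneg B]
  have hci : min c 1 * (i + 1) ≤ c + i := by
    have h1 : min c 1 ≤ c := min_le_left _ _
    have h2 : min c 1 ≤ 1 := min_le_right _ _
    nlinarith
  rw [abs_div, abs_mul]
  have hden : |4 * (c + i) * (c + i + 1)| = 4 * (c + i) * (c + i + 1) := abs_of_pos (by positivity)
  rw [hden, div_le_div_iff₀ (by positivity) hm]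
  have h1 : |A + i| * |B + i| ≤ ((|A| + 1) * (i + 1)) * ((|B| + 1) * (i + 1)) :=
    mul_le_mul hA hB (abs_nonneg _) (by positivity)
  have h2 : ((i : ℝ) + 1) * (i + 1) * min c 1 ≤ 4 * (c + i) * (c + i + 1) := by
    have h3 : ((i : ℝ) + 1) ≤ c + i + 1 := by linarith
    calc ((i : ℝ) + 1) * (i + 1) * min c 1 = (min c 1 * (i + 1)) * (i + 1) := by ring
      _ ≤ (c + i) * (c + i + 1) := mul_le_mul hci h3 (by positivity) (by positivity)
      _ ≤ 4 * (c + i) * (c + i + 1) := by
        have : 0 ≤ (c + i) * (c + i + 1) := by positivity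
        nlinarith
  have h0 : 0 ≤ (|A| + 1) * (|B| + 1) := by positivity
  calc |A + i| * |B + i| * min c 1
      ≤ ((|A| + 1) * (i + 1)) * ((|B| + 1) * (i + 1)) * min c 1 :=
        mul_le_mul_of_nonneg_right h1 hm.le
    _ = (|A| + 1) * (|B| + 1) * (((i : ℝ) + 1) * (i + 1) * min c 1) := by ring
    _ ≤ (|A| + 1) * (|B| + 1) * (4 * (c + i) * (c + i + 1)) := mul_le_mul_of_nonneg_left h2 h0

theorem eA_bound (p : ℝ) {c : ℝ} (hc : 0 < c) : ∃ R : ℝ, 0 < R ∧ ∀ i, |eA p c i| ≤ R := by
  obtain ⟨R, hR⟩ := frac_bound p (2 * c - p + 1) hc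
  refine ⟨|eA p c 0| + |R| + 1, by positivity, fun i => ?_⟩
  cases i with
  | zero => linarith [abs_nonneg R]
  | succ i =>
    have := hR i
    have h2 := le_abs_self R
    simp only [eA]
    linarith [abs_nonneg ((2 * c - p) / (2 * c))]

theorem eP_bound (p : ℝ) {c : ℝ} (hc : 0 < c) : ∃ R : ℝ, 0 < R ∧ ∀ i, |eP p c i| ≤ R := by
  obtain ⟨R, hR⟩ := frac_bound (p + 2) (2 * c - p - 1) hc
  refine ⟨|eP p c 0| + |R| + 1, by positivity, fun i => ?_⟩
  cases i with
  | zero => linarith [abs_nonneg R]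
  | succ i =>
    have := hR i
    have h2 := le_abs_self R
    simp only [eP]
    rw [show p + (i : ℝ) + 2 = p + 2 + i by ring]
    linarith [abs_nonneg ((p + 1) / (2 * c))]

theorem eA_sign {p c : ℝ} (hp : 0 < p) (hc : 0 < c) (i : ℕ) :
    ∃ q : ℝ, 0 < q ∧ eA p c i = q * (i + 1 - (p + 1 - 2 * c)) := by
  cases i with
  | zero =>
    refine ⟨1 / (2 * c), by positivity, ?_⟩
    simp only [eA]
    push_cast
    ring
  | succ i =>
    refine ⟨(p + i) / (4 * (c + i) * (c + i + 1)), by positivity, ?_⟩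
    simp only [eA]
    push_cast
    ring

/-- the pivots -/
noncomputable def dl (p c : ℝ) : ℕ → ℝ
  | 0 => p / (2 * c)
  | (k + 1) => (p + 2 * k + 1) * (p + 2 * k + 2) / (4 * (c + 2 * k + 1) * (c + 2 * k + 2))

theorem dl_pos {p c : ℝ} (hp : 0 < p) (hc : 0 < c) (k : ℕ) : 0 < dl p c k := by
  cases k with
  | zero => simp only [dl]; positivity
  | succ k => simp only [dl]; positivity

theorem dl_succ {p c : ℝ} (hp : 0 < p) (hc : 0 < c) (k : ℕ) :
    dl p c (k + 1) = 1 - (eA p c (2 * k + 1) + eA p c (2 * k + 2)) -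
      eA p c (2 * k) * eA p c (2 * k + 1) / dl p c k := by
  cases k with
  | zero =>
    simp only [dl, eA]
    push_cast
    simp only [mul_zero, add_zero]
    field_simp
    ring
  | succ k =>
    rw [show 2 * (k + 1) = (2 * k + 1) + 1 by ring, show 2 * k + 1 + 1 + 2 = (2 * k + 1 + 1 + 1) + 1 by ring]
    simp only [dl, eA]
    push_cast
    have h1 : c + 2 * (k : ℝ) + 1 ≠ 0 := by positivity
    have h2 : c + 2 * (k : ℝ) + 2 ≠ 0 := by positivity
    have h3 : c + 2 * (k : ℝ) + 3 ≠ 0 := by positivity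
    have h4 : c + 2 * (k : ℝ) + 4 ≠ 0 := by positivity
    have h5 : p + 2 * (k : ℝ) + 1 ≠ 0 := by positivity
    have h6 : p + 2 * (k : ℝ) + 2 ≠ 0 := by positivity
    rw [show c + 2 * ((k : ℝ) + 1) + 1 = c + 2 * k + 3 by ring,
      show c + 2 * ((k : ℝ) + 1) + 2 = c + 2 * k + 4 by ring,
      show c + (2 * (k : ℝ) + 1) + 1 = c + 2 * k + 2 by ring,
      show c + (2 * (k : ℝ) + 1) = c + 2 * k + 1 by ring,
      show c + (2 * (k : ℝ) + 3) + 1 = c + 2 * k + 4 by ring,
      show c + (2 * (k : ℝ) + 3) = c + 2 * k + 3 by ring,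
      show c + (2 * (k : ℝ) + 2) + 1 = c + 2 * k + 3 by ring,
      show c + (2 * (k : ℝ) + 2) = c + 2 * k + 2 by ring]
    field_simp
    ring

/-- the series `φ_0` of the first chain -/
noncomputable def phA (p c : ℝ) (i : ℕ) : PowerSeries ℝ := YA p c (i + 1) * (YA p c 0)⁻¹

noncomputable def phP (p c : ℝ) (i : ℕ) : PowerSeries ℝ := YP p c (i + 1) * (YP p c 0)⁻¹

theorem YA_const (p c : ℝ) : PowerSeries.constantCoeff (YA p c 0) = 1 := by
  simp [YA, constCoeff_EE]

theorem chainA {p c : ℝ} (hc : 0 < c) : Chain (eA p c) (phA p c) :=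
  chain_of (YA_const p c) (YA_chain hc)

theorem chainP {p c : ℝ} (hc : 0 < c) : Chain (eP p c) (phP p c) :=
  chain_of (by simp only [YP]; exact constCoeff_EE p c) (YP_chain hc)

theorem kap_P (p c : ℝ) (j : ℕ) : kap p c j = p * PowerSeries.coeff j (phP p c 0) := by
  unfold kap KK phP
  simp only [YP]
  rw [mul_assoc, PowerSeries.coeff_C_mul]
  simp

theorem KK_A (p : ℝ) {c : ℝ} (hc : 0 < c) : KK p c =
    PowerSeries.C (p + (p + 1 - 2 * c)) * PowerSeries.mk 1 -
      PowerSeries.C (p + 1 - 2 * c) * phA p c 0 := by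
  have hG : (PowerSeries.mk 1 : PowerSeries ℝ) * (1 - X) = 1 :=
    PowerSeries.mk_one_mul_one_sub_eq_one ℝ
  have hB := EE_inv p c
  have hZ : YA p c 0 * (YA p c 0)⁻¹ = 1 :=
    PowerSeries.mul_inv_cancel _ (by rw [YA_const]; exact one_ne_zero)
  have h2 := R2 p hc
  unfold KK phA
  set B := EE p c with hBdef
  set Bi := B⁻¹ with hBi
  set G : PowerSeries ℝ := PowerSeries.mk 1 with hGdef
  have hY0 : YA p c 0 = (1 - X) * B := rfl
  have hY1 : YA p c (0 + 1) = EE (p - 1) c := by
    simp [YA]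
  rw [hY1]
  rw [hY0] at hZ ⊢
  set Z := ((1 - X) * B)⁻¹ with hZdef
  have hZG : Z = G * Bi := by
    calc Z = Z * (G * (1 - X)) * (B * Bi) := by rw [hG, hB]; ring
      _ = G * Bi * ((1 - X) * B * Z) := by ring
      _ = G * Bi := by rw [hZ, mul_one]
  rw [hZG]
  calc PowerSeries.C p * EE (p + 1) c * Bi
      = (G * (1 - X)) * (PowerSeries.C p * EE (p + 1) c * Bi) := by rw [hG, one_mul]
    _ = G * Bi * ((1 - X) * (PowerSeries.C p * EE (p + 1) c)) := by ring
    _ = G * Bi * (PowerSeries.C (p + (p + 1 - 2 * c)) * B -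
        PowerSeries.C (p + 1 - 2 * c) * EE (p - 1) c) := by rw [h2]
    _ = PowerSeries.C (p + (p + 1 - 2 * c)) * G * (B * Bi) -
        PowerSeries.C (p + 1 - 2 * c) * (EE (p - 1) c * (G * Bi)) := by ring
    _ = _ := by rw [hB, mul_one]

theorem kap_A (p : ℝ) {c : ℝ} (hc : 0 < c) (j : ℕ) : kap p c j =
    (p + (p + 1 - 2 * c)) - (p + 1 - 2 * c) * PowerSeries.coeff j (phA p c 0) := by
  unfold kap
  rw [KK_A p hc, map_sub, PowerSeries.coeff_C_mul, PowerSeries.coeff_C_mul, PowerSeries.coeff_mk]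
  simp

theorem kap_bound (p : ℝ) {c : ℝ} (hc : 0 < c) :
    ∃ M S : ℝ, 0 < M ∧ 0 < S ∧ ∀ j, |kap p c j| ≤ M * S ^ j := by
  obtain ⟨R, hR, he⟩ := eP_bound p hc
  refine ⟨(|p| + 1) * 2, 4 * R, by positivity, by positivity, fun j => ?_⟩
  have h1 := (chainP (p := p) hc).bound hR he j 0
  rw [kap_P, abs_mul]
  calc |p| * |PowerSeries.coeff j (phP p c 0)| ≤ (|p| + 1) * (2 ^ (0 + 1) * (4 * R) ^ j) :=
        mul_le_mul (by linarith) h1 (abs_nonneg _) (by positivity)
    _ = (|p| + 1) * 2 * (4 * R) ^ j := by ring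

theorem kap_ge {p c : ℝ} (hp : 0 < p) (hc : 0 < c) (t : ℝ) :
    p ≤ ∑' j, kap p c j * (t ^ (2 * j) / ((2 * j)! : ℝ)) := by
  obtain ⟨M, S, hM, hS, hb⟩ := kap_bound p hc
  have hsum : Summable fun j => kap p c j * (t ^ (2 * j) / ((2 * j)! : ℝ)) := summ_fact' hb t
  by_cases hn : p + 1 - 2 * c ≤ 0
  · -- all coefficients are nonnegative
    have he : ∀ i, 0 ≤ eP p c i := by
      intro i
      cases i with
      | zero => simp only [eP]; positivity
      | succ i =>
        simp only [eP]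
        have hi : (0 : ℝ) ≤ i := Nat.cast_nonneg i
        apply div_nonneg _ (by positivity)
        exact mul_nonneg (by positivity) (by linarith)
    have hnn : ∀ j, 0 ≤ kap p c j := by
      intro j
      rw [kap_P]
      exact mul_nonneg hp.le ((chainP hc).nonneg he j 0)
    have h0 : kap p c 0 * (t ^ (2 * 0) / ((2 * 0)! : ℝ)) = p := by
      rw [kap_zero]; simp
    refine h0.symm.le.trans (hsum.le_tsum 0 ?_)
    intro j _
    apply mul_nonneg (hnn j)
    rw [pow_mul]
    positivity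
  · push Not at hn
    obtain ⟨R, hR, he⟩ := eA_bound p hc
    have hγ := (chainA (p := p) hc).bound hR he
    have hsγ : Summable fun j => PowerSeries.coeff j (phA p c 0) * (t ^ (2 * j) / ((2 * j)! : ℝ)) :=
      summ_fact' (M := 2 ^ (0 + 1)) (S := 4 * R) (fun j => hγ j 0) t
    have hg : ∑' j, PowerSeries.coeff j (phA p c 0) * (t ^ (2 * j) / ((2 * j)! : ℝ)) ≤
        Real.cosh t := by
      by_cases hcase : ∀ k : ℕ, 0 ≤ (2 * (k : ℝ) + 1 - (p + 1 - 2 * c)) *
          (2 * (k : ℝ) + 2 - (p + 1 - 2 * c))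
      · apply caseA (chainA hc) he _ (dl_pos hp hc) _ (dl_succ hp hc)
        · intro k
          obtain ⟨q, hq, h1⟩ := eA_sign hp hc (2 * k)
          obtain ⟨q', hq', h2⟩ := eA_sign hp hc (2 * k + 1)
          rw [h1, h2]
          have := hcase k
          push_cast
          have h3 : q * (2 * (k : ℝ) + 1 - (p + 1 - 2 * c)) *
              (q' * (2 * (k : ℝ) + 1 + 1 - (p + 1 - 2 * c))) = (q * q') *
              ((2 * (k : ℝ) + 1 - (p + 1 - 2 * c)) * (2 * (k : ℝ) + 2 - (p + 1 - 2 * c))) := by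
            ring
          rw [h3]
          exact mul_nonneg (by positivity) this
        · simp only [dl, eA]
          field_simp
          ring
      · push Not at hcase
        obtain ⟨k0, hk0⟩ := hcase
        set n := p + 1 - 2 * c with hndef
        have hk1 : 2 * (k0 : ℝ) + 1 < n := by
          by_contra hcon
          push Not at hcon
          have : 0 ≤ (2 * (k0 : ℝ) + 1 - n) * (2 * (k0 : ℝ) + 2 - n) :=
            mul_nonneg (by linarith) (by linarith)
          linarith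
        have hk2 : n < 2 * (k0 : ℝ) + 2 := by
          by_contra hcon
          push Not at hcon
          have : 0 ≤ (2 * (k0 : ℝ) + 1 - n) * (2 * (k0 : ℝ) + 2 - n) :=
            mul_nonneg_of_nonpos_of_nonpos (by linarith) (by linarith)
          linarith
        refine le_trans (caseB (chainA hc) he ?_ ?_ t) (Real.one_le_cosh t)
        · intro k
          obtain ⟨q, hq, h1⟩ := eA_sign hp hc (2 * k + 1)
          obtain ⟨q', hq', h2⟩ := eA_sign hp hc (2 * k + 2)
          rw [h1, h2, ← hndef]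
          push_cast
          have h3 : q * (2 * (k : ℝ) + 1 + 1 - n) * (q' * (2 * (k : ℝ) + 2 + 1 - n)) = (q * q') *
              ((2 * (k : ℝ) + 2 - n) * (2 * (k : ℝ) + 3 - n)) := by ring
          rw [h3]
          apply mul_nonneg (by positivity)
          rcases Nat.lt_or_ge k k0 with hlt | hge
          · have : (k : ℝ) + 1 ≤ k0 := by exact_mod_cast hlt
            exact mul_nonneg_of_nonpos_of_nonpos (by linarith) (by linarith)
          · have : (k0 : ℝ) ≤ k := by exact_mod_cast hge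
            exact mul_nonneg (by linarith) (by linarith)
        · obtain ⟨q, hq, h1⟩ := eA_sign hp hc 0
          rw [h1, ← hndef]
          have : (0 : ℝ) ≤ k0 := Nat.cast_nonneg _
          push_cast
          exact mul_nonpos_of_nonneg_of_nonpos hq.le (by linarith)
    have hcosh := Real.hasSum_cosh t
    have heq : ∑' j, kap p c j * (t ^ (2 * j) / ((2 * j)! : ℝ)) =
        (p + (p + 1 - 2 * c)) * Real.cosh t - (p + 1 - 2 * c) *
          ∑' j, PowerSeries.coeff j (phA p c 0) * (t ^ (2 * j) / ((2 * j)! : ℝ)) := by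
      have h1 := (hcosh.mul_left (p + (p + 1 - 2 * c))).sub (hsγ.hasSum.mul_left (p + 1 - 2 * c))
      rw [← h1.tsum_eq]
      apply tsum_congr
      intro j
      rw [kap_A p hc]
      ring
    rw [heq]
    have h1 := mul_le_mul_of_nonneg_left hg hn.le
    have h2 := Real.one_le_cosh t
    nlinarith

end Pool.Agent.R906.KB
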