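import Mathlib
import Pool.Agent.R906.KBConv
set_option autoImplicit false

/-!
# Fractional powers and positivity
-/

namespace Pool.Agent.R906.KB

open Finset Filter Topology MeasureTheory

/-- the recursion characterising the `q`-th power -/
def Rec (κ : ℕ → ℝ) (q : ℝ) (f : ℕ → ℝ) : Prop :=
  f 0 = 1 ∧ ∀ j, q * cp κ f j = (κ 0 * q + 2 * j) * f j

theorem cp_eq (κ f : ℕ → ℝ) (j : ℕ) :
    cp κ f (j + 1) = κ 0 * f (j + 1) + ∑ i ∈ range (j + 1), κ (j + 1 - i) * f i := by
  unfold cp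
  rw [← Finset.Nat.sum_antidiagonal_swap,
    Finset.Nat.sum_antidiagonal_eq_sum_range_succ_mk, Finset.sum_range_succ]
  simp only [Prod.fst_swap, Prod.snd_swap]
  rw [Nat.sub_self]
  ring

theorem rec_iff {κ : ℕ → ℝ} {q : ℝ} {f : ℕ → ℝ} (h : Rec κ q f) (j : ℕ) :
    2 * ((j : ℝ) + 1) * f (j + 1) = q * ∑ i ∈ range (j + 1), κ (j + 1 - i) * f i := by
  have := h.2 (j + 1)
  rw [cp_eq] at this
  push_cast at this
  linarith

theorem rec_unique {κ : ℕ → ℝ} {q : ℝ} {f g : ℕ → ℝ} (hf : Rec κ q f) (hg : Rec κ q g) :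
    f = g := by
  funext j
  induction j using Nat.strong_induction_on with
  | _ j ih =>
    cases j with
    | zero => rw [hf.1, hg.1]
    | succ j =>
      have h1 := rec_iff hf j
      have h2 := rec_iff hg j
      have h3 : ∑ i ∈ range (j + 1), κ (j + 1 - i) * f i =
          ∑ i ∈ range (j + 1), κ (j + 1 - i) * g i := by
        apply Finset.sum_congr rfl
        intro i hi
        rw [ih i (by rw [Finset.mem_range] at hi; omega)]
      rw [h3, ← h2] at h1
      have h4 : (2 * ((j : ℝ) + 1)) ≠ 0 := by positivity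
      exact mul_left_cancel₀ h4 h1

/-- the coefficients of the `q`-th power -/
noncomputable def dq (κ : ℕ → ℝ) (q : ℝ) : ℕ → ℝ
  | 0 => 1
  | (j + 1) => q / (2 * ((j : ℝ) + 1)) * ∑ i : Fin (j + 1), κ (j + 1 - i) * dq κ q i
decreasing_by exact i.2

theorem dq_rec (κ : ℕ → ℝ) (q : ℝ) : Rec κ q (dq κ q) := by
  refine ⟨by rw [dq], fun j => ?_⟩
  cases j with
  | zero =>
    simp [cp]
    ring
  | succ j =>
    rw [cp_eq]
    have h1 : dq κ q (j + 1) = q / (2 * ((j : ℝ) + 1)) *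
        ∑ i ∈ range (j + 1), κ (j + 1 - i) * dq κ q i := by
      rw [Finset.sum_range (fun i => κ (j + 1 - i) * dq κ q i), dq]
    have h2 : q * ∑ i ∈ range (j + 1), κ (j + 1 - i) * dq κ q i =
        2 * ((j : ℝ) + 1) * dq κ q (j + 1) := by
      rw [h1]
      field_simp
    push_cast
    linear_combination h2

theorem cp_series (f g : ℕ → ℝ) (j : ℕ) :
    PowerSeries.coeff j (PowerSeries.mk f * PowerSeries.mk g) = cp f g j := by
  rw [PowerSeries.coeff_mul]
  simp [cp]

theorem rec_mul {κ : ℕ → ℝ} {q q' : ℝ} {f g : ℕ → ℝ} (hf : Rec κ q f) (hg : Rec κ q' g) :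
    Rec κ (q + q') (cp f g) := by
  refine ⟨by simp [cp, hf.1, hg.1], fun j => ?_⟩
  have e1 : PowerSeries.C q * (PowerSeries.mk κ * PowerSeries.mk f) =
      PowerSeries.mk (fun j => (κ 0 * q + 2 * j) * f j) := by
    ext j
    rw [PowerSeries.coeff_C_mul, cp_series, PowerSeries.coeff_mk, hf.2]
  have e2 : PowerSeries.C q' * (PowerSeries.mk κ * PowerSeries.mk g) =
      PowerSeries.mk (fun j => (κ 0 * q' + 2 * j) * g j) := by
    ext j
    rw [PowerSeries.coeff_C_mul, cp_series, PowerSeries.coeff_mk, hg.2]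
  have e3 : PowerSeries.mk (cp f g) = PowerSeries.mk f * PowerSeries.mk g := by
    ext j
    rw [PowerSeries.coeff_mk, cp_series]
  have e4 : PowerSeries.C (q + q') * (PowerSeries.mk κ * PowerSeries.mk (cp f g)) =
      PowerSeries.mk (fun j => (κ 0 * q + 2 * j) * f j) * PowerSeries.mk g +
        PowerSeries.mk f * PowerSeries.mk (fun j => (κ 0 * q' + 2 * j) * g j) := by
    rw [e3, map_add, ← e1, ← e2]
    ring
  have e5 := congrArg (PowerSeries.coeff j) e4
  rw [PowerSeries.coeff_C_mul, cp_series, map_add, cp_series, cp_series] at e5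
  rw [e5]
  unfold cp
  rw [← Finset.sum_add_distrib, Finset.mul_sum]
  apply Finset.sum_congr rfl
  intro z hz
  replace hz := HasAntidiagonal.mem_antidiagonal.1 hz
  rw [← hz]
  push_cast
  ring

theorem dq_GB {κ : ℕ → ℝ} (hκ : GB κ) {q : ℝ} (hq : 0 ≤ q) : GB (dq κ q) := by
  obtain ⟨M, S, hM, hS, hb⟩ := hκ
  refine ⟨1, S + q * M * S, one_pos, by positivity, fun j => ?_⟩
  rw [one_mul]
  set T := S + q * M * S with hT
  have hST : S ≤ T := by
    have : 0 ≤ q * M * S := by positivity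
    linarith
  have hTpos : 0 < T := lt_of_lt_of_le hS hST
  induction j using Nat.strong_induction_on with
  | _ j ih =>
    cases j with
    | zero => rw [(dq_rec κ q).1]; simp
    | succ j =>
      have h1 := rec_iff (dq_rec κ q) j
      have h2 : |∑ i ∈ range (j + 1), κ (j + 1 - i) * dq κ q i| ≤ (j + 1) * (M * S * T ^ j) := by
        refine (Finset.abs_sum_le_sum_abs _ _).trans ?_
        have h3 : ∀ i ∈ range (j + 1), |κ (j + 1 - i) * dq κ q i| ≤ M * S * T ^ j := by
          intro i hi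
          rw [Finset.mem_range] at hi
          rw [abs_mul]
          calc |κ (j + 1 - i)| * |dq κ q i| ≤ (M * S ^ (j + 1 - i)) * T ^ i :=
                mul_le_mul (hb _) (ih i hi) (abs_nonneg _) (by positivity)
            _ = M * S * (S ^ (j - i) * T ^ i) := by
                rw [show j + 1 - i = (j - i) + 1 by omega, pow_succ]
                ring
            _ ≤ M * S * (T ^ (j - i) * T ^ i) := by
                apply mul_le_mul_of_nonneg_left _ (by positivity)
                apply mul_le_mul_of_nonneg_right _ (by positivity)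
                exact pow_le_pow_left₀ hS.le hST _
            _ = M * S * T ^ j := by
                rw [← pow_add, show j - i + i = j by omega]
        refine (Finset.sum_le_sum h3).trans ?_
        rw [Finset.sum_const, Finset.card_range, nsmul_eq_mul]
        push_cast
        exact le_rfl
      have h4 : 2 * ((j : ℝ) + 1) * |dq κ q (j + 1)| ≤ q * ((j + 1) * (M * S * T ^ j)) := by
        have h5 : |2 * ((j : ℝ) + 1) * dq κ q (j + 1)| = 2 * ((j : ℝ) + 1) * |dq κ q (j + 1)| := by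
          rw [abs_mul, abs_of_pos (by positivity : 0 < 2 * ((j : ℝ) + 1))]
        rw [← h5, h1, abs_mul, abs_of_nonneg hq]
        exact mul_le_mul_of_nonneg_left h2 hq
      have h6 : 2 * |dq κ q (j + 1)| ≤ q * (M * S * T ^ j) := by
        have h7 : (0 : ℝ) < (j : ℝ) + 1 := by positivity
        have h8 : ((j : ℝ) + 1) * (2 * |dq κ q (j + 1)|) ≤ ((j : ℝ) + 1) * (q * (M * S * T ^ j)) := by
          linarith
        exact le_of_mul_le_mul_left h8 h7
      have h9 : q * (M * S * T ^ j) ≤ T ^ (j + 1) := by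
        rw [pow_succ]
        have : 0 ≤ T ^ j := by positivity
        have h10 : q * M * S ≤ T := by linarith
        nlinarith
      have := abs_nonneg (dq κ q (j + 1))
      linarith

theorem cp_GB {f g : ℕ → ℝ} (hf : GB f) (hg : GB g) : GB (cp f g) := by
  obtain ⟨M, S, hM, hS, hb⟩ := hf
  obtain ⟨M', S', hM', hS', hb'⟩ := hg
  refine ⟨M * M', 2 * (S + S'), by positivity, by positivity, fun j => ?_⟩
  unfold cp
  refine (Finset.abs_sum_le_sum_abs _ _).trans ?_
  have h1 : ∀ z ∈ antidiagonal j, |f z.1 * g z.2| ≤ M * M' * (S + S') ^ j := by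
    intro z hz
    replace hz := HasAntidiagonal.mem_antidiagonal.1 hz
    rw [abs_mul]
    calc |f z.1| * |g z.2| ≤ (M * S ^ z.1) * (M' * S' ^ z.2) :=
          mul_le_mul (hb _) (hb' _) (abs_nonneg _) (by positivity)
      _ ≤ (M * (S + S') ^ z.1) * (M' * (S + S') ^ z.2) := by
          apply mul_le_mul
          · exact mul_le_mul_of_nonneg_left (pow_le_pow_left₀ hS.le (by linarith) _) hM.le
          · exact mul_le_mul_of_nonneg_left (pow_le_pow_left₀ hS'.le (by linarith) _) hM'.le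
          · positivity
          · positivity
      _ = M * M' * (S + S') ^ j := by rw [← hz, pow_add]; ring
  refine (Finset.sum_le_sum h1).trans ?_
  rw [Finset.sum_const, Finset.Nat.card_antidiagonal, nsmul_eq_mul, mul_pow]
  have h2 : ((j + 1 : ℕ) : ℝ) ≤ 2 ^ j := by
    exact_mod_cast Nat.lt_two_pow_self (n := j)
  calc ((j + 1 : ℕ) : ℝ) * (M * M' * (S + S') ^ j) ≤ 2 ^ j * (M * M' * (S + S') ^ j) :=
        mul_le_mul_of_nonneg_right h2 (by positivity)
    _ = M * M' * (2 ^ j * (S + S') ^ j) := by ring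

/-- the Volterra equation -/
theorem volterra {κ : ℕ → ℝ} (hκ : GB κ) (hκ0 : 0 < κ 0) {q : ℝ} (hq : 0 < q) {x : ℝ} (hx : 0 < x) :
    q * ∫ s in (0 : ℝ)..x, hh 1 κ s * hh (κ 0 * q) (dq κ q) (x - s) =
      x ^ (κ 0 * q) * GG (κ 0 * q) (dq κ q) x := by
  have hpq : 0 < κ 0 * q := mul_pos hκ0 hq
  rw [conv_hh one_pos hpq hκ (dq_GB hκ hq.le) hx]
  unfold hh GG
  rw [show 1 + κ 0 * q - 1 = κ 0 * q by ring]
  have h1 : q * (x ^ (κ 0 * q) * ∑' j : ℕ, cp κ (dq κ q) j *
      (x ^ (2 * j) / Real.Gamma (1 + κ 0 * q + 2 * j))) = x ^ (κ 0 * q) * (q * ∑' j : ℕ,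
        cp κ (dq κ q) j * (x ^ (2 * j) / Real.Gamma (1 + κ 0 * q + 2 * j))) := by ring
  rw [h1, ← tsum_mul_left]
  congr 1
  apply tsum_congr
  intro j
  have h2 := (dq_rec κ q).2 j
  have h3 : (0 : ℝ) < κ 0 * q + 2 * j := by positivity
  rw [show 1 + κ 0 * q + 2 * (j : ℝ) = (κ 0 * q + 2 * j) + 1 by ring, Real.Gamma_add_one h3.ne']
  have h4 : 0 < Real.Gamma (κ 0 * q + 2 * j) := Real.Gamma_pos_of_pos h3
  rw [← mul_assoc, h2]
  field_simp

theorem GG_zero (α : ℝ) (d : ℕ → ℝ) : GG α d 0 = d 0 / Real.Gamma α := by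
  unfold GG
  rw [tsum_eq_single 0]
  · simp
    ring
  · intro j hj
    rw [zero_pow (by omega), zero_div, mul_zero]

theorem hh_one (κ : ℕ → ℝ) (x : ℝ) :
    hh 1 κ x = ∑' j, κ j * (x ^ (2 * j) / ((Nat.factorial (2 * j) : ℕ) : ℝ)) := by
  unfold hh GG
  rw [sub_self, Real.rpow_zero, one_mul]
  apply tsum_congr
  intro j
  congr 2
  rw [show (1 : ℝ) + 2 * (j : ℝ) = ((2 * j : ℕ) : ℝ) + 1 by push_cast; ring,
    Real.Gamma_nat_eq_factorial]

theorem GG_pos {κ : ℕ → ℝ} (hκ : GB κ) (hκ0 : 0 < κ 0) (hk : ∀ t, 0 < t → 0 < hh 1 κ t)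
    {q : ℝ} (hq : 0 < q) : ∀ x, 0 ≤ x → 0 < GG (κ 0 * q) (dq κ q) x := by
  have hpq : 0 < κ 0 * q := mul_pos hκ0 hq
  have hGB := dq_GB hκ hq.le
  have hcont := GG_cont hpq hGB
  intro x1 hx1
  by_contra hcon
  push Not at hcon
  set Z : Set ℝ := {x | x ∈ Set.Icc 0 x1 ∧ GG (κ 0 * q) (dq κ q) x ≤ 0} with hZ
  have hZc : IsCompact Z := by
    have : Z = Set.Icc 0 x1 ∩ {x | GG (κ 0 * q) (dq κ q) x ≤ 0} := rfl
    rw [this]
    exact isCompact_Icc.inter_right (isClosed_le hcont continuous_const)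
  obtain ⟨x0, ⟨⟨hx00, hx01⟩, hx0le⟩, hmin⟩ := hZc.exists_isLeast ⟨x1, ⟨hx1, le_rfl⟩, hcon⟩
  have h0 : 0 < GG (κ 0 * q) (dq κ q) 0 := by
    rw [GG_zero, (dq_rec κ q).1]
    exact div_pos one_pos (Real.Gamma_pos_of_pos hpq)
  have hx0pos : 0 < x0 := by
    rcases hx00.lt_or_eq with h | h
    · exact h
    · exfalso
      rw [← h] at hx0le
      linarith
  have hbefore : ∀ y, 0 ≤ y → y < x0 → 0 < GG (κ 0 * q) (dq κ q) y := by
    intro y hy hyx
    by_contra hc
    push Not at hc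
    have := hmin (show y ∈ Z from ⟨⟨hy, by linarith⟩, hc⟩)
    linarith
  have hint := conv_integrable one_pos hpq hκ hGB hx0pos
  have hpos : 0 < ∫ s in (0 : ℝ)..x0, hh 1 κ s * hh (κ 0 * q) (dq κ q) (x0 - s) := by
    apply intervalIntegral.intervalIntegral_pos_of_pos_on hint _ hx0pos
    intro s hs
    apply mul_pos (hk s hs.1)
    unfold hh
    exact mul_pos (Real.rpow_pos_of_pos (by linarith [hs.2]) _)
      (hbefore _ (by linarith [hs.2]) (by linarith [hs.1]))
  have hv := volterra hκ hκ0 hq hx0pos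
  have h1 : 0 < x0 ^ (κ 0 * q) * GG (κ 0 * q) (dq κ q) x0 := by
    rw [← hv]
    exact mul_pos hq hpos
  have h2 : 0 < x0 ^ (κ 0 * q) := Real.rpow_pos_of_pos hx0pos _
  have h3 := (mul_pos_iff_of_pos_left h2).1 h1
  linarith

end Pool.Agent.R906.KB
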