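import Mathlib
import Pool.Agent.R906.KBRec
import Pool.Agent.R906.KBDefs
set_option autoImplicit false

/-!
# Infinite divisibility from the positivity of the Levy density
-/

namespace Pool.Agent.R906.KB

open Finset Filter Topology MeasureTheory
open scoped ENNReal

/-- the (unnormalised) densities -/
noncomputable def ff (b α : ℝ) (d : ℕ → ℝ) : ℝ → ℝ≥0∞ :=
  (Set.Ioi (0 : ℝ)).indicator (fun x => ENNReal.ofReal (Real.exp (-(b * x)) * hh α d x))

theorem hh_meas {α : ℝ} (hα : 0 < α) {d : ℕ → ℝ} (hd : GB d) : Measurable (hh α d) := by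
  unfold hh
  exact (measurable_id.pow_const _).mul (GG_cont hα hd).measurable

theorem ff_meas (b : ℝ) {α : ℝ} (hα : 0 < α) {d : ℕ → ℝ} (hd : GB d) : Measurable (ff b α d) := by
  unfold ff
  apply Measurable.indicator _ measurableSet_Ioi
  apply ENNReal.measurable_ofReal.comp
  exact (by fun_prop : Measurable fun x : ℝ => Real.exp (-(b * x))).mul (hh_meas hα hd)

theorem ff_conv (b : ℝ) {α β : ℝ} (hα : 0 < α) (hβ : 0 < β) {d d' : ℕ → ℝ} (hd : GB d)
    (hd' : GB d') (hp : ∀ x, 0 < x → 0 < hh α d x) (hp' : ∀ x, 0 < x → 0 < hh β d' x) :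
    Measure.conv (volume.withDensity (ff b α d)) (volume.withDensity (ff b β d')) =
      volume.withDensity (ff b (α + β) (cp d d')) := by
  rw [conv_withDensity_eq_lconvolution (ff_meas b hα hd) (ff_meas b hβ hd')]
  congr 1
  funext x
  rw [lconvolution_def]
  by_cases hx : 0 < x
  · have h1 : (fun y => ff b α d y * ff b β d' (-y + x)) = (Set.Ioo 0 x).indicator
        (fun y => ENNReal.ofReal (Real.exp (-(b * x)) * (hh α d y * hh β d' (x - y)))) := by
      funext y
      unfold ff
      by_cases hy : y ∈ Set.Ioo 0 x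
      · rw [Set.indicator_of_mem hy, Set.indicator_of_mem (show y ∈ Set.Ioi 0 from hy.1),
          Set.indicator_of_mem (show -y + x ∈ Set.Ioi 0 from by
            show 0 < -y + x
            linarith [hy.2]),
          ← ENNReal.ofReal_mul (mul_nonneg (Real.exp_pos _).le (hp y hy.1).le)]
        congr 1
        rw [show -y + x = x - y by ring]
        have : Real.exp (-(b * x)) = Real.exp (-(b * y)) * Real.exp (-(b * (x - y))) := by
          rw [← Real.exp_add]
          congr 1
          ring
        rw [this]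
        ring
      · rw [Set.indicator_of_notMem hy]
        by_cases hy0 : 0 < y
        · have : ¬ (-y + x ∈ Set.Ioi (0 : ℝ)) := by
            intro hc
            apply hy
            have : 0 < -y + x := hc
            exact ⟨hy0, by linarith⟩
          rw [Set.indicator_of_notMem this, mul_zero]
        · rw [Set.indicator_of_notMem (show y ∉ Set.Ioi (0 : ℝ) from hy0), zero_mul]
    rw [h1, lintegral_indicator measurableSet_Ioo]
    have hint := conv_integrable hα hβ hd hd' hx
    rw [intervalIntegrable_iff_integrableOn_Ioo_of_le hx.le] at hint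
    have hint2 : Integrable (fun y => Real.exp (-(b * x)) * (hh α d y * hh β d' (x - y)))
        (volume.restrict (Set.Ioo 0 x)) := Integrable.const_mul hint _
    rw [← ofReal_integral_eq_lintegral_ofReal hint2]
    · unfold ff
      rw [Set.indicator_of_mem (show x ∈ Set.Ioi 0 from hx)]
      congr 1
      rw [integral_const_mul]
      congr 1
      rw [← conv_hh hα hβ hd hd' hx, intervalIntegral.integral_of_le hx.le,
        integral_Ioc_eq_integral_Ioo]
    · rw [Filter.EventuallyLE, ae_restrict_iff' measurableSet_Ioo]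
      refine Filter.Eventually.of_forall fun y hy => ?_
      exact mul_nonneg (Real.exp_pos _).le (mul_pos (hp y hy.1) (hp' _ (by linarith [hy.2]))).le
  · have h1 : (fun y => ff b α d y * ff b β d' (-y + x)) = fun _ => 0 := by
      funext y
      unfold ff
      by_cases hy0 : 0 < y
      · have : ¬ (-y + x ∈ Set.Ioi (0 : ℝ)) := by
          intro hc
          have : 0 < -y + x := hc
          linarith
        rw [Set.indicator_of_notMem this, mul_zero]
      · rw [Set.indicator_of_notMem (show y ∉ Set.Ioi (0 : ℝ) from hy0), zero_mul]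
    rw [h1, lintegral_zero]
    unfold ff
    rw [Set.indicator_of_notMem (show x ∉ Set.Ioi (0 : ℝ) from hx)]

theorem conv_univ (P Q : Measure ℝ) [SFinite Q] :
    Measure.conv P Q Set.univ = P Set.univ * Q Set.univ := by
  unfold Measure.conv
  rw [Measure.map_apply (by fun_prop) MeasurableSet.univ, Set.preimage_univ,
    ← Set.univ_prod_univ, Measure.prod_prod]

instance sf_convPow (Q : Measure ℝ) [SFinite Q] (n : ℕ) : SFinite (convPow Q n) := by
  induction n with
  | zero => unfold convPow; infer_instance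
  | succ n ih => unfold convPow; infer_instance

theorem convPow_univ (Q : Measure ℝ) [SFinite Q] (n : ℕ) :
    convPow Q n Set.univ = (Q Set.univ) ^ n := by
  induction n with
  | zero => simp [convPow]
  | succ n ih => rw [convPow, conv_univ, ih, pow_succ]

theorem convPow_smul (Q : Measure ℝ) [SFinite Q] (s : ℝ≥0∞) (n : ℕ) :
    convPow (s • Q) n = s ^ n • convPow Q n := by
  induction n with
  | zero => simp [convPow]
  | succ n ih =>
    rw [convPow, ih, convPow, Measure.conv_smul_right, Measure.conv_smul_left, smul_smul, pow_succ,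
      mul_comm]

section

variable {κ : ℕ → ℝ} (hκ : GB κ) (hκ0 : 0 < κ 0) (hk : ∀ t, 0 < t → 0 < hh 1 κ t) (b : ℝ)

/-- the convolution semigroup -/
noncomputable def MM (κ : ℕ → ℝ) (b q : ℝ) : Measure ℝ :=
  volume.withDensity (ff b (κ 0 * q) (dq κ q))

instance (κ : ℕ → ℝ) (b q : ℝ) : SFinite (MM κ b q) := by
  unfold MM; infer_instance

include hκ hκ0 hk

theorem hq_pos {q : ℝ} (hq : 0 < q) (x : ℝ) (hx : 0 < x) : 0 < hh (κ 0 * q) (dq κ q) x := by
  unfold hh
  exact mul_pos (Real.rpow_pos_of_pos hx _) (GG_pos hκ hκ0 hk hq x hx.le)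

theorem MM_conv {q q' : ℝ} (hq : 0 < q) (hq' : 0 < q') :
    Measure.conv (MM κ b q) (MM κ b q') = MM κ b (q + q') := by
  unfold MM
  rw [ff_conv b (mul_pos hκ0 hq) (mul_pos hκ0 hq') (dq_GB hκ hq.le) (dq_GB hκ hq'.le)
    (hq_pos hκ hκ0 hk hq) (hq_pos hκ hκ0 hk hq')]
  have h1 : cp (dq κ q) (dq κ q') = dq κ (q + q') :=
    rec_unique (rec_mul (dq_rec κ q) (dq_rec κ q')) (dq_rec κ (q + q'))
  rw [h1, mul_add]

theorem MM_convPow {q : ℝ} (hq : 0 < q) (n : ℕ) :
    convPow (MM κ b q) (n + 1) = MM κ b ((n + 1 : ℕ) * q) := by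
  induction n with
  | zero =>
    rw [convPow, convPow, Measure.dirac_zero_conv]
    simp
  | succ n ih =>
    rw [convPow, ih, MM_conv hκ hκ0 hk b (by positivity) hq]
    congr 1
    push_cast
    ring

theorem MM_ne_zero {q : ℝ} (hq : 0 < q) : MM κ b q Set.univ ≠ 0 := by
  unfold MM
  rw [withDensity_apply _ MeasurableSet.univ, Measure.restrict_univ]
  apply ne_of_gt
  rw [lintegral_pos_iff_support (ff_meas b (mul_pos hκ0 hq) (dq_GB hκ hq.le))]
  have h1 : Set.Ioi (0 : ℝ) ⊆ Function.support (ff b (κ 0 * q) (dq κ q)) := by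
    intro x hx
    rw [Function.mem_support]
    unfold ff
    rw [Set.indicator_of_mem hx]
    apply ne_of_gt
    rw [ENNReal.ofReal_pos]
    exact mul_pos (Real.exp_pos _) (hq_pos hκ hκ0 hk hq x hx)
  refine lt_of_lt_of_le ?_ (measure_mono h1)
  rw [Real.volume_Ioi]
  exact ENNReal.coe_lt_top

theorem infdiv_generic (hfin : MM κ b 1 Set.univ ≠ ∞) :
    IsProbabilityMeasure ((MM κ b 1 Set.univ)⁻¹ • MM κ b 1) ∧
      InfDiv ((MM κ b 1 Set.univ)⁻¹ • MM κ b 1) := by
  have h0 := MM_ne_zero hκ hκ0 hk b one_pos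
  refine ⟨⟨?_⟩, fun n hn => ?_⟩
  · rw [Measure.smul_apply, smul_eq_mul, ENNReal.inv_mul_cancel h0 hfin]
  · obtain ⟨m, rfl⟩ : ∃ m, n = m + 1 := ⟨n - 1, by omega⟩
    set q : ℝ := 1 / ((m + 1 : ℕ) : ℝ) with hq
    have hqpos : 0 < q := by positivity
    have h1 := MM_convPow hκ hκ0 hk b hqpos m
    have h2 : ((m + 1 : ℕ) : ℝ) * q = 1 := by
      rw [hq]
      field_simp
    rw [h2] at h1
    have h3 := convPow_univ (MM κ b q) (m + 1)
    rw [h1] at h3
    have hq0 := MM_ne_zero hκ hκ0 hk b hqpos
    have hqfin : MM κ b q Set.univ ≠ ∞ := by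
      intro hc
      rw [hc] at h3
      rw [h3] at hfin
      exact hfin (ENNReal.top_pow (by omega))
    refine ⟨(MM κ b q Set.univ)⁻¹ • MM κ b q, ⟨?_⟩, ?_⟩
    · rw [Measure.smul_apply, smul_eq_mul, ENNReal.inv_mul_cancel hq0 hqfin]
    · rw [convPow_smul, h1, h3, ENNReal.inv_pow]

end

end Pool.Agent.R906.KB
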