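import Mathlib
import Pool.Agent.R906.KBMeas
import Pool.Agent.R906.KBKap
set_option autoImplicit false

/-!
# All generalised McKay Bessel distributions are infinitely divisible
-/

namespace Pool.Agent.R906.KB

open Finset Filter Topology MeasureTheory
open scoped ENNReal

/-- the scaled coefficients -/
noncomputable def ka (p c a : ℝ) (j : ℕ) : ℝ := kap p c j * (a ^ 2) ^ j

noncomputable def fa (p c a : ℝ) (j : ℕ) : ℝ := co p c j * (a ^ 2) ^ j

theorem ka_GB (p : ℝ) {c : ℝ} (hc : 0 < c) {a : ℝ} (ha : 0 < a) : GB (ka p c a) := by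
  obtain ⟨M, S, hM, hS, hb⟩ := kap_bound p hc
  refine ⟨M, S * a ^ 2, hM, by positivity, fun j => ?_⟩
  unfold ka
  rw [abs_mul, abs_of_nonneg (by positivity : 0 ≤ (a ^ 2) ^ j), mul_pow, ← mul_assoc]
  exact mul_le_mul_of_nonneg_right (hb j) (by positivity)

theorem ka_zero (p c a : ℝ) : ka p c a 0 = p := by
  unfold ka
  rw [kap_zero]
  simp

theorem ka_pos {p c : ℝ} (hp : 0 < p) (hc : 0 < c) (a t : ℝ) : 0 < hh 1 (ka p c a) t := by
  rw [hh_one]
  have h1 := kap_ge hp hc (a * t)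
  refine lt_of_lt_of_le hp (h1.trans (le_of_eq ?_))
  apply tsum_congr
  intro j
  unfold ka
  rw [mul_pow, ← pow_mul]
  ring

theorem fa_rec (p c a : ℝ) : Rec (ka p c a) 1 (fa p c a) := by
  refine ⟨by simp [fa], fun j => ?_⟩
  rw [ka_zero]
  have h1 := kap_rec p c j
  have h2 : cp (ka p c a) (fa p c a) j = (a ^ 2) ^ j *
      ∑ x ∈ antidiagonal j, kap p c x.1 * co p c x.2 := by
    unfold cp ka fa
    rw [Finset.mul_sum]
    apply Finset.sum_congr rfl
    intro z hz
    replace hz := HasAntidiagonal.mem_antidiagonal.1 hz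
    rw [← hz, pow_add]
    ring
  rw [h2, h1]
  unfold fa
  ring

theorem dq_one (p c a : ℝ) : dq (ka p c a) 1 = fa p c a :=
  rec_unique (dq_rec _ _) (fa_rec p c a)

theorem co_gamma {p c : ℝ} (hp : 0 < p) (hc : 0 < c) (k : ℕ) :
    co p c k * Real.Gamma p * 4 ^ k * ((k.factorial : ℝ) * Real.Gamma (c + k)) =
      Real.Gamma (p + 2 * k) * Real.Gamma c := by
  induction k with
  | zero => simp [mul_comm]
  | succ k ih =>
    have h1 : (0 : ℝ) < p + 2 * k := by positivity
    have h2 : (0 : ℝ) < c + k := by positivity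
    rw [co_succ', Nat.factorial_succ]
    push_cast
    rw [show p + 2 * ((k : ℝ) + 1) = (p + 2 * k + 1) + 1 by ring,
      Real.Gamma_add_one (by positivity), Real.Gamma_add_one h1.ne',
      show c + ((k : ℝ) + 1) = (c + k) + 1 by ring, Real.Gamma_add_one h2.ne']
    rw [mul_assoc (p + 2 * (k : ℝ) + 1), mul_assoc (p + 2 * (k : ℝ)), ← ih]
    field_simp
    ring

/-- the constant -/
noncomputable def cst (μ ν a : ℝ) : ℝ :=
  (a / 2) ^ μ * (Real.Gamma (μ + ν) / Real.Gamma (μ + 1))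

theorem cst_pos {μ ν a : ℝ} (hμ : -1 < μ) (hμν : 0 < μ + ν) (ha : 0 < a) : 0 < cst μ ν a :=
  mul_pos (Real.rpow_pos_of_pos (by linarith) _)
    (div_pos (Real.Gamma_pos_of_pos hμν) (Real.Gamma_pos_of_pos (by linarith)))

theorem phi_eq {μ ν a b x : ℝ} (hμ : -1 < μ) (hμν : 0 < μ + ν) (ha : 0 < a) (hx : 0 < x) :
    phi μ ν a b x = cst μ ν a *
      (Real.exp (-(b * x)) * hh (μ + ν) (dq (ka (μ + ν) (μ + 1) a) 1) x) := by
  have hc : 0 < μ + 1 := by linarith
  rw [dq_one]
  unfold phi besselI hh GG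
  have h1 : x ^ (ν - 1) * Real.exp (-(b * x)) * ∑' k : ℕ, (a * x / 2) ^ (2 * (k : ℝ) + μ) /
      ((k.factorial : ℝ) * Real.Gamma ((k : ℝ) + μ + 1)) = ∑' k : ℕ,
        x ^ (ν - 1) * Real.exp (-(b * x)) * ((a * x / 2) ^ (2 * (k : ℝ) + μ) /
      ((k.factorial : ℝ) * Real.Gamma ((k : ℝ) + μ + 1))) := by rw [tsum_mul_left]
  rw [h1, ← tsum_mul_left, ← tsum_mul_left, ← tsum_mul_left]
  apply tsum_congr
  intro k
  have h2 := co_gamma hμν hc k
  have hG1 : 0 < Real.Gamma (μ + ν + 2 * k) := Real.Gamma_pos_of_pos (by positivity)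
  have hG2 : 0 < Real.Gamma (μ + 1 + k) := Real.Gamma_pos_of_pos (by positivity)
  have hG3 : 0 < Real.Gamma (μ + 1) := Real.Gamma_pos_of_pos hc
  have hG4 : 0 < Real.Gamma (μ + ν) := Real.Gamma_pos_of_pos hμν
  have e1 : (k : ℝ) + μ + 1 = μ + 1 + k := by ring
  have e2 : (a * x / 2) ^ (2 * (k : ℝ) + μ) =
      (a / 2) ^ μ * x ^ μ * ((a ^ 2) ^ k * x ^ (2 * k) / 4 ^ k) := by
    rw [show a * x / 2 = (a / 2) * x by ring, Real.mul_rpow (by positivity) hx.le,
      Real.rpow_add (by positivity), Real.rpow_add hx]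
    have e3 : (a / 2) ^ (2 * (k : ℝ)) = (a ^ 2) ^ k / 4 ^ k := by
      rw [show (2 * (k : ℝ)) = ((2 * k : ℕ) : ℝ) by push_cast; ring, Real.rpow_natCast, div_pow,
        pow_mul, pow_mul]
      norm_num
    have e4 : x ^ (2 * (k : ℝ)) = x ^ (2 * k) := by
      rw [show (2 * (k : ℝ)) = ((2 * k : ℕ) : ℝ) by push_cast; ring, Real.rpow_natCast]
    rw [e3, e4]
    ring
  have e5 : x ^ (μ + ν - 1) = x ^ (ν - 1) * x ^ μ := by
    rw [← Real.rpow_add hx]
    congr 1
    ring
  rw [e1, e2, e5]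
  unfold cst fa
  have e6 : ((k.factorial : ℝ) * Real.Gamma (μ + 1 + k)) ≠ 0 := by positivity
  have e7 : (4 : ℝ) ^ k ≠ 0 := by positivity
  have e8 : 1 / (4 ^ k * ((k.factorial : ℝ) * Real.Gamma (μ + 1 + k))) =
      Real.Gamma (μ + ν) / Real.Gamma (μ + 1) * (co (μ + ν) (μ + 1) k / Real.Gamma (μ + ν + 2 * k)) := by
    rw [div_mul_div_comm, div_eq_div_iff (by positivity) (by positivity)]
    linear_combination -h2
  calc x ^ (ν - 1) * Real.exp (-(b * x)) * ((a / 2) ^ μ * x ^ μ *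
        ((a ^ 2) ^ k * x ^ (2 * k) / 4 ^ k) / ((k.factorial : ℝ) * Real.Gamma (μ + 1 + k)))
      = x ^ (ν - 1) * Real.exp (-(b * x)) * ((a / 2) ^ μ * x ^ μ * ((a ^ 2) ^ k * x ^ (2 * k))) *
        (1 / (4 ^ k * ((k.factorial : ℝ) * Real.Gamma (μ + 1 + k)))) := by
        field_simp
    _ = _ := by
        rw [e8]
        ring

theorem gamma_lint {p b : ℝ} (hp : 0 < p) (hb : 0 < b) :
    ∫⁻ x in Set.Ioi (0 : ℝ), ENNReal.ofReal (x ^ (p - 1) * Real.exp (-(b * x))) =
      ENNReal.ofReal ((1 / b) ^ p * Real.Gamma p) := by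
  have h1 := Real.integral_rpow_mul_exp_neg_mul_Ioi hp hb
  have h2 : 0 < (1 / b) ^ p * Real.Gamma p :=
    mul_pos (Real.rpow_pos_of_pos (by positivity) _) (Real.Gamma_pos_of_pos hp)
  have h3 : Integrable (fun x : ℝ => x ^ (p - 1) * Real.exp (-(b * x)))
      (volume.restrict (Set.Ioi 0)) := by
    by_contra hcon
    rw [integral_undef hcon] at h1
    linarith
  rw [← h1, ofReal_integral_eq_lintegral_ofReal h3]
  rw [Filter.EventuallyLE, ae_restrict_iff' measurableSet_Ioi]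
  refine Filter.Eventually.of_forall fun y hy => ?_
  exact mul_nonneg (Real.rpow_nonneg (le_of_lt hy) _) (Real.exp_pos _).le

theorem co_pos {p c : ℝ} (hp : 0 < p) (hc : 0 < c) (j : ℕ) : 0 < co p c j := by
  induction j with
  | zero => simp
  | succ j ih =>
    rw [co_succ']
    positivity

theorem lim_one (A B : ℝ) : Tendsto (fun k : ℕ => (A + 2 * (k : ℝ)) / (2 * (B + k))) atTop (𝓝 1) := by
  have h1 : Tendsto (fun k : ℕ => (k : ℝ)) atTop atTop := tendsto_natCast_atTop_atTop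
  have h2 : Tendsto (fun k : ℕ => 2 * (B + (k : ℝ))) atTop atTop :=
    (tendsto_atTop_add_const_left _ B h1).const_mul_atTop (by norm_num)
  have h3 : Tendsto (fun k : ℕ => 1 + (A - 2 * B) / (2 * (B + (k : ℝ)))) atTop (𝓝 (1 + 0)) :=
    (h2.const_div_atTop _).const_add 1
  rw [add_zero] at h3
  refine h3.congr' ?_
  filter_upwards [h2.eventually_gt_atTop 0] with k hk
  have : B + (k : ℝ) ≠ 0 := by
    intro h
    rw [h] at hk
    linarith
  field_simp
  ring

theorem co_summ {p c r : ℝ} (hp : 0 < p) (hc : 0 < c) (hr : 0 < r) (hr1 : r < 1) :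
    Summable fun j : ℕ => co p c j * r ^ j := by
  apply summable_of_ratio_test_tendsto_lt_one hr1
  · exact Filter.Eventually.of_forall fun j => (mul_pos (co_pos hp hc j) (by positivity)).ne'
  · have h1 := ((lim_one p 1).mul (lim_one (p + 1) c)).mul_const r
    rw [one_mul, one_mul] at h1
    refine h1.congr fun j => ?_
    have hj := co_pos hp hc j
    have hj1 := co_pos hp hc (j + 1)
    rw [Real.norm_eq_abs, Real.norm_eq_abs, abs_of_pos (mul_pos hj1 (by positivity)),
      abs_of_pos (mul_pos hj (by positivity)), co_succ']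
    have h2 : (c + (j : ℝ)) ≠ 0 := by positivity
    have h3 : (1 + (j : ℝ)) ≠ 0 := by positivity
    have h4 : ((j : ℝ) + 1) ≠ 0 := by positivity
    rw [pow_succ]
    field_simp
    ring

theorem mass_finite {p c a b : ℝ} (hp : 0 < p) (hc : 0 < c) (ha : 0 < a) (hab : a < b) :
    MM (ka p c a) b 1 Set.univ ≠ ∞ := by
  have hb : 0 < b := ha.trans hab
  unfold MM
  rw [withDensity_apply _ MeasurableSet.univ, Measure.restrict_univ, dq_one, ka_zero, mul_one]
  unfold ff
  rw [lintegral_indicator measurableSet_Ioi]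
  have hfa : ∀ j, 0 < fa p c a j := fun j => mul_pos (co_pos hp hc j) (by positivity)
  have hGB : GB (fa p c a) := by
    rw [← dq_one]
    exact dq_GB (ka_GB p hc ha) zero_le_one
  have h1 : ∀ x ∈ Set.Ioi (0 : ℝ), ENNReal.ofReal (Real.exp (-(b * x)) * hh p (fa p c a) x) =
      ∑' j : ℕ, ENNReal.ofReal (fa p c a j / Real.Gamma (p + 2 * j)) *
        ENNReal.ofReal (x ^ ((p + 2 * j) - 1) * Real.exp (-(b * x))) := by
    intro x hx
    have hx' : 0 < x := hx
    unfold hh GG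
    have h2 : Real.exp (-(b * x)) * (x ^ (p - 1) * ∑' j : ℕ, fa p c a j *
        (x ^ (2 * j) / Real.Gamma (p + 2 * j))) = ∑' j : ℕ, (fa p c a j / Real.Gamma (p + 2 * j)) *
        (x ^ ((p + 2 * j) - 1) * Real.exp (-(b * x))) := by
      rw [← mul_assoc, ← tsum_mul_left]
      apply tsum_congr
      intro j
      have h3 : x ^ (p + 2 * (j : ℝ) - 1) = x ^ (p - 1) * x ^ (2 * j) := by
        rw [← Real.rpow_natCast x (2 * j), ← Real.rpow_add hx']
        congr 1
        push_cast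
        ring
      rw [h3]
      ring
    rw [h2, ENNReal.ofReal_tsum_of_nonneg]
    · apply tsum_congr
      intro j
      rw [ENNReal.ofReal_mul (div_nonneg (hfa j).le (Real.Gamma_pos_of_pos (by positivity)).le)]
    · intro j
      have : 0 < Real.Gamma (p + 2 * j) := Real.Gamma_pos_of_pos (by positivity)
      have := hfa j
      have : 0 < x ^ ((p + 2 * (j : ℝ)) - 1) := Real.rpow_pos_of_pos hx' _
      positivity
    · have h4 := (GG_summ hp hGB x).mul_left (Real.exp (-(b * x)) * x ^ (p - 1))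
      refine h4.congr fun j => ?_
      have h3 : x ^ (p + 2 * (j : ℝ) - 1) = x ^ (p - 1) * x ^ (2 * j) := by
        rw [← Real.rpow_natCast x (2 * j), ← Real.rpow_add hx']
        congr 1
        push_cast
        ring
      rw [h3]
      ring
  rw [setLIntegral_congr_fun measurableSet_Ioi h1, lintegral_tsum (fun j => by fun_prop)]
  have h5 : ∀ j : ℕ, ∫⁻ x in Set.Ioi (0 : ℝ), ENNReal.ofReal (fa p c a j / Real.Gamma (p + 2 * j)) *
        ENNReal.ofReal (x ^ ((p + 2 * j) - 1) * Real.exp (-(b * x))) =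
        ENNReal.ofReal ((1 / b) ^ p * (co p c j * ((a / b) ^ 2) ^ j)) := by
    intro j
    have hpj : (0 : ℝ) < p + 2 * j := by positivity
    have hG : 0 < Real.Gamma (p + 2 * j) := Real.Gamma_pos_of_pos hpj
    rw [lintegral_const_mul _ (by fun_prop), gamma_lint hpj hb,
      ← ENNReal.ofReal_mul (div_nonneg (hfa j).le hG.le)]
    congr 1
    have h6 : (1 / b) ^ (p + 2 * (j : ℝ)) = (1 / b) ^ p * ((1 / b) ^ 2) ^ j := by
      rw [← pow_mul, ← Real.rpow_natCast (1 / b) (2 * j), ← Real.rpow_add (by positivity)]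
      congr 1
      push_cast
      ring
    rw [h6]
    unfold fa
    have h7 : ((a / b) ^ 2) ^ j = (a ^ 2) ^ j * ((1 / b) ^ 2) ^ j := by
      rw [← mul_pow, ← mul_pow, mul_one_div]
    rw [h7]
    field_simp
  simp_rw [h5]
  have hr : 0 < (a / b) ^ 2 := by positivity
  have hr1 : (a / b) ^ 2 < 1 := by
    rw [div_pow, div_lt_one (by positivity)]
    exact pow_lt_pow_left₀ hab ha.le (by norm_num)
  have h8 := (co_summ hp hc hr hr1).mul_left ((1 / b) ^ p)
  have h9 : ∀ j : ℕ, 0 ≤ (1 / b) ^ p * (co p c j * ((a / b) ^ 2) ^ j) := by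
    intro j
    have := co_pos hp hc j
    have : 0 < (1 / b) ^ p := Real.rpow_pos_of_pos (by positivity) _
    positivity
  rw [← ENNReal.ofReal_tsum_of_nonneg h9 h8]
  exact ENNReal.ofReal_ne_top

theorem law_eq {μ ν a b : ℝ} (hμ : -1 < μ) (hμν : 0 < μ + ν) (ha : 0 < a) (hab : a < b) :
    law μ ν a b = (MM (ka (μ + ν) (μ + 1) a) b 1 Set.univ)⁻¹ • MM (ka (μ + ν) (μ + 1) a) b 1 := by
  have hc : 0 < μ + 1 := by linarith
  set κ := ka (μ + ν) (μ + 1) a with hκdef
  have hκ : GB κ := ka_GB _ hc ha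
  have hκ0' : κ 0 = μ + ν := ka_zero _ _ _
  have hκ0 : 0 < κ 0 := by rw [hκ0']; exact hμν
  have hk : ∀ t, 0 < t → 0 < hh 1 κ t := fun t _ => ka_pos hμν hc a t
  have hfin : MM κ b 1 Set.univ ≠ ∞ := mass_finite hμν hc ha hab
  have hne := MM_ne_zero hκ hκ0 hk b one_pos
  set g : ℝ → ℝ := fun x => Real.exp (-(b * x)) * hh (μ + ν) (dq κ 1) x with hg
  have hGB := dq_GB hκ zero_le_one
  have hgm : Measurable g :=
    (by fun_prop : Measurable fun x : ℝ => Real.exp (-(b * x))).mul (hh_meas hμν hGB)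
  have hgpos : ∀ x, 0 < x → 0 < g x := by
    intro x hx
    have := hq_pos hκ hκ0 hk one_pos x hx
    rw [hκ0', mul_one] at this
    exact mul_pos (Real.exp_pos _) this
  have hMM : MM κ b 1 = (volume.restrict (Set.Ioi 0)).withDensity (fun x => ENNReal.ofReal (g x)) := by
    unfold MM ff
    rw [withDensity_indicator measurableSet_Ioi, hκ0', mul_one]
  have hmass : MM κ b 1 Set.univ = ∫⁻ x in Set.Ioi 0, ENNReal.ofReal (g x) := by
    rw [hMM, withDensity_apply _ MeasurableSet.univ, Measure.restrict_univ]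
  have hC := cst_pos hμ hμν ha
  have hnc : nc μ ν a b = cst μ ν a * (MM κ b 1 Set.univ).toReal := by
    unfold nc
    rw [setIntegral_congr_fun measurableSet_Ioi (fun x hx => phi_eq hμ hμν ha hx),
      integral_const_mul, hmass, integral_eq_lintegral_of_nonneg_ae]
    · rw [Filter.EventuallyLE, ae_restrict_iff' measurableSet_Ioi]
      exact Filter.Eventually.of_forall fun y hy => (hgpos y hy).le
    · exact hgm.aestronglyMeasurable
  have hmpos : 0 < (MM κ b 1 Set.univ).toReal := ENNReal.toReal_pos hne hfin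
  unfold law
  clear hmass
  generalize MM κ b 1 Set.univ = m at *
  rw [hMM, ← withDensity_smul _ (by fun_prop)]
  apply withDensity_congr_ae
  rw [Filter.EventuallyEq, ae_restrict_iff' measurableSet_Ioi]
  refine Filter.Eventually.of_forall fun x hx => ?_
  rw [hnc, phi_eq hμ hμν ha hx, mul_div_mul_left _ _ hC.ne']
  show ENNReal.ofReal (g x / m.toReal) = m⁻¹ * ENNReal.ofReal (g x)
  rw [div_eq_inv_mul, ENNReal.ofReal_mul (by positivity), ENNReal.ofReal_inv_of_pos hmpos,
    ENNReal.ofReal_toReal hfin]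

theorem main {μ ν a b : ℝ} (hμ : -1 < μ) (hμν : 0 < μ + ν) (ha : 0 < a) (hab : a < b) :
    IsProbabilityMeasure (law μ ν a b) ∧ InfDiv (law μ ν a b) := by
  have hc : 0 < μ + 1 := by linarith
  rw [law_eq hμ hμν ha hab]
  apply infdiv_generic (ka_GB _ hc ha) _ (fun t _ => ka_pos hμν hc a t) b
    (mass_finite hμν hc ha hab)
  rw [ka_zero]
  exact hμν

end Pool.Agent.R906.KB
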