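import Mathlib
import Pool.Agent.R583.ODefs
set_option autoImplicit false
set_option linter.unusedSectionVars false

/-!
# Initial segments of square sequences
-/

namespace Pool.Agent.R906.OS

open Cardinal Pool.Agent.R583.ODefs

section

variable {X Λ : Type} [LinearOrder X] [LinearOrder Λ]

/-- `b` is a limit of points of `y` -/
def Acc (y : Set X) (b : X) : Prop := (∃ x, x < b) ∧ ∀ z < b, ∃ x ∈ y, z < x ∧ x < b

/-- `C a` is a correct value at the limit point `a` -/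
structure Good (Λ : Type) [LinearOrder Λ] (C : X → Set X) (a : X) : Prop where
  below : ∀ x ∈ C a, x < a
  unb : ∀ b < a, ∃ x ∈ C a, b < x
  coh : ∀ b < a, Acc (C a) b → b ∈ C a ∧ C b = C a ∩ Set.Iio b
  otp : ∃ f : X → Λ, StrictMonoOn f (C a)

/-- the conditions: initial segments of square sequences, of successor length -/
structure Cond (X Λ : Type) [LinearOrder X] [LinearOrder Λ] where
  /-- the last point -/
  γ : X
  /-- the sequence -/
  C : X → Set X
  ok : ∀ a ≤ γ, Lim a → Good Λ C a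

instance instPreorderCond : Preorder (Cond X Λ) where
  le t' t := t.γ ≤ t'.γ ∧ ∀ a ≤ t.γ, t'.C a = t.C a
  le_refl _ := ⟨le_rfl, fun _ _ => rfl⟩
  le_trans _ _ _ h h' := ⟨h'.1.trans h.1, fun a ha => (h.2 a (ha.trans h'.1)).trans (h'.2 a ha)⟩

theorem Good.congr {C C' : X → Set X} {a : X} (hg : Good Λ C a) (h : ∀ b ≤ a, C b = C' b) :
    Good Λ C' a := by
  have ha := h a le_rfl
  refine ⟨?_, ?_, ?_, ?_⟩
  · rw [← ha]
    exact hg.below
  · rw [← ha]
    exact hg.unb
  · intro b hb hac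
    rw [← ha] at hac ⊢
    rw [← h b hb.le]
    exact hg.coh b hb hac
  · rw [← ha]
    exact hg.otp

/-- limits of runs -/
theorem limit_cond [WellFoundedLT X] [WellFoundedLT Λ] (W : Set Λ)
    (hWl : ∀ i ∈ W, ∀ k < i, k ∈ W) (hne : W.Nonempty)
    (hmax : ∀ i ∈ W, ∃ j ∈ W, i < j) (x : Λ → X) (t : Λ → Cond X Λ)
    (h1 : ∀ i ∈ W, ∀ k < i, t i ≤ t k ∧ (t k).γ < x i) (h2 : ∀ i ∈ W, x i ≤ (t i).γ)
    (h3 : ∀ i ∈ W, Lim i → IsLUB (x '' Set.Iio i) (x i) ∧ (t i).C (x i) = x '' Set.Iio i)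
    (hbdd : ∃ b, ∀ i ∈ W, x i ≤ b) :
    ∃ t' : Cond X Λ, (∀ i ∈ W, t' ≤ t i) ∧ IsLUB (x '' W) t'.γ ∧ t'.C t'.γ = x '' W ∧
      Lim t'.γ := by
  classical
  obtain ⟨b, hb⟩ := hbdd
  have hneU : (upperBounds (x '' W)).Nonempty := ⟨b, by
    rintro _ ⟨i, hi, rfl⟩
    exact hb i hi⟩
  obtain ⟨α, hlub⟩ : ∃ α, IsLUB (x '' W) α := ⟨(wellFounded_lt (α := X)).min _ hneU,
    (wellFounded_lt (α := X)).min_mem _ hneU,
    fun z hz => not_lt.1 ((wellFounded_lt (α := X)).not_lt_min _ hz)⟩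
  have mono : ∀ i ∈ W, ∀ k < i, x k < x i := fun i hi k hk =>
    (h2 k (hWl i hi k hk)).trans_lt (h1 i hi k hk).2
  have hlt : ∀ i ∈ W, x i < α := by
    intro i hi
    obtain ⟨j, hj, hij⟩ := hmax i hi
    exact (mono j hj i hij).trans_le (hlub.1 ⟨j, hj, rfl⟩)
  have hγlt : ∀ i ∈ W, (t i).γ < α := by
    intro i hi
    obtain ⟨j, hj, hij⟩ := hmax i hi
    exact ((h1 j hj i hij).2).trans_le (hlub.1 ⟨j, hj, rfl⟩)
  have hcofin : ∀ z < α, ∃ i ∈ W, z < x i := by
    intro z hz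
    by_contra hcon
    push Not at hcon
    refine absurd hz (not_lt.2 (hlub.2 ?_))
    rintro _ ⟨i, hi, rfl⟩
    exact hcon i hi
  have hcomp : ∀ i ∈ W, ∀ j ∈ W, ∀ a, a ≤ (t i).γ → a ≤ (t j).γ → (t i).C a = (t j).C a := by
    intro i hi j hj a hai haj
    rcases lt_trichotomy i j with h | h | h
    · exact ((h1 j hj i h).1.2 a hai).symm
    · rw [h]
    · exact (h1 i hi j h).1.2 a haj
  obtain ⟨C, hC, hCα⟩ : ∃ C : X → Set X, (∀ i ∈ W, ∀ a ≤ (t i).γ, C a = (t i).C a) ∧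
      C α = x '' W := by
    refine ⟨fun a => if h : ∃ i ∈ W, a ≤ (t i).γ then (t h.choose).C a else x '' W, ?_, ?_⟩
    · intro i hi a ha
      have h : ∃ i ∈ W, a ≤ (t i).γ := ⟨i, hi, ha⟩
      have h4 : (if h : ∃ i ∈ W, a ≤ (t i).γ then (t h.choose).C a else x '' W) =
        (t h.choose).C a := dif_pos h
      exact h4.trans (hcomp _ h.choose_spec.1 _ hi a h.choose_spec.2 ha)
    · refine dif_neg ?_
      rintro ⟨i, hi, h⟩
      exact absurd h (not_le.2 (hγlt i hi))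
  obtain ⟨i0, hi0⟩ := hne
  have hLα : Lim α := ⟨⟨x i0, hlt i0 hi0⟩, fun b hb => by
    obtain ⟨i, hi, h⟩ := hcofin b hb
    exact ⟨x i, h, hlt i hi⟩⟩
  refine ⟨⟨α, C, fun a ha hla => ?_⟩, fun i hi => ⟨(hγlt i hi).le, fun a ha => hC i hi a ha⟩,
    hlub, hCα, hLα⟩
  rcases ha.lt_or_eq with ha | rfl
  · obtain ⟨i, hi, hai⟩ := hcofin a ha
    have hai' : a ≤ (t i).γ := hai.le.trans (h2 i hi)
    exact ((t i).ok a hai' hla).congr fun b hb => (hC i hi b (hb.trans hai')).symm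
  · refine ⟨?_, ?_, ?_, ?_⟩
    · rw [hCα]
      rintro _ ⟨i, hi, rfl⟩
      exact hlt i hi
    · rw [hCα]
      intro b hb
      obtain ⟨i, hi, h⟩ := hcofin b hb
      exact ⟨x i, ⟨i, hi, rfl⟩, h⟩
    · rintro b hb hac
      rw [hCα] at hac ⊢
      obtain ⟨⟨x0, hx0⟩, hub⟩ := hac
      have hK : {k | k ∈ W ∧ b ≤ x k}.Nonempty := by
        obtain ⟨i, hi, hbi⟩ := hcofin b hb
        exact ⟨i, hi, hbi.le⟩
      obtain ⟨k, hk, hkmin⟩ : ∃ k, (k ∈ W ∧ b ≤ x k) ∧ ∀ l, l ∈ W ∧ b ≤ x l → ¬ l < k :=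
        ⟨(wellFounded_lt (α := Λ)).min _ hK, (wellFounded_lt (α := Λ)).min_mem _ hK,
          fun l hl => (wellFounded_lt (α := Λ)).not_lt_min _ hl⟩
      have hkl : ∀ l < k, x l < b := by
        intro l hl'
        by_contra hcon
        exact hkmin l ⟨hWl k hk.1 l hl', not_lt.1 hcon⟩ hl'
      have hlk : ∀ l ∈ W, x l < b → l < k := by
        intro l hl' hlb
        by_contra hcon
        rcases eq_or_lt_of_le (not_lt.1 hcon) with h | h
        · rw [← h] at hlb
          exact absurd hk.2 (not_le.2 hlb)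
        · exact absurd (hk.2.trans (mono l hl' k h).le) (not_le.2 hlb)
      have hLk : Lim k := by
        constructor
        · obtain ⟨_, ⟨l, hl', rfl⟩, -, hlb⟩ := hub x0 hx0
          exact ⟨l, hlk l hl' hlb⟩
        · intro l hl'
          obtain ⟨_, ⟨l', hl'', rfl⟩, h1', h2'⟩ := hub (x l) (hkl l hl')
          refine ⟨l', ?_, hlk l' hl'' h2'⟩
          by_contra hcon
          rcases eq_or_lt_of_le (not_lt.1 hcon) with h | h
          · rw [h] at h1'
            exact lt_irrefl _ h1'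
          · exact lt_asymm h1' (mono l (hWl k hk.1 l hl') l' h)
      obtain ⟨h4, h5⟩ := h3 k hk.1 hLk
      have hbk : b = x k := by
        refine le_antisymm hk.2 (h4.2 ?_)
        rintro _ ⟨l, hl', rfl⟩
        exact (hkl l hl').le
      rw [hbk]
      refine ⟨⟨k, hk.1, rfl⟩, ?_⟩
      rw [hC k hk.1 _ (h2 k hk.1), h5]
      ext z
      constructor
      · rintro ⟨l, hl', rfl⟩
        exact ⟨⟨l, hWl k hk.1 l hl', rfl⟩, mono k hk.1 l hl'⟩
      · rintro ⟨⟨l, hl', rfl⟩, h6⟩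
        refine ⟨l, hlk l hl' ?_, rfl⟩
        rw [hbk]
        exact h6
    · rw [hCα]
      have hinj : Set.InjOn x W := by
        intro i hi j hj hij
        rcases lt_trichotomy i j with h | h | h
        · exact absurd hij (mono j hj i h).ne
        · exact h
        · exact absurd hij (mono i hi j h).ne'
      have : Nonempty Λ := ⟨i0⟩
      refine ⟨Function.invFunOn x W, ?_⟩
      rintro _ ⟨i, hi, rfl⟩ _ ⟨j, hj, rfl⟩ hij
      rw [hinj.leftInvOn_invFunOn hi, hinj.leftInvOn_invFunOn hj]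
      by_contra hcon
      rcases eq_or_lt_of_le (not_lt.1 hcon) with h | h
      · rw [h] at hij
        exact lt_irrefl _ hij
      · exact lt_asymm hij (mono i hi j h)

/-- transfinite dependent choice -/
theorem exists_seq {α : Type*} [WellFoundedLT Λ] [Nonempty α] (Step : Λ → (Λ → α) → α → Prop)
    (hloc : ∀ i f g s, (∀ k < i, f k = g k) → Step i f s → Step i g s)
    (hex : ∀ i f, (∀ j < i, Step j f (f j)) → ∃ s, Step i f s) : ∃ f : Λ → α, ∀ i, Step i f (f i) := by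
  classical
  obtain ⟨a0⟩ := ‹Nonempty α›
  let f : Λ → α := (wellFounded_lt (α := Λ)).fix fun i rec =>
    if h : ∃ s, Step i (fun k => if h : k < i then rec k h else a0) s then h.choose else a0
  have hf : ∀ i, f i = if h : ∃ s, Step i (fun k => if k < i then f k else a0) s
      then h.choose else a0 := by
    intro i
    have h1 := (wellFounded_lt (α := Λ)).fix_eq (fun (i : Λ) (rec : ∀ k, k < i → α) =>
      if h : ∃ s, Step i (fun k => if h : k < i then rec k h else a0) s then h.choose else a0) i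
    refine h1.trans ?_
    have h2 : (fun k => if _ : k < i then f k else a0) = (fun k => if k < i then f k else a0) := by
      funext k
      by_cases h : k < i
      · rw [dif_pos h, if_pos h]
      · rw [dif_neg h, if_neg h]
    change (if h : ∃ s, Step i (fun k => if _ : k < i then f k else a0) s
      then h.choose else a0) = _
    rw [h2]
  refine ⟨f, fun i => ?_⟩
  induction i using (wellFounded_lt (α := Λ)).induction with
  | _ i ih =>
    have hg : ∀ k < i, (fun k => if k < i then f k else a0) k = f k := fun k hk => if_pos hk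
    have h3 : ∃ s, Step i (fun k => if k < i then f k else a0) s := by
      apply hex
      intro j hj
      have h4 := hloc j f (fun k => if k < i then f k else a0) (f j)
        (fun k hk => (hg k (hk.trans hj)).symm) (ih j hj)
      rwa [← hg j hj] at h4
    rw [hf i, dif_pos h3]
    exact hloc i _ f _ hg h3.choose_spec

/-- one step of a run -/
def RunStep (Q : Cond X Λ → Prop) (R : Λ → Cond X Λ → X → Cond X Λ → Prop) (i : Λ)
    (f : Λ → X × Cond X Λ) (s : X × Cond X Λ) : Prop :=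
  Q s.2 ∧ (∀ k < i, s.2 ≤ (f k).2 ∧ (f k).2.γ < s.1) ∧ s.1 ≤ s.2.γ ∧
    (∀ k, k ⋖ i → R k (f k).2 s.1 s.2) ∧
    (Lim i → IsLUB ((fun k => (f k).1) '' Set.Iio i) s.1 ∧
      s.2.C s.1 = (fun k => (f k).1) '' Set.Iio i)

/-- runs -/
theorem exists_run [WellFoundedLT X] [WellFoundedLT Λ]
    (hbd : ∀ (i : Λ) (g : Λ → X), ∃ b, ∀ k < i, g k ≤ b)
    (Q : Cond X Λ → Prop)
    (hQ : ∀ t : Cond X Λ, Lim t.γ → (∀ b < t.γ, ∃ t', Q t' ∧ t ≤ t' ∧ b < t'.γ) → Q t)
    (p0 : Cond X Λ) (h0 : Q p0) (R : Λ → Cond X Λ → X → Cond X Λ → Prop)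
    (hR : ∀ i t, Q t → ∃ x t', Q t' ∧ t' ≤ t ∧ t.γ < x ∧ x ≤ t'.γ ∧ R i t x t') :
    ∃ (x : Λ → X) (t : Λ → Cond X Λ), (∀ i, Q (t i)) ∧
      (∀ i, ∀ k < i, t i ≤ t k ∧ (t k).γ < x i) ∧
      (∀ i, x i ≤ (t i).γ) ∧ (∀ k i, k ⋖ i → R k (t k) (x i) (t i)) ∧
      ∀ i, Lim i → IsLUB (x '' Set.Iio i) (x i) ∧ (t i).C (x i) = x '' Set.Iio i := by
  have iN : Nonempty (X × Cond X Λ) := ⟨(p0.γ, p0)⟩
  have hsuff : ∃ f : Λ → X × Cond X Λ, ∀ i, RunStep Q R i f (f i) := by
    refine exists_seq (RunStep Q R) ?_ ?_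
    · rintro i f g s hfg ⟨a1, a2, a3, a4, a5⟩
      have himg : (fun k => (g k).1) '' Set.Iio i = (fun k => (f k).1) '' Set.Iio i :=
        Set.image_congr fun k hk => by rw [hfg k hk]
      refine ⟨a1, fun k hk => ?_, a3, fun k hk => ?_, ?_⟩
      · rw [← hfg k hk]
        exact a2 k hk
      · rw [← hfg k hk.lt]
        exact a4 k hk
      · rw [himg]
        exact a5
    · intro i f hf
      by_cases hs : ∃ k, k ⋖ i
      · obtain ⟨k, hk⟩ := hs
        obtain ⟨x, t', b1, b2, b3, b4, b5⟩ := hR k (f k).2 (hf k hk.lt).1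
        have hle : ∀ l < i, l ≤ k := fun l hl => not_lt.1 fun h => hk.2 h hl
        refine ⟨(x, t'), b1, fun l hl => ?_, b4, fun l hl => ?_, fun hl => ?_⟩
        · rcases (hle l hl).lt_or_eq with h | rfl
          · obtain ⟨c1, c2⟩ := (hf k hk.lt).2.1 l h
            exact ⟨b2.trans c1, c2.trans (((hf k hk.lt).2.2.1).trans_lt b3)⟩
          · exact ⟨b2, b3⟩
        · have : l = k := le_antisymm (hle l hl.lt) (not_lt.1 fun h => hl.2 h hk.lt)
          rw [this]
          exact b5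
        · obtain ⟨c, hc1, hc2⟩ := hl.2 k hk.lt
          exact absurd hc2 (hk.2 hc1)
      · by_cases hz : ∃ k, k < i
        · have hl : Lim i := ⟨hz, fun k hk => by
            by_contra hcon
            push Not at hcon
            exact hs ⟨k, hk, fun l h1 h2 => absurd h2 (not_lt.2 (hcon l h1))⟩⟩
          obtain ⟨t', d1, d2, d3, d4⟩ := limit_cond (Set.Iio i) (fun j hj k hk => lt_trans hk hj)
            hl.1 (fun j hj => by
              obtain ⟨c, hc1, hc2⟩ := hl.2 j hj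
              exact ⟨c, hc2, hc1⟩) (fun k => (f k).1) (fun k => (f k).2)
            (fun j hj => (hf j hj).2.1) (fun j hj => (hf j hj).2.2.1)
            (fun j hj => (hf j hj).2.2.2.2) (hbd i fun k => (f k).1)
          have hlt : ∀ k < i, (f k).2.γ < t'.γ := by
            intro k hk
            obtain ⟨c, hc1, hc2⟩ := hl.2 k hk
            exact ((hf c hc2).2.1 k hc1).2.trans_le (d2.1 ⟨c, hc2, rfl⟩)
          refine ⟨(t'.γ, t'), ?_, fun k hk => ⟨d1 k hk, hlt k hk⟩, le_rfl,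
            fun k hk => absurd ⟨k, hk⟩ hs, fun _ => ⟨d2, d3⟩⟩
          refine hQ t' d4 fun b hb => ?_
          have hcof : ∃ k < i, b < (f k).1 := by
            by_contra hcon
            push Not at hcon
            refine absurd hb (not_lt.2 (d2.2 ?_))
            rintro _ ⟨k, hk, rfl⟩
            exact hcon k hk
          obtain ⟨k, hk, hbk⟩ := hcof
          exact ⟨(f k).2, (hf k hk).1, d1 k hk, hbk.trans_le (hf k hk).2.2.1⟩
        · refine ⟨(p0.γ, p0), h0, fun k hk => absurd ⟨k, hk⟩ hz, le_rfl,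
            fun k hk => absurd ⟨k, hk.lt⟩ hz, fun hl => absurd hl.1 hz⟩
  obtain ⟨f, hf⟩ := hsuff
  exact ⟨fun i => (f i).1, fun i => (f i).2, fun i => (hf i).1, fun i => (hf i).2.1,
    fun i => (hf i).2.2.1, fun k i hki => (hf i).2.2.2.1 k hki, fun i => (hf i).2.2.2.2⟩

/-- splicing -/
theorem splice (t s : Cond X Λ) (h : t.γ ≤ s.γ) : ∃ t' : Cond X Λ, t' ≤ t ∧ t'.γ = s.γ := by
  classical
  have e1 : ∀ c ≤ t.γ, (if c ≤ t.γ then t.C c else s.C c ∩ Set.Ioi t.γ) = t.C c :=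
    fun c hc => if_pos hc
  have e2 : ∀ c, t.γ < c → (if c ≤ t.γ then t.C c else s.C c ∩ Set.Ioi t.γ) =
    s.C c ∩ Set.Ioi t.γ := fun c hc => if_neg (not_le.2 hc)
  refine ⟨⟨s.γ, fun c => if c ≤ t.γ then t.C c else s.C c ∩ Set.Ioi t.γ, fun a ha hla => ?_⟩,
    ⟨h, fun a ha => e1 a ha⟩, rfl⟩
  by_cases hat : a ≤ t.γ
  · exact (t.ok a hat hla).congr fun b hb => (e1 b (hb.trans hat)).symm
  · have hat' := not_le.1 hat
    have hg := s.ok a ha hla
    refine ⟨?_, ?_, ?_, ?_⟩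
    · simp only [e2 a hat']
      exact fun x hx => hg.below x hx.1
    · simp only [e2 a hat']
      intro b hb
      obtain ⟨x, hx, hbx⟩ := hg.unb (max b t.γ) (max_lt hb hat')
      exact ⟨x, ⟨hx, (le_max_right _ _).trans_lt hbx⟩, (le_max_left _ _).trans_lt hbx⟩
    · simp only [e2 a hat']
      intro b hb hac
      have hac' : Acc (s.C a) b := ⟨hac.1, fun z hz => by
        obtain ⟨x, hx, h1, h2⟩ := hac.2 z hz
        exact ⟨x, hx.1, h1, h2⟩⟩
      have htb : t.γ < b := by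
        obtain ⟨x0, hx0⟩ := hac.1
        obtain ⟨x, hx, h1, h2⟩ := hac.2 x0 hx0
        exact lt_trans hx.2 h2
      obtain ⟨h1, h2⟩ := hg.coh b hb hac'
      refine ⟨⟨h1, htb⟩, ?_⟩
      rw [e2 b htb, h2]
      ext z
      simp only [Set.mem_inter_iff, Set.mem_Iio, Set.mem_Ioi]
      tauto
    · simp only [e2 a hat']
      obtain ⟨f, hf⟩ := hg.otp
      exact ⟨f, hf.mono Set.inter_subset_left⟩

/-- there are conditions of every length -/
theorem exists_len [WellFoundedLT X] [WellFoundedLT Λ] [Nonempty Λ]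
    (hmaxΛ : ∀ i : Λ, ∃ j, i ⋖ j)
    (hbd : ∀ (i : Λ) (g : Λ → X), ∃ b, ∀ k < i, g k ≤ b)
    (hsur : ∀ a : X, ∃ s : Λ → X, ∀ b < a, ∃ i, s i = b) (a : X) :
    ∃ t : Cond X Λ, t.γ = a := by
  induction a using (wellFounded_lt (α := X)).induction with
  | _ a ih =>
    by_cases hla : Lim a
    · by_contra hcon
      obtain ⟨s, hs⟩ := hsur a
      obtain ⟨b0, hb0⟩ := hla.1
      obtain ⟨p0, hp0⟩ := ih b0 hb0
      obtain ⟨x, t, h1, h2, h3, h4, h5⟩ := exists_run hbd (fun t => t.γ < a) (by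
        intro t hl ht
        rcases lt_trichotomy t.γ a with h | h | h
        · exact h
        · exact absurd ⟨t, h⟩ hcon
        · obtain ⟨t', c1, -, c3⟩ := ht a h
          exact absurd c1 (not_lt.2 c3.le)) p0 (by rw [hp0]; exact hb0)
        (fun i _ x _ => s i < a → s i < x) (by
        intro i t ht
        have hm : ∃ m, m < a ∧ t.γ ≤ m ∧ (s i < a → s i ≤ m) := by
          by_cases hsi : s i < a
          · exact ⟨max t.γ (s i), max_lt ht hsi, le_max_left _ _, fun _ => le_max_right _ _⟩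
          · exact ⟨t.γ, ht, le_rfl, fun h => absurd h hsi⟩
        obtain ⟨m, hm1, hm2, hm3⟩ := hm
        obtain ⟨x, hx1, hx2⟩ := hla.2 m hm1
        obtain ⟨u, hu⟩ := ih x hx2
        obtain ⟨t', ht', ht'2⟩ := splice t u (by rw [hu]; exact hm2.trans hx1.le)
        exact ⟨x, t', by rw [ht'2, hu]; exact hx2, ht', hm2.trans_lt hx1, by rw [ht'2, hu],
          fun h => (hm3 h).trans_lt hx1⟩)
      obtain ⟨t', d1, d2, d3, d4⟩ := limit_cond Set.univ (fun _ _ _ _ => Set.mem_univ _)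
        Set.univ_nonempty (fun i _ => by
          obtain ⟨j, hj⟩ := hmaxΛ i
          exact ⟨j, Set.mem_univ _, hj.lt⟩) x t (fun i _ => h2 i) (fun i _ => h3 i)
        (fun i _ => h5 i) ⟨a, fun i _ => (h3 i).trans (h1 i).le⟩
      apply hcon
      refine ⟨t', le_antisymm (d2.2 ?_) ?_⟩
      · rintro _ ⟨i, -, rfl⟩
        exact (h3 i).trans (h1 i).le
      · by_contra hlt
        obtain ⟨i, hi⟩ := hs _ (not_le.1 hlt)
        obtain ⟨j, hj⟩ := hmaxΛ i
        have h6 := h4 i j hj (by rw [hi]; exact not_le.1 hlt)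
        rw [hi] at h6
        exact absurd (d2.1 ⟨j, Set.mem_univ _, rfl⟩) (not_le.2 h6)
    · by_cases h0 : ∃ b, b < a
      · have h1 : ∃ b < a, ∀ c, b < c → ¬ c < a := by
          by_contra hcon
          push Not at hcon
          exact hla ⟨h0, fun b hb => by
            obtain ⟨c, h1, h2⟩ := hcon b hb
            exact ⟨c, h1, h2⟩⟩
        obtain ⟨b, hb, hbc⟩ := h1
        obtain ⟨t, rfl⟩ := ih b hb
        refine ⟨⟨a, t.C, fun c hc hlc => t.ok c (not_lt.1 fun h => hbc c h ?_) hlc⟩, rfl⟩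
        exact hc.lt_of_ne fun h => hla (h ▸ hlc)
      · refine ⟨⟨a, fun _ => ∅, fun c hc hlc => ?_⟩, rfl⟩
        obtain ⟨d, hd⟩ := hlc.1
        exact absurd ⟨d, hd.trans_le hc⟩ h0

end

end Pool.Agent.R906.OS
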