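import Mathlib
import Pool.Agent.R906.OSCond
set_option autoImplicit false
set_option linter.unusedSectionVars false

/-!
# Forcing the Ostaszewski square
-/

namespace Pool.Agent.R906.OS

open Cardinal Pool.Agent.Helper669.Forcing Pool.Agent.Helper669.K Pool.Agent.R583.DDefs
  Pool.Agent.R583.ODefs

/-- There is a family, indexed by `X`, of pairwise different functions from `N` to `Λ`:
`|X| ≤ |Λ| ^ |N|`. -/
def FManyFun (P : Type) [Preorder P] (X N Λ : Type) : Set P :=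
  fex fun c : X → N → Λ → Set P => fand (fall fun a : X => IsFun (c a))
    (fall fun a : X => fall fun b : X => fall fun _ : a ≠ b => fex fun i : N => fex fun y : Λ =>
      fand (meets (c a i y)) (fnot (meets (c b i y))))

section ground

variable {P : Type} [Preorder P]

theorem meets_ground {h : Prop} {p : P} : p ∈ meets {_p : P | h} ↔ h := by
  constructor
  · intro hp
    obtain ⟨_, _, _, hs, _⟩ := hp p le_rfl
    exact hs
  · intro h'
    exact meets_of_mem h'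

theorem isFun_ground {A B : Type} (f : A → B) (p : P) :
    p ∈ IsFun (P := P) fun a b => {_p : P | f a = b} :=
  ⟨fun a => mem_fex_of_mem (f a) (down_meets _) (meets_ground.2 rfl),
    fun a b b' => mem_fimp.2 fun q _ hq => ⟨q, le_rfl,
      (meets_ground.1 hq.1).symm.trans (meets_ground.1 hq.2)⟩⟩

theorem image_ground {A B : Type} (f : A → B) (hf : Function.Surjective f) (p : P) :
    p ∈ FImage P A B := by
  refine mem_fex_of_mem (fun a b => {_p : P | f a = b}) (down_fand (down_IsFun _) (down_IsOnto _))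
    ⟨isFun_ground f p, fun b => ?_⟩
  obtain ⟨a, ha⟩ := hf b
  exact mem_fex_of_mem a (down_meets _) (meets_ground.2 ha)

theorem manyFun_ground {X N Λ : Type} (F : X → N → Λ) (hF : Function.Injective F) (p : P) :
    p ∈ FManyFun P X N Λ := by
  refine mem_fex_of_mem (fun a i y => {_p : P | F a i = y}) (down_fand
    (down_fall fun _ => down_IsFun _) (down_fall fun _ => down_fall fun _ => down_fall fun _ =>
      down_fex _)) ⟨fun a => isFun_ground (F a) p, fun a b hab => ?_⟩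
  have : ∃ i, F a i ≠ F b i := by
    by_contra hcon
    push Not at hcon
    exact hab (hF (funext hcon))
  obtain ⟨i, hi⟩ := this
  refine mem_fex_of_mem i (down_fex _) (mem_fex_of_mem (F a i)
    (down_fand (down_meets _) (down_fnot _)) ⟨meets_ground.2 rfl, fun q _ hq => ?_⟩)
  exact hi (meets_ground.1 hq).symm

end ground

/-- the hypotheses on the two index sets -/
structure Hyp (X Λ : Type) [LinearOrder X] [LinearOrder Λ] : Prop where
  ne : Nonempty Λ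
  suc : ∀ i : Λ, ∃ j, i ⋖ j
  bd : ∀ g : Λ → X, ∃ b, ∀ k, g k < b
  sur : ∀ a : X, ∃ s : Λ → X, ∀ b < a, ∃ i, s i = b

section

variable {X Λ : Type} [LinearOrder X] [WellFoundedLT X] [LinearOrder Λ] [WellFoundedLT Λ]

theorem Hyp.exists_len (H : Hyp X Λ) (a : X) : ∃ t : Cond X Λ, t.γ = a := by
  have := H.ne
  refine OS.exists_len H.suc (fun i g => ?_) H.sur a
  obtain ⟨b, hb⟩ := H.bd g
  exact ⟨b, fun k _ => (hb k).le⟩

theorem Hyp.exists_gt (H : Hyp X Λ) (p : Cond X Λ) (a : X) : ∃ q ≤ p, a < q.γ := by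
  obtain ⟨i⟩ := H.ne
  obtain ⟨b, hb⟩ := H.bd fun _ => max p.γ a
  obtain ⟨s, hs⟩ := H.exists_len b
  obtain ⟨q, hq, hq2⟩ := splice p s (by rw [hs]; exact (le_max_left _ _).trans (hb i).le)
  exact ⟨q, hq, by rw [hq2, hs]; exact (le_max_right _ _).trans_lt (hb i)⟩

theorem Hyp.run (H : Hyp X Λ) (p0 : Cond X Λ) (R : Λ → Cond X Λ → X → Cond X Λ → Prop)
    (hR : ∀ i, ∀ t ≤ p0, ∃ x, ∃ t' ≤ t, t.γ < x ∧ x ≤ t'.γ ∧ R i t x t') :
    ∃ (x : Λ → X) (t : Λ → Cond X Λ), (∀ i, t i ≤ p0) ∧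
      (∀ i, ∀ k < i, t i ≤ t k ∧ (t k).γ < x i) ∧
      (∀ i, x i ≤ (t i).γ) ∧ (∀ k i, k ⋖ i → R k (t k) (x i) (t i)) ∧
      ∀ i, Lim i → IsLUB (x '' Set.Iio i) (x i) ∧ (t i).C (x i) = x '' Set.Iio i := by
  refine exists_run (fun i g => ?_) (fun t => t ≤ p0) (fun t hl ht => ?_) p0 le_rfl R
    (fun i t ht => ?_)
  · obtain ⟨b, hb⟩ := H.bd g
    exact ⟨b, fun k _ => (hb k).le⟩
  · obtain ⟨b, hb⟩ := hl.1
    obtain ⟨t', h1, h2, -⟩ := ht b hb
    exact h2.trans h1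
  · obtain ⟨x, t', h1, h2, h3, h4⟩ := hR i t ht
    exact ⟨x, t', h1.trans ht, h1, h2, h3, h4⟩

/-- distributivity -/
theorem Hyp.distr (H : Hyp X Λ) (p0 : Cond X Λ) (D : Λ → Set (Cond X Λ)) (hD : ∀ i, Down (D i))
    (hde : ∀ i, ∀ t ≤ p0, ∃ t' ≤ t, t' ∈ D i) : ∃ t ≤ p0, ∀ i, t ∈ D i := by
  have := H.ne
  obtain ⟨x, t, h1, h2, h3, h4, h5⟩ := H.run p0 (fun i _ _ t' => t' ∈ D i) (by
    intro i t ht
    obtain ⟨t1, ht1, h1⟩ := hde i t ht
    obtain ⟨t2, ht2, h2⟩ := H.exists_gt t1 t.γ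
    exact ⟨t2.γ, t2, ht2.trans ht1, h2, le_rfl, hD i _ h1 _ ht2⟩)
  obtain ⟨t', d1, -, -, -⟩ := limit_cond Set.univ (fun _ _ _ _ => Set.mem_univ _)
    Set.univ_nonempty (fun i _ => by
      obtain ⟨j, hj⟩ := H.suc i
      exact ⟨j, Set.mem_univ _, hj.lt⟩) x t (fun i _ => h2 i) (fun i _ => h3 i)
    (fun i _ => h5 i) (by
      obtain ⟨b, hb⟩ := H.bd x
      exact ⟨b, fun i _ => (hb i).le⟩)
  refine ⟨t', ?_, fun i => ?_⟩
  · obtain ⟨i⟩ := H.ne
    exact (d1 i (Set.mem_univ _)).trans (h1 i)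
  · obtain ⟨j, hj⟩ := H.suc i
    exact hD i _ (h4 i j hj) _ (d1 j (Set.mem_univ _))

/-- no new functions on sets of size at most `|Λ|` -/
theorem Hyp.decide (H : Hyp X Λ) {N Y : Type} (e : N → Λ) (he : Function.Injective e)
    (R : N → Y → Set (Cond X Λ)) (p : Cond X Λ) (hp : p ∈ IsFun R) :
    ∃ t ≤ p, ∃ g : N → Y, ∀ n, t ∈ meets (R n (g n)) := by
  obtain ⟨t, ht, h⟩ := H.distr p (fun i => {t | ∀ n, e n = i → ∃ y, t ∈ meets (R n y)}) (by
    intro i t ht t' ht' n hn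
    obtain ⟨y, hy⟩ := ht n hn
    exact ⟨y, down_meets _ _ hy _ ht'⟩) (by
    intro i t ht
    by_cases hi : ∃ n, e n = i
    · obtain ⟨n, rfl⟩ := hi
      obtain ⟨t', ht', y, hy⟩ := IsFun.total (down_IsFun R _ hp _ ht) n
      refine ⟨t', ht', fun m hm => ?_⟩
      rw [he hm]
      exact ⟨y, hy⟩
    · exact ⟨t, le_rfl, fun n hn => absurd ⟨n, hn⟩ hi⟩)
  choose g hg using fun n => h (e n) n rfl
  exact ⟨t, ht, g, hg⟩

/-- the name of the square sequence -/
def CName (X Λ : Type) [LinearOrder X] [LinearOrder Λ] (a x : X) : Set (Cond X Λ) :=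
  {t | a ≤ t.γ ∧ x ∈ t.C a}

theorem down_CName (a x : X) : Down (CName X Λ a x) :=
  fun _ hp _ hq => ⟨hp.1.trans hq.1, by rw [hq.2 a hp.1]; exact hp.2⟩

theorem exists_CName {p : Cond X Λ} {a x : X} (h : p ∈ meets (CName X Λ a x)) :
    ∃ q ≤ p, a ≤ q.γ ∧ x ∈ q.C a := exists_of_meets (down_CName a x) h

theorem dec_CName {p r : Cond X Λ} (hr : r ≤ p) {a x : X} (ha : a ≤ p.γ)
    (h : r ∈ meets (CName X Λ a x)) : x ∈ p.C a := by
  obtain ⟨q, hq, -, hx⟩ := exists_CName h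
  rwa [(hq.trans hr).2 a ha] at hx

theorem meets_CName {p r : Cond X Λ} (hr : r ≤ p) {a x : X} (ha : a ≤ p.γ) (h : x ∈ p.C a) :
    r ∈ meets (CName X Λ a x) := meets_of_le (s := p) ⟨ha, h⟩ hr

theorem acc_of_FAcc {p r : Cond X Λ} (hr : r ≤ p) {a b : X} (ha : a ≤ p.γ)
    (h : r ∈ FAcc (CName X Λ a) b) : Acc (p.C a) b := by
  refine ⟨h.1, fun x hx => ?_⟩
  obtain ⟨r1, hr1, h1⟩ := mem_fimp.1 (h.2 x) r le_rfl hx
  obtain ⟨r2, hr2, z, ⟨hxz, hzb⟩, hz⟩ := mem_fex.1 h1 r1 le_rfl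
  exact ⟨z, dec_CName (hr2.trans (hr1.trans hr)) ha hz, hxz, hzb⟩

theorem square (H : Hyp X Λ) (p : Cond X Λ) : p ∈ FSquare Λ (CName X Λ) := by
  classical
  have hF : ∀ Y : Set X, ∃ f : X → Λ, (∃ g : X → Λ, StrictMonoOn g Y) → StrictMonoOn f Y := by
    intro Y
    by_cases h : ∃ g : X → Λ, StrictMonoOn g Y
    · obtain ⟨g, hg⟩ := h
      exact ⟨g, fun _ => hg⟩
    · obtain ⟨i⟩ := H.ne
      exact ⟨fun _ => i, fun h' => absurd h' h⟩
  choose F hF using hF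
  have ext : ∀ (q : Cond X Λ) (a : X), ∃ r ≤ q, a ≤ r.γ := by
    intro q a
    obtain ⟨r, hr, h⟩ := H.exists_gt q a
    exact ⟨r, hr, h.le⟩
  intro a ha
  refine ⟨⟨fun x => mem_fimp.2 fun q _ hq => ⟨q, le_rfl, ?_⟩, ⟨ha.1, fun x => mem_fimp.2
    fun q _ hx => ⟨q, le_rfl, mem_fex.2 fun q' _ => ?_⟩⟩, fun b => mem_fimp.2 fun q _ hq => ?_⟩,
    ?_, fun b => mem_fimp.2 fun q _ hq => ?_⟩
  · obtain ⟨r, -, h1, h2⟩ := exists_CName hq
    exact (r.ok a h1 ha).below x h2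
  · obtain ⟨r, hr, har⟩ := ext q' a
    obtain ⟨z, hz, hxz⟩ := (r.ok a har ha).unb x hx
    exact ⟨r, hr, z, ⟨hxz, (r.ok a har ha).below z hz⟩, meets_CName le_rfl har hz⟩
  · obtain ⟨hb, hac⟩ := hq
    obtain ⟨r, hr, har⟩ := ext q a
    have hacc := acc_of_FAcc le_rfl har
      ((down_fand (down_fground _) (down_fall fun _ => down_fimp _ _)) _ hac _ hr)
    exact ⟨r, hr, meets_CName le_rfl har ((r.ok a har ha).coh b hb hacc).1⟩
  · refine mem_fex_of_mem (fun x i => {p : Cond X Λ | a ≤ p.γ ∧ x ∈ p.C a ∧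
      F (p.C a) x = i}) (down_fand (down_fall fun _ => down_fimp _ _)
        (down_fall fun _ => down_fall fun _ => down_fall fun _ => down_fall fun _ =>
          down_fimp _ _)) ⟨fun x => mem_fimp.2 fun q _ hq => ?_,
        fun x y i j => mem_fimp.2 fun q _ hq => ?_⟩
    · obtain ⟨r, hr, h1, h2⟩ := exists_CName hq
      exact ⟨r, hr, mem_fex_of_mem _ (down_meets _) (meets_of_mem ⟨h1, h2, rfl⟩)⟩
    · obtain ⟨⟨-, -⟩, hx, hy⟩ := hq
      obtain ⟨r1, hr1, s1, ⟨ha1, hx1, rfl⟩, hrs1⟩ := hx q le_rfl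
      obtain ⟨r2, hr2, s2, ⟨ha2, hy2, rfl⟩, hrs2⟩ := hy r1 hr1
      have hE1 := (hr2.trans hrs1).2 a ha1
      have hE2 := hrs2.2 a ha2
      have hE : s1.C a = s2.C a := hE1.symm.trans hE2
      have hmono : StrictMonoOn (F (s2.C a)) (s2.C a) := hF _ (s2.ok a ha2 ha).otp
      refine ⟨r2, hr2.trans hr1, fun hxy => ?_, fun hxy => ?_⟩
      · rw [hE]
        rw [hE] at hx1
        exact hmono hx1 hy2 hxy
      · rw [hE, hxy]
  · obtain ⟨hb, hac⟩ := hq
    obtain ⟨r, hr, har, hbr⟩ := exists_CName hb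
    have hba : b < a := (r.ok a har ha).below b hbr
    have hacc := acc_of_FAcc le_rfl har
      ((down_fand (down_fground _) (down_fall fun _ => down_fimp _ _)) _ hac _ hr)
    obtain ⟨-, h3⟩ := (r.ok a har ha).coh b hba hacc
    have hbr' : b ≤ r.γ := hba.le.trans har
    refine ⟨r, hr, fun x => ⟨mem_fimp.2 fun r1 hr1 hx => ⟨r1, le_rfl, ?_⟩,
      mem_fimp.2 fun r1 hr1 hx => ⟨r1, le_rfl, ?_⟩⟩⟩
    · have h4 := dec_CName hr1 hbr' hx
      rw [h3] at h4
      exact ⟨meets_CName hr1 har h4.1, h4.2⟩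
    · refine meets_CName hr1 hbr' ?_
      rw [h3]
      exact ⟨dec_CName hr1 har hx.1, hx.2⟩

theorem guess (H : Hyp X Λ) (p : Cond X Λ) : p ∈ FGuess Λ (CName X Λ) := by
  classical
  intro A
  refine mem_fimp.2 fun q _ hA => ⟨q, le_rfl, fun θ hθ D => mem_fimp.2 fun p0 hp0 hD => ?_⟩
  have hA' : ∀ i, p0 ∈ FUnbounded (A i) := fun i => down_FUnbounded _ _ (hA i) _ hp0
  obtain ⟨x, t, h1, h2, h3, h4, h5⟩ := H.run p0 (fun i t x t' => t' ∈ meets (A i x) ∧
      ∃ d, t.γ < d ∧ d < x ∧ t' ∈ meets (D d)) (by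
    intro i t ht
    obtain ⟨p1, hp1, d, hbd, hd⟩ := unbounded_of (down_FUnbounded D _ hD.1 _ ht) t.γ
    obtain ⟨p2, hp2, z, hdz, hz⟩ := unbounded_of
      (down_FUnbounded (A i) _ (hA' i) _ (hp1.trans ht)) d
    obtain ⟨p3, hp3, hz3⟩ := H.exists_gt p2 z
    exact ⟨z, p3, hp3.trans (hp2.trans hp1), hbd.trans hdz, hz3.le, down_meets _ _ hz _ hp3,
      d, hbd, hdz, down_meets _ _ hd _ (hp3.trans hp2)⟩)
  obtain ⟨h6, h7⟩ := h5 θ hθ
  have mono : ∀ i, ∀ k < i, x k < x i := fun i k hk => (h3 k).trans_lt (h2 i k hk).2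
  have hlim : Lim (x θ) := by
    obtain ⟨k, hk⟩ := hθ.1
    refine ⟨⟨x k, mono θ k hk⟩, fun b hb => ?_⟩
    by_contra hcon
    push Not at hcon
    refine absurd hb (not_lt.2 (h6.2 ?_))
    rintro _ ⟨l, hl, rfl⟩
    by_contra hbl
    exact absurd (hcon (x l) (not_le.1 hbl)) (not_le.2 (mono θ l hl))
  have hval : ∀ {r' : Cond X Λ} {i : Λ} {y : X},
      r' ∈ meets {_p : Cond X Λ | i < θ ∧ y = x i} → i < θ ∧ y = x i := fun h => meets_ground.1 h
  refine ⟨t θ, h1 θ, mem_fex_of_mem (x θ) (down_fand (down_fground _) (down_fex _))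
    ⟨hlim, ?_⟩⟩
  refine mem_fex_of_mem (fun i y => {_p : Cond X Λ | i < θ ∧ y = x i}) ?_ ⟨?_, ?_⟩
  · exact down_fand (down_fand (down_fall fun _ => down_fall fun _ => down_fex _)
      (down_fand (down_fall fun _ => down_fall fun _ => down_fimp _ _)
        (down_fand (down_fall fun _ => down_fall fun _ => down_fall fun _ => down_fall fun _ =>
          down_fimp _ _) (down_fall fun _ => down_fiff _ _))))
      (down_fall fun _ => down_fall fun _ => down_fall fun _ => down_fall fun _ =>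
        down_fall fun _ => down_fimp _ _)
  · refine ⟨fun i hi => mem_fex_of_mem (x i) (down_meets _) (meets_of_mem ⟨hi, rfl⟩),
      fun i y => mem_fimp.2 fun q' _ hq' => ⟨q', le_rfl, (hval hq').1⟩,
      fun i j y z => mem_fimp.2 fun q' _ hq' => ⟨q', le_rfl, ?_⟩, fun y => ⟨?_, ?_⟩⟩
    · obtain ⟨hi, rfl⟩ := hval hq'.1
      obtain ⟨hj, rfl⟩ := hval hq'.2
      exact ⟨fun hij => mono j i hij, fun hij => by rw [hij]⟩
    · refine mem_fimp.2 fun q' hq' hy => ⟨q', le_rfl, ?_⟩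
      have hy' := dec_CName hq' (h3 θ) hy
      rw [h7] at hy'
      obtain ⟨i, hi, rfl⟩ := hy'
      exact mem_fex_of_mem i (down_meets _) (meets_of_mem ⟨hi, rfl⟩)
    · refine mem_fimp.2 fun q' hq' hy => ?_
      obtain ⟨r', hr', i, hi⟩ := mem_fex.1 hy q' le_rfl
      obtain ⟨hiθ, rfl⟩ := hval hi
      refine ⟨r', hr', meets_CName (hr'.trans hq') (h3 θ) ?_⟩
      rw [h7]
      exact ⟨i, hiθ, rfl⟩
  · intro i j hij y z
    refine mem_fimp.2 fun q' hq' hyz => ⟨q', le_rfl, ?_⟩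
    obtain ⟨hi, rfl⟩ := hval hyz.1
    obtain ⟨hj, rfl⟩ := hval hyz.2
    obtain ⟨k1, d, k2, k3, k4⟩ := h4 i j hij
    have hqm : q' ≤ t j := hq'.trans (h2 θ j hj).1
    exact ⟨down_meets _ _ k1 _ hqm, mem_fex_of_mem d (down_fand (down_fground _) (down_meets _))
      ⟨⟨(h3 i).trans_lt k2, k3⟩, down_meets _ _ k4 _ hqm⟩⟩

theorem ostaszewski (H : Hyp X Λ) (p : Cond X Λ) : p ∈ FOstaszewski (Cond X Λ) Λ X :=
  mem_fex_of_mem (CName X Λ) (down_fand
    (down_fall fun _ => down_fall fun _ => down_fand (down_fand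
      (down_fall fun _ => down_fimp _ _) (down_fand (down_fand (down_fground _)
        (down_fall fun _ => down_fimp _ _)) (down_fall fun _ => down_fimp _ _)))
      (down_fand (down_fex _) (down_fall fun _ => down_fimp _ _)))
    (down_fall fun _ => down_fimp _ _)) ⟨square H p, guess H p⟩

end

/-- sets of size less than `κ` are bounded -/
theorem bdd_ord {κ : Cardinal.{0}} (hκ : κ.IsRegular) (S : Set κ.ord.ToType) (hS : #S < κ) :
    ∃ b, ∀ x ∈ S, x < b := by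
  have hinf := hκ.aleph0_le
  by_contra hcon
  push Not at hcon
  have h1 : (⋃ x : S, Set.Iic x.1) = Set.univ := by
    ext x
    simp only [Set.mem_iUnion, Set.mem_Iic, Set.mem_univ, iff_true]
    obtain ⟨y, hy, hxy⟩ := hcon x
    exact ⟨⟨y, hy⟩, hxy⟩
  have h2 : #(⋃ x : S, Set.Iic x.1) < κ := by
    rw [card_iUnion_lt_iff_forall_of_isRegular hκ hS]
    intro n
    have h3 : #(Set.Iio n.1) < κ := by simpa using mk_Iio_lt n.1
    have h4 : (Set.Iic n.1) = insert n.1 (Set.Iio n.1) := by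
      ext x
      simp only [Set.mem_Iic, Set.mem_insert_iff, Set.mem_Iio]
      exact le_iff_eq_or_lt
    rw [h4]
    exact lt_of_le_of_lt Cardinal.mk_insert_le
      (Cardinal.add_lt_of_lt hinf h3 (lt_of_lt_of_le Cardinal.one_lt_aleph0 hinf))
  rw [h1, mk_univ, mk_ord_toType] at h2
  exact lt_irrefl _ h2

theorem staysRegular {X Λ : Type} [LinearOrder X] [WellFoundedLT X] [LinearOrder Λ]
    [WellFoundedLT Λ] (H : Hyp X Λ) {κ : Cardinal.{0}} (hκ : κ.IsRegular)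
    (hle : ∀ ν < κ, ν ≤ #Λ) (p : Cond X Λ) : p ∈ StaysRegular (Cond X Λ) κ := by
  intro ν hν R
  refine mem_fimp.2 fun q _ hR => ?_
  have h1 : #ν.out ≤ #Λ := by
    rw [Cardinal.mk_out]
    exact hle ν hν
  obtain ⟨e⟩ := (Cardinal.le_def _ _).1 h1
  obtain ⟨t, ht, g, hg⟩ := H.decide e e.injective R q hR
  obtain ⟨b, hb⟩ := bdd_ord hκ (Set.range g) (by
    refine lt_of_le_of_lt Cardinal.mk_range_le ?_
    rw [Cardinal.mk_out]
    exact hν)
  refine ⟨t, ht, mem_fex_of_mem b (down_fall fun _ => down_fall fun _ => down_fimp _ _)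
    fun x z => mem_fimp.2 fun r' hr' hz => ⟨r', le_rfl, ?_⟩⟩
  have : g x = z := IsFun.unique (down_IsFun R _ hR _ (hr'.trans ht)) (down_meets _ _ (hg x) _ hr') hz
  rw [← this]
  exact hb _ ⟨x, rfl⟩

/-- initial segments of `κ⁺` are images of `κ` -/
theorem exists_surj {κ : Cardinal.{0}} (hκ : ℵ₀ ≤ κ) (a : (Order.succ κ).ord.ToType) :
    ∃ s : κ.ord.ToType → Set.Iic a, Function.Surjective s := by
  have h3 : #(Set.Iio a) < Order.succ κ := by simpa using mk_Iio_lt a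
  have h4 : (Set.Iic a) = insert a (Set.Iio a) := by
    ext x
    simp only [Set.mem_Iic, Set.mem_insert_iff, Set.mem_Iio]
    exact le_iff_eq_or_lt
  have h5 : #(Set.Iic a) ≤ #κ.ord.ToType := by
    rw [h4, mk_ord_toType]
    exact Cardinal.mk_insert_le.trans (Cardinal.add_le_of_le hκ (Order.lt_succ_iff.1 h3)
      (Cardinal.one_le_aleph0.trans hκ))
  obtain ⟨e⟩ := (Cardinal.le_def _ _).1 h5
  have : Nonempty (Set.Iic a) := ⟨⟨a, Set.mem_Iic.2 le_rfl⟩⟩
  exact ⟨Function.invFun e, Function.invFun_surjective e.injective⟩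

theorem hyp {κ : Cardinal.{0}} (hκ : ℵ₀ ≤ κ) :
    Hyp (Order.succ κ).ord.ToType κ.ord.ToType := by
  have hreg : (Order.succ κ).IsRegular := Cardinal.isRegular_succ hκ
  have hκ0 : κ ≠ 0 := (Cardinal.aleph0_pos.trans_le hκ).ne'
  have hne : Nonempty κ.ord.ToType := by
    rw [← Cardinal.mk_ne_zero_iff, mk_ord_toType]
    exact hκ0
  have hgt : ∀ i : κ.ord.ToType, ∃ j, i < j := by
    intro i
    by_contra hcon
    push Not at hcon
    have h3 : #(Set.Iio i) < κ := by simpa using mk_Iio_lt i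
    have h4 : (Set.univ : Set κ.ord.ToType) = insert i (Set.Iio i) := by
      ext x
      simp only [Set.mem_univ, Set.mem_insert_iff, Set.mem_Iio, true_iff]
      exact (hcon x).eq_or_lt
    have h5 : #(Set.univ : Set κ.ord.ToType) < κ := by
      rw [h4]
      exact lt_of_le_of_lt Cardinal.mk_insert_le (Cardinal.add_lt_of_lt hκ h3
        (Cardinal.one_lt_aleph0.trans_le hκ))
    rw [mk_univ, mk_ord_toType] at h5
    exact lt_irrefl _ h5
  refine ⟨hne, fun i => ?_, fun g => ?_, fun a => ?_⟩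
  · have hn : {j | i < j}.Nonempty := hgt i
    exact ⟨(wellFounded_lt (α := κ.ord.ToType)).min _ hn,
      (wellFounded_lt (α := κ.ord.ToType)).min_mem _ hn,
      fun k hk hk2 => (wellFounded_lt (α := κ.ord.ToType)).not_lt_min _ hk hk2⟩
  · obtain ⟨b, hb⟩ := bdd_ord hreg (Set.range g) (by
      refine lt_of_le_of_lt Cardinal.mk_range_le ?_
      rw [mk_ord_toType]
      exact Order.lt_succ κ)
    exact ⟨b, fun k => hb _ ⟨k, rfl⟩⟩
  · obtain ⟨s, hs⟩ := exists_surj hκ a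
    refine ⟨fun i => (s i).1, fun b hb => ?_⟩
    obtain ⟨i, hi⟩ := hs ⟨b, hb.le⟩
    exact ⟨i, congrArg Subtype.val hi⟩

end Pool.Agent.R906.OS
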