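import Mathlib

/-!
# Quotient presentations of smooth stacks with a good moduli space

Let `A` be a ring graded by an abelian group `M`, so that the diagonalizable group `G = D(M)` acts
on `Spec A`, and let `g i` be a family of homogeneous elements of `A`. Put `U i = D(g i)`, a
`G`-stable affine open subset of `Spec A` with coordinate ring `Localization.Away (g i)`, and
`X i = Spec (Away 𝒜 (g i))`, where `Away 𝒜 (g i)` is the ring of elements of degree zero of
`Localization.Away (g i)`, that is, the ring of `G`-invariants. Let `U` be the union of the `U i`.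

If `U i ∩ U j` is the inverse image of a principal open subset of `X i` for all `i, j` (`Glues`),
the `X i` glue to a scheme `X`, and `π : U → X` is a good quotient: `X` is the good moduli space of
the stack `𝒳 = [U / G]`, covered by the open affine subsets `X i` with `π⁻¹ (X i) = U i`.
-/

set_option autoImplicit false

open HomogeneousLocalization

namespace Pool.Agent.R906

variable {A : Type*} [CommRing A] {M : Type*} [AddCommGroup M] [DecidableEq M]
  {τ : Type*} [SetLike τ A] [AddSubgroupClass τ A] (𝒜 : M → τ) [GradedRing 𝒜]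
  {ι : Type*} (g : ι → A)

/-- For all `i, j` the open subset `U i ∩ U j = D(g j)` of `U i = Spec (Localization.Away (g i))` is
the inverse image of the principal open subset `D(r)` of `X i = Spec (Away 𝒜 (g i))`, for some
function `r` on `X i`. Hence the `X i` glue to a scheme `X`, along principal open subsets, and
`π⁻¹ (X i) = U i`. -/
def Glues : Prop :=
  ∀ i j, ∃ r : Away 𝒜 (g i),
    PrimeSpectrum.basicOpen (algebraMap A (Localization.Away (g i)) (g j)) =
      PrimeSpectrum.basicOpen (algebraMap (Away 𝒜 (g i)) (Localization.Away (g i)) r)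

/-- The scheme `X` is separated: for all `i, j` the coordinate ring `Away 𝒜 (g i * g j)` of
`X i ∩ X j` is generated by the functions on `X i` and the functions on `X j`. -/
def SeparatedModuli (d : ι → M) (hg : ∀ i, g i ∈ 𝒜 (d i)) : Prop :=
  ∀ i j, (awayMap 𝒜 (hg j) (rfl : g i * g j = g i * g j)).range ⊔
    (awayMap 𝒜 (hg i) (mul_comm (g i) (g j))).range = ⊤

/-- Over some non-empty principal open subset `D(r)` of some `X i`, with inverse image `D(h)` in
`U i`, there are invertible homogeneous functions of all degrees. Hence `π⁻¹ (D(r))` is `G × D(r)`,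
so that the non-empty saturated open substack `[π⁻¹ (D(r)) / G]` of `𝒳` is the scheme `D(r)`; in
particular `𝒳` is properly stable. -/
def HasTrivialOpen : Prop :=
  ∃ (i : ι) (h : A) (r : Away 𝒜 (g i)), ¬ IsNilpotent h ∧ g i ∣ h ∧
    PrimeSpectrum.basicOpen (algebraMap A (Localization.Away (g i)) h) =
      PrimeSpectrum.basicOpen (algebraMap (Away 𝒜 (g i)) (Localization.Away (g i)) r) ∧
    AddSubgroup.closure {m : M | ∃ a ∈ 𝒜 m, ∃ n : ℕ, a ∣ h ^ n} = ⊤

/-- The integral closed substacks of `𝒳 = [U / G]` of codimension `k` (`M` torsion free): they are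
given by the homogeneous prime ideals `P` of height `k` of `A` whose zero set meets `U`. -/
structure IntegralSubstack (k : ℕ) where
  /-- the homogeneous prime ideal -/
  ideal : Ideal A
  isPrime : ideal.IsPrime
  isHomogeneous : ideal.IsHomogeneous 𝒜
  height_eq : ideal.height = k
  meets : ∃ i, g i ∉ ideal

variable {𝒜 g}

namespace IntegralSubstack

variable {k : ℕ} (Z : IntegralSubstack 𝒜 g k)

/-- The ideal of `Z` in the coordinate ring of `U i`. -/
def chartIdeal (i : ι) : Ideal (Localization.Away (g i)) :=
  Z.ideal.map (algebraMap A (Localization.Away (g i)))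

/-- The ideal of `π(Z) ∩ X i` in the coordinate ring of `X i`. -/
def imageIdeal (i : ι) : Ideal (Away 𝒜 (g i)) :=
  (Z.chartIdeal i).comap (algebraMap (Away 𝒜 (g i)) (Localization.Away (g i)))

/-- The ideal of the closed substack `π⁻¹ (π(Z))` in the coordinate ring of `U i`. -/
def saturatedIdeal (i : ι) : Ideal (Localization.Away (g i)) :=
  (Z.imageIdeal i).map (algebraMap (Away 𝒜 (g i)) (Localization.Away (g i)))

/-- `Z` is strong: `Z = π⁻¹ (π(Z))` as closed substacks of `𝒳`. -/
def IsStrong : Prop :=
  ∀ i, Z.saturatedIdeal i = Z.chartIdeal i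

/-- `Z` is primarily strong: `Z` is the reduction of `π⁻¹ (π(Z))`, and `π⁻¹ (π(Z))` has no embedded
components. That is, on each `U i` which meets `Z` the ideal of `π⁻¹ (π(Z))` is primary, and its
radical is the ideal of `Z`. -/
def IsPrimarilyStrong : Prop :=
  ∀ i, Z.chartIdeal i ≠ ⊤ → (Z.saturatedIdeal i).IsPrimary ∧
    (Z.saturatedIdeal i).radical = Z.chartIdeal i

/-- The order of vanishing of `a` along the prime divisor `Z` (of a factorial ring `A`): the largest
`n` such that `a` is in the `n`-th power of the (principal) ideal of `Z`. -/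
noncomputable def ord (Z : IntegralSubstack 𝒜 g 1) (a : A) : ℕ :=
  sSup {n : ℕ | a ∈ Z.ideal ^ n}

end IntegralSubstack

/-- The divisor `D` with rational coefficients is zero in `A¹(𝒳) ⊗ ℚ`: a positive multiple `N D` is
the divisor of a non-zero rational function on `𝒳`, that is, of a fraction `a / b` of homogeneous
elements of `A` of the same degree. -/
def RatEquivZero (D : IntegralSubstack 𝒜 g 1 →₀ ℚ) : Prop :=
  ∃ (N : ℕ) (m : M) (a b : A), 0 < N ∧ a ∈ 𝒜 m ∧ b ∈ 𝒜 m ∧ a ≠ 0 ∧ b ≠ 0 ∧
    ∀ Z : IntegralSubstack 𝒜 g 1, N * D Z = (Z.ord a : ℚ) - Z.ord b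

end Pool.Agent.R906
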