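import Pool.Agent.R906.QDefs

/-!
# Line bundles which descend to the good moduli space
-/

set_option autoImplicit false

open HomogeneousLocalization

namespace Pool.Agent.R906

variable {A : Type*} [CommRing A] {M : Type*} [AddCommGroup M] [DecidableEq M]
  {τ : Type*} [SetLike τ A] [AddSubgroupClass τ A] (𝒜 : M → τ) [GradedRing 𝒜]
  {ι : Type*} (g : ι → A)

/-- The line bundle `O(m)` on `𝒳 = [U / G]` given by the character `m` (the homogeneous elements of
degree `m` are its sections) is the pullback of a line bundle on `X`: over every `U i` there is an
invertible homogeneous function `u / (g i) ^ k` of degree `m`. -/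
def Descends (d : ι → M) (m : M) : Prop :=
  ∀ i, ∃ (k : ℕ) (u : A), u ∈ 𝒜 (m + k • d i) ∧
    IsUnit (algebraMap A (Localization.Away (g i)) u)

end Pool.Agent.R906
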