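import Pool.Agent.R906.QEx

set_option autoImplicit false

open HomogeneousLocalization MvPolynomial

namespace Pool.Agent.R906

variable {K : Type*} [Field K]

theorem mon_dvd {s t : Fin 7 → ℕ} (h : ∀ ρ, s ρ ≤ t ρ) : mon K s ∣ mon K t := by
  refine ⟨mon K (fun ρ => t ρ - s ρ), ?_⟩
  rw [mon_mul]
  congr 1
  funext ρ
  have := h ρ
  omega

theorem mon_ne_zero (s : Fin 7 → ℕ) : mon K s ≠ 0 := by
  rw [mon, Finset.prod_ne_zero_iff]
  intro ρ _
  exact pow_ne_zero _ (X_ne_zero ρ)

theorem X_eq_mon (ρ : Fin 7) : (X ρ : MvPolynomial (Fin 7) K) = mon K (Pi.single ρ 1) := by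
  rw [mon, Finset.prod_eq_single ρ]
  · simp
  · intro σ _ hσ
    simp [Pi.single_eq_of_ne hσ]
  · simp

theorem chart_ne_zero (i : Fin 4) : chart K i ≠ 0 := by
  rw [chart_eq]
  exact mon_ne_zero _

theorem ex_trivialOpen : HasTrivialOpen (gr K) (chart K) := by
  refine ⟨0, mon K (fun _ => 1), Away.mk (gr K) (chart_mem 0) 7 (mon K (nexp 0 1)) (ex_N_mem 0 1),
    ?_, ?_, ?_, ?_⟩
  · intro h
    exact mon_ne_zero _ h.eq_zero
  · rw [chart_eq]
    apply mon_dvd
    intro ρ
    rw [ind]
    split_ifs <;> omega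
  · rw [basicOpen_mk]
    have hu : IsUnit (algebraMap (MvPolynomial (Fin 7) K) (Localization.Away (chart K 0))
        (chart K 0)) := IsLocalization.Away.algebraMap_isUnit _
    ext q
    simp only [SetLike.mem_coe, PrimeSpectrum.mem_basicOpen, not_iff_not]
    constructor
    · intro h
      have h1 : mon K (fun _ => 1) ∣ mon K (nexp 0 1) * chart K 0 := by
        rw [chart_eq, mon_mul]
        apply mon_dvd
        decide
      have h2 := Ideal.mem_of_dvd _ (map_dvd (algebraMap (MvPolynomial (Fin 7) K)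
        (Localization.Away (chart K 0))) h1) h
      rw [map_mul] at h2
      exact (Ideal.mul_unit_mem_iff_mem _ hu).mp h2
    · intro h
      have h1 : mon K (nexp 0 1) ∣ mon K (fun _ => 1) ^ 12 := by
        rw [mon_pow]
        apply mon_dvd
        decide
      have h2 := Ideal.mem_of_dvd _ (map_dvd (algebraMap (MvPolynomial (Fin 7) K)
        (Localization.Away (chart K 0))) h1) h
      rw [map_pow] at h2
      exact q.isPrime.mem_of_pow_mem _ h2
  · have key : ∀ ρ, wt ρ ∈ AddSubgroup.closure {m : Fin 4 → ℤ | ∃ a ∈ gr K m, ∃ n : ℕ,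
        a ∣ mon K (fun _ => 1) ^ n} := by
      intro ρ
      apply AddSubgroup.subset_closure
      refine ⟨X ρ, isWeightedHomogeneous_X K wt ρ, 1, ?_⟩
      rw [pow_one, X_eq_mon]
      apply mon_dvd
      intro σ
      by_cases h : σ = ρ
      · subst h
        simp
      · simp [Pi.single_eq_of_ne h]
    rw [eq_top_iff]
    rintro m -
    have hm : m = (m 0 + m 2) • wt 3 + (m 1 - 2 * m 2) • wt 4 + m 2 • wt 0 +
        (m 3 + m 2) • wt 6 := by
      funext c
      fin_cases c <;> simp [wt] <;> ring
    rw [hm]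
    exact add_mem (add_mem (add_mem (zsmul_mem (key 3) _) (zsmul_mem (key 4) _))
      (zsmul_mem (key 0) _)) (zsmul_mem (key 6) _)

theorem exists_mem_cone : ∀ ρ, ∃ i, ρ ∈ cone i := by decide

/-- A prime element does not divide all charts. -/
theorem prime_meets {f : MvPolynomial (Fin 7) K} (hf : Prime f) :
    ∃ i, chart K i ∉ Ideal.span {f} := by
  by_contra hcon
  push Not at hcon
  simp only [Ideal.mem_span_singleton] at hcon
  obtain ⟨ρ, -, hρ⟩ := hf.exists_mem_finset_dvd (hcon 0)
  have h1 : Associated f (X ρ) := hf.irreducible.associated_of_dvd X_prime.irreducible hρ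
  obtain ⟨i, hi⟩ := exists_mem_cone ρ
  have h2 : (X ρ : MvPolynomial (Fin 7) K) ∣ chart K i := h1.dvd_iff_dvd_left.mp (hcon i)
  obtain ⟨σ, hσ, h3⟩ := (X_prime (R := K) (i := ρ)).exists_mem_finset_dvd h2
  rw [X_dvd_X] at h3
  subst h3
  simp at hσ
  exact hσ hi

/-- The integral substack defined by a homogeneous prime element. -/
noncomputable def ofPrime {f : MvPolynomial (Fin 7) K} (hf : Prime f) {m : Fin 4 → ℤ}
    (hm : f ∈ gr K m) : IntegralSubstack (gr K) (chart K) 1 where
  ideal := Ideal.span {f}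
  isPrime := (Ideal.span_singleton_prime hf.ne_zero).mpr hf
  isHomogeneous := Ideal.homogeneous_span _ _ (by
    rintro _ rfl
    exact ⟨m, hm⟩)
  height_eq := by
    rw [Ideal.height_span_singleton_eq_one_of_mem_nonZeroDivisors
      (mem_nonZeroDivisors_of_ne_zero hf.ne_zero) hf.not_unit]
    simp
  meets := prime_meets hf

/-- The generator of a homogeneous principal ideal is homogeneous. -/
theorem homogeneous_of_span {f : MvPolynomial (Fin 7) K} (hf : f ≠ 0)
    (h : (Ideal.span {f}).IsHomogeneous (gr K)) : ∃ m, f ∈ gr K m := by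
  have h1 : ∃ m, weightedHomogeneousComponent wt m f ≠ 0 := by
    by_contra hcon
    push Not at hcon
    apply hf
    rw [← sum_weightedHomogeneousComponent wt f]
    simp [hcon]
  obtain ⟨m, hm⟩ := h1
  refine ⟨m, ?_⟩
  have h2 : weightedHomogeneousComponent wt m f ∈ Ideal.span {f} := by
    have := h m (Ideal.mem_span_singleton_self f)
    rwa [← weightedDecomposition.decompose'_apply]
  rw [Ideal.mem_span_singleton] at h2
  obtain ⟨c, hc⟩ := h2
  have hc0 : c ≠ 0 := by
    rintro rfl
    rw [mul_zero] at hc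
    exact hm hc
  have h3 : (weightedHomogeneousComponent wt m f).totalDegree ≤ f.totalDegree := by
    apply totalDegree_le_of_support_subset
    intro d hd
    rw [mem_support_iff, coeff_weightedHomogeneousComponent] at hd
    rw [mem_support_iff]
    intro h0
    apply hd
    rw [h0]
    simp
  rw [hc, totalDegree_mul_of_isDomain hf hc0] at h3
  have h4 : c.totalDegree = 0 := by omega
  rw [totalDegree_eq_zero_iff_eq_C] at h4
  have hc1 : c.coeff 0 ≠ 0 := by
    intro h5
    rw [h5, map_zero] at h4
    exact hc0 h4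
  have h6 : f = C (c.coeff 0)⁻¹ * weightedHomogeneousComponent wt m f := by
    rw [hc, h4]
    simp only [coeff_zero_C]
    rw [mul_comm f, ← mul_assoc, ← C_mul, inv_mul_cancel₀ hc1, C_1, one_mul]
  rw [h6, ← smul_eq_C_mul]
  exact Submodule.smul_mem _ _ (weightedHomogeneousComponent_mem wt f m)

/-- Every integral substack of codimension one is given by a homogeneous prime element. -/
theorem exists_prime (Y : IntegralSubstack (gr K) (chart K) 1) :
    ∃ f : MvPolynomial (Fin 7) K, Prime f ∧ Y.ideal = Ideal.span {f} ∧ ∃ m, f ∈ gr K m := by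
  have := Y.isPrime
  have h1 : Y.ideal.height = 1 := by
    rw [Y.height_eq]
    simp
  have h2 := UniqueFactorizationMonoid.isPrincipal_of_height_eq_one h1
  obtain ⟨f, hf⟩ := h2
  rw [Ideal.submodule_span_eq] at hf
  have h0 : f ≠ 0 := by
    rintro rfl
    apply Ideal.ne_bot_of_height_eq_one h1
    rw [hf]
    simp
  refine ⟨f, ?_, hf, ?_⟩
  · rw [← Ideal.span_singleton_prime h0, ← hf]
    exact Y.isPrime
  · apply homogeneous_of_span h0
    rw [← hf]
    exact Y.isHomogeneous

end Pool.Agent.R906
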