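import Pool.Agent.R906.QGen

/-!
# The toric example: a belt of three quadrilateral cones and a doubled ray
-/

set_option autoImplicit false

open HomogeneousLocalization MvPolynomial

namespace Pool.Agent.R906

/-- The weights of the action of `G_m ^ 4` on `A ^ 7`. -/
def wt : Fin 7 → (Fin 4 → ℤ) :=
  ![![-1, 2, 1, -1], ![2, -2, 2, 1], ![0, -1, -2, 2], ![1, 0, 0, 0], ![0, 1, 0, 0],
    ![1, 0, 2, 0], ![0, 0, 0, 1]]

/-- The four maximal cones. -/
def cone : Fin 4 → Finset (Fin 7) :=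
  ![{0}, {1, 2, 4, 5}, {2, 3, 5, 6}, {1, 3, 4, 6}]

/-- The characters of the four charts. -/
def chartDeg (i : Fin 4) : Fin 4 → ℤ := ∑ ρ ∈ (cone i)ᶜ, wt ρ

/-- Exponent of the function `h i j`. -/
def hexp : Fin 4 → Fin 4 → Fin 7 → ℕ :=
  ![![![0, 6, 6, 6, 6, 6, 6], ![1, 6, 6, 11, 0, 6, 11], ![1, 11, 6, 6, 11, 0, 6],
      ![1, 6, 11, 6, 6, 11, 0]],
    ![![5, 0, 0, 1, 6, 0, 1], ![6, 0, 0, 6, 0, 0, 6], ![4, 0, 0, 3, 5, 0, 4],
      ![8, 0, 3, 6, 0, 2, 1]],
    ![![5, 1, 0, 0, 1, 6, 0], ![8, 6, 0, 3, 1, 0, 2], ![6, 6, 0, 0, 6, 0, 0],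
      ![4, 3, 0, 0, 4, 5, 0]],
    ![![5, 0, 1, 0, 0, 1, 6], ![4, 0, 3, 0, 0, 4, 5], ![8, 3, 6, 0, 2, 1, 0],
      ![6, 0, 6, 0, 0, 6, 0]]]

/-- The indicator function of the complement of a cone. -/
def ind (i : Fin 4) (ρ : Fin 7) : ℕ := if ρ ∈ cone i then 0 else 1

/-- Exponent of the function `N i j`. -/
def nexp (i j : Fin 4) (ρ : Fin 7) : ℕ := hexp i j ρ + ind j ρ

/-- The weight of an exponent vector. -/
def degv (v : Fin 7 → ℤ) : Fin 4 → ℤ := fun c => ∑ ρ, v ρ * wt ρ c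

theorem nexp_add : ∀ i j ρ, nexp i j ρ + nexp j i ρ = 7 * ind i ρ + 7 * ind j ρ := by
  decide

theorem degv_nexp : ∀ i j c, degv (fun ρ => nexp i j ρ) c = 7 * chartDeg i c := by
  decide

theorem degv_hexp : ∀ i j c, degv (fun ρ => hexp i j ρ) c = 7 * chartDeg i c - chartDeg j c := by
  decide

variable (K : Type*) [Field K]

/-- The grading of the polynomial ring. -/
abbrev gr : (Fin 4 → ℤ) → Submodule K (MvPolynomial (Fin 7) K) := weightedHomogeneousSubmodule K wt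

noncomputable instance : GradedAlgebra (gr K) := weightedGradedAlgebra K wt

/-- The functions which define the charts. -/
noncomputable def chart (i : Fin 4) : MvPolynomial (Fin 7) K := ∏ ρ ∈ (cone i)ᶜ, X ρ

/-- The monomial with given exponents. -/
noncomputable def mon (s : Fin 7 → ℕ) : MvPolynomial (Fin 7) K := ∏ ρ, X ρ ^ s ρ

variable {K}

theorem mon_mul (s t : Fin 7 → ℕ) : mon K s * mon K t = mon K (fun ρ => s ρ + t ρ) := by
  simp only [mon, pow_add, Finset.prod_mul_distrib]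

theorem mon_pow (s : Fin 7 → ℕ) (n : ℕ) : mon K s ^ n = mon K (fun ρ => n * s ρ) := by
  simp only [mon, pow_mul', Finset.prod_pow]

theorem chart_eq (i : Fin 4) : chart K i = mon K (ind i) := by
  simp only [chart, mon, ind]
  rw [← Finset.prod_subset (Finset.subset_univ (cone i)ᶜ)]
  · refine Finset.prod_congr rfl fun ρ hρ => ?_
    rw [if_neg (by simpa using hρ), pow_one]
  · intro ρ _ hρ
    rw [if_pos (by simpa using hρ), pow_zero]

theorem mon_mem (s : Fin 7 → ℕ) : mon K s ∈ gr K (∑ ρ, s ρ • wt ρ) := by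
  refine SetLike.prod_mem_graded (A := gr K) (fun ρ => s ρ • wt ρ)
    (fun ρ => X ρ ^ s ρ) ?_
  intro ρ _
  exact SetLike.pow_mem_graded (A := gr K) _ (isWeightedHomogeneous_X K wt ρ)

theorem mon_mem' (s : Fin 7 → ℕ) (m : Fin 4 → ℤ) (h : ∀ c, degv (fun ρ => s ρ) c = m c) :
    mon K s ∈ gr K m := by
  have : (∑ ρ, s ρ • wt ρ) = m := by
    funext c
    rw [← h c]
    simp [degv, Finset.sum_apply]
  rw [← this]
  exact mon_mem s

theorem chart_mem (i : Fin 4) : chart K i ∈ gr K (chartDeg i) := by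
  refine SetLike.prod_mem_graded (A := gr K) wt (fun ρ => X ρ) ?_
  intro ρ _
  exact isWeightedHomogeneous_X K wt ρ

theorem ex_NN (i j : Fin 4) :
    mon K (nexp i j) * mon K (nexp j i) = chart K i ^ 7 * chart K j ^ 7 := by
  rw [chart_eq, chart_eq, mon_mul, mon_pow, mon_pow, mon_mul]
  congr 1
  funext ρ
  exact nexp_add i j ρ

theorem ex_Nh (i j : Fin 4) : mon K (nexp i j) = chart K j * mon K (hexp i j) := by
  rw [chart_eq, mon_mul]
  congr 1
  funext ρ
  rw [nexp, add_comm]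

theorem ex_N_mem (i j : Fin 4) : mon K (nexp i j) ∈ gr K (7 • chartDeg i) := by
  apply mon_mem'
  intro c
  rw [degv_nexp]
  simp

theorem ex_h_mem (i j : Fin 4) : mon K (hexp i j) ∈ gr K (7 • chartDeg i - chartDeg j) := by
  apply mon_mem'
  intro c
  rw [degv_hexp]
  simp

theorem ex_glues : Glues (gr K) (chart K) := by
  intro i j
  exact ⟨_, glue_pair (chart_mem i) (ex_N_mem i j) (ex_Nh i j) (ex_NN i j)⟩

theorem ex_separated : SeparatedModuli (gr K) (chart K) chartDeg chart_mem := by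
  intro i j
  refine sep_pair (chart_mem i) (chart_mem j) (ex_N_mem j i) (ex_h_mem i j) ?_
  rw [← ex_Nh]
  exact ex_NN i j

end Pool.Agent.R906
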