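import Pool.Agent.R906.QTorB
import Pool.Agent.R906.QDefsB

/-!
# The second toric example
-/

set_option autoImplicit false

open HomogeneousLocalization MvPolynomial

namespace Pool.Agent.R906.ExB

open Tor

/-- The weights of the action of `G_m ^ 5` on `A ^ 8`. -/
def wt : Fin 8 → (Fin 5 → ℤ) :=
  ![![-3, 4, 1, -2, -1], ![4, -6, 0, 3, 1], ![1, -1, -1, 2, -1], ![1, 0, 0, 0, 0],
    ![0, 1, 0, 0, 0], ![0, 0, 1, 0, 0], ![0, 0, 0, 1, 0], ![0, 0, 0, 0, 1]]

/-- The four maximal cones. -/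
def cone : Fin 4 → Finset (Fin 8) :=
  ![{0, 1, 2, 7}, {1, 2, 4, 5}, {2, 3, 5, 6}, {1, 3, 4, 6}]

/-- Exponent of the function `h i j`. -/
def hexp : Fin 4 → Fin 4 → Fin 8 → ℕ :=
  ![![![0, 0, 0, 9, 9, 9, 9, 0], ![0, 0, 0, 12, 6, 9, 11, 0], ![4, 3, 0, 9, 13, 5, 8, 0],
      ![1, 0, 6, 9, 9, 14, 0, 8]],
    ![![9, 0, 0, 6, 3, 0, 7, 9], ![9, 0, 0, 9, 0, 0, 9, 9], ![9, 0, 0, 6, 5, 0, 7, 8],
      ![10, 0, 3, 9, 0, 2, 4, 14]],
    ![![5, 6, 0, 0, 5, 4, 1, 9], ![9, 9, 0, 3, 4, 0, 2, 10], ![9, 9, 0, 0, 9, 0, 0, 9],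
      ![4, 6, 0, 0, 7, 5, 0, 9]],
    ![![8, 0, 3, 0, 0, 4, 9, 1], ![8, 0, 6, 0, 0, 7, 5, 4], ![14, 3, 9, 0, 2, 4, 0, 9],
      ![9, 0, 9, 0, 0, 9, 0, 9]]]

theorem nexp_add : ∀ i j ρ, nexp cone hexp i j ρ + nexp cone hexp j i ρ =
    10 * ind cone i ρ + 10 * ind cone j ρ := by
  decide

theorem degv_hexp : ∀ i j e, degv wt (fun ρ => hexp i j ρ) e =
    (10 : ℕ) * chartDeg wt cone i e - chartDeg wt cone j e := by
  decide

variable {K : Type*} [Field K]

theorem ex_glues : Glues (gr wt K) (chart cone K) := glues nexp_add degv_hexp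

theorem ex_separated :
    SeparatedModuli (gr wt K) (chart cone K) (chartDeg wt cone) (chart_mem wt cone) :=
  separated nexp_add degv_hexp

theorem closure_wt : AddSubgroup.closure (Set.range wt) = ⊤ := by
  have key : ∀ ρ, wt ρ ∈ AddSubgroup.closure (Set.range wt) := fun ρ =>
    AddSubgroup.subset_closure ⟨ρ, rfl⟩
  rw [eq_top_iff]
  rintro m -
  have hm : m = m 0 • wt 3 + m 1 • wt 4 + m 2 • wt 5 + m 3 • wt 6 + m 4 • wt 7 := by
    funext e
    fin_cases e <;> simp [wt]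
  rw [hm]
  exact add_mem (add_mem (add_mem (add_mem (zsmul_mem (key 3) _) (zsmul_mem (key 4) _))
    (zsmul_mem (key 5) _)) (zsmul_mem (key 6) _)) (zsmul_mem (key 7) _)

theorem ex_trivialOpen : HasTrivialOpen (gr wt K) (chart cone K) :=
  trivialOpen 0 ![2, 1, 1, 2, 0, 0, 0, 2] 1 2 (by decide) (by decide) (by decide) closure_wt

theorem hc : ∀ ρ, ∃ i, ρ ∈ cone i := by decide

theorem degv_eqs (v : Fin 8 → ℤ) : degv wt v 0 = -3 * v 0 + 4 * v 1 + v 2 + v 3 ∧
    degv wt v 1 = 4 * v 0 - 6 * v 1 - v 2 + v 4 ∧ degv wt v 2 = v 0 - v 2 + v 5 ∧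
    degv wt v 3 = - 2 * v 0 + 3 * v 1 + 2 * v 2 + v 6 ∧
    degv wt v 4 = - v 0 + v 1 - v 2 + v 7 := by
  refine ⟨?_, ?_, ?_, ?_, ?_⟩ <;> simp [degv, Fin.sum_univ_succ, wt] <;> ring

/-- There are no primarily strong integral substacks of codimension one. -/
theorem not_pst (Y : IntegralSubstack (gr wt K) (chart cone K) 1) : ¬ Y.IsPrimarilyStrong := by
  intro hst
  obtain ⟨f, hf, hY, m, hm⟩ := exists_prime Y
  obtain ⟨N0, v0, p0, h00, h01⟩ := pst_lemma hst hY hf.ne_zero hm 0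
  obtain ⟨N1, v1, p1, h10, h11⟩ := pst_lemma hst hY hf.ne_zero hm 1
  obtain ⟨N2, v2, p2, h20, h21⟩ := pst_lemma hst hY hf.ne_zero hm 2
  obtain ⟨N3, v3, p3, h30, h31⟩ := pst_lemma hst hY hf.ne_zero hm 3
  have key : ∀ s : Fin 8 →₀ ℕ, coeff s f ≠ 0 → (s 1 = 0 ∧ s 2 = 0 ∧ s 3 = 0 ∧ s 4 = 0 ∧ s 5 = 0 ∧
      s 6 = 0) ∧ 3 * (s 0 : ℤ) = - m 0 ∧ s 7 = s 0 := by
    intro s hs
    have hw := hm hs
    have hw0 : ∀ c, degv wt (fun ρ => s ρ) c = m c := fun c => by rw [← weight_eq, hw]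
    obtain ⟨e0, e1, e2, e3, e4⟩ := degv_eqs (fun ρ => s ρ)
    obtain ⟨a0, a1, a2, a3, a4⟩ := degv_eqs v0
    obtain ⟨b0, b1, b2, b3, b4⟩ := degv_eqs v1
    obtain ⟨c0, c1, c2, c3, c4⟩ := degv_eqs v2
    obtain ⟨d0, d1, d2, d3, d4⟩ := degv_eqs v3
    rw [hw0] at e0 e1 e2 e3 e4
    rw [h01] at a0 a1 a2 a3 a4
    rw [h11] at b0 b1 b2 b3 b4
    rw [h21] at c0 c1 c2 c3 c4
    rw [h31] at d0 d1 d2 d3 d4
    have z00 := h00 0 (by decide)
    have z01 := h00 1 (by decide)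
    have z02 := h00 2 (by decide)
    have z07 := h00 7 (by decide)
    have z11 := h10 1 (by decide)
    have z12 := h10 2 (by decide)
    have z14 := h10 4 (by decide)
    have z15 := h10 5 (by decide)
    have z22 := h20 2 (by decide)
    have z23 := h20 3 (by decide)
    have z25 := h20 5 (by decide)
    have z26 := h20 6 (by decide)
    have z31 := h30 1 (by decide)
    have z33 := h30 3 (by decide)
    have z34 := h30 4 (by decide)
    have z36 := h30 6 (by decide)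
    have r1' : (N1 : ℤ) * (-6 * (s 1 : ℤ) + 3 * s 2 + s 4 - 4 * s 5) = 0 := by
      linear_combination -(N1 * e1 + b1) + 4 * (N1 * e2 + b2) + 6 * z11 - 3 * z12 - z14 + 4 * z15
    have r2' : (N2 : ℤ) * (-6 * (s 2 : ℤ) + 3 * s 3 + s 5 - 4 * s 6) = 0 := by
      linear_combination -3 * (N2 * e0 + c0) - (N2 * e2 + c2) + 4 * (N2 * e3 + c3) + 6 * z22 -
        3 * z23 - z25 + 4 * z26
    have r3' : (N3 : ℤ) * (-6 * (s 3 : ℤ) + 3 * s 1 + s 6 - 4 * s 4) = 0 := by
      linear_combination 6 * (N3 * e0 + d0) + 4 * (N3 * e1 + d1) - (N3 * e3 + d3) + 6 * z33 -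
        3 * z31 - z36 + 4 * z34
    have r0' : (N0 : ℤ) * ((s 0 : ℤ) + s 2 - s 7 - s 1) = 0 := by
      linear_combination (N0 * e4 + a4) - z00 - z02 + z07 + z01
    have r1 := (mul_eq_zero.mp r1').resolve_left (by exact_mod_cast p1.ne')
    have r2 := (mul_eq_zero.mp r2').resolve_left (by exact_mod_cast p2.ne')
    have r3 := (mul_eq_zero.mp r3').resolve_left (by exact_mod_cast p3.ne')
    have r0 := (mul_eq_zero.mp r0').resolve_left (by exact_mod_cast p0.ne')
    clear a0 a1 a2 a3 a4 b0 b1 b2 b3 b4 c0 c1 c2 c3 c4 d0 d1 d2 d3 d4 z00 z01 z02 z07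
    clear z11 z12 z14 z15 z22 z23 z25 z26 z31 z33 z34 z36 h01 h11 h21 h31 h00 h10 h20 h30 hw0
    clear e1 e2 e3 e4 r0' r1' r2' r3'
    have hz : (s 1 = 0 ∧ s 2 = 0 ∧ s 3 = 0 ∧ s 4 = 0 ∧ s 5 = 0 ∧ s 6 = 0) := by
      omega
    obtain ⟨g1, g2, g3, g4, g5, g6⟩ := hz
    refine ⟨⟨g1, g2, g3, g4, g5, g6⟩, ?_, ?_⟩
    · rw [g1, g2, g3] at e0
      simp only [Nat.cast_zero] at e0
      linear_combination e0
    · omega
  obtain ⟨s, hs⟩ := ne_zero_iff.mp hf.ne_zero
  have hsupp : ∀ t, coeff t f ≠ 0 → t = s := by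
    intro t ht
    obtain ⟨⟨h1, h2, h3, h4, h5, h6⟩, h0, h7⟩ := key t ht
    obtain ⟨⟨g1, g2, g3, g4, g5, g6⟩, g0, g7⟩ := key s hs
    have h00 : t 0 = s 0 := by omega
    ext ρ
    fin_cases ρ
    all_goals simp_all
  obtain ⟨⟨g1, g2, g3, g4, g5, g6⟩, g0, g7⟩ := key s hs
  have hX : ((X 0 * X 7 : MvPolynomial (Fin 8) K)) ^ s 0 = monomial s 1 := by
    rw [mul_pow, X_pow_eq_monomial, X_pow_eq_monomial, monomial_mul, mul_one]
    have : (Finsupp.single 0 (s 0) + Finsupp.single 7 (s 0) : Fin 8 →₀ ℕ) = s := by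
      ext ρ
      fin_cases ρ <;> simp_all
    rw [this]
  have hfs : f = C (coeff s f) * (X 0 * X 7) ^ (s 0) := by
    ext t
    rw [hX, C_mul_monomial, mul_one, coeff_monomial]
    split_ifs with h
    · rw [h]
    · by_contra h0
      exact h (hsupp t h0).symm
  have hass : Associated f ((X 0 * X 7) ^ (s 0)) := by
    refine Associated.symm ⟨Units.map C.toMonoidHom (Units.mk0 _ hs), ?_⟩
    conv_rhs => rw [hfs]
    rw [mul_comm]
    rfl
  have hp := hass.prime hf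
  have h1 : s 0 = 1 := by
    by_contra h
    exact not_prime_pow h hp
  rw [h1, pow_one] at hp
  rcases hp.irreducible.isUnit_or_isUnit rfl with h | h
  · exact X_prime.not_isUnit h
  · exact X_prime.not_isUnit h

/-- The degree of the line bundle. -/
def mB : Fin 5 → ℤ := ![-3, 4, 1, -2, 0]

theorem s_mem : (X 0 * X 7 : MvPolynomial (Fin 8) K) ∈ gr wt K mB := by
  have := SetLike.GradedMul.mul_mem (A := gr wt K) (isWeightedHomogeneous_X K wt 0)
    (isWeightedHomogeneous_X K wt 7)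
  have h : wt 0 + wt 7 = mB := by decide
  rw [← h]
  exact this

theorem ex_descends : Descends (gr wt K) (chart cone K) (chartDeg wt cone) mB := by
  intro i
  by_cases hi : i = 0
  · subst hi
    refine ⟨3, mon K ![0, 0, 0, 0, 7, 4, 1, 0], ?_, ?_⟩
    · apply mon_mem'
      decide
    · have h1 : mon K ![0, 0, 0, 0, 7, 4, 1, 0] ∣ chart cone K 0 ^ 7 := by
        rw [chart_eq, mon_pow]
        apply mon_dvd
        decide
      refine isUnit_of_dvd_unit (map_dvd _ h1) ?_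
      rw [map_pow]
      exact (IsLocalization.Away.algebraMap_isUnit _).pow 7
  · refine ⟨0, X 0 * X 7, ?_, ?_⟩
    · rw [zero_smul, add_zero]
      exact s_mem
    · have h1 : (X 0 * X 7 : MvPolynomial (Fin 8) K) ∣ chart cone K i ^ 2 := by
        rw [X_eq_mon, X_eq_mon, mon_mul, chart_eq, mon_pow]
        apply mon_dvd
        revert i
        decide
      refine isUnit_of_dvd_unit (map_dvd _ h1) ?_
      rw [map_pow]
      exact (IsLocalization.Away.algebraMap_isUnit _).pow 2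

open Classical in
/-- The order of vanishing of a variable. -/
theorem ord_X (Y : IntegralSubstack (gr wt K) (chart cone K) 1) (ρ : Fin 8) :
    (emultiplicity (exists_prime Y).choose (X ρ : MvPolynomial (Fin 8) K)) =
      if Y = ofPrime hc 0 X_prime (isWeightedHomogeneous_X K wt ρ) then 1 else 0 := by
  obtain ⟨hf, hY, -⟩ := (exists_prime Y).choose_spec
  set f := (exists_prime Y).choose
  split_ifs with h
  · have h2 : Ideal.span {f} = Ideal.span {X ρ} := by
      rw [← hY, h]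
      rfl
    rw [Ideal.span_singleton_eq_span_singleton] at h2
    rw [← emultiplicity_eq_of_associated_left h2]
    exact FiniteMultiplicity.emultiplicity_self
      (FiniteMultiplicity.of_prime_left (X_prime (R := K)) (X_ne_zero ρ))
  · rw [emultiplicity_eq_zero]
    intro hdvd
    apply h
    apply integralSubstack_ext
    rw [hY]
    exact Ideal.span_singleton_eq_span_singleton.mpr
      (hf.irreducible.associated_of_dvd X_prime.irreducible hdvd)

variable (K) in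
/-- The divisor of the section `x_0 x_7`. -/
noncomputable def D : IntegralSubstack (gr wt K) (chart cone K) 1 →₀ ℚ :=
  Finsupp.single (ofPrime hc 0 X_prime (isWeightedHomogeneous_X K wt 0)) 1 +
    Finsupp.single (ofPrime hc 0 X_prime (isWeightedHomogeneous_X K wt 7)) 1

theorem D_eq (Y : IntegralSubstack (gr wt K) (chart cone K) 1) :
    D K Y = (Y.ord (X 0 * X 7) : ℚ) := by
  classical
  obtain ⟨hf, hY, -⟩ := (exists_prime Y).choose_spec
  have h1 := ord_eq hf hY (mul_ne_zero (X_ne_zero (R := K) (0 : Fin 8)) (X_ne_zero 7))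
  rw [emultiplicity_mul hf, ord_X, ord_X] at h1
  rw [D, Finsupp.add_apply, Finsupp.single_apply, Finsupp.single_apply]
  have h2 : Y.ord (X 0 * X 7) =
      (if Y = ofPrime hc 0 X_prime (isWeightedHomogeneous_X K wt 0) then 1 else 0) +
      (if Y = ofPrime hc 0 X_prime (isWeightedHomogeneous_X K wt 7) then 1 else 0) := by
    have h3 : ((Y.ord (X 0 * X 7) : ℕ) : ℕ∞) =
      (((if Y = ofPrime hc 0 X_prime (isWeightedHomogeneous_X K wt 0) then 1 else 0) +
      (if Y = ofPrime hc 0 X_prime (isWeightedHomogeneous_X K wt 7) then 1 else 0) : ℕ) : ℕ∞) := by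
      rw [h1]
      push_cast
      rfl
    exact_mod_cast h3
  rw [h2]
  push_cast
  congr 1 <;> simp only [eq_comm]

end Pool.Agent.R906.ExB
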