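import Pool.Agent.R906.QDefs

set_option autoImplicit false

open HomogeneousLocalization

namespace Pool.Agent.R906

variable {A : Type*} [CommRing A] {M : Type*} [AddCommGroup M] [DecidableEq M]
  {τ : Type*} [SetLike τ A] [AddSubgroupClass τ A] (𝒜 : M → τ) [GradedRing 𝒜]

/-- The value of `Away.mk`. -/
theorem val_mk' {f : A} {d : M} (hf : f ∈ 𝒜 d) (n : ℕ) (a : A) (ha : a ∈ 𝒜 (n • d)) :
    (algebraMap (Away 𝒜 f) (Localization.Away f) (Away.mk 𝒜 hf n a ha)) =
      Localization.mk a ⟨f ^ n, Submonoid.pow_mem _ (Submonoid.mem_powers f) n⟩ := by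
  rw [HomogeneousLocalization.algebraMap_apply, Away.val_mk]

theorem val_mk_mul {f : A} {d : M} (hf : f ∈ 𝒜 d) (n : ℕ) (a : A) (ha : a ∈ 𝒜 (n • d)) :
    (algebraMap (Away 𝒜 f) (Localization.Away f) (Away.mk 𝒜 hf n a ha)) *
      algebraMap A (Localization.Away f) f ^ n = algebraMap A (Localization.Away f) a := by
  rw [val_mk', ← map_pow, ← Localization.mk_one_eq_algebraMap, ← Localization.mk_one_eq_algebraMap,
      Localization.mk_mul, Localization.mk_eq_mk_iff, Localization.r_iff_exists]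
  exact ⟨1, by simp [mul_comm]⟩

theorem basicOpen_mk {f : A} {d : M} (hf : f ∈ 𝒜 d) (n : ℕ) (a : A) (ha : a ∈ 𝒜 (n • d)) :
    PrimeSpectrum.basicOpen (algebraMap (Away 𝒜 f) (Localization.Away f)
      (Away.mk 𝒜 hf n a ha)) =
      PrimeSpectrum.basicOpen (algebraMap A (Localization.Away f) a) := by
  rw [← val_mk_mul 𝒜 hf n a ha]
  have hu : IsUnit (algebraMap A (Localization.Away f) f ^ n) :=
    (IsLocalization.Away.algebraMap_isUnit f).pow n
  ext q
  simp only [SetLike.mem_coe, PrimeSpectrum.mem_basicOpen, not_iff_not]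
  constructor
  · intro h
    exact Ideal.mul_mem_right _ _ h
  · intro h
    exact (Ideal.mul_unit_mem_iff_mem _ hu).mp h

variable {𝒜}

/-- The abstract gluing lemma. -/
theorem glue_pair {gi gj N N' h : A} {di : M} (hgi : gi ∈ 𝒜 di) {K K' : ℕ}
    (hN : N ∈ 𝒜 (K • di))
    (hNh : N = gj * h) (hNN : N * N' = gi ^ K * gj ^ K') :
    PrimeSpectrum.basicOpen (algebraMap A (Localization.Away gi) gj) =
      PrimeSpectrum.basicOpen (algebraMap (Away 𝒜 gi) (Localization.Away gi)
        (Away.mk 𝒜 hgi K N hN)) := by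
  rw [basicOpen_mk]
  apply le_antisymm
  · intro q hq
    rw [PrimeSpectrum.mem_basicOpen] at hq ⊢
    intro hN'
    have h1 : algebraMap A (Localization.Away gi) (gi ^ K * gj ^ K') ∈ q.asIdeal := by
      rw [← hNN, map_mul]
      exact Ideal.mul_mem_right _ _ hN'
    rw [map_mul, map_pow, map_pow] at h1
    rcases q.isPrime.mem_or_mem h1 with h2 | h2
    · have hu : IsUnit (algebraMap A (Localization.Away gi) gi) :=
        IsLocalization.Away.algebraMap_isUnit gi
      exact q.isPrime.ne_top (Ideal.eq_top_of_isUnit_mem _ h2 (hu.pow K))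
    · exact hq (q.isPrime.mem_of_pow_mem _ h2)
  · intro q hq
    rw [PrimeSpectrum.mem_basicOpen] at hq ⊢
    intro hg
    apply hq
    rw [hNh, map_mul]
    exact Ideal.mul_mem_right _ _ hg

/-- The abstract separatedness lemma. -/
theorem sep_pair {gi gj N' h : A} {di dj : M} (hgi : gi ∈ 𝒜 di) (hgj : gj ∈ 𝒜 dj) {K K' : ℕ}
    (hN' : N' ∈ 𝒜 (K' • dj)) (hh : h ∈ 𝒜 (K • di - dj))
    (hNN : gj * h * N' = gi ^ K * gj ^ K') :
    (awayMap 𝒜 hgj (rfl : gi * gj = gi * gj)).range ⊔
    (awayMap 𝒜 hgi (mul_comm gi gj)).range = ⊤ := by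
  rw [eq_top_iff]
  rintro z -
  obtain ⟨n, a, ha, rfl⟩ := Away.mk_surjective 𝒜 (SetLike.GradedMul.mul_mem hgi hgj) z
  have ha' : a * h ^ n ∈ 𝒜 ((n + n * K) • di) := by
    have := SetLike.GradedMul.mul_mem ha (SetLike.pow_mem_graded n hh)
    convert this using 1
    have e : (n + n * K) • di = n • (di + dj) + n • (K • di - dj) := by
      simp only [smul_add, add_smul, mul_smul, smul_sub]
      abel
    rw [e]
  have hN'' : N' ^ n ∈ 𝒜 ((n * K') • dj) := by
    have := SetLike.pow_mem_graded n hN'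
    rwa [← mul_smul] at this
  have key : Away.mk 𝒜 (SetLike.GradedMul.mul_mem hgi hgj) n a ha =
      awayMap 𝒜 hgj (rfl : gi * gj = gi * gj) (Away.mk 𝒜 hgi (n + n * K) (a * h ^ n) ha') *
      awayMap 𝒜 hgi (mul_comm gi gj) (Away.mk 𝒜 hgj (n * K') (N' ^ n) hN'') := by
    apply val_injective
    rw [val_mul, awayMap_mk, awayMap_mk, Away.val_mk, Away.val_mk, Away.val_mk,
      Localization.mk_mul, Localization.mk_eq_mk_iff, Localization.r_iff_exists]
    refine ⟨1, ?_⟩
    simp only [OneMemClass.coe_one, one_mul, Submonoid.coe_mul]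
    have e : (gj * h * N') ^ n = (gi ^ K * gj ^ K') ^ n := by rw [hNN]
    linear_combination (-(gi * gj) ^ n * a * gj ^ (n * K) * gi ^ (n * K')) * e
  rw [key]
  exact Subring.mul_mem _ (le_sup_left (α := Subring _) ⟨_, rfl⟩)
    (le_sup_right (α := Subring _) ⟨_, rfl⟩)

end Pool.Agent.R906
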