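import Pool.Agent.R906.QStrong

set_option autoImplicit false

open HomogeneousLocalization MvPolynomial

namespace Pool.Agent.R906

variable {K : Type*} [Field K]

variable (K) in
/-- The divisor `x_0 = 0`. -/
noncomputable def Z0 : IntegralSubstack (gr K) (chart K) 1 :=
  ofPrime X_prime (isWeightedHomogeneous_X K wt 0)

theorem Z0_ideal : (Z0 K).ideal = Ideal.span {X 0} := rfl

theorem X_zero_not_dvd_chart : ¬ (X 0 : MvPolynomial (Fin 7) K) ∣ chart K 0 := by
  intro h
  obtain ⟨σ, hσ, h3⟩ := (X_prime (R := K) (i := (0 : Fin 7))).exists_mem_finset_dvd h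
  rw [X_dvd_X] at h3
  subst h3
  revert hσ
  decide

/-- A polynomial all whose monomials are divisible by a monomial. -/
theorem X_sq_dvd {a : MvPolynomial (Fin 7) K} (h : ∀ s, coeff s a ≠ 0 → 2 ≤ s 0) : X 0 ^ 2 ∣ a := by
  rw [X_pow_eq_monomial, ← Ideal.mem_span_singleton]
  have := (mem_ideal_span_monomial_image (x := a) (s := {Finsupp.single (0 : Fin 7) 2})).mpr (by
    intro s hs
    refine ⟨_, rfl, ?_⟩
    rw [Finsupp.single_le_iff]
    exact h s (mem_support_iff.mp hs))
  simpa using this

theorem X_dvd' {a : MvPolynomial (Fin 7) K} (h : X 0 ∣ a) (s : Fin 7 →₀ ℕ) (hs : coeff s a ≠ 0) :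
    1 ≤ s 0 := by
  by_contra hcon
  obtain ⟨c, rfl⟩ := h
  apply hs
  rw [coeff_X_mul', if_neg]
  simp
  omega

/-- A function on the chart `0` of degree zero which is divisible by `x_0` is divisible by `x_0 ^ 2`. -/
theorem even_dvd {n : ℕ} {a : MvPolynomial (Fin 7) K} (ha : a ∈ gr K (n • chartDeg 0))
    (h : X 0 ∣ a) : X 0 ^ 2 ∣ a := by
  apply X_sq_dvd
  intro s hs
  have h1 := X_dvd' h s hs
  have h2 := ha hs
  have h3 : ∀ c, degv (fun ρ => s ρ - n * ind 0 ρ) c = 0 := by
    intro c
    rw [degv_sub, degv_mul, degv_ind, ← weight_eq, h2]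
    simp
  obtain ⟨e0, e1, e2, e3⟩ := degv_eqs (fun ρ => s ρ - n * ind 0 ρ)
  rw [h3] at e2
  have h0 : ind 0 0 = 0 := by decide
  simp only [h0] at e2
  have h4 : (s 0 : ℤ) = 2 * ((s 2 - n * ind 0 2) - (s 1 - n * ind 0 1) - (s 5 - n * ind 0 5)) := by
    push_cast at e2
    linear_combination -e2
  omega

/-- The divisor `x_0 = 0` is primarily strong. -/
theorem Z0_primarilyStrong : (Z0 K).IsPrimarilyStrong := by
  intro i hi
  set φ := algebraMap (MvPolynomial (Fin 7) K) (Localization.Away (chart K i)) with hφ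
  have hchart : (Z0 K).chartIdeal i = Ideal.span {φ (X 0)} := by
    rw [IntegralSubstack.chartIdeal, Z0_ideal, Ideal.map_span, Set.image_singleton]
  have hug : IsUnit (φ (chart K i)) := IsLocalization.Away.algebraMap_isUnit _
  have hi0 : i = 0 := by
    by_contra h0
    apply hi
    rw [hchart, Ideal.span_singleton_eq_top]
    have h1 : (X 0 : MvPolynomial (Fin 7) K) ∣ chart K i := by
      have h2 : ∀ i : Fin 4, ¬ i = 0 → (0 : Fin 7) ∈ (cone i)ᶜ := by decide
      exact Finset.dvd_prod_of_mem (fun ρ => (X ρ : MvPolynomial (Fin 7) K)) (h2 i h0)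
    exact isUnit_of_dvd_unit (map_dvd φ h1) hug
  subst hi0
  have hP : (Ideal.span {(X 0 : MvPolynomial (Fin 7) K)}).IsPrime :=
    (Ideal.span_singleton_prime (X_ne_zero 0)).mpr X_prime
  have hdisj : Disjoint (Submonoid.powers (chart K 0) : Set (MvPolynomial (Fin 7) K))
      (Ideal.span {(X 0 : MvPolynomial (Fin 7) K)} : Set (MvPolynomial (Fin 7) K)) := by
    rw [Set.disjoint_left]
    rintro _ ⟨n, rfl⟩ hn
    exact X_zero_not_dvd_chart (X_prime.dvd_of_dvd_pow (Ideal.mem_span_singleton.mp hn))
  have hinj : Function.Injective φ :=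
    IsLocalization.injective (M := Submonoid.powers (chart K 0)) _
      (powers_le_nonZeroDivisors_of_noZeroDivisors (chart_ne_zero 0))
  have hprime : Prime (φ (X 0)) := by
    have h1 := IsLocalization.isPrime_of_isPrime_disjoint (Submonoid.powers (chart K 0))
      (Localization.Away (chart K 0)) _ hP hdisj
    rw [Ideal.map_span, Set.image_singleton] at h1
    refine (Ideal.span_singleton_prime ?_).mp h1
    intro h2
    rw [← map_zero φ] at h2
    exact X_ne_zero 0 (hinj h2)
  have hsat : (Z0 K).saturatedIdeal 0 = Ideal.span {φ (X 0) ^ 2} := by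
    apply le_antisymm
    · rw [IntegralSubstack.saturatedIdeal, Ideal.map_le_iff_le_comap]
      intro z hz
      rw [Ideal.mem_comap]
      rw [IntegralSubstack.imageIdeal, Ideal.mem_comap, hchart, Ideal.mem_span_singleton] at hz
      obtain ⟨n, a, ha, rfl⟩ := Away.mk_surjective (gr K) (chart_mem 0) z
      have h1 := val_mk_mul (gr K) (chart_mem 0) n a ha
      have h2 : φ (X 0) ∣ φ a := by
        rw [← h1]
        exact hz.mul_right _
      have h3 : X 0 ∣ a := by
        have h4 := IsLocalization.comap_map_of_isPrime_disjoint (Submonoid.powers (chart K 0))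
          (Localization.Away (chart K 0)) hP hdisj
        rw [← Ideal.mem_span_singleton, ← h4, Ideal.mem_comap, Ideal.map_span, Set.image_singleton,
          Ideal.mem_span_singleton]
        exact h2
      have h4 := even_dvd ha h3
      rw [← Ideal.mul_unit_mem_iff_mem _ (hug.pow n), h1, Ideal.mem_span_singleton, ← map_pow]
      exact map_dvd φ h4
    · rw [Ideal.span_singleton_le_iff_mem]
      have h1 : Away.mk (gr K) (chart_mem 0) 7 (mon K (nexp 0 1)) (ex_N_mem 0 1) ∈
          (Z0 K).imageIdeal 0 := by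
        rw [IntegralSubstack.imageIdeal, Ideal.mem_comap, hchart,
          ← Ideal.mul_unit_mem_iff_mem _ (hug.pow 7), val_mk_mul, Ideal.mem_span_singleton]
        apply map_dvd
        rw [X_eq_mon]
        apply mon_dvd
        decide
      have h2 := Ideal.mem_map_of_mem (algebraMap (Away (gr K) (chart K 0))
        (Localization.Away (chart K 0))) h1
      have h3 := Ideal.mul_mem_right (φ (chart K 0) ^ 7) _ h2
      rw [val_mk_mul] at h3
      rw [← Ideal.mul_unit_mem_iff_mem _ (hug.pow 12), ← map_pow, ← map_pow, ← map_mul]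
      refine Ideal.mem_of_dvd _ (map_dvd _ ?_) h3
      rw [X_eq_mon, chart_eq, mon_pow, mon_pow, mon_mul]
      apply mon_dvd
      decide
  have hrad : (Ideal.span {φ (X 0) ^ 2}).radical = Ideal.span {φ (X 0)} := by
    rw [← Ideal.span_singleton_pow, Ideal.radical_pow _ two_ne_zero]
    exact ((Ideal.span_singleton_prime hprime.ne_zero).mpr hprime).radical
  rw [hsat, hchart]
  refine ⟨?_, hrad⟩
  rw [Ideal.isPrimary_iff]
  refine ⟨?_, ?_⟩
  · intro h
    rw [Ideal.span_singleton_eq_top] at h
    exact hprime.not_isUnit ((isUnit_pow_iff two_ne_zero).mp h)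
  · intro x y hxy
    rw [hrad]
    by_cases hy : φ (X 0) ∣ y
    · right
      exact Ideal.mem_span_singleton.mpr hy
    · left
      rw [Ideal.mem_span_singleton] at hxy ⊢
      exact hprime.pow_dvd_of_dvd_mul_right 2 hy hxy

end Pool.Agent.R906
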