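import Pool.Agent.R906.QPrim

set_option autoImplicit false

open HomogeneousLocalization MvPolynomial

namespace Pool.Agent.R906

variable {K : Type*} [Field K]

variable (K) in
/-- The grading of the polynomial ring, by a linearly ordered group. -/
noncomputable def gr' : Lex (Fin 4 → ℤ) → Submodule K (MvPolynomial (Fin 7) K) := gr K

noncomputable local instance (priority := 10000) decLex : DecidableEq (Lex (Fin 4 → ℤ)) :=
  LinearOrder.toDecidableEq

noncomputable instance grInst : GradedRing (gr' K) := by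
  have h : decLex = (inferInstanceAs (DecidableEq (Fin 4 → ℤ))) := Subsingleton.elim _ _
  rw [h]
  exact inferInstanceAs (GradedRing (gr K))

/-- Prime factors of homogeneous polynomials are homogeneous. -/
theorem prime_factor_homogeneous {p a : MvPolynomial (Fin 7) K} (hp : Prime p) (ha0 : a ≠ 0)
    {m : Fin 4 → ℤ} (ha : a ∈ gr K m) (hpa : p ∣ a) : ∃ m', p ∈ gr K m' := by
  have hP : (Ideal.span {p}).IsPrime := (Ideal.span_singleton_prime hp.ne_zero).mpr hp
  have hC := Ideal.IsPrime.homogeneousCore (𝒜 := gr' K) hP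
  have haC : a ∈ (Ideal.homogeneousCore (gr' K) (Ideal.span {p})).toIdeal :=
    Ideal.mem_homogeneousCore_of_homogeneous_of_mem ⟨m, ha⟩ (Ideal.mem_span_singleton.mpr hpa)
  have hne : (Ideal.homogeneousCore (gr' K) (Ideal.span {p})).toIdeal ≠ ⊥ := by
    intro h
    rw [h, Ideal.mem_bot] at haC
    exact ha0 haC
  obtain ⟨q, hqC, hq⟩ := hC.exists_mem_prime_of_ne_bot hne
  have hle := Ideal.toIdeal_homogeneousCore_le (gr' K) (Ideal.span {p})
  have h1 : p ∣ q := Ideal.mem_span_singleton.mp (hle hqC)
  have h2 : Associated p q := hp.irreducible.associated_of_dvd hq.irreducible h1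
  have h3 : (Ideal.homogeneousCore (gr' K) (Ideal.span {p})).toIdeal = Ideal.span {p} := by
    apply le_antisymm hle
    rw [Ideal.span_singleton_eq_span_singleton.mpr h2, Ideal.span_singleton_le_iff_mem,
      ← Ideal.span_singleton_eq_span_singleton.mpr h2]
    exact hqC
  have h4 : (Ideal.span {p}).IsHomogeneous (gr K) := by
    rw [← h3]
    refine Ideal.homogeneous_span _ _ ?_
    rintro _ ⟨⟨x, hx⟩, _, rfl⟩
    exact hx
  exact homogeneous_of_span hp.ne_zero h4

/-- The order of vanishing is the multiplicity. -/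
theorem ord_eq {Y : IntegralSubstack (gr K) (chart K) 1} {f a : MvPolynomial (Fin 7) K}
    (hf : Prime f) (hY : Y.ideal = Ideal.span {f}) (ha : a ≠ 0) :
    (Y.ord a : ℕ∞) = emultiplicity f a := by
  have hfin : FiniteMultiplicity f a := FiniteMultiplicity.of_prime_left hf ha
  rw [hfin.emultiplicity_eq_multiplicity]
  have : {n : ℕ | a ∈ Y.ideal ^ n} = Set.Iic (multiplicity f a) := by
    ext n
    rw [Set.mem_ofPred_eq, hY, Ideal.span_singleton_pow, Ideal.mem_span_singleton,
      hfin.pow_dvd_iff_le_multiplicity, Set.mem_Iic]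
  rw [IntegralSubstack.ord, this, csSup_Iic]

theorem integralSubstack_ext {Y Y' : IntegralSubstack (gr K) (chart K) 1}
    (h : Y.ideal = Y'.ideal) : Y = Y' := by
  cases Y
  cases Y'
  simp only at h
  subst h
  rfl

/-- Associated homogeneous polynomials have the same degree. -/
theorem degree_eq_of_associated {a b : MvPolynomial (Fin 7) K} (h : Associated a b) (ha0 : a ≠ 0)
    {m m' : Fin 4 → ℤ} (ha : a ∈ gr K m) (hb : b ∈ gr K m') : m = m' := by
  obtain ⟨u, rfl⟩ := h
  have hu := u.isUnit
  rw [MvPolynomial.isUnit_iff_eq_C_of_isReduced] at hu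
  obtain ⟨r, hr, hu⟩ := hu
  replace hu : (u : MvPolynomial (Fin 7) K) = C r := hu
  obtain ⟨s, hs⟩ := ne_zero_iff.mp ha0
  have h1 := ha hs
  have h2 : coeff s (a * (u : MvPolynomial (Fin 7) K)) ≠ 0 := by
    rw [hu, mul_comm, coeff_C_mul, mul_comm]
    exact mul_ne_zero hs hr.ne_zero
  have h3 := hb h2
  rw [← h1, h3]

/-- The class of `x_0 = 0` is not zero. -/
theorem not_ratEquivZero (D : IntegralSubstack (gr K) (chart K) 1 →₀ ℚ)
    (hD : D = Finsupp.single (Z0 K) 1) : ¬ RatEquivZero D := by
  subst hD
  rintro ⟨N, m, a, b, hN, ha, hb, ha0, hb0, h⟩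
  set α := (Z0 K).ord a with hα
  set β := (Z0 K).ord b with hβ
  have hZ : (N : ℚ) = α - β := by
    have := h (Z0 K)
    rwa [Finsupp.single_eq_same, mul_one] at this
  have hX : ∀ n : ℕ, (X 0 : MvPolynomial (Fin 7) K) ^ n ≠ 0 := fun n => pow_ne_zero _ (X_ne_zero 0)
  have key : ∀ p : MvPolynomial (Fin 7) K, Prime p →
      emultiplicity p (a * X 0 ^ β) = emultiplicity p (b * X 0 ^ α) := by
    intro p hp
    rw [emultiplicity_mul hp, emultiplicity_mul hp, emultiplicity_pow hp, emultiplicity_pow hp]
    by_cases hpX : p ∣ X 0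
    · have hass : Associated p (X 0) := hp.irreducible.associated_of_dvd X_prime.irreducible hpX
      have hY : (Z0 K).ideal = Ideal.span {p} := by
        rw [Z0_ideal, Ideal.span_singleton_eq_span_singleton.mpr hass]
      have h1 : emultiplicity p (X 0 : MvPolynomial (Fin 7) K) = 1 := by
        rw [← emultiplicity_eq_of_associated_left hass]
        have := FiniteMultiplicity.emultiplicity_self
          (FiniteMultiplicity.of_prime_left (X_prime (R := K) (i := (0 : Fin 7))) (X_ne_zero 0))
        exact this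
      rw [← ord_eq hp hY ha0, ← ord_eq hp hY hb0, h1, ← hα, ← hβ, mul_one, mul_one, add_comm]
    · rw [emultiplicity_eq_zero.mpr hpX, mul_zero, mul_zero, add_zero, add_zero]
      by_cases hph : ∃ m', p ∈ gr K m'
      · obtain ⟨m', hm'⟩ := hph
        have h1 := h (ofPrime hp hm')
        have hne : ofPrime hp hm' ≠ Z0 K := by
          intro heq
          have h2 : Ideal.span {p} = Ideal.span {X 0} := by
            have := congrArg IntegralSubstack.ideal heq
            rwa [Z0_ideal] at this
          rw [Ideal.span_singleton_eq_span_singleton] at h2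
          exact hpX h2.dvd
        rw [Finsupp.single_eq_of_ne hne, mul_zero] at h1
        have h3 : (ofPrime hp hm').ord a = (ofPrime hp hm').ord b := by
          have : ((ofPrime hp hm').ord a : ℚ) = (ofPrime hp hm').ord b := by linarith
          exact_mod_cast this
        rw [← ord_eq hp (Y := ofPrime hp hm') rfl ha0, ← ord_eq hp (Y := ofPrime hp hm') rfl hb0, h3]
      · have h1 : ¬ p ∣ a := fun h2 => hph (prime_factor_homogeneous hp ha0 ha h2)
        have h3 : ¬ p ∣ b := fun h2 => hph (prime_factor_homogeneous hp hb0 hb h2)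
        rw [emultiplicity_eq_zero.mpr h1, emultiplicity_eq_zero.mpr h3]
  have h1 : Associated (a * X 0 ^ β) (b * X 0 ^ α) := by
    apply associated_of_dvd_dvd
    · rw [UniqueFactorizationMonoid.dvd_iff_emultiplicity_le (mul_ne_zero ha0 (hX _))]
      intro p hp
      exact (key p hp).le
    · rw [UniqueFactorizationMonoid.dvd_iff_emultiplicity_le (mul_ne_zero hb0 (hX _))]
      intro p hp
      exact (key p hp).ge
  have hw := isWeightedHomogeneous_X K wt 0
  have h2 : a * X 0 ^ β ∈ gr K (m + β • wt 0) :=
    SetLike.GradedMul.mul_mem ha (SetLike.pow_mem_graded _ hw)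
  have h3 : b * X 0 ^ α ∈ gr K (m + α • wt 0) :=
    SetLike.GradedMul.mul_mem hb (SetLike.pow_mem_graded _ hw)
  have h4 := degree_eq_of_associated h1 (mul_ne_zero ha0 (hX _)) h2 h3
  have h5 := congrFun h4 0
  simp [wt] at h5
  rw [h5] at hZ
  simp at hZ
  omega

end Pool.Agent.R906
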