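import Pool.Agent.R906.QDiv

set_option autoImplicit false

open HomogeneousLocalization MvPolynomial

namespace Pool.Agent.R906

variable {K : Type*} [Field K]

/-- The weight of a monomial. -/
theorem weight_eq (s : Fin 7 →₀ ℕ) (c : Fin 4) :
    Finsupp.weight wt s c = degv (fun ρ => s ρ) c := by
  rw [Finsupp.weight_apply, Finsupp.sum_fintype _ _ (by simp)]
  simp [degv, Finset.sum_apply]

theorem degv_add (v w : Fin 7 → ℤ) (c : Fin 4) : degv (fun ρ => v ρ + w ρ) c = degv v c + degv w c := by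
  simp [degv, add_mul, Finset.sum_add_distrib]

theorem degv_sub (v w : Fin 7 → ℤ) (c : Fin 4) : degv (fun ρ => v ρ - w ρ) c = degv v c - degv w c := by
  simp [degv, sub_mul, Finset.sum_sub_distrib]

theorem degv_mul (n : ℤ) (v : Fin 7 → ℤ) (c : Fin 4) : degv (fun ρ => n * v ρ) c = n * degv v c := by
  simp [degv, mul_assoc, Finset.mul_sum]

theorem degv_ind : ∀ i c, degv (fun ρ => ind i ρ) c = chartDeg i c := by decide

/-- The unit point of a chart. -/
noncomputable def pt (K : Type*) [Field K] (i : Fin 4) (ρ : Fin 7) : K := if ρ ∈ cone i then 0 else 1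

theorem eval_chart (i : Fin 4) : eval (pt K i) (chart K i) = 1 := by
  rw [chart, map_prod]
  apply Finset.prod_eq_one
  intro ρ hρ
  rw [eval_X, pt, if_neg (by simpa using hρ)]

/-- If a substack given by `f` is strong over the chart `i`, then the degree of `f` is the degree of
an invertible function on the chart. -/
theorem chart_lemma (Y : IntegralSubstack (gr K) (chart K) 1) {f : MvPolynomial (Fin 7) K}
    (hY : Y.ideal = Ideal.span {f}) (hf : f ≠ 0) {m : Fin 4 → ℤ} (hm : f ∈ gr K m) (i : Fin 4)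
    (hst : Y.saturatedIdeal i = Y.chartIdeal i) :
    ∃ v : Fin 7 → ℤ, (∀ ρ ∈ cone i, v ρ = 0) ∧ ∀ c, degv v c = - m c := by
  by_contra hcon
  set φ := algebraMap (MvPolynomial (Fin 7) K) (Localization.Away (chart K i)) with hφ
  have hinj : Function.Injective φ :=
    IsLocalization.injective (M := Submonoid.powers (chart K i)) _
      (powers_le_nonZeroDivisors_of_noZeroDivisors (chart_ne_zero i))
  have hug : IsUnit (φ (chart K i)) := IsLocalization.Away.algebraMap_isUnit _
  have hu1 : IsUnit (eval (pt K i) (chart K i)) := by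
    rw [eval_chart]
    exact isUnit_one
  let ev : Localization.Away (chart K i) →+* K := IsLocalization.Away.lift (chart K i) hu1
  have hev : ∀ a, ev (φ a) = eval (pt K i) a := fun a => IsLocalization.Away.lift_eq _ hu1 a
  have hchart : Y.chartIdeal i = Ideal.span {φ f} := by
    rw [IntegralSubstack.chartIdeal, hY, Ideal.map_span, Set.image_singleton]
  have hle : Y.saturatedIdeal i ≤ Ideal.span {φ f} * RingHom.ker ev := by
    rw [IntegralSubstack.saturatedIdeal, Ideal.map_le_iff_le_comap]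
    intro z hz
    rw [Ideal.mem_comap]
    rw [IntegralSubstack.imageIdeal, Ideal.mem_comap, hchart, Ideal.mem_span_singleton] at hz
    obtain ⟨c, hc⟩ := hz
    obtain ⟨n, a, ha, rfl⟩ := Away.mk_surjective (gr K) (chart_mem i) z
    have h1 := val_mk_mul (gr K) (chart_mem i) n a ha
    obtain ⟨k, c2, hc2⟩ := IsLocalization.Away.surj (chart K i) (c * φ (chart K i) ^ n)
    have h2 : a * chart K i ^ k = f * c2 := by
      apply hinj
      rw [map_mul, map_mul, map_pow, ← h1, hc, ← hc2]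
      ring
    have h3 : a * chart K i ^ k ∈ gr K (m + (n • chartDeg i + k • chartDeg i - m)) := by
      have := SetLike.GradedMul.mul_mem ha (SetLike.pow_mem_graded k (chart_mem (K := K) i))
      rw [add_sub_cancel]
      exact this
    have h4 := DirectSum.coe_decompose_mul_add_of_left_mem (gr K)
      (j := n • chartDeg i + k • chartDeg i - m) (b := c2) hm
    rw [← h2, DirectSum.decompose_of_mem_same _ h3, h2] at h4
    have h5 : c2 ∈ gr K (n • chartDeg i + k • chartDeg i - m) := by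
      rw [mul_right_injective₀ hf h4]
      exact SetLike.coe_mem _
    have h6 : eval (pt K i) c2 = 0 := by
      rw [eval_eq']
      apply Finset.sum_eq_zero
      intro s hs
      rw [mem_support_iff] at hs
      have h7 := h5 hs
      have h8 : ∃ ρ ∈ cone i, s ρ ≠ 0 := by
        by_contra hcon2
        push Not at hcon2
        apply hcon
        refine ⟨fun ρ => s ρ - (n + k) * ind i ρ, ?_, ?_⟩
        · intro ρ hρ
          simp [hcon2 ρ hρ, ind, hρ]
        · intro c
          rw [degv_sub, degv_mul, degv_ind, ← weight_eq, h7]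
          simp
          ring
      obtain ⟨ρ, hρ, h9⟩ := h8
      rw [Finset.prod_eq_zero (Finset.mem_univ ρ), mul_zero]
      rw [pt, if_pos hρ, zero_pow h9]
    have h10 : algebraMap (Away (gr K) (chart K i)) (Localization.Away (chart K i))
        (Away.mk (gr K) (chart_mem i) n a ha) * φ (chart K i) ^ (n + k) = φ f * φ c2 := by
      rw [pow_add, ← mul_assoc, h1, ← map_pow, ← map_mul, h2, map_mul]
    rw [← Ideal.mul_unit_mem_iff_mem _ (hug.pow (n + k)), h10]
    refine Ideal.mul_mem_mul (Ideal.mem_span_singleton_self _) ?_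
    rw [RingHom.mem_ker, hev, h6]
  have h11 : φ f ∈ Ideal.span {φ f} * RingHom.ker ev := by
    apply hle
    rw [hst, hchart]
    exact Ideal.mem_span_singleton_self _
  rw [Ideal.mem_span_singleton_mul] at h11
  obtain ⟨c, hc, hfc⟩ := h11
  have hφf : φ f ≠ 0 := by
    intro h
    rw [← map_zero φ] at h
    exact hf (hinj h)
  have hc1 : c = 1 := mul_left_cancel₀ hφf (by rw [hfc, mul_one])
  rw [hc1, RingHom.mem_ker, map_one] at hc
  exact one_ne_zero hc

theorem degv_eqs (v : Fin 7 → ℤ) : degv v 0 = - v 0 + 2 * v 1 + v 3 + v 5 ∧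
    degv v 1 = 2 * v 0 - 2 * v 1 - v 2 + v 4 ∧ degv v 2 = v 0 + 2 * v 1 - 2 * v 2 + 2 * v 5 ∧
    degv v 3 = - v 0 + v 1 + 2 * v 2 + v 6 := by
  refine ⟨?_, ?_, ?_, ?_⟩ <;> simp [degv, Fin.sum_univ_succ, wt] <;> ring

/-- There are no strong integral substacks of codimension one. -/
theorem not_strong (Y : IntegralSubstack (gr K) (chart K) 1) : ¬ Y.IsStrong := by
  intro hst
  obtain ⟨f, hf, hY, m, hm⟩ := exists_prime Y
  obtain ⟨v0, h00, h01⟩ := chart_lemma Y hY hf.ne_zero hm 0 (hst 0)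
  obtain ⟨v1, h10, h11⟩ := chart_lemma Y hY hf.ne_zero hm 1 (hst 1)
  obtain ⟨v2, h20, h21⟩ := chart_lemma Y hY hf.ne_zero hm 2 (hst 2)
  obtain ⟨v3, h30, h31⟩ := chart_lemma Y hY hf.ne_zero hm 3 (hst 3)
  have key : ∀ s : Fin 7 →₀ ℕ, coeff s f ≠ 0 → (s 1 = 0 ∧ s 2 = 0 ∧ s 3 = 0 ∧ s 4 = 0 ∧ s 5 = 0 ∧
      s 6 = 0) ∧ (s 0 : ℤ) = - m 0 ∧ Even (s 0) := by
    intro s hs
    have hw := hm hs
    have hw0 : ∀ c, degv (fun ρ => s ρ) c = m c := fun c => by rw [← weight_eq, hw]
    obtain ⟨e0, e1, e2, e3⟩ := degv_eqs (fun ρ => s ρ)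
    obtain ⟨a0, a1, a2, a3⟩ := degv_eqs v0
    obtain ⟨b0, b1, b2, b3⟩ := degv_eqs v1
    obtain ⟨c0, c1, c2, c3⟩ := degv_eqs v2
    obtain ⟨d0, d1, d2, d3⟩ := degv_eqs v3
    rw [hw0] at e0 e1 e2 e3
    rw [h01] at a0 a1 a2 a3
    rw [h11] at b0 b1 b2 b3
    rw [h21] at c0 c1 c2 c3
    rw [h31] at d0 d1 d2 d3
    have z0 := h00 0 (by decide)
    have z11 := h10 1 (by decide)
    have z12 := h10 2 (by decide)
    have z14 := h10 4 (by decide)
    have z15 := h10 5 (by decide)
    have z22 := h20 2 (by decide)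
    have z23 := h20 3 (by decide)
    have z25 := h20 5 (by decide)
    have z26 := h20 6 (by decide)
    have z31 := h30 1 (by decide)
    have z33 := h30 3 (by decide)
    have z34 := h30 4 (by decide)
    have z36 := h30 6 (by decide)
    have r1 : -6 * (s 1 : ℤ) + 3 * s 2 + s 4 - 4 * s 5 = 0 := by
      linear_combination -(e1 + b1) + 2 * (e2 + b2) + 6 * z11 - 3 * z12 - z14 + 4 * z15
    have r2 : -6 * (s 2 : ℤ) + 3 * s 3 + s 5 - 4 * s 6 = 0 := by
      linear_combination -3 * (e0 + c0) + (e2 + c2) + 4 * (e3 + c3) + 6 * z22 - 3 * z23 - z25 +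
        4 * z26
    have r3 : -6 * (s 3 : ℤ) + 3 * s 1 + s 6 - 4 * s 4 = 0 := by
      linear_combination 6 * (e0 + d0) + 4 * (e1 + d1) - 3 * (e2 + d2) - (e3 + d3) + 6 * z33 -
        3 * z31 - z36 + 4 * z34
    have r0 : (s 0 : ℤ) = 2 * (s 2 + v0 2 - s 1 - v0 1 - s 5 - v0 5) := by
      linear_combination -(e2 + a2) - z0
    clear a0 a1 a2 a3 b0 b1 b2 b3 c0 c1 c2 c3 d0 d1 d2 d3 z0 z11 z12 z14 z15 z22 z23 z25 z26
    clear z31 z33 z34 z36 h01 h11 h21 h31 h00 h10 h20 h30 hw0 e1 e2 e3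
    have hz : (s 1 = 0 ∧ s 2 = 0 ∧ s 3 = 0 ∧ s 4 = 0 ∧ s 5 = 0 ∧ s 6 = 0) := by
      omega
    obtain ⟨g1, g2, g3, g4, g5, g6⟩ := hz
    refine ⟨⟨g1, g2, g3, g4, g5, g6⟩, ?_, ?_⟩
    · rw [g1, g3, g5] at e0
      simp only [Nat.cast_zero] at e0
      linear_combination e0
    · rw [← Int.even_coe_nat, r0]
      exact even_two_mul _
  obtain ⟨s, hs⟩ := ne_zero_iff.mp hf.ne_zero
  have hsupp : ∀ t, coeff t f ≠ 0 → t = s := by
    intro t ht
    obtain ⟨⟨h1, h2, h3, h4, h5, h6⟩, h0, -⟩ := key t ht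
    obtain ⟨⟨g1, g2, g3, g4, g5, g6⟩, g0, -⟩ := key s hs
    ext ρ
    fin_cases ρ
    · have : (t 0 : ℤ) = s 0 := by rw [h0, g0]
      exact_mod_cast this
    all_goals simp_all
  have hfs : f = C (coeff s f) * X 0 ^ (s 0) := by
    obtain ⟨⟨g1, g2, g3, g4, g5, g6⟩, g0, -⟩ := key s hs
    have hX : (X 0 : MvPolynomial (Fin 7) K) ^ s 0 = monomial s 1 := by
      rw [X_pow_eq_monomial]
      have : (Finsupp.single 0 (s 0) : Fin 7 →₀ ℕ) = s := by
        ext ρ
        fin_cases ρ <;> simp_all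
      rw [this]
    ext t
    rw [hX, C_mul_monomial, mul_one, coeff_monomial]
    split_ifs with h
    · rw [h]
    · by_contra h0
      exact h (hsupp t h0).symm
  have hass : Associated f (X 0 ^ (s 0)) := by
    refine Associated.symm ⟨Units.map C.toMonoidHom (Units.mk0 _ hs), ?_⟩
    conv_rhs => rw [hfs]
    rw [mul_comm]
    rfl
  have hp := hass.prime hf
  have h1 : s 0 = 1 := by
    by_contra h
    exact not_prime_pow h hp
  obtain ⟨-, -, hev⟩ := key s hs
  rw [h1] at hev
  exact absurd hev (by decide)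

end Pool.Agent.R906
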