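import Pool.Agent.R906.QGen

/-!
# Toric quotient presentations
-/

set_option autoImplicit false

open HomogeneousLocalization MvPolynomial

namespace Pool.Agent.R906.Tor

variable {r c n : ℕ} (wt : Fin r → Fin c → ℤ) (cone : Fin n → Finset (Fin r))

/-- The characters of the charts. -/
def chartDeg (i : Fin n) : Fin c → ℤ := ∑ ρ ∈ (cone i)ᶜ, wt ρ

/-- The indicator function of the complement of a cone. -/
def ind (i : Fin n) (ρ : Fin r) : ℕ := if ρ ∈ cone i then 0 else 1

/-- The weight of an exponent vector. -/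
def degv (v : Fin r → ℤ) : Fin c → ℤ := fun e => ∑ ρ, v ρ * wt ρ e

theorem degv_add (v w : Fin r → ℤ) (e : Fin c) :
    degv wt (fun ρ => v ρ + w ρ) e = degv wt v e + degv wt w e := by
  simp [degv, add_mul, Finset.sum_add_distrib]

theorem degv_sub (v w : Fin r → ℤ) (e : Fin c) :
    degv wt (fun ρ => v ρ - w ρ) e = degv wt v e - degv wt w e := by
  simp [degv, sub_mul, Finset.sum_sub_distrib]

theorem degv_mul (k : ℤ) (v : Fin r → ℤ) (e : Fin c) :
    degv wt (fun ρ => k * v ρ) e = k * degv wt v e := by
  simp [degv, mul_assoc, Finset.mul_sum]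

theorem degv_ind (i : Fin n) (e : Fin c) :
    degv wt (fun ρ => ind cone i ρ) e = chartDeg wt cone i e := by
  rw [degv, chartDeg, Finset.sum_apply, ← Finset.sum_subset (Finset.subset_univ (cone i)ᶜ)]
  · refine Finset.sum_congr rfl fun ρ hρ => ?_
    rw [ind, if_neg (by simpa using hρ)]
    simp
  · intro ρ _ hρ
    rw [ind, if_pos (by simpa using hρ)]
    simp

variable (K : Type*) [Field K]

/-- The grading of the polynomial ring. -/
abbrev gr : (Fin c → ℤ) → Submodule K (MvPolynomial (Fin r) K) := weightedHomogeneousSubmodule K wt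

noncomputable instance instGr : GradedAlgebra (gr wt K) := weightedGradedAlgebra K wt

/-- The functions which define the charts. -/
noncomputable def chart (i : Fin n) : MvPolynomial (Fin r) K := ∏ ρ ∈ (cone i)ᶜ, X ρ

/-- The monomial with given exponents. -/
noncomputable def mon (s : Fin r → ℕ) : MvPolynomial (Fin r) K := ∏ ρ, X ρ ^ s ρ

variable {K}

theorem mon_mul (s t : Fin r → ℕ) : mon K s * mon K t = mon K (fun ρ => s ρ + t ρ) := by
  simp only [mon, pow_add, Finset.prod_mul_distrib]

theorem mon_pow (s : Fin r → ℕ) (k : ℕ) : mon K s ^ k = mon K (fun ρ => k * s ρ) := by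
  simp only [mon, pow_mul', Finset.prod_pow]

theorem mon_dvd {s t : Fin r → ℕ} (h : ∀ ρ, s ρ ≤ t ρ) : mon K s ∣ mon K t := by
  refine ⟨mon K (fun ρ => t ρ - s ρ), ?_⟩
  rw [mon_mul]
  congr 1
  funext ρ
  have := h ρ
  omega

theorem mon_ne_zero (s : Fin r → ℕ) : mon K s ≠ 0 := by
  rw [mon, Finset.prod_ne_zero_iff]
  intro ρ _
  exact pow_ne_zero _ (X_ne_zero ρ)

theorem X_eq_mon (ρ : Fin r) : (X ρ : MvPolynomial (Fin r) K) = mon K (Pi.single ρ 1) := by
  rw [mon, Finset.prod_eq_single ρ]
  · simp
  · intro σ _ hσ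
    simp [Pi.single_eq_of_ne hσ]
  · simp

theorem chart_eq (i : Fin n) : chart cone K i = mon K (ind cone i) := by
  simp only [chart, mon, ind]
  rw [← Finset.prod_subset (Finset.subset_univ (cone i)ᶜ)]
  · refine Finset.prod_congr rfl fun ρ hρ => ?_
    rw [if_neg (by simpa using hρ), pow_one]
  · intro ρ _ hρ
    rw [if_pos (by simpa using hρ), pow_zero]

theorem chart_ne_zero (i : Fin n) : chart cone K i ≠ 0 := by
  rw [chart_eq]
  exact mon_ne_zero _

theorem mon_mem (s : Fin r → ℕ) : mon K s ∈ gr wt K (∑ ρ, s ρ • wt ρ) := by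
  refine SetLike.prod_mem_graded (A := gr wt K) (fun ρ => s ρ • wt ρ)
    (fun ρ => X ρ ^ s ρ) ?_
  intro ρ _
  exact SetLike.pow_mem_graded (A := gr wt K) _ (isWeightedHomogeneous_X K wt ρ)

theorem mon_mem' (s : Fin r → ℕ) (m : Fin c → ℤ) (h : ∀ e, degv wt (fun ρ => s ρ) e = m e) :
    mon K s ∈ gr wt K m := by
  have : (∑ ρ, s ρ • wt ρ) = m := by
    funext e
    rw [← h e]
    simp [degv, Finset.sum_apply]
  rw [← this]
  exact mon_mem wt s

theorem chart_mem (i : Fin n) : chart cone K i ∈ gr wt K (chartDeg wt cone i) := by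
  refine SetLike.prod_mem_graded (A := gr wt K) wt (fun ρ => X ρ) ?_
  intro ρ _
  exact isWeightedHomogeneous_X K wt ρ

section glue

variable (hexp : Fin n → Fin n → Fin r → ℕ) (κ : ℕ)

/-- Exponent of the function `N i j`. -/
def nexp (i j : Fin n) (ρ : Fin r) : ℕ := hexp i j ρ + ind cone j ρ

variable {cone hexp κ}

theorem ex_NN (h1 : ∀ i j ρ, nexp cone hexp i j ρ + nexp cone hexp j i ρ =
    κ * ind cone i ρ + κ * ind cone j ρ) (i j : Fin n) :
    mon K (nexp cone hexp i j) * mon K (nexp cone hexp j i) =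
      chart cone K i ^ κ * chart cone K j ^ κ := by
  rw [chart_eq, chart_eq, mon_mul, mon_pow, mon_pow, mon_mul]
  congr 1
  funext ρ
  exact h1 i j ρ

variable (cone hexp) in
theorem ex_Nh (i j : Fin n) :
    mon K (nexp cone hexp i j) = chart cone K j * mon K (hexp i j) := by
  rw [chart_eq, mon_mul]
  congr 1
  funext ρ
  rw [nexp, add_comm]

variable {wt}

theorem ex_h_mem (h3 : ∀ i j e, degv wt (fun ρ => hexp i j ρ) e =
      κ * chartDeg wt cone i e - chartDeg wt cone j e) (i j : Fin n) :
    mon K (hexp i j) ∈ gr wt K (κ • chartDeg wt cone i - chartDeg wt cone j) := by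
  apply mon_mem'
  intro c
  rw [h3]
  simp

theorem ex_N_mem (h3 : ∀ i j e, degv wt (fun ρ => hexp i j ρ) e =
      κ * chartDeg wt cone i e - chartDeg wt cone j e) (i j : Fin n) :
    mon K (nexp cone hexp i j) ∈ gr wt K (κ • chartDeg wt cone i) := by
  rw [ex_Nh]
  have := SetLike.GradedMul.mul_mem (chart_mem wt cone j) (ex_h_mem (K := K) h3 i j)
  rwa [add_sub_cancel] at this

theorem glues (h1 : ∀ i j ρ, nexp cone hexp i j ρ + nexp cone hexp j i ρ =
    κ * ind cone i ρ + κ * ind cone j ρ) (h3 : ∀ i j e, degv wt (fun ρ => hexp i j ρ) e =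
      κ * chartDeg wt cone i e - chartDeg wt cone j e) : Glues (gr wt K) (chart cone K) := by
  intro i j
  exact ⟨_, glue_pair (chart_mem wt cone i) (ex_N_mem h3 i j) (ex_Nh cone hexp i j)
    (ex_NN h1 i j)⟩

theorem separated (h1 : ∀ i j ρ, nexp cone hexp i j ρ + nexp cone hexp j i ρ =
    κ * ind cone i ρ + κ * ind cone j ρ) (h3 : ∀ i j e, degv wt (fun ρ => hexp i j ρ) e =
      κ * chartDeg wt cone i e - chartDeg wt cone j e) :
    SeparatedModuli (gr wt K) (chart cone K) (chartDeg wt cone) (chart_mem wt cone) := by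
  intro i j
  refine sep_pair (chart_mem wt cone i) (chart_mem wt cone j) (ex_N_mem h3 j i) (ex_h_mem h3 i j) ?_
  rw [← ex_Nh]
  exact ex_NN h1 i j

end glue

variable {wt cone}

/-- If there is a positive functional on a cone, there is a trivial open substack. -/
theorem trivialOpen (i : Fin n) (s : Fin r → ℕ) (k M : ℕ)
    (hs : ∀ e, degv wt (fun ρ => s ρ) e = k * chartDeg wt cone i e)
    (h1 : ∀ ρ, 1 ≤ s ρ + ind cone i ρ) (h2 : ∀ ρ, s ρ ≤ M)
    (h3 : AddSubgroup.closure (Set.range wt) = ⊤) :
    HasTrivialOpen (gr wt K) (chart cone K) := by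
  have hsm : mon K s ∈ gr wt K (k • chartDeg wt cone i) := by
    apply mon_mem'
    intro e
    rw [hs]
    simp
  refine ⟨i, mon K (fun _ => 1), Away.mk (gr wt K) (chart_mem wt cone i) k (mon K s) hsm,
    ?_, ?_, ?_, ?_⟩
  · intro h
    exact mon_ne_zero _ h.eq_zero
  · rw [chart_eq]
    apply mon_dvd
    intro ρ
    rw [ind]
    split_ifs <;> omega
  · rw [basicOpen_mk]
    have hu : IsUnit (algebraMap (MvPolynomial (Fin r) K) (Localization.Away (chart cone K i))
        (chart cone K i)) := IsLocalization.Away.algebraMap_isUnit _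
    ext q
    simp only [SetLike.mem_coe, PrimeSpectrum.mem_basicOpen, not_iff_not]
    constructor
    · intro h
      have h4 : mon K (fun _ => 1) ∣ mon K s * chart cone K i := by
        rw [chart_eq, mon_mul]
        exact mon_dvd h1
      have h5 := Ideal.mem_of_dvd _ (map_dvd (algebraMap (MvPolynomial (Fin r) K)
        (Localization.Away (chart cone K i))) h4) h
      rw [map_mul] at h5
      exact (Ideal.mul_unit_mem_iff_mem _ hu).mp h5
    · intro h
      have h4 : mon K s ∣ mon K (fun _ => 1) ^ M := by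
        rw [mon_pow]
        apply mon_dvd
        intro ρ
        rw [mul_one]
        exact h2 ρ
      have h5 := Ideal.mem_of_dvd _ (map_dvd (algebraMap (MvPolynomial (Fin r) K)
        (Localization.Away (chart cone K i))) h4) h
      rw [map_pow] at h5
      exact q.isPrime.mem_of_pow_mem _ h5
  · rw [eq_top_iff, ← h3]
    apply AddSubgroup.closure_mono
    rintro _ ⟨ρ, rfl⟩
    refine ⟨X ρ, isWeightedHomogeneous_X K wt ρ, 1, ?_⟩
    rw [pow_one, X_eq_mon]
    apply mon_dvd
    intro σ
    by_cases h : σ = ρ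
    · subst h
      simp
    · simp [Pi.single_eq_of_ne h]

/-- A prime element does not divide all charts. -/
theorem prime_meets (hc : ∀ ρ, ∃ i, ρ ∈ cone i) (i0 : Fin n) {f : MvPolynomial (Fin r) K}
    (hf : Prime f) : ∃ i, chart cone K i ∉ Ideal.span {f} := by
  by_contra hcon
  push Not at hcon
  simp only [Ideal.mem_span_singleton] at hcon
  obtain ⟨ρ, -, hρ⟩ := hf.exists_mem_finset_dvd (hcon i0)
  have h1 : Associated f (X ρ) := hf.irreducible.associated_of_dvd X_prime.irreducible hρ
  obtain ⟨i, hi⟩ := hc ρ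
  have h2 : (X ρ : MvPolynomial (Fin r) K) ∣ chart cone K i := h1.dvd_iff_dvd_left.mp (hcon i)
  obtain ⟨σ, hσ, h3⟩ := (X_prime (R := K) (i := ρ)).exists_mem_finset_dvd h2
  rw [X_dvd_X] at h3
  subst h3
  simp at hσ
  exact hσ hi

/-- The integral substack defined by a homogeneous prime element. -/
noncomputable def ofPrime (hc : ∀ ρ, ∃ i, ρ ∈ cone i) (i0 : Fin n) {f : MvPolynomial (Fin r) K}
    (hf : Prime f) {m : Fin c → ℤ}
    (hm : f ∈ gr wt K m) : IntegralSubstack (gr wt K) (chart cone K) 1 where
  ideal := Ideal.span {f}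
  isPrime := (Ideal.span_singleton_prime hf.ne_zero).mpr hf
  isHomogeneous := Ideal.homogeneous_span _ _ (by
    rintro _ rfl
    exact ⟨m, hm⟩)
  height_eq := by
    rw [Ideal.height_span_singleton_eq_one_of_mem_nonZeroDivisors
      (mem_nonZeroDivisors_of_ne_zero hf.ne_zero) hf.not_isUnit]
    simp
  meets := prime_meets hc i0 hf

/-- The generator of a homogeneous principal ideal is homogeneous. -/
theorem homogeneous_of_span {f : MvPolynomial (Fin r) K} (hf : f ≠ 0)
    (h : (Ideal.span {f}).IsHomogeneous (gr wt K)) : ∃ m, f ∈ gr wt K m := by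
  have h1 : ∃ m, weightedHomogeneousComponent wt m f ≠ 0 := by
    by_contra hcon
    push Not at hcon
    apply hf
    rw [← sum_weightedHomogeneousComponent wt f]
    simp [hcon]
  obtain ⟨m, hm⟩ := h1
  refine ⟨m, ?_⟩
  have h2 : weightedHomogeneousComponent wt m f ∈ Ideal.span {f} := by
    have := h m (Ideal.mem_span_singleton_self f)
    rwa [← weightedDecomposition.decompose'_apply]
  rw [Ideal.mem_span_singleton] at h2
  obtain ⟨c, hc⟩ := h2
  have hc0 : c ≠ 0 := by
    rintro rfl
    rw [mul_zero] at hc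
    exact hm hc
  have h3 : (weightedHomogeneousComponent wt m f).totalDegree ≤ f.totalDegree := by
    apply totalDegree_le_of_support_subset
    intro d hd
    rw [mem_support_iff, coeff_weightedHomogeneousComponent] at hd
    rw [mem_support_iff]
    intro h0
    apply hd
    rw [h0]
    simp
  rw [hc, totalDegree_mul_of_isDomain hf hc0] at h3
  have h4 : c.totalDegree = 0 := by omega
  rw [totalDegree_eq_zero_iff_eq_C] at h4
  have hc1 : c.coeff 0 ≠ 0 := by
    intro h5
    rw [h5, map_zero] at h4
    exact hc0 h4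
  have h6 : f = C (c.coeff 0)⁻¹ * weightedHomogeneousComponent wt m f := by
    rw [hc, h4]
    simp only [coeff_zero_C]
    rw [mul_comm f, ← mul_assoc, ← C_mul, inv_mul_cancel₀ hc1, C_1, one_mul]
  rw [h6, ← smul_eq_C_mul]
  exact Submodule.smul_mem _ _ (weightedHomogeneousComponent_mem wt f m)

/-- Every integral substack of codimension one is given by a homogeneous prime element. -/
theorem exists_prime (Y : IntegralSubstack (gr wt K) (chart cone K) 1) :
    ∃ f : MvPolynomial (Fin r) K, Prime f ∧ Y.ideal = Ideal.span {f} ∧ ∃ m, f ∈ gr wt K m := by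
  have := Y.isPrime
  have h1 : Y.ideal.height = 1 := by
    rw [Y.height_eq]
    simp
  have h2 := UniqueFactorizationMonoid.isPrincipal_of_height_eq_one h1
  obtain ⟨f, hf⟩ := h2
  rw [Ideal.submodule_span_eq] at hf
  have h0 : f ≠ 0 := by
    rintro rfl
    apply Ideal.ne_bot_of_height_eq_one h1
    rw [hf]
    simp
  refine ⟨f, ?_, hf, ?_⟩
  · rw [← Ideal.span_singleton_prime h0, ← hf]
    exact Y.isPrime
  · apply homogeneous_of_span h0
    rw [← hf]
    exact Y.isHomogeneous

/-- The weight of a monomial. -/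
theorem weight_eq (s : Fin r →₀ ℕ) (e : Fin c) :
    Finsupp.weight wt s e = degv wt (fun ρ => s ρ) e := by
  rw [Finsupp.weight_apply, Finsupp.sum_fintype _ _ (by simp)]
  simp [degv, Finset.sum_apply]

variable (cone) in
/-- The unit point of a chart. -/
noncomputable def pt (K : Type*) [Field K] (i : Fin n) (ρ : Fin r) : K :=
  if ρ ∈ cone i then 0 else 1

theorem eval_chart (i : Fin n) : eval (pt cone K i) (chart cone K i) = 1 := by
  rw [chart, map_prod]
  apply Finset.prod_eq_one
  intro ρ hρ
  rw [eval_X, pt, if_neg (by simpa using hρ)]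

/-- If the ideal of the preimage of the image of a substack is generated over the chart `i` by
`f`, then the degree of `f` is the degree of an invertible function on the chart. -/
theorem chart_lemma (Y : IntegralSubstack (gr wt K) (chart cone K) 1) {f : MvPolynomial (Fin r) K}
    (hf : f ≠ 0) {m : Fin c → ℤ} (hm : f ∈ gr wt K m) (i : Fin n)
    (hst : Y.saturatedIdeal i = Ideal.span {algebraMap (MvPolynomial (Fin r) K)
      (Localization.Away (chart cone K i)) f}) :
    ∃ v : Fin r → ℤ, (∀ ρ ∈ cone i, v ρ = 0) ∧ ∀ e, degv wt v e = - m e := by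
  by_contra hcon
  set φ := algebraMap (MvPolynomial (Fin r) K) (Localization.Away (chart cone K i)) with hφ
  have hinj : Function.Injective φ :=
    IsLocalization.injective (M := Submonoid.powers (chart cone K i)) _
      (powers_le_nonZeroDivisors_of_noZeroDivisors (chart_ne_zero cone i))
  have hug : IsUnit (φ (chart cone K i)) := IsLocalization.Away.algebraMap_isUnit _
  have hu1 : IsUnit (eval (pt cone K i) (chart cone K i)) := by
    rw [eval_chart]
    exact isUnit_one
  let ev : Localization.Away (chart cone K i) →+* K := IsLocalization.Away.lift (chart cone K i) hu1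
  have hev : ∀ a, ev (φ a) = eval (pt cone K i) a := fun a => IsLocalization.Away.lift_eq _ hu1 a
  have hle : Y.saturatedIdeal i ≤ Ideal.span {φ f} * RingHom.ker ev := by
    have hst' := hst
    rw [IntegralSubstack.saturatedIdeal] at hst' ⊢
    rw [Ideal.map_le_iff_le_comap]
    intro z hz
    have hz2 := Ideal.mem_map_of_mem (algebraMap (Away (gr wt K) (chart cone K i))
      (Localization.Away (chart cone K i))) hz
    rw [hst', Ideal.mem_span_singleton] at hz2
    rw [Ideal.mem_comap]
    obtain ⟨c, hc⟩ := hz2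
    obtain ⟨n, a, ha, rfl⟩ := Away.mk_surjective (gr wt K) (chart_mem wt cone i) z
    have h1 := val_mk_mul (gr wt K) (chart_mem wt cone i) n a ha
    obtain ⟨k, c2, hc2⟩ := IsLocalization.Away.surj (chart cone K i) (c * φ (chart cone K i) ^ n)
    have h2 : a * chart cone K i ^ k = f * c2 := by
      apply hinj
      rw [map_mul, map_mul, map_pow, ← h1, hc, ← hc2]
      ring
    have h3 : a * chart cone K i ^ k ∈
        gr wt K (m + (n • chartDeg wt cone i + k • chartDeg wt cone i - m)) := by
      have := SetLike.GradedMul.mul_mem ha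
        (SetLike.pow_mem_graded k (chart_mem (K := K) wt cone i))
      rw [add_sub_cancel]
      exact this
    have h4 := DirectSum.coe_decompose_mul_add_of_left_mem (gr wt K)
      (j := n • chartDeg wt cone i + k • chartDeg wt cone i - m) (b := c2) hm
    rw [← h2, DirectSum.decompose_of_mem_same _ h3, h2] at h4
    have h5 : c2 ∈ gr wt K (n • chartDeg wt cone i + k • chartDeg wt cone i - m) := by
      rw [mul_right_injective₀ hf h4]
      exact SetLike.coe_mem _
    have h6 : eval (pt cone K i) c2 = 0 := by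
      rw [eval_eq']
      apply Finset.sum_eq_zero
      intro s hs
      rw [mem_support_iff] at hs
      have h7 := h5 hs
      have h8 : ∃ ρ ∈ cone i, s ρ ≠ 0 := by
        by_contra hcon2
        push Not at hcon2
        apply hcon
        refine ⟨fun ρ => s ρ - (n + k) * ind cone i ρ, ?_, ?_⟩
        · intro ρ hρ
          simp [hcon2 ρ hρ, ind, hρ]
        · intro c
          rw [degv_sub, degv_mul, degv_ind, ← weight_eq, h7]
          simp
          ring
      obtain ⟨ρ, hρ, h9⟩ := h8
      rw [Finset.prod_eq_zero (Finset.mem_univ ρ), mul_zero]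
      rw [pt, if_pos hρ, zero_pow h9]
    have h10 : algebraMap (Away (gr wt K) (chart cone K i)) (Localization.Away (chart cone K i))
        (Away.mk (gr wt K) (chart_mem wt cone i) n a ha) * φ (chart cone K i) ^ (n + k) =
          φ f * φ c2 := by
      rw [pow_add, ← mul_assoc, h1, ← map_pow, ← map_mul, h2, map_mul]
    rw [← Ideal.mul_unit_mem_iff_mem _ (hug.pow (n + k)), h10]
    refine Ideal.mul_mem_mul (Ideal.mem_span_singleton_self _) ?_
    rw [RingHom.mem_ker, hev, h6]
  have h11 : φ f ∈ Ideal.span {φ f} * RingHom.ker ev := by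
    apply hle
    rw [hst]
    exact Ideal.mem_span_singleton_self _
  rw [Ideal.mem_span_singleton_mul] at h11
  obtain ⟨c, hc, hfc⟩ := h11
  have hφf : φ f ≠ 0 := by
    intro h
    rw [← map_zero φ] at h
    exact hf (hinj h)
  have hc1 : c = 1 := mul_left_cancel₀ hφf (by rw [hfc, mul_one])
  rw [hc1, RingHom.mem_ker, map_one] at hc
  exact one_ne_zero hc

end Pool.Agent.R906.Tor
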