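import Pool.Agent.R906.QTor

/-!
# Toric quotient presentations: rational equivalence and primarily strong divisors
-/

set_option autoImplicit false

open HomogeneousLocalization MvPolynomial

namespace Pool.Agent.R906.Tor

variable {r c n : ℕ} {wt : Fin r → Fin c → ℤ} {cone : Fin n → Finset (Fin r)}
  {K : Type*} [Field K]

variable (wt K) in
/-- The grading of the polynomial ring, by a linearly ordered group. -/
noncomputable def gr' : Lex (Fin c → ℤ) → Submodule K (MvPolynomial (Fin r) K) := gr wt K

noncomputable local instance (priority := 10000) decLex : DecidableEq (Lex (Fin c → ℤ)) :=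
  LinearOrder.toDecidableEq

noncomputable instance grInst : GradedRing (gr' wt K) := by
  have h : (decLex (c := c)) = (inferInstanceAs (DecidableEq (Fin c → ℤ))) :=
    Subsingleton.elim _ _
  rw [h]
  exact inferInstanceAs (GradedRing (gr wt K))

/-- Prime factors of homogeneous polynomials are homogeneous. -/
theorem prime_factor_homogeneous {p a : MvPolynomial (Fin r) K} (hp : Prime p) (ha0 : a ≠ 0)
    {m : Fin c → ℤ} (ha : a ∈ gr wt K m) (hpa : p ∣ a) : ∃ m', p ∈ gr wt K m' := by
  have hP : (Ideal.span {p}).IsPrime := (Ideal.span_singleton_prime hp.ne_zero).mpr hp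
  have hC := Ideal.IsPrime.homogeneousCore (𝒜 := gr' wt K) hP
  have haC : a ∈ (Ideal.homogeneousCore (gr' wt K) (Ideal.span {p})).toIdeal :=
    Ideal.mem_homogeneousCore_of_homogeneous_of_mem ⟨m, ha⟩ (Ideal.mem_span_singleton.mpr hpa)
  have hne : (Ideal.homogeneousCore (gr' wt K) (Ideal.span {p})).toIdeal ≠ ⊥ := by
    intro h
    rw [h, Ideal.mem_bot] at haC
    exact ha0 haC
  obtain ⟨q, hqC, hq⟩ := hC.exists_mem_prime_of_ne_bot hne
  have hle := Ideal.toIdeal_homogeneousCore_le (gr' wt K) (Ideal.span {p})
  have h1 : p ∣ q := Ideal.mem_span_singleton.mp (hle hqC)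
  have h2 : Associated p q := hp.irreducible.associated_of_dvd hq.irreducible h1
  have h3 : (Ideal.homogeneousCore (gr' wt K) (Ideal.span {p})).toIdeal = Ideal.span {p} := by
    apply le_antisymm hle
    rw [Ideal.span_singleton_eq_span_singleton.mpr h2, Ideal.span_singleton_le_iff_mem,
      ← Ideal.span_singleton_eq_span_singleton.mpr h2]
    exact hqC
  have h4 : (Ideal.span {p}).IsHomogeneous (gr wt K) := by
    rw [← h3]
    refine Ideal.homogeneous_span _ _ ?_
    rintro _ ⟨⟨x, hx⟩, _, rfl⟩
    exact hx
  exact homogeneous_of_span hp.ne_zero h4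

/-- The order of vanishing is the multiplicity. -/
theorem ord_eq {Y : IntegralSubstack (gr wt K) (chart cone K) 1} {f a : MvPolynomial (Fin r) K}
    (hf : Prime f) (hY : Y.ideal = Ideal.span {f}) (ha : a ≠ 0) :
    (Y.ord a : ℕ∞) = emultiplicity f a := by
  have hfin : FiniteMultiplicity f a := FiniteMultiplicity.of_prime_left hf ha
  rw [hfin.emultiplicity_eq_multiplicity]
  have : {n : ℕ | a ∈ Y.ideal ^ n} = Set.Iic (multiplicity f a) := by
    ext n
    rw [Set.mem_ofPred_eq, hY, Ideal.span_singleton_pow, Ideal.mem_span_singleton,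
      hfin.pow_dvd_iff_le_multiplicity, Set.mem_Iic]
  rw [IntegralSubstack.ord, this, csSup_Iic]

theorem integralSubstack_ext {Y Y' : IntegralSubstack (gr wt K) (chart cone K) 1}
    (h : Y.ideal = Y'.ideal) : Y = Y' := by
  cases Y
  cases Y'
  simp only at h
  subst h
  rfl

/-- Associated homogeneous polynomials have the same degree. -/
theorem degree_eq_of_associated {a b : MvPolynomial (Fin r) K} (h : Associated a b) (ha0 : a ≠ 0)
    {m m' : Fin c → ℤ} (ha : a ∈ gr wt K m) (hb : b ∈ gr wt K m') : m = m' := by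
  obtain ⟨u, rfl⟩ := h
  have hu := u.isUnit
  rw [MvPolynomial.isUnit_iff_eq_C_of_isReduced] at hu
  obtain ⟨t, ht, hu⟩ := hu
  replace hu : (u : MvPolynomial (Fin r) K) = C t := hu
  obtain ⟨s, hs⟩ := ne_zero_iff.mp ha0
  have h1 := ha hs
  have h2 : coeff s (a * (u : MvPolynomial (Fin r) K)) ≠ 0 := by
    rw [hu, mul_comm, coeff_C_mul, mul_comm]
    exact mul_ne_zero hs ht.ne_zero
  have h3 := hb h2
  rw [← h1, h3]

/-- The class of the divisor of a homogeneous polynomial of non-zero degree is not zero. -/
theorem not_ratEquivZero (hc : ∀ ρ, ∃ i, ρ ∈ cone i) (i0 : Fin n)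
    (D : IntegralSubstack (gr wt K) (chart cone K) 1 →₀ ℚ) {s : MvPolynomial (Fin r) K}
    {m : Fin c → ℤ} (hs0 : s ≠ 0) (hs : s ∈ gr wt K m) (hm : m ≠ 0)
    (hD : ∀ Y, D Y = (Y.ord s : ℚ)) : ¬ RatEquivZero D := by
  rintro ⟨N, m', a, b, hN, ha, hb, ha0, hb0, h⟩
  have hsN : s ^ N ≠ 0 := pow_ne_zero _ hs0
  have key : ∀ p : MvPolynomial (Fin r) K, Prime p →
      emultiplicity p a = emultiplicity p (b * s ^ N) := by
    intro p hp
    rw [emultiplicity_mul hp, emultiplicity_pow hp]
    by_cases hph : ∃ m', p ∈ gr wt K m'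
    · obtain ⟨m', hm'⟩ := hph
      have h1 := h (ofPrime hc i0 hp hm')
      rw [hD] at h1
      have h3 : (ofPrime hc i0 hp hm').ord a = (ofPrime hc i0 hp hm').ord b +
          N * (ofPrime hc i0 hp hm').ord s := by
        have : ((ofPrime hc i0 hp hm').ord a : ℚ) = (ofPrime hc i0 hp hm').ord b +
          N * (ofPrime hc i0 hp hm').ord s := by linarith
        exact_mod_cast this
      rw [← ord_eq hp (Y := ofPrime hc i0 hp hm') rfl ha0,
        ← ord_eq hp (Y := ofPrime hc i0 hp hm') rfl hb0,
        ← ord_eq hp (Y := ofPrime hc i0 hp hm') rfl hs0, h3]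
      push_cast
      rfl
    · have h1 : ¬ p ∣ a := fun h2 => hph (prime_factor_homogeneous hp ha0 ha h2)
      have h3 : ¬ p ∣ b := fun h2 => hph (prime_factor_homogeneous hp hb0 hb h2)
      have h4 : ¬ p ∣ s := fun h2 => hph (prime_factor_homogeneous hp hs0 hs h2)
      rw [emultiplicity_eq_zero.mpr h1, emultiplicity_eq_zero.mpr h3, emultiplicity_eq_zero.mpr h4]
      simp
  have h1 : Associated a (b * s ^ N) := by
    apply associated_of_dvd_dvd
    · rw [UniqueFactorizationMonoid.dvd_iff_emultiplicity_le ha0]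
      intro p hp
      exact (key p hp).le
    · rw [UniqueFactorizationMonoid.dvd_iff_emultiplicity_le (mul_ne_zero hb0 hsN)]
      intro p hp
      exact (key p hp).ge
  have h3 : b * s ^ N ∈ gr wt K (m' + N • m) :=
    SetLike.GradedMul.mul_mem hb (SetLike.pow_mem_graded _ hs)
  have h4 := degree_eq_of_associated h1 ha0 ha h3
  have h5 : N • m = 0 := by
    rw [left_eq_add] at h4
    exact h4
  rw [smul_eq_zero] at h5
  rcases h5 with h5 | h5
  · omega
  · exact hm h5

/-- The degree of the equation of a primarily strong divisor is, up to a positive multiple, the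
degree of an invertible function on every chart. -/
theorem pst_lemma {Y : IntegralSubstack (gr wt K) (chart cone K) 1} (hY : Y.IsPrimarilyStrong)
    {f : MvPolynomial (Fin r) K} (hYf : Y.ideal = Ideal.span {f}) (hf : f ≠ 0) {m : Fin c → ℤ}
    (hm : f ∈ gr wt K m) (i : Fin n) :
    ∃ (N : ℕ) (v : Fin r → ℤ), 0 < N ∧ (∀ ρ ∈ cone i, v ρ = 0) ∧
      ∀ e, degv wt v e = - (N * m e) := by
  set φ := algebraMap (MvPolynomial (Fin r) K) (Localization.Away (chart cone K i)) with hφ
  have hchart : Y.chartIdeal i = Ideal.span {φ f} := by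
    rw [IntegralSubstack.chartIdeal, hYf, Ideal.map_span, Set.image_singleton]
  by_cases htop : Y.chartIdeal i = ⊤
  · have h1 : Y.saturatedIdeal i = Ideal.span {φ f} := by
      rw [← hchart, IntegralSubstack.saturatedIdeal, IntegralSubstack.imageIdeal, htop,
        Ideal.comap_top, Ideal.map_top]
    obtain ⟨v, hv, hv'⟩ := chart_lemma Y hf hm i h1
    exact ⟨1, v, one_pos, hv, fun e => by rw [hv' e]; simp⟩
  · obtain ⟨hprim, hrad⟩ := hY i htop
    rw [Ideal.isPrimary_iff] at hprim
    have hex : ∃ k, φ f ^ k ∈ Y.saturatedIdeal i := by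
      have : φ f ∈ (Y.saturatedIdeal i).radical := by
        rw [hrad, hchart]
        exact Ideal.mem_span_singleton_self _
      exact this
    classical
    set N := Nat.find hex with hN
    have hNmem : φ f ^ N ∈ Y.saturatedIdeal i := Nat.find_spec hex
    have hNmin : ∀ j < N, φ f ^ j ∉ Y.saturatedIdeal i := fun j hj => Nat.find_min hex hj
    have hN0 : 0 < N := by
      rcases Nat.eq_zero_or_pos N with h | h
      · exfalso
        apply hprim.1
        rw [Ideal.eq_top_iff_one]
        rw [h, pow_zero] at hNmem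
        exact hNmem
      · exact h
    have hsat : Y.saturatedIdeal i = Ideal.span {φ (f ^ N)} := by
      rw [map_pow]
      apply le_antisymm
      · intro z hz
        rw [Ideal.mem_span_singleton]
        have hj : ∀ j ≤ N, φ f ^ j ∣ z := by
          intro j
          induction j with
          | zero => intro _; simp
          | succ j ih =>
            intro hj
            obtain ⟨w, hw⟩ := ih (by omega)
            by_cases hfw : φ f ∣ w
            · obtain ⟨w', rfl⟩ := hfw
              exact ⟨w', by rw [hw, pow_succ, mul_assoc]⟩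
            · exfalso
              rw [hw] at hz
              rcases hprim.2 hz with h | h
              · exact hNmin j (by omega) h
              · rw [hrad, hchart, Ideal.mem_span_singleton] at h
                exact hfw h
        exact hj N le_rfl
      · rw [Ideal.span_singleton_le_iff_mem]
        exact hNmem
    obtain ⟨v, hv, hv'⟩ := chart_lemma Y (pow_ne_zero N hf) (SetLike.pow_mem_graded N hm) i hsat
    refine ⟨N, v, hN0, hv, fun e => ?_⟩
    rw [hv' e]
    simp

end Pool.Agent.R906.Tor
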