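import Mathlib
set_option autoImplicit false
set_option linter.unusedSectionVars false

/-!
# Prime parking functions: the triangular recursion
-/

namespace Pool.Agent.R906.SP

open Finset

variable {ι : Type} [Fintype ι] [DecidableEq ι]

/-- functions on `X` with values in `[lo, hi]`, extended by `0` -/
def Pf (X : Finset ι) (lo hi : ℕ) : Finset (ι → ℕ) :=
  Fintype.piFinset (fun x => if x ∈ X then Finset.Icc lo hi else {0})

theorem mem_Pf {X : Finset ι} {lo hi : ℕ} {a : ι → ℕ} :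
    a ∈ Pf X lo hi ↔ (∀ x ∈ X, lo ≤ a x ∧ a x ≤ hi) ∧ ∀ x ∉ X, a x = 0 := by
  unfold Pf
  rw [Fintype.mem_piFinset]
  constructor
  · intro h
    constructor
    · intro x hx
      have := h x
      rw [if_pos hx, Finset.mem_Icc] at this
      exact this
    · intro x hx
      have := h x
      rw [if_neg hx, Finset.mem_singleton] at this
      exact this
  · rintro ⟨h1, h2⟩ x
    by_cases hx : x ∈ X
    · rw [if_pos hx, Finset.mem_Icc]; exact h1 x hx
    · rw [if_neg hx, Finset.mem_singleton]; exact h2 x hx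

theorem sum_Pf (X : Finset ι) (lo hi : ℕ) (t : ℝ) :
    ∑ a ∈ Pf X lo hi, t ^ (∑ x, a x) = (∑ i ∈ Finset.Icc lo hi, t ^ i) ^ X.card := by
  simp_rw [← Finset.prod_pow_eq_pow_sum]
  unfold Pf
  rw [← Finset.prod_univ_sum (fun x => if x ∈ X then Finset.Icc lo hi else {0}) (fun _ j => t ^ j)]
  have : ∀ x : ι, ∑ j ∈ (if x ∈ X then Finset.Icc lo hi else {0}), t ^ j =
      if x ∈ X then ∑ i ∈ Finset.Icc lo hi, t ^ i else 1 := by
    intro x
    split_ifs <;> simp
  simp_rw [this]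
  rw [Finset.prod_ite_mem, Finset.univ_inter, Finset.prod_const]

/-- prime functions on `J` -/
def Prm (J : Finset ι) (b : ι → ℕ) : Prop :=
  (∀ x ∈ J, 1 ≤ b x) ∧ ∀ i, 1 ≤ i → min (i + 1) J.card ≤ (J.filter (fun x => b x ≤ i)).card

theorem Prm_congr {J : Finset ι} {a b : ι → ℕ} (h : ∀ x ∈ J, a x = b x) : Prm J a ↔ Prm J b := by
  unfold Prm
  have h1 : ∀ i, J.filter (fun x => a x ≤ i) = J.filter (fun x => b x ≤ i) := by
    intro i
    apply Finset.filter_congr
    intro x hx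
    rw [h x hx]
  simp_rw [h1]
  constructor
  · rintro ⟨h2, h3⟩
    exact ⟨fun x hx => by rw [← h x hx]; exact h2 x hx, h3⟩
  · rintro ⟨h2, h3⟩
    exact ⟨fun x hx => by rw [h x hx]; exact h2 x hx, h3⟩

theorem Prm_le {J : Finset ι} {a : ι → ℕ} (h : Prm J a) (x : ι) (hx : x ∈ J) : a x ≤ J.card := by
  have hpos : 1 ≤ J.card := Finset.card_pos.2 ⟨x, hx⟩
  have h1 := h.2 J.card hpos
  rw [min_eq_right (by omega)] at h1
  have h2 : J.filter (fun x => a x ≤ J.card) = J :=
    Finset.eq_of_subset_of_card_le (Finset.filter_subset _ _) h1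
  rw [← h2, Finset.mem_filter] at hx
  exact hx.2

/-- the set of prime functions on `J` -/
noncomputable def PrSet (J : Finset ι) : Finset (ι → ℕ) :=
  letI : DecidablePred (Prm J) := Classical.decPred _
  (Pf J 1 J.card).filter (Prm J)

/-- generating function -/
noncomputable def PrS (J : Finset ι) (t : ℝ) : ℝ := ∑ b ∈ PrSet J, t ^ (∑ x, b x)

theorem mem_PrSet {J : Finset ι} {b : ι → ℕ} :
    b ∈ PrSet J ↔ Prm J b ∧ ∀ x ∉ J, b x = 0 := by
  unfold PrSet
  rw [@Finset.mem_filter _ (Prm J) (Classical.decPred _), mem_Pf]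
  constructor
  · rintro ⟨⟨-, h2⟩, h3⟩
    exact ⟨h3, h2⟩
  · rintro ⟨h1, h2⟩
    exact ⟨⟨fun x hx => ⟨h1.1 x hx, Prm_le h1 x hx⟩, h2⟩, h1⟩

/-- `J` is the prime part of `a` on `X` -/
def Good (X J : Finset ι) (a : ι → ℕ) : Prop := Prm J a ∧ ∀ x ∈ X \ J, J.card + 1 ≤ a x

theorem good_eq {X J : Finset ι} {a : ι → ℕ} (hJ : J ⊆ X) (h : Good X J a) :
    J = X.filter (fun x => a x ≤ J.card) := by
  ext x
  rw [Finset.mem_filter]
  constructor
  · intro hx
    exact ⟨hJ hx, Prm_le h.1 x hx⟩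
  · rintro ⟨hx, hax⟩
    by_contra hxJ
    have := h.2 x (Finset.mem_sdiff.2 ⟨hx, hxJ⟩)
    omega

theorem good_le {X J J' : Finset ι} {a : ι → ℕ} (hJ : J ⊆ X) (hJ' : J' ⊆ X) (hn : J.Nonempty)
    (h : Good X J a) (h' : Good X J' a) : J'.card ≤ J.card := by
  by_contra hcon
  push Not at hcon
  have hpos : 1 ≤ J.card := Finset.card_pos.2 hn
  have h1 := h'.1.2 J.card hpos
  rw [min_eq_left (by omega)] at h1
  have h2 : J'.filter (fun x => a x ≤ J.card) ⊆ J := by
    intro x hx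
    rw [Finset.mem_filter] at hx
    rw [good_eq hJ h, Finset.mem_filter]
    exact ⟨hJ' hx.1, hx.2⟩
  have h3 := Finset.card_le_card h2
  omega

theorem good_unique {X J J' : Finset ι} {a : ι → ℕ} (hJ : J ⊆ X) (hJ' : J' ⊆ X) (hn : J.Nonempty)
    (hn' : J'.Nonempty) (h : Good X J a) (h' : Good X J' a) : J = J' := by
  have hc : J.card = J'.card := le_antisymm (good_le hJ' hJ hn' h' h) (good_le hJ hJ' hn h h')
  rw [good_eq hJ h, good_eq hJ' h', hc]

theorem good_exists {X : Finset ι} {a : ι → ℕ} (ha : ∀ x ∈ X, 1 ≤ a x) (h1 : ∃ x ∈ X, a x = 1) :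
    ∃ J, J ⊆ X ∧ J.Nonempty ∧ Good X J a := by
  classical
  obtain ⟨x0, hx0, hax0⟩ := h1
  have hex : ∃ j, 1 ≤ j ∧ (X.filter (fun x => a x ≤ j)).card ≤ j :=
    ⟨X.card, Finset.card_pos.2 ⟨x0, hx0⟩, Finset.card_filter_le _ _⟩
  set j := Nat.find hex with hj
  obtain ⟨hj1, hjle⟩ := Nat.find_spec hex
  rw [← hj] at hj1 hjle
  have hmin : ∀ i, 1 ≤ i → i < j → i < (X.filter (fun x => a x ≤ i)).card := by
    intro i hi hij
    have := Nat.find_min hex hij
    push Not at this
    exact this hi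
  set J := X.filter (fun x => a x ≤ j) with hJ
  have hx0J : x0 ∈ J := by
    rw [hJ, Finset.mem_filter]
    exact ⟨hx0, by omega⟩
  have hcard : J.card = j := by
    apply le_antisymm hjle
    rcases Nat.lt_or_ge 1 j with h | h
    · have h2 := hmin (j - 1) (by omega) (by omega)
      have h3 : X.filter (fun x => a x ≤ j - 1) ⊆ J := by
        intro x hx
        rw [Finset.mem_filter] at hx
        rw [hJ, Finset.mem_filter]
        exact ⟨hx.1, by omega⟩
      have h4 := Finset.card_le_card h3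
      omega
    · have : 1 ≤ J.card := Finset.card_pos.2 ⟨x0, hx0J⟩
      omega
  refine ⟨J, Finset.filter_subset _ _, ⟨x0, hx0J⟩, ⟨fun x hx => ha x (Finset.mem_filter.1 hx).1, ?_⟩, ?_⟩
  · intro i hi
    rw [hcard]
    rcases Nat.lt_or_ge i j with h | h
    · have h2 := hmin i hi h
      have h3 : J.filter (fun x => a x ≤ i) = X.filter (fun x => a x ≤ i) := by
        rw [hJ, Finset.filter_filter]
        apply Finset.filter_congr
        intro x _
        constructor
        · rintro ⟨-, h⟩; exact h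
        · intro h'; exact ⟨by omega, h'⟩
      rw [h3]
      exact (min_le_left _ _).trans h2
    · have h3 : J.filter (fun x => a x ≤ i) = J := by
        apply Finset.filter_true_of_mem
        intro x hx
        have := (Finset.mem_filter.1 hx).2
        omega
      rw [h3, hcard]
      exact min_le_right _ _
  · intro x hx
    rw [Finset.mem_sdiff] at hx
    rw [hcard]
    by_contra hcon
    push Not at hcon
    apply hx.2
    rw [hJ, Finset.mem_filter]
    exact ⟨hx.1, by omega⟩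

open Classical in
theorem indicator_sum {X : Finset ι} {L : ℕ} {a : ι → ℕ} (ha : a ∈ Pf X 1 L) :
    (if (∀ x ∈ X, 2 ≤ a x) then (1 : ℝ) else 0) +
      ∑ J ∈ X.powerset.filter (fun J => J.Nonempty), (if Good X J a then (1 : ℝ) else 0) = 1 := by
  rw [mem_Pf] at ha
  by_cases h : ∀ x ∈ X, 2 ≤ a x
  · rw [if_pos h, Finset.sum_eq_zero, add_zero]
    intro J hJ
    rw [Finset.mem_filter, Finset.mem_powerset] at hJ
    rw [if_neg]
    intro hg
    have h1 := hg.1.2 1 le_rfl
    have hpos : 1 ≤ J.card := Finset.card_pos.2 hJ.2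
    have h2 : 0 < (J.filter (fun x => a x ≤ 1)).card := by
      have : 1 ≤ min (1 + 1) J.card := le_min (by norm_num) hpos
      omega
    obtain ⟨x, hx⟩ := Finset.card_pos.1 h2
    rw [Finset.mem_filter] at hx
    have := h x (hJ.1 hx.1)
    omega
  · rw [if_neg h, zero_add]
    push Not at h
    obtain ⟨x, hx, hax⟩ := h
    obtain ⟨J, hJX, hJn, hJ⟩ := good_exists (fun x hx => (ha.1 x hx).1)
      ⟨x, hx, by have := (ha.1 x hx).1; omega⟩
    rw [Finset.sum_eq_single J]
    · rw [if_pos hJ]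
    · intro J' hJ' hne
      rw [Finset.mem_filter, Finset.mem_powerset] at hJ'
      rw [if_neg]
      intro hg
      exact hne (good_unique hJ'.1 hJX hJ'.2 hJn hg hJ)
    · intro hn
      exact absurd (Finset.mem_filter.2 ⟨Finset.mem_powerset.2 hJX, hJn⟩) hn

open Classical in
theorem good_sum {X J : Finset ι} (hJ : J ⊆ X) {L : ℕ} (hL : X.card ≤ L) (t : ℝ) :
    ∑ a ∈ (Pf X 1 L).filter (Good X J), t ^ (∑ x, a x) =
      PrS J t * ∑ c ∈ Pf (X \ J) (J.card + 1) L, t ^ (∑ x, c x) := by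
  unfold PrS
  rw [Finset.sum_mul_sum, ← Finset.sum_product']
  have hJL : J.card ≤ L := (Finset.card_le_card hJ).trans hL
  apply Finset.sum_nbij' (fun a => ((fun x => if x ∈ J then a x else 0),
      (fun x => if x ∈ J then 0 else a x))) (fun z => z.1 + z.2)
  · intro a ha
    rw [Finset.mem_filter, mem_Pf] at ha
    obtain ⟨⟨ha1, ha2⟩, hg⟩ := ha
    rw [Finset.mem_product, mem_PrSet, mem_Pf]
    refine ⟨⟨(Prm_congr (fun x hx => by simp [hx])).1 hg.1, fun x hx => by simp [hx]⟩, ?_, ?_⟩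
    · intro x hx
      rw [Finset.mem_sdiff] at hx
      simp only [if_neg hx.2]
      exact ⟨hg.2 x (Finset.mem_sdiff.2 hx), (ha1 x hx.1).2⟩
    · intro x hx
      rw [Finset.mem_sdiff] at hx
      by_cases hxJ : x ∈ J
      · simp [hxJ]
      · simp only [if_neg hxJ]
        apply ha2
        intro hxX
        exact hx ⟨hxX, hxJ⟩
  · rintro ⟨b, c⟩ hz
    rw [Finset.mem_product, mem_PrSet, mem_Pf] at hz
    obtain ⟨⟨hb1, hb2⟩, hc1, hc2⟩ := hz
    dsimp only at hb1 hb2 hc1 hc2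
    have hcJ : ∀ x ∈ J, c x = 0 := fun x hx => hc2 x (by rw [Finset.mem_sdiff]; exact fun h => h.2 hx)
    rw [Finset.mem_filter, mem_Pf]
    refine ⟨⟨?_, ?_⟩, ?_, ?_⟩
    · intro x hx
      simp only [Pi.add_apply]
      by_cases hxJ : x ∈ J
      · have := hb1.1 x hxJ
        have := Prm_le hb1 x hxJ
        rw [hcJ x hxJ]
        omega
      · rw [hb2 x hxJ]
        have := hc1 x (Finset.mem_sdiff.2 ⟨hx, hxJ⟩)
        omega
    · intro x hx
      simp only [Pi.add_apply]
      rw [hb2 x (fun h => hx (hJ h)), hc2 x (fun h => hx (Finset.mem_sdiff.1 h).1)]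
    · exact (Prm_congr (fun x hx => by simp [hcJ x hx])).2 hb1
    · intro x hx
      simp only [Pi.add_apply]
      rw [hb2 x (Finset.mem_sdiff.1 hx).2, zero_add]
      exact (hc1 x hx).1
  · intro a _
    funext x
    simp only [Pi.add_apply]
    split_ifs <;> simp
  · rintro ⟨b, c⟩ hz
    rw [Finset.mem_product, mem_PrSet, mem_Pf] at hz
    obtain ⟨⟨hb1, hb2⟩, hc1, hc2⟩ := hz
    dsimp only at hb1 hb2 hc1 hc2
    have hcJ : ∀ x ∈ J, c x = 0 := fun x hx => hc2 x (by rw [Finset.mem_sdiff]; exact fun h => h.2 hx)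
    simp only [Pi.add_apply, Prod.mk.injEq]
    constructor
    · funext x
      by_cases hxJ : x ∈ J
      · rw [if_pos hxJ, hcJ x hxJ, add_zero]
      · rw [if_neg hxJ, hb2 x hxJ]
    · funext x
      by_cases hxJ : x ∈ J
      · rw [if_pos hxJ, hcJ x hxJ]
      · rw [if_neg hxJ, hb2 x hxJ, zero_add]
  · intro a _
    simp only []
    rw [← pow_add, ← Finset.sum_add_distrib]
    congr 1
    apply Finset.sum_congr rfl
    intro x _
    split_ifs <;> simp

open Classical in
/-- the finite recursion -/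
theorem prime_rec (X : Finset ι) {L : ℕ} (hL : X.card ≤ L) (t : ℝ) :
    (∑ i ∈ Finset.Icc 1 L, t ^ i) ^ X.card = (∑ i ∈ Finset.Icc 2 L, t ^ i) ^ X.card +
      ∑ J ∈ X.powerset.filter (fun J => J.Nonempty),
        PrS J t * (∑ i ∈ Finset.Icc (J.card + 1) L, t ^ i) ^ (X.card - J.card) := by
  rw [← sum_Pf, ← sum_Pf]
  have h1 : ∀ J ∈ X.powerset.filter (fun J => J.Nonempty),
      PrS J t * (∑ i ∈ Finset.Icc (J.card + 1) L, t ^ i) ^ (X.card - J.card) =
        ∑ a ∈ Pf X 1 L, (if Good X J a then (1 : ℝ) else 0) * t ^ (∑ x, a x) := by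
    intro J hJ
    rw [Finset.mem_filter, Finset.mem_powerset] at hJ
    rw [← Finset.card_sdiff_of_subset hJ.1, ← sum_Pf, ← good_sum hJ.1 hL t, Finset.sum_filter]
    apply Finset.sum_congr rfl
    intro a _
    rw [ite_mul, one_mul, zero_mul]
  rw [Finset.sum_congr rfl h1, Finset.sum_comm]
  have h2 : ∑ a ∈ Pf X 2 L, t ^ (∑ x, a x) =
      ∑ a ∈ Pf X 1 L, (if (∀ x ∈ X, 2 ≤ a x) then (1 : ℝ) else 0) * t ^ (∑ x, a x) := by
    have : Pf X 2 L = (Pf X 1 L).filter (fun a => ∀ x ∈ X, 2 ≤ a x) := by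
      ext a
      rw [Finset.mem_filter, mem_Pf, mem_Pf]
      constructor
      · rintro ⟨h1, h2⟩
        exact ⟨⟨fun x hx => ⟨by have := (h1 x hx).1; omega, (h1 x hx).2⟩, h2⟩, fun x hx => (h1 x hx).1⟩
      · rintro ⟨⟨h1, h2⟩, h3⟩
        exact ⟨fun x hx => ⟨h3 x hx, (h1 x hx).2⟩, h2⟩
    rw [this, Finset.sum_filter]
    apply Finset.sum_congr rfl
    intro a _
    rw [ite_mul, one_mul, zero_mul]
  rw [h2, ← Finset.sum_add_distrib]
  apply Finset.sum_congr rfl
  intro a ha
  rw [← Finset.sum_mul, ← add_mul, indicator_sum ha, one_mul]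

end Pool.Agent.R906.SP
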