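import Pool.Agent.R906.SPark
set_option autoImplicit false
set_option linter.unusedSectionVars false

/-!
# Prime parking functions: the limiting recursion
-/

namespace Pool.Agent.R906.SP

open Finset Filter Topology

variable {ι : Type} [Fintype ι] [DecidableEq ι]

theorem geom_tendsto {t : ℝ} (h0 : 0 < t) (h1 : t < 1) (k : ℕ) :
    Tendsto (fun L : ℕ => ∑ i ∈ Finset.Icc k L, t ^ i) atTop (𝓝 (t ^ k / (1 - t))) := by
  have h2 : Tendsto (fun L : ℕ => (t ^ k - t ^ (L + 1)) / (1 - t)) atTop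
      (𝓝 ((t ^ k - 0) / (1 - t))) := by
    apply Tendsto.div_const
    apply Tendsto.sub tendsto_const_nhds
    exact (tendsto_pow_atTop_nhds_zero_of_lt_one h0.le h1).comp (tendsto_add_atTop_nat 1)
  rw [sub_zero] at h2
  refine h2.congr' ?_
  filter_upwards [eventually_ge_atTop k] with L hL
  have h3 : Finset.Icc k L = Finset.Ico k (L + 1) := by
    ext i
    rw [Finset.mem_Icc, Finset.mem_Ico]
    omega
  rw [h3, geom_sum_Ico (by linarith) (by omega)]
  rw [div_eq_div_iff (by linarith) (by linarith)]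
  ring

theorem prime_lim (X : Finset ι) {t : ℝ} (h0 : 0 < t) (h1 : t < 1) :
    (t ^ 1 / (1 - t)) ^ X.card = (t ^ 2 / (1 - t)) ^ X.card +
      ∑ J ∈ X.powerset.filter (fun J => J.Nonempty),
        PrS J t * (t ^ (J.card + 1) / (1 - t)) ^ (X.card - J.card) := by
  have hl : Tendsto (fun L : ℕ => (∑ i ∈ Finset.Icc 1 L, t ^ i) ^ X.card) atTop
      (𝓝 ((t ^ 1 / (1 - t)) ^ X.card)) := (geom_tendsto h0 h1 1).pow _
  have hr : Tendsto (fun L : ℕ => (∑ i ∈ Finset.Icc 2 L, t ^ i) ^ X.card +
      ∑ J ∈ X.powerset.filter (fun J => J.Nonempty),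
        PrS J t * (∑ i ∈ Finset.Icc (J.card + 1) L, t ^ i) ^ (X.card - J.card)) atTop
      (𝓝 ((t ^ 2 / (1 - t)) ^ X.card + ∑ J ∈ X.powerset.filter (fun J => J.Nonempty),
        PrS J t * (t ^ (J.card + 1) / (1 - t)) ^ (X.card - J.card))) := by
    apply Tendsto.add ((geom_tendsto h0 h1 2).pow _)
    apply tendsto_finsetSum
    intro J _
    exact ((geom_tendsto h0 h1 (J.card + 1)).pow _).const_mul _
  refine tendsto_nhds_unique hl (hr.congr' ?_)
  filter_upwards [eventually_ge_atTop X.card] with L hL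
  exact (prime_rec X hL t).symm

/-- the reversed generating function -/
noncomputable def Rp (q : ℝ) (J : Finset ι) : ℝ := q ^ (J.card.choose 2 + 1) * PrS J (1 / q)

theorem choose_add (j m : ℕ) : (j + m).choose 2 = j.choose 2 + m.choose 2 + j * m := by
  have h : ∀ n : ℕ, ((n.choose 2 : ℕ) : ℚ) = n * (n - 1) / 2 := fun n => Nat.cast_choose_two ℚ n
  have : (((j + m).choose 2 : ℕ) : ℚ) = ((j.choose 2 + m.choose 2 + j * m : ℕ) : ℚ) := by
    push_cast
    rw [h, h, h]
    push_cast
    ring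
  exact_mod_cast this

theorem Rp_rec (X : Finset ι) (hX : X.Nonempty) {q : ℝ} (hq : 1 < q) :
    ∑ J ∈ X.powerset.filter (fun J => J.Nonempty),
      (q - 1) ^ J.card * Rp q J * q ^ ((X.card - J.card).choose 2) =
      q ^ ((X.card - 1).choose 2) * (q ^ X.card - 1) := by
  have hq0 : (0 : ℝ) < q := by linarith
  have hq1 : q - 1 ≠ 0 := by linarith
  have ht0 : 0 < 1 / q := by positivity
  have ht1 : 1 / q < 1 := by rw [div_lt_one hq0]; exact hq
  have h := prime_lim X ht0 ht1
  have e : ∀ k : ℕ, (1 / q) ^ (k + 1) / (1 - 1 / q) = 1 / (q ^ k * (q - 1)) := by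
    intro k
    have h1 : (1 - 1 / q) = (q - 1) / q := by field_simp
    rw [h1, one_div_pow, pow_succ]
    field_simp
  rw [e 0, e 1] at h
  simp_rw [e] at h
  have hpos : 1 ≤ X.card := Finset.card_pos.2 hX
  have h2 : q ^ (X.card.choose 2 + 1) * (q - 1) ^ X.card * (1 / (q ^ 0 * (q - 1))) ^ X.card =
      q ^ (X.card.choose 2 + 1) := by
    rw [pow_zero, one_mul, div_pow, one_pow]
    field_simp
  have hch : X.card.choose 2 + 1 = (X.card - 1).choose 2 + X.card := by
    have := choose_add (X.card - 1) 1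
    rw [Nat.sub_add_cancel hpos] at this
    simp at this
    omega
  have h3 : q ^ (X.card.choose 2 + 1) * (q - 1) ^ X.card * (1 / (q ^ 1 * (q - 1))) ^ X.card =
      q ^ ((X.card - 1).choose 2) := by
    rw [hch, pow_one, div_pow, one_pow, mul_pow, pow_add]
    field_simp
  have h4 : ∀ J ∈ X.powerset.filter (fun J => J.Nonempty),
      q ^ (X.card.choose 2 + 1) * (q - 1) ^ X.card *
        (PrS J (1 / q) * (1 / (q ^ J.card * (q - 1))) ^ (X.card - J.card)) =
      (q - 1) ^ J.card * Rp q J * q ^ ((X.card - J.card).choose 2) := by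
    intro J hJ
    rw [Finset.mem_filter, Finset.mem_powerset] at hJ
    have hle := Finset.card_le_card hJ.1
    obtain ⟨m, hm⟩ := Nat.exists_eq_add_of_le hle
    rw [hm, Nat.add_sub_cancel_left, choose_add]
    unfold Rp
    rw [div_pow, one_pow, mul_pow, ← pow_mul]
    rw [show J.card.choose 2 + m.choose 2 + J.card * m + 1 =
      (J.card.choose 2 + 1) + m.choose 2 + J.card * m by ring]
    rw [pow_add q, pow_add q, pow_add (q - 1)]
    field_simp
  have h5 := congrArg (fun z => q ^ (X.card.choose 2 + 1) * (q - 1) ^ X.card * z) h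
  simp only [mul_add, Finset.mul_sum] at h5
  rw [h2, h3, Finset.sum_congr rfl h4] at h5
  rw [hch, pow_add] at h5
  linarith

end Pool.Agent.R906.SP
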