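import Mathlib
set_option autoImplicit false
set_option linter.unusedSectionVars false

/-!
# Rooted forests: ancestors, decomposition at a vertex, detaching a root
-/

namespace Pool.Agent.R906.SP

open Finset

open scoped Classical

section anc

variable {ι : Type}

/-- `α` is reached from `β` by iterating `p` -/
def Anc (p : ι → ι) (β α : ι) : Prop := ∃ k : ℕ, p^[k] β = α

theorem Anc.refl (p : ι → ι) (x : ι) : Anc p x x := ⟨0, rfl⟩

theorem Anc.step {p : ι → ι} {x y : ι} (h : Anc p (p x) y) : Anc p x y := by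
  obtain ⟨k, hk⟩ := h
  exact ⟨k + 1, by rw [Function.iterate_succ_apply]; exact hk⟩

theorem Anc.ind {p : ι → ι} {y : ι} {P : ι → Prop} (h0 : P y) (hs : ∀ x, P (p x) → P x) {x : ι}
    (h : Anc p x y) : P x := by
  obtain ⟨k, hk⟩ := h
  induction k generalizing x with
  | zero => rw [Function.iterate_zero_apply] at hk; rw [hk]; exact h0
  | succ k ih =>
    rw [Function.iterate_succ_apply] at hk
    exact hs x (ih hk)

theorem Anc.fix {p : ι → ι} {x y : ι} (hx : p x = x) (h : Anc p x y) : y = x := by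
  obtain ⟨k, hk⟩ := h
  rw [Function.iterate_fixed hx] at hk
  exact hk.symm

theorem Anc.next {p : ι → ι} {x c : ι} (hc : p c = c) (h : Anc p x c) : Anc p (p x) c := by
  obtain ⟨k, hk⟩ := h
  refine ⟨k, ?_⟩
  rw [← Function.iterate_succ_apply, Function.iterate_succ_apply', hk, hc]

theorem Anc.uniq {p : ι → ι} {x c c' : ι} (hc : p c = c) (hc' : p c' = c') (h : Anc p x c)
    (h' : Anc p x c') : c = c' := by
  have : ∀ x, Anc p x c → (Anc p x c' → c = c') := by
    intro x hx
    apply Anc.ind (P := fun x => Anc p x c' → c = c') _ _ hx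
    · intro h2
      exact (Anc.fix hc h2).symm
    · intro x hx h2
      exact hx (Anc.next hc' h2)
  exact this x h h'

theorem Anc.closed {p : ι → ι} {S : Set ι} (hS : ∀ x ∈ S, p x ∈ S) {x y : ι} (hx : x ∈ S)
    (h : Anc p x y) : y ∈ S := by
  obtain ⟨k, hk⟩ := h
  induction k generalizing x with
  | zero => rw [Function.iterate_zero_apply] at hk; rw [← hk]; exact hx
  | succ k ih =>
    rw [Function.iterate_succ_apply] at hk
    exact ih (hS x hx) hk

theorem Anc.congr' {p p' : ι → ι} {S : Set ι} (hS : ∀ x ∈ S, p x ∈ S) (h : ∀ x ∈ S, p' x = p x)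
    {x y : ι} (hx : x ∈ S) (ha : Anc p x y) : Anc p' x y := by
  obtain ⟨k, hk⟩ := ha
  induction k generalizing x with
  | zero => exact ⟨0, hk⟩
  | succ k ih =>
    rw [Function.iterate_succ_apply] at hk
    have := ih (hS x hx) hk
    apply Anc.step
    rw [h x hx]
    exact this

theorem Anc.congr {p p' : ι → ι} {S : Set ι} (hS : ∀ x ∈ S, p x ∈ S) (h : ∀ x ∈ S, p' x = p x)
    {x y : ι} (hx : x ∈ S) : Anc p' x y ↔ Anc p x y := by
  constructor
  · apply Anc.congr' (S := S) _ _ hx
    · intro x hx; rw [h x hx]; exact hS x hx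
    · intro x hx; exact (h x hx).symm
  · exact Anc.congr' hS h hx

end anc

variable {ι : Type} [Fintype ι] [LinearOrder ι]

/-- forests on `V` with roots in `A` -/
def IsF (V A : Finset ι) (p : ι → ι) : Prop :=
  (∀ x ∉ V, p x = x) ∧ (∀ x ∈ V, p x ∈ V) ∧ (∀ x ∈ V, ∃ c, Anc p x c ∧ p c = c) ∧
    ∀ x ∈ V, p x = x → x ∈ A

/-- the set of forests -/
noncomputable def Fo (V A : Finset ι) : Finset (ι → ι) := Finset.univ.filter (IsF V A)

/-- number of inversions -/
noncomputable def inv (p : ι → ι) : ℕ :=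
  (Finset.univ.filter (fun z : ι × ι => z.2 < z.1 ∧ Anc p z.2 z.1)).card

/-- weight -/
noncomputable def W (q : ℝ) (V A : Finset ι) : ℝ := ∑ p ∈ Fo V A, q ^ inv p

theorem mem_Fo {V A : Finset ι} {p : ι → ι} : p ∈ Fo V A ↔ IsF V A p := by
  unfold Fo
  rw [Finset.mem_filter]
  simp

/-- restriction -/
noncomputable def restr (S : Finset ι) (p : ι → ι) : ι → ι := fun x => if x ∈ S then p x else x

/-- glueing -/
noncomputable def glue (S : Finset ι) (p p' : ι → ι) : ι → ι := fun x => if x ∈ S then p x else p' x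

theorem F_single {B : Finset ι} {c : ι} {p : ι → ι} (hc : c ∈ B) (h : IsF B {c} p) :
    p c = c ∧ ∀ x ∈ B, Anc p x c := by
  have h1 : ∀ x ∈ B, Anc p x c := by
    intro x hx
    obtain ⟨c', h1, h2⟩ := h.2.2.1 x hx
    have h3 : c' ∈ (B : Set ι) := Anc.closed (S := (B : Set ι)) (fun x hx => h.2.1 x hx) hx h1
    have := h.2.2.2 c' h3 h2
    rw [Finset.mem_singleton] at this
    rw [← this]; exact h1
  refine ⟨?_, h1⟩
  obtain ⟨c', h1, h2⟩ := h.2.2.1 c hc
  have h3 : c' ∈ (B : Set ι) := Anc.closed (S := (B : Set ι)) (fun x hx => h.2.1 x hx) hc h1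
  have := h.2.2.2 c' h3 h2
  rw [Finset.mem_singleton] at this
  rw [← this]; rw [h2]

theorem inv_split {B C : Finset ι} (hBC : Disjoint B C) {p : ι → ι} (hB : ∀ x ∈ B, p x ∈ B)
    (hC : ∀ x ∈ C, p x ∈ C) (hN : ∀ x, x ∉ B → x ∉ C → p x = x) :
    inv p = inv (restr B p) + inv (restr C p) := by
  unfold inv
  rw [← Finset.card_union_of_disjoint]
  · congr 1
    ext ⟨α, β⟩
    simp only [Finset.mem_filter, Finset.mem_univ, true_and, Finset.mem_union]
    constructor
    · rintro ⟨h1, h2⟩
      by_cases hβB : β ∈ B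
      · left
        exact ⟨h1, (Anc.congr (S := (B : Set ι)) (fun x hx => hB x hx)
          (fun x hx => if_pos hx) hβB).2 h2⟩
      · by_cases hβC : β ∈ C
        · right
          exact ⟨h1, (Anc.congr (S := (C : Set ι)) (fun x hx => hC x hx)
            (fun x hx => if_pos hx) hβC).2 h2⟩
        · have := Anc.fix (hN β hβB hβC) h2
          rw [this] at h1
          exact absurd h1 (lt_irrefl _)
    · rintro (⟨h1, h2⟩ | ⟨h1, h2⟩)
      · by_cases hβB : β ∈ B
        · exact ⟨h1, (Anc.congr (S := (B : Set ι)) (fun x hx => hB x hx)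
            (fun x hx => if_pos hx) hβB).1 h2⟩
        · have := Anc.fix (p := restr B p) (if_neg hβB) h2
          rw [this] at h1
          exact absurd h1 (lt_irrefl _)
      · by_cases hβB : β ∈ C
        · exact ⟨h1, (Anc.congr (S := (C : Set ι)) (fun x hx => hC x hx)
            (fun x hx => if_pos hx) hβB).1 h2⟩
        · have := Anc.fix (p := restr C p) (if_neg hβB) h2
          rw [this] at h1
          exact absurd h1 (lt_irrefl _)
  · rw [Finset.disjoint_left]
    rintro ⟨α, β⟩ h1 h2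
    simp only [Finset.mem_filter, Finset.mem_univ, true_and] at h1 h2
    have hβB : β ∈ B := by
      by_contra hβB
      have := Anc.fix (p := restr B p) (if_neg hβB) h1.2
      rw [this] at h1
      exact absurd h1.1 (lt_irrefl _)
    have hβC : β ∉ C := Finset.disjoint_left.1 hBC hβB
    have := Anc.fix (p := restr C p) (if_neg hβC) h2.2
    rw [this] at h2
    exact absurd h2.1 (lt_irrefl _)

theorem dec_sum (q : ℝ) {V A B : Finset ι} {c : ι} (hB : B ⊆ V) (hcB : c ∈ B) (hcA : c ∈ A) :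
    ∑ p ∈ (Fo V A).filter (fun p => p c = c ∧ ∀ x ∈ V, (x ∈ B ↔ Anc p x c)), q ^ inv p =
      W q B {c} * W q (V \ B) A := by
  unfold W
  rw [Finset.sum_mul_sum, ← Finset.sum_product']
  apply Finset.sum_nbij' (fun p => (restr B p, restr (V \ B) p)) (fun z => glue B z.1 z.2)
  · intro p hp
    rw [Finset.mem_filter, mem_Fo] at hp
    obtain ⟨⟨h1, h2, h3, h4⟩, hc, hx⟩ := hp
    have hBc : ∀ x ∈ B, p x ∈ B := by
      intro x hxB
      rw [hx (p x) (h2 x (hB hxB))]
      exact Anc.next hc ((hx x (hB hxB)).1 hxB)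
    have hCc : ∀ x ∈ V \ B, p x ∈ V \ B := by
      intro x hxC
      rw [Finset.mem_sdiff] at hxC ⊢
      refine ⟨h2 x hxC.1, fun h => hxC.2 ?_⟩
      rw [hx x hxC.1]
      exact Anc.step ((hx (p x) (h2 x hxC.1)).1 h)
    rw [Finset.mem_product, mem_Fo, mem_Fo]
    refine ⟨⟨fun x hx => if_neg hx, ?_, ?_, ?_⟩, ⟨fun x hx => if_neg hx, ?_, ?_, ?_⟩⟩
    · intro x hxB
      simp only [restr, if_pos hxB]
      exact hBc x hxB
    · intro x hxB
      refine ⟨c, ?_, ?_⟩
      · exact (Anc.congr (S := (B : Set ι)) (fun x hx => hBc x hx) (fun x hx => if_pos hx) hxB).2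
          ((hx x (hB hxB)).1 hxB)
      · simp only [restr, if_pos hcB]
        exact hc
    · intro x hxB hf
      simp only [restr, if_pos hxB] at hf
      rw [Finset.mem_singleton]
      exact (Anc.fix hf ((hx x (hB hxB)).1 hxB)).symm
    · intro x hxB
      simp only [restr, if_pos hxB]
      exact hCc x hxB
    · intro x hxC
      obtain ⟨c', hc1, hc2⟩ := h3 x (Finset.mem_sdiff.1 hxC).1
      have hc'C : c' ∈ ((V \ B : Finset ι) : Set ι) :=
        Anc.closed (S := ((V \ B : Finset ι) : Set ι)) (fun x hx => hCc x hx) hxC hc1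
      refine ⟨c', ?_, ?_⟩
      · exact (Anc.congr (S := ((V \ B : Finset ι) : Set ι)) (fun x hx => hCc x hx)
          (fun x hx => if_pos hx) hxC).2 hc1
      · simp only [restr]
        rw [if_pos (by exact_mod_cast hc'C)]
        exact hc2
    · intro x hxC hf
      simp only [restr, if_pos hxC] at hf
      exact h4 x (Finset.mem_sdiff.1 hxC).1 hf
  · rintro ⟨p1, p2⟩ hz
    rw [Finset.mem_product, mem_Fo, mem_Fo] at hz
    obtain ⟨h1, h2⟩ := hz
    dsimp only at h1 h2 ⊢
    have hs := F_single hcB h1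
    have hBc : ∀ x ∈ (B : Set ι), p1 x ∈ (B : Set ι) := fun x hx => h1.2.1 x hx
    have hCc : ∀ x ∈ ((V \ B : Finset ι) : Set ι), p2 x ∈ ((V \ B : Finset ι) : Set ι) :=
      fun x hx => h2.2.1 x hx
    have hg1 : ∀ x ∈ (B : Set ι), glue B p1 p2 x = p1 x := fun x hx => if_pos hx
    have hg2 : ∀ x ∈ ((V \ B : Finset ι) : Set ι), glue B p1 p2 x = p2 x := by
      intro x hx
      apply if_neg
      exact (Finset.mem_sdiff.1 hx).2
    have hcase : ∀ x ∈ V, x ∉ B → x ∈ V \ B := fun x h h' => Finset.mem_sdiff.2 ⟨h, h'⟩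
    rw [Finset.mem_filter, mem_Fo]
    refine ⟨⟨?_, ?_, ?_, ?_⟩, ?_, ?_⟩
    · intro x hx
      simp only [glue]
      rw [if_neg (fun h => hx (hB h))]
      exact h2.1 x (fun h => hx (Finset.mem_sdiff.1 h).1)
    · intro x hx
      by_cases hxB : x ∈ B
      · rw [hg1 x hxB]; exact hB (h1.2.1 x hxB)
      · rw [hg2 x (hcase x hx hxB)]
        exact (Finset.mem_sdiff.1 (h2.2.1 x (hcase x hx hxB))).1
    · intro x hx
      by_cases hxB : x ∈ B
      · refine ⟨c, (Anc.congr hBc hg1 hxB).2 (hs.2 x hxB), ?_⟩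
        rw [hg1 c hcB]; exact hs.1
      · have hxC := hcase x hx hxB
        obtain ⟨c', hc1, hc2⟩ := h2.2.2.1 x hxC
        have hc'C := Anc.closed hCc hxC hc1
        refine ⟨c', (Anc.congr hCc hg2 hxC).2 hc1, ?_⟩
        rw [hg2 c' hc'C]; exact hc2
    · intro x hx hf
      by_cases hxB : x ∈ B
      · rw [hg1 x hxB] at hf
        have := h1.2.2.2 x hxB hf
        rw [Finset.mem_singleton] at this
        rw [this]; exact hcA
      · have hxC := hcase x hx hxB
        rw [hg2 x hxC] at hf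
        exact h2.2.2.2 x hxC hf
    · rw [hg1 c hcB]; exact hs.1
    · intro x hx
      constructor
      · intro hxB
        exact (Anc.congr hBc hg1 hxB).2 (hs.2 x hxB)
      · intro ha
        by_contra hxB
        have hxC := hcase x hx hxB
        have h3 := (Anc.congr hCc hg2 hxC).1 ha
        have := Anc.closed hCc hxC h3
        exact (Finset.mem_sdiff.1 this).2 hcB
  · intro p hp
    rw [Finset.mem_filter, mem_Fo] at hp
    obtain ⟨⟨h1, h2, h3, h4⟩, hc, hx⟩ := hp
    funext x
    simp only [glue, restr]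
    by_cases hxB : x ∈ B
    · rw [if_pos hxB, if_pos hxB]
    · rw [if_neg hxB]
      by_cases hxV : x ∈ V
      · rw [if_pos (Finset.mem_sdiff.2 ⟨hxV, hxB⟩)]
      · rw [if_neg (fun h => hxV (Finset.mem_sdiff.1 h).1)]
        exact (h1 x hxV).symm
  · rintro ⟨p1, p2⟩ hz
    rw [Finset.mem_product, mem_Fo, mem_Fo] at hz
    obtain ⟨h1, h2⟩ := hz
    dsimp only at h1 h2 ⊢
    rw [Prod.mk.injEq]
    constructor
    · funext x
      simp only [glue, restr]
      by_cases hxB : x ∈ B
      · rw [if_pos hxB, if_pos hxB]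
      · rw [if_neg hxB]
        exact (h1.1 x hxB).symm
    · funext x
      simp only [glue, restr]
      by_cases hxC : x ∈ V \ B
      · rw [if_pos hxC, if_neg (Finset.mem_sdiff.1 hxC).2]
      · rw [if_neg hxC]
        exact (h2.1 x hxC).symm
  · intro p hp
    rw [Finset.mem_filter, mem_Fo] at hp
    obtain ⟨⟨h1, h2, h3, h4⟩, hc, hx⟩ := hp
    dsimp only
    rw [← pow_add]
    congr 1
    apply inv_split Finset.disjoint_sdiff
    · intro x hxB
      rw [hx (p x) (h2 x (hB hxB))]
      exact Anc.next hc ((hx x (hB hxB)).1 hxB)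
    · intro x hxC
      rw [Finset.mem_sdiff] at hxC ⊢
      refine ⟨h2 x hxC.1, fun h => hxC.2 ?_⟩
      rw [hx x hxC.1]
      exact Anc.step ((hx (p x) (h2 x hxC.1)).1 h)
    · intro x hxB hxC
      apply h1
      intro h
      exact hxC (Finset.mem_sdiff.2 ⟨h, hxB⟩)

end Pool.Agent.R906.SP
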