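import Pool.Agent.R906.STree
set_option autoImplicit false
set_option linter.unusedSectionVars false

/-!
# Rooted forests: recursion for the inversion enumerator
-/

namespace Pool.Agent.R906.SP

open Finset

open scoped Classical

variable {ι : Type} [Fintype ι] [LinearOrder ι]

/-- the decomposition predicate -/
def Dec (V : Finset ι) (p : ι → ι) (B : Finset ι) (c : ι) : Prop :=
  p c = c ∧ ∀ x ∈ V, (x ∈ B ↔ Anc p x c)

theorem dec_ind {V A : Finset ι} {p : ι → ι} (hp : IsF V A p) {v0 : ι} (hv : v0 ∈ V) :
    ∑ B ∈ V.powerset.filter (fun B => v0 ∈ B), ∑ c ∈ B ∩ A, (if Dec V p B c then (1 : ℝ) else 0)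
      = 1 := by
  obtain ⟨h1, h2, h3, h4⟩ := hp
  obtain ⟨c, hc1, hc2⟩ := h3 v0 hv
  have hcV : c ∈ (V : Set ι) := Anc.closed (S := (V : Set ι)) (fun x hx => h2 x hx) hv hc1
  have hcV' : c ∈ V := hcV
  have hcA : c ∈ A := h4 c hcV hc2
  have key : ∀ B ∈ V.powerset.filter (fun B => v0 ∈ B), ∀ c', Dec V p B c' → c' = c := by
    intro B hB c' hd
    rw [Finset.mem_filter] at hB
    exact Anc.uniq hd.1 hc2 ((hd.2 v0 hv).1 hB.2) hc1
  rw [Finset.sum_eq_single (V.filter (fun x => Anc p x c))]
  · rw [Finset.sum_eq_single c]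
    · rw [if_pos]
      refine ⟨hc2, fun x hx => ?_⟩
      rw [Finset.mem_filter]
      exact ⟨fun h => h.2, fun h => ⟨hx, h⟩⟩
    · intro c' hc' hne
      rw [if_neg]
      intro hd
      apply hne
      apply key _ _ c' hd
      rw [Finset.mem_filter, Finset.mem_powerset, Finset.mem_filter]
      exact ⟨Finset.filter_subset _ _, hv, hc1⟩
    · intro hn
      exfalso
      apply hn
      rw [Finset.mem_inter, Finset.mem_filter]
      exact ⟨⟨hcV', Anc.refl _ _⟩, hcA⟩
  · intro B hB hne
    apply Finset.sum_eq_zero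
    intro c' hc'
    rw [if_neg]
    intro hd
    have := key B hB c' hd
    rw [this] at hd
    apply hne
    rw [Finset.mem_filter, Finset.mem_powerset] at hB
    ext x
    rw [Finset.mem_filter]
    constructor
    · intro hx
      exact ⟨hB.1 hx, (hd.2 x (hB.1 hx)).1 hx⟩
    · rintro ⟨hx, ha⟩
      exact (hd.2 x hx).2 ha
  · intro hn
    exfalso
    apply hn
    rw [Finset.mem_filter, Finset.mem_powerset, Finset.mem_filter]
    exact ⟨Finset.filter_subset _ _, hv, hc1⟩

theorem W_dec (q : ℝ) {V : Finset ι} (A : Finset ι) {v0 : ι} (hv : v0 ∈ V) :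
    W q V A = ∑ B ∈ V.powerset.filter (fun B => v0 ∈ B), (∑ c ∈ B ∩ A, W q B {c}) * W q (V \ B) A := by
  have h1 : W q V A = ∑ p ∈ Fo V A, (∑ B ∈ V.powerset.filter (fun B => v0 ∈ B), ∑ c ∈ B ∩ A,
      (if Dec V p B c then (1 : ℝ) else 0)) * q ^ inv p := by
    unfold W
    apply Finset.sum_congr rfl
    intro p hp
    rw [dec_ind (mem_Fo.1 hp) hv, one_mul]
  rw [h1]
  simp_rw [Finset.sum_mul]
  rw [Finset.sum_comm]
  apply Finset.sum_congr rfl
  intro B hB
  rw [Finset.mem_filter, Finset.mem_powerset] at hB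
  rw [Finset.sum_comm]
  apply Finset.sum_congr rfl
  intro c hc
  rw [Finset.mem_inter] at hc
  rw [← dec_sum q hB.1 hc.1 hc.2, Finset.sum_filter]
  apply Finset.sum_congr rfl
  intro p _
  rw [ite_mul, one_mul, zero_mul]
  have hd : Dec V p B c ↔ (p c = c ∧ ∀ x ∈ V, (x ∈ B ↔ Anc p x c)) := Iff.rfl
  by_cases h : Dec V p B c
  · rw [if_pos h, if_pos (hd.1 h)]
  · rw [if_neg h, if_neg (fun h' => h (hd.2 h'))]

/-! ## detaching the root -/

/-- rooted trees on `B` with root `c`, children of the root in `A` -/
def IsG (B : Finset ι) (c : ι) (A : Finset ι) (p : ι → ι) : Prop :=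
  (∀ x ∉ B, p x = x) ∧ (∀ x ∈ B, p x ∈ B) ∧ p c = c ∧ (∀ x ∈ B, Anc p x c) ∧
    ∀ x ∈ B, x ≠ c → p x = c → x ∈ A

/-- the set of such trees -/
noncomputable def G (B : Finset ι) (c : ι) (A : Finset ι) : Finset (ι → ι) :=
  Finset.univ.filter (IsG B c A)

theorem mem_G {B A : Finset ι} {c : ι} {p : ι → ι} : p ∈ G B c A ↔ IsG B c A p := by
  unfold G
  rw [Finset.mem_filter]
  simp

/-- inversions not involving `c` as the upper vertex -/
noncomputable def inv' (c : ι) (p : ι → ι) : ℕ :=
  (Finset.univ.filter (fun z : ι × ι => z.1 ≠ c ∧ z.2 < z.1 ∧ Anc p z.2 z.1)).card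

/-- detach the root `c` -/
noncomputable def det (c : ι) (p : ι → ι) : ι → ι := fun x => if p x = c then x else p x

/-- attach to the root `c` -/
noncomputable def att (B : Finset ι) (c : ι) (p : ι → ι) : ι → ι :=
  fun x => if x ∈ B ∧ p x = x then c else p x

theorem det_self {c : ι} {p : ι → ι} (hc : p c = c) : det c p c = c := by
  simp only [det]; rw [if_pos hc]

theorem anc_det {c : ι} {p : ι → ι} (hc : p c = c) {β α : ι} (hα : α ≠ c) :
    Anc (det c p) β α ↔ Anc p β α := by
  constructor
  · intro h
    apply Anc.ind (P := fun x => Anc p x α) (Anc.refl _ _) _ h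
    intro x hx
    simp only [det] at hx
    by_cases hpx : p x = c
    · rw [if_pos hpx] at hx; exact hx
    · rw [if_neg hpx] at hx; exact Anc.step hx
  · intro h
    apply Anc.ind (P := fun x => Anc (det c p) x α) (Anc.refl _ _) _ h
    intro x hx
    by_cases hpx : p x = c
    · rw [hpx] at hx
      exact absurd (Anc.fix (det_self hc) hx) hα
    · apply Anc.step
      simp only [det]
      rw [if_neg hpx]
      exact hx

theorem det_mem {B A : Finset ι} {c : ι} {p : ι → ι} (hp : IsG B c A p) : IsF (B.erase c) A (det c p) := by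
  obtain ⟨h1, h2, h3, h4, h5⟩ := hp
  refine ⟨?_, ?_, ?_, ?_⟩
  · intro x hx
    simp only [det]
    by_cases hpx : p x = c
    · rw [if_pos hpx]
    · rw [if_neg hpx]
      apply h1
      intro hxB
      apply hx
      rw [Finset.mem_erase]
      refine ⟨?_, hxB⟩
      rintro rfl
      exact hpx h3
  · intro x hx
    simp only [det]
    by_cases hpx : p x = c
    · rw [if_pos hpx]; exact hx
    · rw [if_neg hpx, Finset.mem_erase]
      exact ⟨hpx, h2 x (Finset.mem_erase.1 hx).2⟩
  · intro x hx
    rw [Finset.mem_erase] at hx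
    have key : x ∈ B → x ≠ c → ∃ c', Anc (det c p) x c' ∧ det c p c' = c' := by
      apply Anc.ind (P := fun x => x ∈ B → x ≠ c → ∃ c', Anc (det c p) x c' ∧ det c p c' = c') _ _
        (h4 x hx.2)
      · intro _ hne
        exact absurd rfl hne
      · intro x ih hxB hxc
        by_cases hpx : p x = c
        · refine ⟨x, Anc.refl _ _, ?_⟩
          simp only [det]
          rw [if_pos hpx]
        · obtain ⟨c', hc1, hc2⟩ := ih (h2 x hxB) hpx
          refine ⟨c', ?_, hc2⟩
          apply Anc.step
          simp only [det]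
          rw [if_neg hpx]
          exact hc1
    exact key hx.2 hx.1
  · intro x hx hf
    rw [Finset.mem_erase] at hx
    by_cases hpx : p x = c
    · exact h5 x hx.2 hx.1 hpx
    · simp only [det] at hf
      rw [if_neg hpx] at hf
      exact absurd (Anc.fix hf (h4 x hx.2)).symm hx.1

theorem att_mem {B A : Finset ι} {c : ι} (hcB : c ∈ B) {p : ι → ι} (hp : IsF (B.erase c) A p) :
    IsG B c A (att B c p) := by
  obtain ⟨h1, h2, h3, h4⟩ := hp
  have hpc : p c = c := h1 c (by simp)
  refine ⟨?_, ?_, ?_, ?_, ?_⟩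
  · intro x hx
    simp only [att]
    rw [if_neg (fun h => hx h.1)]
    exact h1 x (fun h => hx (Finset.mem_erase.1 h).2)
  · intro x hx
    simp only [att]
    by_cases h : x ∈ B ∧ p x = x
    · rw [if_pos h]; exact hcB
    · rw [if_neg h]
      have hxc : x ≠ c := by
        rintro rfl
        exact h ⟨hcB, hpc⟩
      exact (Finset.mem_erase.1 (h2 x (Finset.mem_erase.2 ⟨hxc, hx⟩))).2
  · simp only [att]
    rw [if_pos ⟨hcB, hpc⟩]
  · intro x hx
    by_cases hxc : x = c
    · rw [hxc]; exact Anc.refl _ _
    · obtain ⟨c', hc1, hc2⟩ := h3 x (Finset.mem_erase.2 ⟨hxc, hx⟩)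
      have key : x ∈ B → Anc (att B c p) x c := by
        apply Anc.ind (P := fun x => x ∈ B → Anc (att B c p) x c) _ _ hc1
        · intro hB
          apply Anc.step
          simp only [att]
          rw [if_pos ⟨hB, hc2⟩]
          exact Anc.refl _ _
        · intro y ih hyB
          apply Anc.step
          by_cases h : y ∈ B ∧ p y = y
          · have : att B c p y = c := by simp only [att]; rw [if_pos h]
            rw [this]
            exact Anc.refl _ _
          · have : att B c p y = p y := by simp only [att]; rw [if_neg h]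
            rw [this]
            apply ih
            have hyc : y ≠ c := by
              rintro rfl
              exact h ⟨hyB, hpc⟩
            exact (Finset.mem_erase.1 (h2 y (Finset.mem_erase.2 ⟨hyc, hyB⟩))).2
      exact key hx
  · intro x hx hxc hf
    have hxe : x ∈ B.erase c := Finset.mem_erase.2 ⟨hxc, hx⟩
    by_cases h : x ∈ B ∧ p x = x
    · exact h4 x hxe h.2
    · simp only [att] at hf
      rw [if_neg h] at hf
      have := h2 x hxe
      rw [hf] at this
      simp at this

theorem inv_det {B A : Finset ι} {c : ι} (hcB : c ∈ B) {p : ι → ι} (hp : IsG B c A p) :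
    inv' c p = inv (det c p) := by
  unfold inv' inv
  congr 1
  ext ⟨α, β⟩
  simp only [Finset.mem_filter, Finset.mem_univ, true_and]
  constructor
  · rintro ⟨h1, h2, h3⟩
    exact ⟨h2, (anc_det hp.2.2.1 h1).2 h3⟩
  · rintro ⟨h2, h3⟩
    have h1 : α ≠ c := by
      rintro rfl
      have hF := det_mem hp
      by_cases hβ : β ∈ B.erase α
      · have := Anc.closed (S := ((B.erase α : Finset ι) : Set ι)) (fun x hx => hF.2.1 x hx) hβ h3
        simp at this
      · have := Anc.fix (hF.1 β hβ) h3
        rw [this] at h2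
        exact absurd h2 (lt_irrefl _)
    exact ⟨h1, h2, (anc_det hp.2.2.1 h1).1 h3⟩

theorem detach_sum (q : ℝ) {B : Finset ι} (A : Finset ι) {c : ι} (hcB : c ∈ B) :
    ∑ p ∈ G B c A, q ^ inv' c p = W q (B.erase c) A := by
  unfold W
  apply Finset.sum_nbij' (det c) (att B c)
  · intro p hp
    exact mem_Fo.2 (det_mem (mem_G.1 hp))
  · intro p hp
    exact mem_G.2 (att_mem hcB (mem_Fo.1 hp))
  · intro p hp
    obtain ⟨h1, h2, h3, h4, h5⟩ := mem_G.1 hp
    funext x
    simp only [att]
    by_cases hpx : p x = c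
    · have hd : det c p x = x := by simp only [det]; rw [if_pos hpx]
      by_cases hxB : x ∈ B
      · rw [if_pos ⟨hxB, hd⟩]; exact hpx.symm
      · exfalso
        have := h1 x hxB
        rw [hpx] at this
        rw [← this] at hxB
        exact hxB hcB
    · have hd : det c p x = p x := by simp only [det]; rw [if_neg hpx]
      rw [if_neg, hd]
      rintro ⟨hxB, hf⟩
      rw [hd] at hf
      have := Anc.fix hf (h4 x hxB)
      rw [← this] at hf
      rw [← this, hf] at hpx
      exact hpx rfl
  · intro p hp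
    obtain ⟨h1, h2, h3, h4⟩ := mem_Fo.1 hp
    have hpc : p c = c := h1 c (by simp)
    funext x
    simp only [det]
    by_cases h : x ∈ B ∧ p x = x
    · have ha : att B c p x = c := by simp only [att]; rw [if_pos h]
      rw [if_pos ha]; exact h.2.symm
    · have ha : att B c p x = p x := by simp only [att]; rw [if_neg h]
      rw [ha, if_neg]
      intro hpx
      by_cases hxB : x ∈ B
      · by_cases hxc : x = c
        · rw [hxc] at h
          exact h ⟨hcB, hpc⟩
        · have := h2 x (Finset.mem_erase.2 ⟨hxc, hxB⟩)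
          rw [hpx] at this
          simp at this
      · have := h1 x (fun h => hxB (Finset.mem_erase.1 h).2)
        rw [hpx] at this
        rw [← this] at hxB
        exact hxB hcB
  · intro p hp
    rw [inv_det hcB (mem_G.1 hp)]

theorem W_single (q : ℝ) {B : Finset ι} {c : ι} (hcB : c ∈ B) :
    W q B {c} = q ^ (B.filter (fun b => b < c)).card * W q (B.erase c) Finset.univ := by
  rw [← detach_sum q _ hcB, Finset.mul_sum]
  unfold W
  apply Finset.sum_congr
  · ext p
    rw [mem_Fo, mem_G]
    constructor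
    · intro h
      have hs := F_single hcB h
      exact ⟨h.1, h.2.1, hs.1, hs.2, fun x _ _ _ => Finset.mem_univ x⟩
    · rintro ⟨h1, h2, h3, h4, -⟩
      refine ⟨h1, h2, fun x hx => ⟨c, h4 x hx, h3⟩, fun x hx hf => ?_⟩
      rw [Finset.mem_singleton]
      exact (Anc.fix hf (h4 x hx)).symm
  · intro p hp
    obtain ⟨h1, h2, h3, h4, -⟩ := mem_G.1 hp
    rw [← pow_add]
    congr 1
    unfold inv inv'
    have e1 : (B.filter (fun b => b < c)).card =
        (Finset.univ.filter (fun z : ι × ι => z.1 = c ∧ z.2 < z.1 ∧ Anc p z.2 z.1)).card := by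
      apply Finset.card_bij (fun b _ => (c, b))
      · intro b hb
        rw [Finset.mem_filter] at hb
        simp only [Finset.mem_filter, Finset.mem_univ, true_and]
        exact ⟨hb.2, h4 b hb.1⟩
      · intro b _ b' _ h
        exact (Prod.mk.inj h).2
      · rintro ⟨α, β⟩ hz
        simp only [Finset.mem_filter, Finset.mem_univ, true_and] at hz
        obtain ⟨hα, hlt, ha⟩ := hz
        subst hα
        refine ⟨β, ?_, rfl⟩
        rw [Finset.mem_filter]
        refine ⟨?_, hlt⟩
        by_contra hβ
        have := Anc.fix (h1 β hβ) ha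
        rw [this] at hlt
        exact absurd hlt (lt_irrefl _)
    rw [e1, ← Finset.card_union_of_disjoint]
    · congr 1
      ext z
      simp only [Finset.mem_filter, Finset.mem_univ, true_and, Finset.mem_union]
      tauto
    · rw [Finset.disjoint_left]
      intro z hz1 hz2
      simp only [Finset.mem_filter, Finset.mem_univ, true_and] at hz1 hz2
      exact hz2.1 hz1.1

end Pool.Agent.R906.SP
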