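import Pool.Agent.R906.STreeB
import Pool.Agent.R906.SParkB
set_option autoImplicit false
set_option linter.unusedSectionVars false

/-!
# The tree side satisfies the same recursion
-/

namespace Pool.Agent.R906.SP

open Finset

open scoped Classical

section sets

variable {ι : Type} [DecidableEq ι]

theorem sum_mem_powerset {V : Finset ι} {v0 : ι} (hv : v0 ∈ V) (f : Finset ι → ℝ) :
    ∑ B ∈ V.powerset.filter (fun B => v0 ∈ B), f B = ∑ B ∈ (V.erase v0).powerset, f (insert v0 B) := by
  symm
  apply Finset.sum_nbij' (fun B => insert v0 B) (fun B => B.erase v0)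
  · intro B hB
    rw [Finset.mem_powerset] at hB
    rw [Finset.mem_filter, Finset.mem_powerset]
    refine ⟨?_, Finset.mem_insert_self _ _⟩
    apply Finset.insert_subset hv
    exact hB.trans (Finset.erase_subset _ _)
  · intro B hB
    rw [Finset.mem_filter, Finset.mem_powerset] at hB
    rw [Finset.mem_powerset]
    exact Finset.erase_subset_erase _ hB.1
  · intro B hB
    rw [Finset.mem_powerset] at hB
    apply Finset.erase_insert
    intro h
    have := hB h
    simp at this
  · intro B hB
    rw [Finset.mem_filter, Finset.mem_powerset] at hB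
    exact Finset.insert_erase hB.2
  · intro B _
    rfl

theorem sum_pairs (E : Finset ι) (F : Finset ι → Finset ι → ℝ) :
    ∑ K ∈ E.powerset, ∑ B ∈ K.powerset, F B (K \ B) =
      ∑ B ∈ E.powerset, ∑ J ∈ (E \ B).powerset, F B J := by
  rw [Finset.sum_sigma', Finset.sum_sigma']
  apply Finset.sum_nbij' (fun z => ⟨z.2, z.1 \ z.2⟩) (fun z => ⟨z.1 ∪ z.2, z.1⟩)
  · rintro ⟨K, B⟩ h
    simp only [Finset.mem_sigma, Finset.mem_powerset] at h ⊢
    exact ⟨h.2.trans h.1, Finset.sdiff_subset_sdiff h.1 le_rfl⟩
  · rintro ⟨B, J⟩ h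
    simp only [Finset.mem_sigma, Finset.mem_powerset] at h ⊢
    exact ⟨Finset.union_subset h.1 (h.2.trans Finset.sdiff_subset), Finset.subset_union_left⟩
  · rintro ⟨K, B⟩ h
    simp only [Finset.mem_sigma, Finset.mem_powerset] at h ⊢
    rw [Finset.union_sdiff_of_subset h.2]
  · rintro ⟨B, J⟩ h
    simp only [Finset.mem_sigma, Finset.mem_powerset] at h ⊢
    rw [Finset.union_sdiff_cancel_left]
    exact Finset.disjoint_of_subset_right h.2 Finset.disjoint_sdiff
  · rintro ⟨K, B⟩ _
    rfl

theorem sum_swap (E : Finset ι) (F : Finset ι → Finset ι → ℝ) :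
    ∑ J ∈ E.powerset, ∑ B ∈ (E \ J).powerset, F B J =
      ∑ B ∈ E.powerset, ∑ J ∈ (E \ B).powerset, F B J := by
  rw [Finset.sum_sigma', Finset.sum_sigma']
  have hs : ∀ J B : Finset ι, J ⊆ E → B ⊆ E \ J → B ⊆ E ∧ J ⊆ E \ B := by
    intro J B h1 h2
    refine ⟨h2.trans Finset.sdiff_subset, ?_⟩
    intro x hx
    rw [Finset.mem_sdiff]
    exact ⟨h1 hx, fun h => (Finset.mem_sdiff.1 (h2 h)).2 hx⟩
  apply Finset.sum_nbij' (fun z => ⟨z.2, z.1⟩) (fun z => ⟨z.2, z.1⟩)
  · rintro ⟨J, B⟩ h
    simp only [Finset.mem_sigma, Finset.mem_powerset] at h ⊢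
    exact hs J B h.1 h.2
  · rintro ⟨B, J⟩ h
    simp only [Finset.mem_sigma, Finset.mem_powerset] at h ⊢
    exact hs B J h.1 h.2
  · rintro ⟨K, B⟩ _
    rfl
  · rintro ⟨B, J⟩ _
    rfl
  · rintro ⟨K, B⟩ _
    rfl

end sets

variable {ι : Type} [Fintype ι] [LinearOrder ι]

theorem rank_sum (q : ℝ) (C : Finset ι) :
    ∑ c ∈ C, q ^ (C.filter (fun b => b < c)).card = ∑ i ∈ Finset.range C.card, q ^ i := by
  induction C using Finset.induction_on_max with
  | empty => simp
  | insert a s ha ih =>
    have has : a ∉ s := fun h => lt_irrefl _ (ha a h)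
    rw [Finset.sum_insert has, Finset.card_insert_of_notMem has, Finset.sum_range_succ, ← ih, add_comm]
    congr 1
    · apply Finset.sum_congr rfl
      intro c hc
      congr 2
      rw [Finset.filter_insert, if_neg (not_lt.2 (ha c hc).le)]
    · congr 2
      rw [Finset.filter_insert, if_neg (lt_irrefl _)]
      exact Finset.filter_true_of_mem ha

/-- lower sets -/
def Low (A : Finset ι) : Prop := ∀ x ∈ A, ∀ y, y < x → y ∈ A

theorem rank_low {A : Finset ι} (hA : Low A) (q : ℝ) (B : Finset ι) :
    (q - 1) * ∑ c ∈ B ∩ A, q ^ (B.filter (fun b => b < c)).card = q ^ (B ∩ A).card - 1 := by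
  have h1 : ∑ c ∈ B ∩ A, q ^ (B.filter (fun b => b < c)).card =
      ∑ c ∈ B ∩ A, q ^ ((B ∩ A).filter (fun b => b < c)).card := by
    apply Finset.sum_congr rfl
    intro c hc
    congr 2
    ext b
    rw [Finset.mem_filter, Finset.mem_filter, Finset.mem_inter]
    constructor
    · rintro ⟨h1, h2⟩
      exact ⟨⟨h1, hA c (Finset.mem_inter.1 hc).2 b h2⟩, h2⟩
    · rintro ⟨⟨h1, -⟩, h2⟩
      exact ⟨h1, h2⟩
  rw [h1, rank_sum, mul_comm, geom_sum_mul]

theorem W_empty (q : ℝ) (A : Finset ι) : W q (∅ : Finset ι) A = 1 := by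
  unfold W
  have : Fo (∅ : Finset ι) A = {id} := by
    ext p
    rw [mem_Fo, Finset.mem_singleton]
    constructor
    · rintro ⟨h1, -⟩
      funext x
      exact h1 x (by simp)
    · rintro rfl
      refine ⟨fun x _ => rfl, ?_, ?_, ?_⟩ <;> simp
  rw [this, Finset.sum_singleton]
  have : inv (id : ι → ι) = 0 := by
    unfold inv
    rw [Finset.card_eq_zero, Finset.filter_eq_empty_iff]
    rintro ⟨α, β⟩ _ ⟨h1, h2⟩
    have := Anc.fix (p := id) rfl h2
    simp only at h1 this
    rw [this] at h1
    exact absurd h1 (lt_irrefl _)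
  rw [this, pow_zero]

/-- the inversion enumerator of forests depends only on the number of vertices -/
theorem W_indep (q : ℝ) (n : ℕ) : ∃ w : ℕ → ℝ, ∀ V : Finset ι, V.card < n → W q V Finset.univ = w V.card := by
  induction n with
  | zero => exact ⟨fun _ => 0, fun V h => absurd h (Nat.not_lt_zero _)⟩
  | succ n ih =>
    obtain ⟨w, hw⟩ := ih
    rcases Nat.eq_zero_or_pos n with hn | hn
    · subst hn
      refine ⟨fun _ => 1, fun V h => ?_⟩
      have : V = ∅ := by
        rw [← Finset.card_eq_zero]; omega
      rw [this, W_empty]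
    refine ⟨fun m => if m < n then w m else ∑ m ∈ Finset.range ((n - 1) + 1), (n - 1).choose m •
      ((∑ i ∈ Finset.range (m + 1), q ^ i) * w m * w (n - 1 - m)), fun V hV => ?_⟩
    beta_reduce
    by_cases hVn : V.card < n
    · rw [if_pos hVn]; exact hw V hVn
    · have hVe : V.card = n := by omega
      rw [if_neg hVn]
      have hne : V.Nonempty := by
        rw [← Finset.card_pos]; omega
      obtain ⟨v0, hv⟩ := hne
      rw [W_dec q _ hv, sum_mem_powerset hv]
      have hce : (V.erase v0).card = n - 1 := by
        rw [Finset.card_erase_of_mem hv, hVe]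
      rw [← hce, ← Finset.sum_powerset_apply_card
        (fun m => (∑ i ∈ Finset.range (m + 1), q ^ i) * w m * w ((V.erase v0).card - m)) (x := V.erase v0)]
      apply Finset.sum_congr rfl
      intro B hB
      rw [Finset.mem_powerset] at hB
      have hvB : v0 ∉ B := fun h => by have := hB h; simp at this
      have hBc : B.card ≤ n - 1 := by rw [← hce]; exact Finset.card_le_card hB
      have hsd : V \ insert v0 B = (V.erase v0) \ B := by
        ext x
        simp only [Finset.mem_sdiff, Finset.mem_insert, Finset.mem_erase]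
        tauto
      have hsdc : (V \ insert v0 B).card = (V.erase v0).card - B.card := by
        rw [hsd, Finset.card_sdiff_of_subset hB]
      rw [hw (V \ insert v0 B) (by rw [hsdc]; omega), hsdc]
      congr 1
      rw [Finset.inter_univ, ← Finset.card_insert_of_notMem hvB, ← rank_sum, Finset.sum_mul]
      apply Finset.sum_congr rfl
      intro c hc
      rw [W_single q hc, hw]
      · rw [Finset.card_erase_of_mem hc, Finset.card_insert_of_notMem hvB, Nat.add_sub_cancel]
      · rw [Finset.card_erase_of_mem hc, Finset.card_insert_of_notMem hvB]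
        omega

/-- the key recursion -/
theorem W_rec {w : ℕ → ℝ} {q : ℝ} (hw : ∀ V : Finset ι, W q V Finset.univ = w V.card)
    {A : Finset ι} (hA : Low A) {V : Finset ι} {v0 : ι} (hv : v0 ∈ V) :
    (q - 1) * W q V A = ∑ B ∈ (V.erase v0).powerset,
      (q ^ (insert v0 B ∩ A).card - 1) * w B.card * W q ((V.erase v0) \ B) A := by
  rw [W_dec q A hv, sum_mem_powerset hv, Finset.mul_sum]
  apply Finset.sum_congr rfl
  intro B hB
  rw [Finset.mem_powerset] at hB
  have hvB : v0 ∉ B := fun h => by have := hB h; simp at this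
  have hsd : V \ insert v0 B = (V.erase v0) \ B := by
    ext x
    simp only [Finset.mem_sdiff, Finset.mem_insert, Finset.mem_erase]
    tauto
  rw [hsd, ← mul_assoc]
  congr 1
  rw [← rank_low hA q, mul_assoc]
  congr 1
  rw [Finset.sum_mul]
  apply Finset.sum_congr rfl
  intro c hc
  rw [W_single q (Finset.mem_inter.1 hc).1, hw, Finset.card_erase_of_mem (Finset.mem_inter.1 hc).1,
    Finset.card_insert_of_notMem hvB, Nat.add_sub_cancel]

theorem S_succ (q : ℝ) (m : ℕ) : q ^ m * q ^ (m.choose 2) = q ^ ((m + 1).choose 2) := by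
  rw [← pow_add]
  congr 1
  rw [Nat.choose_succ_succ' m 1]
  simp

theorem Low_univ : Low (Finset.univ : Finset ι) := fun _ _ y _ => Finset.mem_univ y

/-- claim (**) -/
theorem star {w : ℕ → ℝ} {q : ℝ} (hw : ∀ V : Finset ι, W q V Finset.univ = w V.card) :
    ∀ (n : ℕ) (V : Finset ι), V.card = n → ∀ A : Finset ι, Low A →
    ∑ J ∈ V.powerset, (q - 1) ^ J.card * W q J A * q ^ ((V.card - J.card).choose 2) =
      q ^ (V ∩ A).card * q ^ (V.card.choose 2) := by
  intro n
  induction n using Nat.strong_induction_on with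
  | _ n ih =>
    intro V hV A hA
    rcases V.eq_empty_or_nonempty with hne | ⟨v0, hv⟩
    · subst hne
      simp [W_empty]
    set E := V.erase v0 with hE
    have hEc : E.card = V.card - 1 := Finset.card_erase_of_mem hv
    have hVpos : 1 ≤ V.card := Finset.card_pos.2 ⟨v0, hv⟩
    have hvE : v0 ∉ E := by rw [hE]; simp
    have hVE : V = insert v0 E := (Finset.insert_erase hv).symm
    -- S-rec
    have srec : ∀ X : Finset ι, X ⊆ E → ∑ B ∈ X.powerset,
        (q - 1) ^ B.card * w B.card * q ^ ((X.card - B.card).choose 2) = q ^ ((X.card + 1).choose 2) := by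
      intro X hX
      have hXc := Finset.card_le_card hX
      have := ih X.card (by omega) X rfl Finset.univ Low_univ
      rw [Finset.inter_univ, S_succ] at this
      rw [← this]
      apply Finset.sum_congr rfl
      intro B _
      rw [hw B]
    -- split
    have hsplit : ∀ f : Finset ι → ℝ, ∑ J ∈ V.powerset, f J =
        ∑ K ∈ E.powerset, f (insert v0 K) + ∑ J ∈ E.powerset, f J := by
      intro f
      rw [hVE, Finset.sum_powerset_insert hvE, add_comm]
    rw [hsplit]
    -- first part
    have p1 : ∑ K ∈ E.powerset, (q - 1) ^ (insert v0 K).card * W q (insert v0 K) A *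
        q ^ ((V.card - (insert v0 K).card).choose 2) =
        ∑ B ∈ E.powerset, ∑ J ∈ (E \ B).powerset,
          ((q ^ (insert v0 B ∩ A).card - 1) * ((q - 1) ^ B.card * w B.card)) *
          ((q - 1) ^ J.card * W q J A * q ^ (((E \ B).card - J.card).choose 2)) := by
      have := sum_pairs E (fun B J => ((q ^ (insert v0 B ∩ A).card - 1) * ((q - 1) ^ B.card * w B.card)) *
          ((q - 1) ^ J.card * W q J A * q ^ ((E.card - B.card - J.card).choose 2)))
      have e2 : ∀ B ∈ E.powerset, ∀ J ∈ (E \ B).powerset,
          ((q ^ (insert v0 B ∩ A).card - 1) * ((q - 1) ^ B.card * w B.card)) *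
          ((q - 1) ^ J.card * W q J A * q ^ (((E \ B).card - J.card).choose 2)) =
          ((q ^ (insert v0 B ∩ A).card - 1) * ((q - 1) ^ B.card * w B.card)) *
          ((q - 1) ^ J.card * W q J A * q ^ ((E.card - B.card - J.card).choose 2)) := by
        intro B hB J _
        rw [Finset.card_sdiff_of_subset (Finset.mem_powerset.1 hB)]
      rw [Finset.sum_congr rfl (fun B hB => Finset.sum_congr rfl (e2 B hB)), ← this]
      apply Finset.sum_congr rfl
      intro K hK
      rw [Finset.mem_powerset] at hK
      have hvK : v0 ∉ K := fun h => hvE (hK h)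
      have hrec := W_rec hw hA (Finset.mem_insert_self v0 K)
      rw [Finset.erase_insert hvK] at hrec
      have hc1 : (insert v0 K).card = K.card + 1 := Finset.card_insert_of_notMem hvK
      rw [hc1, pow_succ, mul_assoc ((q - 1) ^ K.card), hrec, Finset.mul_sum, Finset.sum_mul]
      apply Finset.sum_congr rfl
      intro B hB
      rw [Finset.mem_powerset] at hB
      have hcB := Finset.card_le_card hB
      have hsd : (K \ B).card = K.card - B.card := Finset.card_sdiff_of_subset hB
      rw [hsd]
      rw [show V.card - (K.card + 1) = E.card - B.card - (K.card - B.card) by omega]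
      rw [show (q - 1) ^ K.card = (q - 1) ^ B.card * (q - 1) ^ (K.card - B.card) by
        rw [← pow_add]; congr 1; omega]
      ring
    -- second part
    have p2 : ∑ J ∈ E.powerset, (q - 1) ^ J.card * W q J A * q ^ ((V.card - J.card).choose 2) =
        ∑ B ∈ E.powerset, ∑ J ∈ (E \ B).powerset, ((q - 1) ^ B.card * w B.card) *
          ((q - 1) ^ J.card * W q J A * q ^ (((E \ B).card - J.card).choose 2)) := by
      rw [← sum_swap E (fun B J => ((q - 1) ^ B.card * w B.card) *
          ((q - 1) ^ J.card * W q J A * q ^ (((E \ B).card - J.card).choose 2)))]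
      apply Finset.sum_congr rfl
      intro J hJ
      rw [Finset.mem_powerset] at hJ
      have hcJ := Finset.card_le_card hJ
      have hs := srec (E \ J) Finset.sdiff_subset
      rw [Finset.card_sdiff_of_subset hJ] at hs
      rw [show V.card - J.card = E.card - J.card + 1 by omega, ← hs, Finset.mul_sum]
      apply Finset.sum_congr rfl
      intro B hB
      rw [Finset.mem_powerset] at hB
      have hBE : B ⊆ E := hB.trans Finset.sdiff_subset
      have hcB := Finset.card_le_card hB
      rw [Finset.card_sdiff_of_subset hJ] at hcB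
      rw [Finset.card_sdiff_of_subset hBE]
      rw [show E.card - J.card - B.card = E.card - B.card - J.card by omega]
      ring
    rw [p1, p2, ← Finset.sum_add_distrib]
    have p3 : ∀ B ∈ E.powerset, (∑ J ∈ (E \ B).powerset,
          ((q ^ (insert v0 B ∩ A).card - 1) * ((q - 1) ^ B.card * w B.card)) *
          ((q - 1) ^ J.card * W q J A * q ^ (((E \ B).card - J.card).choose 2)) +
        ∑ J ∈ (E \ B).powerset, ((q - 1) ^ B.card * w B.card) *
          ((q - 1) ^ J.card * W q J A * q ^ (((E \ B).card - J.card).choose 2))) =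
        q ^ (V ∩ A).card * ((q - 1) ^ B.card * w B.card * q ^ ((E.card - B.card).choose 2)) := by
      intro B hB
      rw [Finset.mem_powerset] at hB
      have hcB := Finset.card_le_card hB
      rw [← Finset.mul_sum, ← Finset.mul_sum, ih (E \ B).card _ (E \ B) rfl A hA]
      · rw [Finset.card_sdiff_of_subset hB]
        have hj : q ^ (V ∩ A).card = q ^ (insert v0 B ∩ A).card * q ^ ((E \ B) ∩ A).card := by
          rw [← pow_add, ← Finset.card_union_of_disjoint]
          · congr 2
            ext x
            simp only [Finset.mem_inter, Finset.mem_union, Finset.mem_insert, Finset.mem_sdiff, hE,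
              Finset.mem_erase]
            constructor
            · rintro ⟨h1, h2⟩
              by_cases hx : x = v0
              · exact Or.inl ⟨Or.inl hx, h2⟩
              · by_cases hxB : x ∈ B
                · exact Or.inl ⟨Or.inr hxB, h2⟩
                · exact Or.inr ⟨⟨⟨hx, h1⟩, hxB⟩, h2⟩
            · rintro (⟨h1 | h1, h2⟩ | ⟨⟨⟨h1, h2⟩, h3⟩, h4⟩)
              · rw [h1] at h2 ⊢
                exact ⟨hv, h2⟩
              · have := hB h1
                rw [hE, Finset.mem_erase] at this
                exact ⟨this.2, h2⟩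
              · exact ⟨h2, h4⟩
          · rw [Finset.disjoint_left]
            intro x hx1 hx2
            simp only [Finset.mem_inter, Finset.mem_insert, Finset.mem_sdiff] at hx1 hx2
            rcases hx1.1 with h | h
            · rw [h] at hx2
              exact hvE hx2.1.1
            · exact hx2.1.2 h
        rw [hj]
        ring
      · rw [Finset.card_sdiff_of_subset hB]
        omega
    rw [Finset.sum_congr rfl p3, ← Finset.mul_sum, srec E le_rfl,
      show E.card + 1 = V.card by omega]

/-- the tree enumerator -/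
noncomputable def Ut (q : ℝ) (J : Finset ι) : ℝ :=
  ∑ r ∈ J, W q (J.erase r) (Finset.univ.filter (fun x => x < r))

theorem Ut_rec (X : Finset ι) (hX : X.Nonempty) (q : ℝ) :
    ∑ J ∈ X.powerset.filter (fun J => J.Nonempty),
      (q - 1) ^ J.card * Ut q J * q ^ ((X.card - J.card).choose 2) =
      q ^ ((X.card - 1).choose 2) * (q ^ X.card - 1) := by
  obtain ⟨w, hw'⟩ := W_indep (ι := ι) q (Fintype.card ι + 1)
  have hw : ∀ V : Finset ι, W q V Finset.univ = w V.card := fun V =>
    hw' V (Nat.lt_succ_of_le (Finset.card_le_univ V))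
  have hpos : 1 ≤ X.card := Finset.card_pos.2 hX
  have h1 : ∑ J ∈ X.powerset.filter (fun J => J.Nonempty),
      (q - 1) ^ J.card * Ut q J * q ^ ((X.card - J.card).choose 2) =
      ∑ r ∈ X, ∑ J ∈ X.powerset.filter (fun J => r ∈ J), (q - 1) ^ J.card *
        W q (J.erase r) (Finset.univ.filter (fun x => x < r)) * q ^ ((X.card - J.card).choose 2) := by
    have h2 : ∀ r ∈ X, ∑ J ∈ X.powerset.filter (fun J => r ∈ J), (q - 1) ^ J.card *
        W q (J.erase r) (Finset.univ.filter (fun x => x < r)) * q ^ ((X.card - J.card).choose 2) =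
        ∑ J ∈ X.powerset, if r ∈ J then (q - 1) ^ J.card *
        W q (J.erase r) (Finset.univ.filter (fun x => x < r)) * q ^ ((X.card - J.card).choose 2) else 0 := by
      intro r _
      rw [Finset.sum_filter]
    rw [Finset.sum_congr rfl h2, Finset.sum_comm, Finset.sum_filter]
    apply Finset.sum_congr rfl
    intro J hJ
    rw [Finset.mem_powerset] at hJ
    by_cases hne : J.Nonempty
    · rw [if_pos hne]
      unfold Ut
      rw [Finset.mul_sum, Finset.sum_mul, ← Finset.sum_filter, Finset.filter_mem_eq_inter,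
        Finset.inter_eq_right.2 hJ]
    · rw [if_neg hne]
      symm
      apply Finset.sum_eq_zero
      intro r _
      rw [if_neg]
      intro h
      exact hne ⟨r, h⟩
  rw [h1]
  have h3 : ∀ r ∈ X, ∑ J ∈ X.powerset.filter (fun J => r ∈ J), (q - 1) ^ J.card *
        W q (J.erase r) (Finset.univ.filter (fun x => x < r)) * q ^ ((X.card - J.card).choose 2) =
        (q - 1) * (q ^ ((X.card - 1).choose 2) * q ^ (X.filter (fun x => x < r)).card) := by
    intro r hr
    rw [sum_mem_powerset hr]
    have hlow : Low (Finset.univ.filter (fun x : ι => x < r)) := by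
      intro x hx y hy
      rw [Finset.mem_filter] at hx ⊢
      exact ⟨Finset.mem_univ _, hy.trans hx.2⟩
    have hs := star hw (X.erase r).card (X.erase r) rfl _ hlow
    rw [Finset.card_erase_of_mem hr] at hs
    have hi : (X.erase r) ∩ (Finset.univ.filter (fun x : ι => x < r)) = X.filter (fun x => x < r) := by
      ext x
      simp only [Finset.mem_inter, Finset.mem_erase, Finset.mem_filter, Finset.mem_univ, true_and]
      constructor
      · rintro ⟨⟨h1, h2⟩, h3⟩
        exact ⟨h2, h3⟩
      · rintro ⟨h1, h2⟩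
        exact ⟨⟨h2.ne, h1⟩, h2⟩
    rw [hi] at hs
    rw [mul_comm (q ^ ((X.card - 1).choose 2)), ← hs, Finset.mul_sum]
    apply Finset.sum_congr rfl
    intro J hJ
    rw [Finset.mem_powerset] at hJ
    have hrJ : r ∉ J := fun h => by have := hJ h; simp at this
    rw [Finset.card_insert_of_notMem hrJ, Finset.erase_insert hrJ, pow_succ,
      show X.card - (J.card + 1) = X.card - 1 - J.card by omega]
    ring
  rw [Finset.sum_congr rfl h3, ← Finset.mul_sum, ← Finset.mul_sum, rank_sum]
  rw [show (q - 1) * (q ^ ((X.card - 1).choose 2) * ∑ i ∈ Finset.range X.card, q ^ i) =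
    q ^ ((X.card - 1).choose 2) * ((∑ i ∈ Finset.range X.card, q ^ i) * (q - 1)) by ring, geom_sum_mul]

/-- the two enumerators agree -/
theorem Ut_eq_Rp {q : ℝ} (hq : 1 < q) : ∀ (n : ℕ) (X : Finset ι), X.card = n → X.Nonempty →
    Ut q X = Rp q X := by
  intro n
  induction n using Nat.strong_induction_on with
  | _ n ih =>
    intro X hXn hX
    have h1 := Ut_rec X hX q
    have h2 := Rp_rec X hX hq
    rw [← h2] at h1
    have hmem : X ∈ X.powerset.filter (fun J => J.Nonempty) := by
      rw [Finset.mem_filter, Finset.mem_powerset]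
      exact ⟨le_rfl, hX⟩
    rw [← Finset.add_sum_erase _ _ hmem, ← Finset.add_sum_erase _ _ hmem] at h1
    have h3 : ∑ J ∈ (X.powerset.filter (fun J => J.Nonempty)).erase X,
        (q - 1) ^ J.card * Ut q J * q ^ ((X.card - J.card).choose 2) =
        ∑ J ∈ (X.powerset.filter (fun J => J.Nonempty)).erase X,
        (q - 1) ^ J.card * Rp q J * q ^ ((X.card - J.card).choose 2) := by
      apply Finset.sum_congr rfl
      intro J hJ
      rw [Finset.mem_erase, Finset.mem_filter, Finset.mem_powerset] at hJ
      have hlt : J.card < X.card := Finset.card_lt_card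
        (Finset.ssubset_iff_subset_ne.2 ⟨hJ.2.1, hJ.1⟩)
      rw [ih J.card (by omega) J rfl hJ.2.2]
    rw [h3] at h1
    have h4 := add_right_cancel h1
    rw [Nat.sub_self] at h4
    simp only [Nat.choose_zero_succ, pow_zero, mul_one] at h4
    have h5 : (q - 1) ^ X.card ≠ 0 := pow_ne_zero _ (by linarith)
    exact mul_left_cancel₀ h5 h4

end Pool.Agent.R906.SP
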