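import Pool.Agent.R906.TTDefs

/-!
The ideal: Isbell's family and the Fubini product of an ultrafilter with the ideal of finite sets.
-/

namespace Pool.Agent.R906.TT

open Set Filter

noncomputable section

abbrev Dt : Type := Finset ℕ × Finset (Finset ℕ)

/-- an enumeration of the pairs `(s, F)` -/
def en : ℕ ≃ Dt := (Denumerable.eqv Dt).symm

open Classical in
/-- the trace of `w` on `s` -/
def tr (w : Set ℕ) (s : Finset ℕ) : Finset ℕ := s.filter fun x => x ∈ w

/-- Isbell's independent family -/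
def BB (w : Set ℕ) : Set ℕ := {n | tr w (en n).1 ∈ (en n).2}

lemma tr_ne {w w' : Set ℕ} (h : w ≠ w') : ∃ s : Finset ℕ, ∀ s', s ⊆ s' → tr w s' ≠ tr w' s' := by
  classical
  have : ∃ x, ¬ (x ∈ w ↔ x ∈ w') := by
    by_contra hcon
    push Not at hcon
    exact h (Set.ext hcon)
  obtain ⟨x, hx⟩ := this
  refine ⟨{x}, fun s' hs' he => hx ?_⟩
  have hxs : x ∈ s' := hs' (Finset.mem_singleton_self x)
  have h1 := Finset.ext_iff.mp he x
  simpa [tr, hxs] using h1

/-- the sets generating the filter -/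
def gens : Set (Set ℕ) := (range BB) ∪ {C | ∃ S : Set (Set ℕ), S.Infinite ∧ C = (⋂ w ∈ S, BB w)ᶜ}

lemma gens_fip (t : Set (Set ℕ)) (ht : t ⊆ gens) (hfin : t.Finite) : (⋂₀ t).Nonempty := by
  classical
  -- choose data for the members of `t`
  have hch : ∀ C ∈ t, (∃ w, C = BB w) ∨ ∃ S : Set (Set ℕ), S.Infinite ∧ C = (⋂ w ∈ S, BB w)ᶜ := by
    intro C hC
    rcases ht hC with ⟨w, rfl⟩ | h
    · exact Or.inl ⟨w, rfl⟩
    · exact Or.inr h
  -- the finite set `E` of the `w`
  obtain ⟨E, hE⟩ : ∃ E : Finset (Set ℕ), ∀ C ∈ t, (∃ w ∈ E, C = BB w) ∨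
      ∃ S : Set (Set ℕ), S.Infinite ∧ C = (⋂ w ∈ S, BB w)ᶜ := by
    let f : Set ℕ → Set ℕ := fun C => if h : ∃ w, C = BB w then h.choose else ∅
    refine ⟨hfin.toFinset.image f, fun C hC => ?_⟩
    rcases hch C hC with h | h
    · left
      refine ⟨f C, Finset.mem_image_of_mem f (hfin.mem_toFinset.mpr hC), ?_⟩
      have : f C = h.choose := dif_pos h
      rw [this]
      exact h.choose_spec
    · exact Or.inr h
  -- for each `C ∈ t` of the second kind a `y` outside of `E`
  have hy : ∀ C ∈ t, ∃ s : Finset ℕ, ∀ s', s ⊆ s' → (∃ w ∈ E, C = BB w) ∨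
      ∃ y, (∀ n, n ∉ BB y → n ∈ C) ∧ ∀ w ∈ E, tr y s' ≠ tr w s' := by
    intro C hC
    rcases hE C hC with h | ⟨S, hS, hCS⟩
    · exact ⟨∅, fun _ _ => Or.inl h⟩
    · obtain ⟨y, hyS, hyE⟩ := hS.exists_notMem_finset E
      have h1 : ∀ w ∈ E, ∃ s : Finset ℕ, ∀ s', s ⊆ s' → tr y s' ≠ tr w s' := fun w hw =>
        tr_ne (fun h => hyE (h ▸ hw))
      choose! g hg using h1
      refine ⟨E.biUnion g, fun s' hs' => Or.inr ⟨y, fun n hn => ?_, fun w hw => ?_⟩⟩
      · rw [hCS]
        intro hn'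
        exact hn (mem_iInter₂.mp hn' y hyS)
      · exact hg w hw s' ((Finset.subset_biUnion_of_mem g hw).trans hs')
  choose! sC hsC using hy
  let s : Finset ℕ := hfin.toFinset.biUnion sC
  obtain ⟨n, hn⟩ := en.surjective (s, E.image fun w => tr w s)
  refine ⟨n, fun C hC => ?_⟩
  have hs : sC C ⊆ s := Finset.subset_biUnion_of_mem sC (hfin.mem_toFinset.mpr hC)
  rcases hsC C hC s hs with ⟨w, hw, rfl⟩ | ⟨y, hy1, hy2⟩
  · show tr w (en n).1 ∈ (en n).2
    rw [hn]
    exact Finset.mem_image_of_mem _ hw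
  · apply hy1
    intro hn'
    have hn'' : tr y (en n).1 ∈ (en n).2 := hn'
    rw [hn] at hn''
    obtain ⟨w, hw, he⟩ := Finset.mem_image.mp hn''
    exact hy2 w hw he.symm

lemma exists_U : ∃ U : Ultrafilter ℕ, (∀ w, BB w ∈ U) ∧
    ∀ S : Set (Set ℕ), S.Infinite → (⋂ w ∈ S, BB w) ∉ U := by
  haveI : NeBot (Filter.generate gens) := by
    rw [Filter.generate_neBot_iff]
    exact gens_fip
  refine ⟨Ultrafilter.of (Filter.generate gens), fun w => ?_, fun S hS h => ?_⟩
  · exact Ultrafilter.of_le _ (Filter.mem_generate_of_mem (Or.inl ⟨w, rfl⟩))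
  · have h1 : (⋂ w ∈ S, BB w)ᶜ ∈ Ultrafilter.of (Filter.generate gens) :=
      Ultrafilter.of_le _ (Filter.mem_generate_of_mem (Or.inr ⟨S, hS, rfl⟩))
    exact Ultrafilter.compl_notMem_iff.mpr h h1

/-- the ultrafilter -/
def UU : Ultrafilter ℕ := exists_U.choose

lemma UU_mem (w : Set ℕ) : BB w ∈ UU := exists_U.choose_spec.1 w
lemma UU_not (S : Set (Set ℕ)) (hS : S.Infinite) : (⋂ w ∈ S, BB w) ∉ UU :=
  exists_U.choose_spec.2 S hS

lemma UU_cofinite : (UU : Filter ℕ) ≤ cofinite := by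
  rcases UU.le_cofinite_or_eq_pure with h | ⟨n, hn⟩
  · exact h
  · exfalso
    have hinf : (univ : Set (Set ℕ)).Infinite := infinite_univ
    apply UU_not _ hinf
    have h1 : ∀ w, n ∈ BB w := by
      intro w
      have := UU_mem w
      rw [hn] at this
      exact this
    rw [hn, Ultrafilter.mem_pure]
    exact mem_iInter₂.mpr fun w _ => h1 w

/-- vertical sections -/
def sec (A : Set (ℕ × ℕ)) (n : ℕ) : Set ℕ := {m | (n, m) ∈ A}

/-- the ideal: almost all the vertical sections are finite -/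
def II : Set (Set (ℕ × ℕ)) := {A | {n | (sec A n).Finite} ∈ UU}

lemma mem_II {A : Set (ℕ × ℕ)} : A ∈ II ↔ {n | (sec A n).Finite} ∈ UU := Iff.rfl

lemma not_mem_II {A : Set (ℕ × ℕ)} : A ∉ II ↔ {n | (sec A n).Infinite} ∈ UU := by
  rw [mem_II, ← Ultrafilter.compl_mem_iff_notMem]
  rfl

lemma II_ideal : IsIdeal II where
  fin A hA := by
    rw [mem_II]
    filter_upwards [univ_mem] with n _
    exact hA.preimage (f := fun m => (n, m)) (fun a _ b _ h => (Prod.mk.inj h).2)
  union A B hA hB := by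
    rw [mem_II] at *
    filter_upwards [hA, hB] with n h1 h2
    exact (h1.union h2).subset (fun m hm => hm)
  mono A B hAB hB := by
    rw [mem_II] at *
    filter_upwards [hB] with n h1
    exact h1.subset (fun m hm => hAB hm)
  proper := by
    rw [not_mem_II]
    filter_upwards [univ_mem] with n _
    have : sec univ n = univ := by ext; simp [sec]
    show (sec univ n).Infinite
    rw [this]
    exact infinite_univ

lemma II_sigma : IsSigma II := by
  classical
  intro A hA hdec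
  have hanti : ∀ i j, i ≤ j → A j ⊆ A i := by
    intro i j h
    induction j, h using Nat.le_induction with
    | base => exact Subset.rfl
    | succ j _ ih => exact (hdec j).trans ih
  let k : ℕ → ℕ := fun n => Nat.findGreatest (fun i => (sec (A i) n).Infinite) n
  refine ⟨{x | x ∈ A (k x.1)}, ?_, fun i => ?_⟩
  · rw [not_mem_II]
    filter_upwards [not_mem_II.mp (hA 0)] with n hn
    exact Nat.findGreatest_spec (P := fun i => (sec (A i) n).Infinite) (Nat.zero_le n) hn
  · rw [mem_II]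
    have hi : {n : ℕ | i ≤ n} ∈ UU := by
      apply UU_cofinite
      rw [mem_cofinite]
      exact (finite_lt_nat i).subset (fun n hn => by simpa using hn)
    filter_upwards [not_mem_II.mp (hA i), hi] with n hn hin
    have h1 : i ≤ k n := Nat.le_findGreatest hin hn
    have h2 : sec ({x | x ∈ A (k x.1)} \ A i) n = ∅ := by
      ext m
      simp only [sec, Set.mem_sdiff, mem_ofPred_eq, mem_empty_iff_false, iff_false, not_and, not_not]
      intro h
      exact hanti _ _ h1 h
    show (sec ({x | x ∈ A (k x.1)} \ A i) n).Finite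
    rw [h2]
    exact finite_empty

lemma split_inf {S : Set ℕ} (h : S.Infinite) : ∃ T, T ⊆ S ∧ T.Infinite ∧ (S \ T).Infinite := by
  obtain ⟨t, u, htu, hdis, hcard⟩ := h.exists_union_disjoint_cardinal_eq_of_infinite
  have h1 : t.Infinite := by
    by_contra hcon
    rw [Set.not_infinite] at hcon
    have h2 : u.Finite := by
      rw [← Cardinal.lt_aleph0_iff_set_finite] at hcon ⊢
      rwa [← hcard]
    exact h (htu ▸ hcon.union h2)
  have h2 : u.Infinite := by
    by_contra hcon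
    rw [Set.not_infinite] at hcon
    have h2 : t.Finite := by
      rw [← Cardinal.lt_aleph0_iff_set_finite] at hcon ⊢
      rwa [hcard]
    exact h1 h2
  refine ⟨t, htu ▸ subset_union_left, h1, h2.mono ?_⟩
  intro x hx
  exact ⟨htu ▸ Or.inr hx, fun hxt => (Set.disjoint_left.mp hdis hxt) hx⟩

lemma II_atomless : Atomless II := by
  classical
  intro A hA
  rw [not_mem_II] at hA
  have h1 : ∀ n, ∃ T, T ⊆ sec A n ∧ ((sec A n).Infinite → T.Infinite ∧ (sec A n \ T).Infinite) := by
    intro n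
    by_cases h : (sec A n).Infinite
    · obtain ⟨T, h1, h2, h3⟩ := split_inf h
      exact ⟨T, h1, fun _ => ⟨h2, h3⟩⟩
    · exact ⟨∅, empty_subset _, fun h' => absurd h' h⟩
  choose T hT hT' using h1
  refine ⟨{x | x.2 ∈ T x.1}, {x | x ∈ A ∧ x.2 ∉ T x.1}, ?_, ?_, ?_, ?_, ?_⟩
  · rw [not_mem_II]
    filter_upwards [hA] with n hn
    exact (hT' n hn).1
  · rw [not_mem_II]
    filter_upwards [hA] with n hn
    exact (hT' n hn).2
  · rintro ⟨n, m⟩ hx
    exact hT n hx
  · rintro ⟨n, m⟩ hx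
    exact hx.1
  · rw [Set.disjoint_left]
    rintro ⟨n, m⟩ h1 h2
    exact h2.2 h1

/-- the sets of the family, in the product -/
def AA (w : Set ℕ) : Set (ℕ × ℕ) := {x | x.1 ∈ BB w}

lemma AA_compl (w : Set ℕ) : (AA w)ᶜ ∈ II := by
  rw [mem_II]
  filter_upwards [UU_mem w] with n hn
  have : sec (AA w)ᶜ n = ∅ := by
    ext m
    simp only [sec, mem_compl_iff, mem_ofPred_eq, mem_empty_iff_false, iff_false, not_not]
    exact hn
  show (sec (AA w)ᶜ n).Finite
  rw [this]
  exact finite_empty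

lemma AA_finite {B : Set (ℕ × ℕ)} (hB : B ∉ II) : {w : Set ℕ | B ⊆ AA w}.Finite := by
  rw [← Set.not_infinite]
  intro hinf
  refine UU_not _ hinf ?_
  refine Filter.mem_of_superset (not_mem_II.mp hB) ?_
  intro n hn
  have hn' : (sec B n).Infinite := hn
  obtain ⟨m, hm⟩ := hn'.nonempty
  refine mem_iInter₂.mpr fun w hw => ?_
  have hw' : B ⊆ AA w := hw
  have h1 : (n, m) ∈ AA w := hw' hm
  exact h1

end

end Pool.Agent.R906.TT
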