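import Pool.Agent.Helper292.ForceCH

/-!
MP_c87228_lc: ideals, the forcing `P(X)/I`, and sentences of its forcing language about the
generic ultrafilter and the Tukey order.
-/

namespace Pool.Agent.R906.TT

open Pool.Agent.Helper292.ForceCH (fnot fand fall fimp fiff fex fground meets)

section Ideals

variable {X : Type}

/-- `I` is a proper ideal on `X` containing all finite sets. -/
structure IsIdeal (I : Set (Set X)) : Prop where
  fin : ∀ A : Set X, A.Finite → A ∈ I
  union : ∀ A B : Set X, A ∈ I → B ∈ I → A ∪ B ∈ I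
  mono : ∀ A B : Set X, A ⊆ B → B ∈ I → A ∈ I
  proper : Set.univ ∉ I

/-- Every `⊆`-decreasing sequence of sets in `I⁺` has a lower bound in `I⁺` modulo `I`. -/
def IsSigma (I : Set (Set X)) : Prop :=
  ∀ A : ℕ → Set X, (∀ n, A n ∉ I) → (∀ n, A (n + 1) ⊆ A n) → ∃ B, B ∉ I ∧ ∀ n, B \ A n ∈ I

/-- `P(X)/I` is atomless: every set in `I⁺` contains two disjoint sets in `I⁺`. -/
def Atomless (I : Set (Set X)) : Prop :=
  ∀ A : Set X, A ∉ I → ∃ B C : Set X, B ∉ I ∧ C ∉ I ∧ B ⊆ A ∧ C ⊆ A ∧ Disjoint B C

/-- The forcing notion `P(X)/I`: the set `I⁺`, ordered by `A ≤ B` iff `A \ B ∈ I`. -/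
def Pos (I : Set (Set X)) : Type := {A : Set X // A ∉ I}

/-- The order of `P(X)/I`. -/
def posPreorder {I : Set (Set X)} (hI : IsIdeal I) : Preorder (Pos I) where
  le A B := A.1 \ B.1 ∈ I
  le_refl A := hI.fin _ (by simp)
  le_trans A B C h h' := hI.mono _ _ (by
    intro x hx
    by_cases hb : x ∈ B.1
    · exact Or.inr ⟨hb, hx.2⟩
    · exact Or.inl ⟨hx.1, hb⟩) (hI.union _ _ h h')

/-- The canonical name of the generic filter (a set of subsets of `X`). -/
def gen (I : Set (Set X)) (B : Set X) : Set (Pos I) := {p | p.1 = B}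

end Ideals

section Sentences

variable {P : Type} [Preorder P] {X Y : Type}

/-- Every subset of `Y` in the extension is in the ground model. -/
def NoNewSubsets (P Y : Type) [Preorder P] : Set P :=
  fall fun x : Y → Set P => fex fun Z : Set Y => fall fun y : Y =>
    fiff (meets (x y)) (fground (y ∈ Z))

/-- `U` is an ultrafilter on `X`. -/
def IsUltra (U : Set X → Set P) : Set P :=
  fand (fall fun B => fall fun B' =>
      fimp (fand (meets (U B)) (fground (B ⊆ B'))) (meets (U B')))
    (fand (fall fun B => fall fun B' =>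
        fimp (fand (meets (U B)) (meets (U B'))) (meets (U (B ∩ B'))))
      (fall fun B => fiff (meets (U Bᶜ)) (fnot (meets (U B)))))

/-- `F` is a function from `U` to `W`. -/
def IsMap (U : Set X → Set P) (W : Set Y → Set P) (F : Set X → Set Y → Set P) : Set P :=
  fand (fall fun B => fall fun C => fimp (meets (F B C)) (fand (meets (U B)) (meets (W C))))
    (fand (fall fun B => fimp (meets (U B)) (fex fun C => meets (F B C)))
      (fall fun B => fall fun C => fall fun C' =>
        fimp (fand (meets (F B C)) (meets (F B C'))) (fground (C = C'))))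

/-- `K` is a cofinal subset of `(U, ⊇)`. -/
def IsCofinal (U K : Set X → Set P) : Set P :=
  fand (fall fun B => fimp (meets (K B)) (meets (U B)))
    (fall fun B => fimp (meets (U B)) (fex fun B' => fand (meets (K B')) (fground (B' ⊆ B))))

/-- Every member of `W` contains some member `F B` of the image of `K` under `F`. -/
def ImageCofinal (W : Set Y → Set P) (F : Set X → Set Y → Set P) (K : Set X → Set P) : Set P :=
  fall fun C => fimp (meets (W C)) (fex fun B => fex fun C' =>
    fand (meets (K B)) (fand (meets (F B C')) (fground (C' ⊆ C))))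

/-- `(W, ⊇) ≤_T (U, ⊇)`: some function `F` from `U` to `W` sends every cofinal subset of `U` to a
cofinal subset of `W`. -/
def TukeyLe (W : Set Y → Set P) (U : Set X → Set P) : Set P :=
  fex fun F : Set X → Set Y → Set P => fand (IsMap U W F)
    (fall fun K : Set X → Set P => fimp (IsCofinal U K) (ImageCofinal W F K))

/-- `U` is Tukey-top: `(W, ⊇) ≤_T (U, ⊇)` for every ultrafilter `W` on `ℕ`. -/
def TukeyTop (U : Set X → Set P) : Set P :=
  fall fun W : Set ℕ → Set P => fimp (IsUltra W) (TukeyLe W U)

end Sentences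

end Pool.Agent.R906.TT
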