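import Pool.Agent.R906.TTComb

/-!
Every condition of `P(X)/I` forces that the generic ultrafilter is Tukey-top.
-/

namespace Pool.Agent.R906.TT

open Set
open Pool.Agent.Helper292.ForceCH (fnot fand fall fimp fiff fex fground meets mem_fex mem_fimp Down
  down_fnot down_fand down_fall down_fex down_fimp down_meets meets_of_dense fimp_of
  fiff_of_decided SigmaClosed decide_countable)

noncomputable section

instance instPos : Preorder (Pos II) := posPreorder II_ideal

abbrev PP : Type := Pos II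

lemma le_iff {p q : PP} : p ≤ q ↔ p.1 \ q.1 ∈ II := Iff.rfl

lemma II_sub {A B : Set (ℕ × ℕ)} (h : A ⊆ B) (hB : B ∈ II) : A ∈ II := II_ideal.mono A B h hB

lemma II_two {A B C : Set (ℕ × ℕ)} (h : A ⊆ B ∪ C) (hB : B ∈ II) (hC : C ∈ II) : A ∈ II :=
  II_sub h (II_ideal.union B C hB hC)

/-- the trace of a lower condition -/
lemma le_diff {p q : PP} {B : Set (ℕ × ℕ)} (h : p ≤ q) (hq : q.1 \ B ∈ II) : p.1 \ B ∈ II := by
  refine II_two (B := p.1 \ q.1) (C := q.1 \ B) ?_ h hq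
  intro x hx
  by_cases hb : x ∈ q.1
  · exact Or.inr ⟨hb, hx.2⟩
  · exact Or.inl ⟨hx.1, hb⟩

theorem sigmaClosed : SigmaClosed PP := by
  intro s hs
  have hanti : ∀ i j, i ≤ j → s j ≤ s i := by
    intro i j h
    induction j, h using Nat.le_induction with
    | base => exact le_rfl
    | succ j _ ih => exact (hs j).trans ih
  let A : ℕ → Set (ℕ × ℕ) := fun n => {x | ∀ k ≤ n, x ∈ (s k).1}
  have hA : ∀ n, (s n).1 \ A n ∈ II := by
    have h1 : ∀ n m, n ≤ m → (s m).1 \ A n ∈ II := by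
      intro n
      induction n with
      | zero =>
        intro m hm
        refine II_sub ?_ (hanti 0 m hm)
        intro x hx
        refine ⟨hx.1, fun h => hx.2 ?_⟩
        intro k hk
        have : k = 0 := by omega
        rw [this]; exact h
      | succ n ih =>
        intro m hm
        refine II_two ?_ (ih m (by omega)) (hanti (n + 1) m hm)
        intro x hx
        by_cases h2 : x ∈ A n
        · right
          refine ⟨hx.1, fun h => hx.2 ?_⟩
          intro k hk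
          rcases Nat.lt_or_ge k (n + 1) with h3 | h3
          · exact h2 k (by omega)
          · have : k = n + 1 := by omega
            rw [this]; exact h
        · exact Or.inl ⟨hx.1, h2⟩
    exact fun n => h1 n n le_rfl
  have hA' : ∀ n, A n ∉ II := by
    intro n h
    apply (s n).2
    refine II_two ?_ (hA n) h
    intro x hx
    by_cases h2 : x ∈ A n
    · exact Or.inr h2
    · exact Or.inl ⟨hx, h2⟩
  obtain ⟨B, hB, hB'⟩ := II_sigma A hA' (fun n x hx k hk => hx k (by omega))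
  refine ⟨⟨B, hB⟩, fun n => ?_⟩
  refine II_sub ?_ (hB' n)
  intro x hx
  exact ⟨hx.1, fun h => hx.2 (h n le_rfl)⟩

theorem noNew {Y : Type} [Countable Y] (p : PP) : p ∈ NoNewSubsets PP Y := by
  intro x
  refine mem_fex.2 fun q _ => ?_
  obtain ⟨t, ht, h1⟩ := decide_countable sigmaClosed (fun y : Y => meets (x y))
    (fun _ => down_meets _) q
  refine ⟨t, ht, {y | t ∈ meets (x y)}, fun y => ?_⟩
  refine fiff_of_decided (down_meets _) (fun _ h _ _ => h) ?_
  rcases h1 y with h | h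
  · exact Or.inl ⟨h, h⟩
  · exact Or.inr ⟨h, fun r hr h' => h t le_rfl h'⟩

lemma mem_meets_self {N : Set PP} {p : PP} (h : p ∈ N) : p ∈ meets N :=
  fun q hq => ⟨q, le_rfl, p, h, hq⟩

lemma forces_gen {p : PP} {B : Set (ℕ × ℕ)} : p ∈ meets (gen II B) ↔ p.1 \ B ∈ II := by
  constructor
  · intro h
    by_contra hcon
    obtain ⟨r, hr, s, hs, hrs⟩ := h ⟨p.1 \ B, hcon⟩ (by
      refine II_sub ?_ (II_ideal.fin ∅ finite_empty)
      rintro x ⟨⟨h1, _⟩, h2⟩
      exact h2 h1)
    have hs' : s.1 = B := hs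
    apply r.2
    refine II_two ?_ hr hrs
    intro x hx
    by_cases hb : x ∈ s.1
    · left
      exact ⟨hx, fun h => h.2 (hs' ▸ hb)⟩
    · exact Or.inr ⟨hx, hb⟩
  · intro h
    have hB : B ∉ II := by
      intro hB
      apply p.2
      refine II_two ?_ h hB
      intro x hx
      by_cases hb : x ∈ B
      · exact Or.inr hb
      · exact Or.inl ⟨hx, hb⟩
    intro q hq
    exact ⟨q, le_rfl, ⟨B, hB⟩, rfl, le_diff hq h⟩

theorem gen_ultra (p : PP) : p ∈ IsUltra (gen II) := by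
  refine ⟨fun B B' => fimp_of fun q _ h => ?_, fun B B' => fimp_of fun q _ h => ?_, fun B => ⟨?_, ?_⟩⟩
  · have hBB : B ⊆ B' := h.2
    have h1 := forces_gen.1 h.1
    rw [forces_gen]
    refine II_sub ?_ h1
    intro x hx
    exact ⟨hx.1, fun hb => hx.2 (hBB hb)⟩
  · have h1 := forces_gen.1 h.1
    have h2 := forces_gen.1 h.2
    rw [forces_gen]
    refine II_two ?_ h1 h2
    intro x hx
    by_cases hb : x ∈ B
    · exact Or.inr ⟨hx.1, fun hb' => hx.2 ⟨hb, hb'⟩⟩
    · exact Or.inl ⟨hx.1, hb⟩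
  · refine fimp_of fun q _ h r hr h' => ?_
    have h1 := le_diff hr (forces_gen.1 h)
    have h2 := forces_gen.1 h'
    apply r.2
    refine II_two ?_ h1 h2
    intro x hx
    by_cases hb : x ∈ B
    · exact Or.inl ⟨hx, fun h => h hb⟩
    · exact Or.inr ⟨hx, hb⟩
  · refine fimp_of fun q _ h => ?_
    rw [forces_gen]
    by_contra hcon
    have h' : ∀ r ≤ q, r ∉ meets (gen II B) := h
    refine h' ⟨q.1 \ Bᶜ, hcon⟩ ?_ ?_
    · refine II_sub ?_ (II_ideal.fin ∅ finite_empty)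
      rintro x ⟨⟨h1, _⟩, h2⟩
      exact h2 h1
    · rw [forces_gen]
      refine II_sub ?_ (II_ideal.fin ∅ finite_empty)
      rintro x ⟨⟨_, h1⟩, h2⟩
      exact h1 h2

/-- using an implication whose conclusion is of the form `meets N` -/
lemma mp_meets {φ : Set PP} {N : Set PP} {p : PP} (h : p ∈ fimp φ (meets N)) (hφ : Down φ)
    (h1 : p ∈ φ) : p ∈ meets N :=
  meets_of_dense fun q hq => mem_fimp.1 h q hq (hφ _ h1 _ hq)

section Ultra

variable {W : Set ℕ → Set PP} {q : PP} (hW : q ∈ IsUltra W)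
include hW

lemma W_univ : q ∈ meets (W univ) := by
  have h1 : q ∈ fnot (meets (W ∅)) := by
    intro s hs h0
    have h2 : s ∈ meets (W univ) := by
      refine mp_meets (φ := fand (meets (W ∅)) (fground ((∅ : Set ℕ) ⊆ univ))) ?_
        (down_fand (down_meets _) (fun _ h _ _ => h)) ⟨h0, empty_subset _⟩
      exact down_fimp _ _ _ (hW.1 ∅ univ) _ hs
    have h3 := (hW.2.2 ∅).1
    rw [compl_empty] at h3
    obtain ⟨s', hs', h4⟩ := mem_fimp.1 h3 s hs h2
    exact h4 s' le_rfl (down_meets _ _ h0 _ hs')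
  have h3 := (hW.2.2 ∅).2
  rw [compl_empty] at h3
  exact mp_meets h3 (down_fnot _) h1

lemma W_inter {B B' : Set ℕ} (h : q ∈ meets (W B)) (h' : q ∈ meets (W B')) :
    q ∈ meets (W (B ∩ B')) :=
  mp_meets (hW.2.1 B B') (down_fand (down_meets _) (down_meets _)) ⟨h, h'⟩

lemma W_sInter {T : Set (Set ℕ)} (hT : T.Finite) (h : ∀ w ∈ T, q ∈ meets (W w)) :
    q ∈ meets (W (⋂₀ T)) := by
  induction T, hT using Set.Finite.induction_on with
  | empty => rw [sInter_empty]; exact W_univ hW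
  | insert _ _ ih =>
    rw [sInter_insert]
    exact W_inter hW (h _ (mem_insert _ _)) (ih fun w hw => h w (mem_insert_of_mem _ hw))

end Ultra

lemma down_isUltra (W : Set ℕ → Set PP) : Down (IsUltra W) :=
  down_fand (down_fall fun _ => down_fall fun _ => down_fimp _ _)
    (down_fand (down_fall fun _ => down_fall fun _ => down_fimp _ _)
      (down_fall fun _ => down_fand (down_fimp _ _) (down_fimp _ _)))

/-- the indices of the members of the family which contain `B` -/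
def TB (B : Set (ℕ × ℕ)) : Set (Set ℕ) := {w | B ⊆ AA w}

/-- the name of the cofinal map from the generic ultrafilter to `W` -/
def FF (W : Set ℕ → Set PP) (q : PP) (B : Set (ℕ × ℕ)) (C : Set ℕ) : Set PP :=
  {s | s ≤ q ∧ s.1 \ B ∈ II ∧ (∀ w ∈ TB B, s ∈ meets (W w) ∨ s ∈ fnot (meets (W w))) ∧
    C = ⋂₀ {w | w ∈ TB B ∧ s ∈ meets (W w)}}

lemma not_mem_of_diff {r : PP} {B : Set (ℕ × ℕ)} (h : r.1 \ B ∈ II) : B ∉ II := by
  intro hB
  apply r.2
  refine II_two ?_ h hB
  intro x hx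
  by_cases hb : x ∈ B
  · exact Or.inr hb
  · exact Or.inl ⟨hx, hb⟩

lemma FF_exists (W : Set ℕ → Set PP) {q r : PP} {B : Set (ℕ × ℕ)} (hr : r ≤ q)
    (hB : r.1 \ B ∈ II) : ∃ r' ≤ r, ∃ C, r' ∈ FF W q B C ∧ ∀ w ∈ TB B, r' ∈ meets (W w) → C ⊆ w := by
  have hfin : (TB B).Finite := AA_finite (not_mem_of_diff hB)
  have : Finite {w // w ∈ TB B} := hfin.to_subtype
  obtain ⟨t, ht, h1⟩ := decide_countable sigmaClosed (fun w : {w // w ∈ TB B} => meets (W w.1))
    (fun _ => down_meets _) r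
  refine ⟨t, ht, _, ⟨ht.trans hr, le_diff ht hB, fun w hw => h1 ⟨w, hw⟩, rfl⟩, fun w hw h => ?_⟩
  exact sInter_subset_of_mem ⟨hw, h⟩

lemma FF_sub {W : Set ℕ → Set PP} {q s : PP} (hW : q ∈ IsUltra W) {B : Set (ℕ × ℕ)} {C : Set ℕ}
    (h : s ∈ FF W q B C) : s ∈ meets (gen II B) ∧ s ∈ meets (W C) := by
  obtain ⟨h1, h2, h3, rfl⟩ := h
  refine ⟨forces_gen.2 h2, ?_⟩
  refine W_sInter (down_isUltra W _ hW _ h1) ?_ (fun w hw => hw.2)
  exact (AA_finite (not_mem_of_diff h2)).subset fun w hw => hw.1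

theorem tukeyTop (p : PP) : p ∈ TukeyTop (gen II) := by
  intro W
  refine fimp_of fun q _ hW => ?_
  refine mem_fex.2 fun q' hq' => ⟨q', le_rfl, FF W q', ?_, ?_⟩
  · have hW' := down_isUltra W _ hW _ hq'
    refine ⟨fun B C => fimp_of fun r _ h => ⟨?_, ?_⟩, fun B => fimp_of fun r hr h => ?_,
      fun B C C' => fimp_of fun r _ h => ?_⟩
    · refine meets_of_dense fun r' hr' => ?_
      obtain ⟨r'', hr'', s, hs, hrs⟩ := h r' hr'
      exact ⟨r'', hr'', down_meets _ _ (FF_sub hW' hs).1 _ hrs⟩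
    · refine meets_of_dense fun r' hr' => ?_
      obtain ⟨r'', hr'', s, hs, hrs⟩ := h r' hr'
      exact ⟨r'', hr'', down_meets _ _ (FF_sub hW' hs).2 _ hrs⟩
    · refine mem_fex.2 fun r' hr' => ?_
      obtain ⟨r'', hr'', C, hC, -⟩ := FF_exists W (hr'.trans hr) (le_diff hr' (forces_gen.1 h))
      exact ⟨r'', hr'', C, mem_meets_self hC⟩
    · obtain ⟨r1, hr1, s, hs, hs1⟩ := h.1 r le_rfl
      obtain ⟨r2, hr2, s', hs', hs2⟩ := h.2 r1 hr1
      obtain ⟨-, -, h3, rfl⟩ := hs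
      obtain ⟨-, -, h3', rfl⟩ := hs'
      show ⋂₀ {w | w ∈ TB B ∧ s ∈ meets (W w)} = ⋂₀ {w | w ∈ TB B ∧ s' ∈ meets (W w)}
      congr 1
      ext w
      constructor
      · rintro ⟨hw, hsw⟩
        refine ⟨hw, ?_⟩
        rcases h3' w hw with h4 | h4
        · exact h4
        · exact (h4 r2 hs2 (down_meets _ _ hsw _ (hr2.trans hs1))).elim
      · rintro ⟨hw, hsw⟩
        refine ⟨hw, ?_⟩
        rcases h3 w hw with h4 | h4
        · exact h4
        · exact (h4 r2 (hr2.trans hs1) (down_meets _ _ hsw _ hs2)).elim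
  · intro K
    refine fimp_of fun r hr hK => ?_
    intro C
    refine fimp_of fun r' hr' hC => ?_
    refine mem_fex.2 fun t ht => ?_
    have h1 : t ∈ meets (gen II (AA C)) := by
      rw [forces_gen]
      exact II_sub (fun x hx => hx.2) (AA_compl C)
    obtain ⟨t1, ht1, h2⟩ := mem_fimp.1 (hK.2 (AA C)) t (ht.trans hr') h1
    obtain ⟨t2, ht2, B, h3, h4⟩ := mem_fex.1 h2 t1 le_rfl
    obtain ⟨t3, ht3, h5⟩ := mem_fimp.1 (hK.1 B) t2 (ht2.trans (ht1.trans (ht.trans hr'))) h3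
    have hle : t3 ≤ r' := ht3.trans (ht2.trans (ht1.trans ht))
    obtain ⟨t4, ht4, C', h6, h7⟩ := FF_exists W (hle.trans (hr'.trans hr)) (forces_gen.1 h5)
    have h8 : C' ⊆ C := h7 C h4 (down_meets _ _ hC _ (ht4.trans hle))
    refine ⟨t4, ht4.trans (ht3.trans (ht2.trans ht1)), B, mem_fex.2 fun s hs => ⟨s, le_rfl, C', ?_, ?_, h8⟩⟩
    · exact down_meets _ _ h3 _ (hs.trans (ht4.trans ht3))
    · exact down_meets _ _ (mem_meets_self h6) _ hs

end

end Pool.Agent.R906.TT
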